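import Mathlib

/-!
# MP_418a80_an, union theorem, part B (note 2157): a pair of mutual commutants, windows
-/

set_option autoImplicit false
set_option linter.unusedVariables false
set_option linter.unusedSectionVars false

open MeasureTheory Topology Filter
open scoped ENNReal NNReal ComplexConjugate

namespace Pool.Agent.AbCoc

universe u v w z

variable {H : Type u} [NormedAddCommGroup H] [InnerProductSpace ℂ H] [CompleteSpace H]

/-- two `*`-closed sets of operators which are the commutants of each other -/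
structure ComPair (H : Type u) [NormedAddCommGroup H] [InnerProductSpace ℂ H]
    [CompleteSpace H] where
  N : Set (H →L[ℂ] H)
  N' : Set (H →L[ℂ] H)
  comm : N' = Set.centralizer N
  comm' : N = Set.centralizer N'
  star_mem : ∀ x ∈ N, star x ∈ N
  star_mem' : ∀ x ∈ N', star x ∈ N'

/-- the same pair with the roles exchanged -/
def ComPair.swap (P : ComPair H) : ComPair H where
  N := P.N'
  N' := P.N
  comm := P.comm'
  comm' := P.comm
  star_mem := P.star_mem'
  star_mem' := P.star_mem

/-- a left and a right representation of `A` in the pair, both irreducible in their algebra -/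
structure LRep (P : ComPair H) (A : Type v) [CStarAlgebra A] where
  l : A → H →L[ℂ] H
  r : A → H →L[ℂ] H
  l_mem : ∀ x, l x ∈ P.N
  r_mem : ∀ x, r x ∈ P.N'
  l_one : l 1 = 1
  r_one : r 1 = 1
  l_mul : ∀ x y, l (x * y) = l x * l y
  r_mul : ∀ x y, r (x * y) = r y * r x
  l_add : ∀ x y, l (x + y) = l x + l y
  r_add : ∀ x y, r (x + y) = r x + r y
  l_smul : ∀ (c : ℂ) x, l (c • x) = c • l x
  r_smul : ∀ (c : ℂ) x, r (c • x) = c • r x
  l_star : ∀ x, l (star x) = star (l x)
  r_star : ∀ x, r (star x) = star (r x)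
  l_irr : ∀ Y ∈ P.N, (∀ x, Y * l x = l x * Y) → ∃ c : ℂ, Y = c • (1 : H →L[ℂ] H)
  r_irr : ∀ Y ∈ P.N', (∀ x, Y * r x = r x * Y) → ∃ c : ℂ, Y = c • (1 : H →L[ℂ] H)

/-- a window: `p` and `p'` agree at `v`, and so do `p x p` and `p' R_x p'` -/
structure VWin {P : ComPair H} {A : Type v} [CStarAlgebra A] (L : LRep P A) where
  p : H →L[ℂ] H
  p' : H →L[ℂ] H
  v : H
  mem : p ∈ P.N
  mem' : p' ∈ P.N'
  sa : star p = p
  sa' : star p' = p'
  pv : p v = p' v
  px : ∀ x, p (L.l x (p v)) = p' (L.r x (p' v))
  cl : v ∈ closure (Set.range p)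
  cl' : v ∈ closure (Set.range p')
  ne : v ≠ 0

/-- two linked windows -/
def VWin.Linked {P : ComPair H} {A : Type v} [CStarAlgebra A] {L : LRep P A}
    (W1 W2 : VWin L) : Prop :=
  ∀ x, W1.p (L.l x (W2.p W2.v)) = W2.p' (L.r x (W1.p' W1.v))

end Pool.Agent.AbCoc
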