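import Pool.Agent.Lib_MP_418a80_un.UnC3
import Pool.Agent.Lib_MP_418a80_un.UB0

/-! # F0: the crossed product and its commutant as a pair -/

set_option autoImplicit false
set_option linter.unusedVariables false
set_option linter.unusedSectionVars false

open MeasureTheory Topology Filter CompactlySupported
open scoped ENNReal NNReal ComplexConjugate

namespace Pool.Agent.AbCoc

universe u v w z

section
variable {A : Type u} [CStarAlgebra A] {K : Type v} [NormedAddCommGroup K]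
  [InnerProductSpace ℂ K] [CompleteSpace K]
variable {G : Type w} [Group G] [TopologicalSpace G] [IsTopologicalGroup G]
  [SecondCountableTopology G] [LocallyCompactSpace G] [MeasurableSpace G] [BorelSpace G]
  (μ : Measure G) [μ.IsHaarMeasure] {T : TrAlg A K} (S : TrAct G T)

theorem TrAlg.Rm_ext (T : TrAlg A K) {X Y : K →L[ℂ] K} (h : ∀ b : A, X (T.ι b) = Y (T.ι b)) :
    X = Y := T.Lm_ext h

theorem TrAlg.Rm_one (T : TrAlg A K) : T.Rm (1 : A) = 1 := by
  refine T.Rm_ext fun b => ?_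
  rw [T.Rm_ι, mul_one]
  rfl

theorem TrAlg.Rm_mul (T : TrAlg A K) (a b : A) : T.Rm (a * b) = T.Rm b * T.Rm a := by
  refine T.Rm_ext fun c => ?_
  change _ = T.Rm b (T.Rm a (T.ι c))
  rw [T.Rm_ι, T.Rm_ι, T.Rm_ι, mul_assoc]

theorem TrAlg.Rm_add (T : TrAlg A K) (a b : A) : T.Rm (a + b) = T.Rm a + T.Rm b := by
  refine T.Rm_ext fun c => ?_
  change _ = T.Rm a (T.ι c) + T.Rm b (T.ι c)
  rw [T.Rm_ι, T.Rm_ι, T.Rm_ι, mul_add, map_add]

theorem TrAlg.Rm_smul (T : TrAlg A K) (c : ℂ) (a : A) : T.Rm (c • a) = c • T.Rm a := by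
  refine T.Rm_ext fun d => ?_
  change _ = c • T.Rm a (T.ι d)
  rw [T.Rm_ι, T.Rm_ι, mul_smul_comm, map_smul]

theorem TrAlg.Rm_adj (T : TrAlg A K) (a : A) (ξ η : K) :
    inner ℂ (T.Rm a ξ) η = inner ℂ ξ (T.Rm (star a) η) := by
  refine T.dense.induction_on (p := fun ξ => inner ℂ (T.Rm a ξ) η
    = inner ℂ ξ (T.Rm (star a) η)) ξ ?_ ?_
  · exact isClosed_eq ((T.Rm a).continuous.inner continuous_const)
      (continuous_id.inner continuous_const)
  · intro b
    refine T.dense.induction_on (p := fun η => inner ℂ (T.Rm a (T.ι b)) η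
      = inner ℂ (T.ι b) (T.Rm (star a) η)) η ?_ ?_
    · exact isClosed_eq (continuous_const.inner continuous_id)
        (continuous_const.inner (T.Rm (star a)).continuous)
    · intro c
      rw [T.Rm_ι, T.Rm_ι, T.right]

theorem TrAlg.Rm_star (T : TrAlg A K) (a : A) : T.Rm (star a) = star (T.Rm a) := by
  rw [ContinuousLinearMap.star_eq_adjoint, ContinuousLinearMap.eq_adjoint_iff]
  intro x y
  rw [T.Rm_adj, star_star]

theorem TrAlg.Rm_norm_le (T : TrAlg A K) (a : A) : ‖T.Rm a‖ ≤ ‖a‖ := by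
  refine ContinuousLinearMap.opNorm_le_bound _ (norm_nonneg _) fun ξ => ?_
  refine T.dense.induction_on (p := fun ξ => ‖T.Rm a ξ‖ ≤ ‖a‖ * ‖ξ‖) ξ ?_ ?_
  · exact isClosed_le (T.Rm a).continuous.norm (continuous_const.mul continuous_norm)
  · intro b
    rw [T.Rm_ι, mul_comm]
    exact T.mul_le' b a

/-- the crossed product and its commutant -/
def TrAct.pair : ComPair (Lp K 2 μ) where
  N := S.NN μ
  N' := Set.centralizer (S.NN μ)
  comm := rfl
  comm' := by
    unfold TrAct.NN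
    rw [Set.centralizer_centralizer_centralizer]
  star_mem := fun x hx => TrAct.NN_star hx
  star_mem' := by
    intro x hx
    rw [Set.mem_centralizer_iff] at hx ⊢
    intro m hm
    have h := hx (star m) (TrAct.NN_star hm)
    have h2 := congrArg star h
    rw [star_mul, star_mul, star_star] at h2
    exact h2.symm

/-- the left and the right representation of `A` -/
noncomputable def TrAct.lrep (hSO : S.SO μ Set.univ) : LRep (S.pair μ) A where
  l := S.pi μ
  r := fun x => oneT μ (T.Rm x)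
  l_mem := fun x => Set.subset_centralizer_centralizer (Or.inl ⟨x, rfl⟩)
  r_mem := fun x => by
    change oneT μ (T.Rm x) ∈ Set.centralizer (S.NN μ)
    rw [Set.mem_centralizer_iff]
    intro n hn
    exact TrAct.NN_oneT hn (T.Rm x) (T.commL_Rm x)
  l_one := S.pi_one μ
  r_one := by
    rw [T.Rm_one]
    ext1 ξ
    apply Lp.ext
    filter_upwards [oneT_ae μ (1 : K →L[ℂ] K) ξ] with t h1
    rw [h1]
    rfl
  l_mul := fun x y => S.pi_mul μ x y
  r_mul := fun x y => by rw [T.Rm_mul, oneT_mul]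
  l_add := fun x y => S.pi_add μ x y
  r_add := fun x y => by
    rw [T.Rm_add]
    ext1 ξ
    apply Lp.ext
    filter_upwards [oneT_ae μ (T.Rm x + T.Rm y) ξ, oneT_ae μ (T.Rm x) ξ, oneT_ae μ (T.Rm y) ξ,
      Lp.coeFn_add (oneT μ (T.Rm x) ξ) (oneT μ (T.Rm y) ξ)] with t h1 h2 h3 h4
    change (oneT μ (T.Rm x + T.Rm y) ξ) t = (oneT μ (T.Rm x) ξ + oneT μ (T.Rm y) ξ : Lp K 2 μ) t
    rw [h1, h4, Pi.add_apply, h2, h3]
    rfl
  l_smul := fun c x => S.pi_smul μ c x
  r_smul := fun c x => by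
    rw [T.Rm_smul]
    ext1 ξ
    apply Lp.ext
    filter_upwards [oneT_ae μ (c • T.Rm x) ξ, oneT_ae μ (T.Rm x) ξ,
      Lp.coeFn_smul c (oneT μ (T.Rm x) ξ)] with t h1 h2 h4
    change (oneT μ (c • T.Rm x) ξ) t = (c • oneT μ (T.Rm x) ξ : Lp K 2 μ) t
    rw [h1, h4, Pi.smul_apply, h2]
    rfl
  l_star := fun x => S.pi_star μ x
  r_star := fun x => by rw [T.Rm_star, oneT_starW]
  l_irr := fun Y hY h => hSO Y hY fun x _ => h x
  r_irr := fun Y hY h => S.right_irred μ hSO Y hY h

end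

end Pool.Agent.AbCoc
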