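import Pool.Agent.Lib_MP_418a80_un.UF5
import Pool.Agent.Lib_MP_418a80_ab.Final
import Pool.Agent.Lib_MP_418a80_hyp.Folner
import Pool.Agent.Lib_MP_418a80_hyp.HTrans
import Pool.Agent.Lib_MP_418a80_eg.Bridge

/-! # F6: the union theorem -/

set_option autoImplicit false
set_option linter.unusedVariables false
set_option linter.unusedSectionVars false

open MeasureTheory Topology Filter TopologicalSpace
open scoped ENNReal NNReal ComplexConjugate Pointwise

namespace Pool.Agent.AbCoc

universe u v w z

section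
variable {G : Type w} [Group G] [TopologicalSpace G] [IsTopologicalGroup G] [T2Space G]
  [SecondCountableTopology G] [LocallyCompactSpace G]

open Classical in
/-- a continuous surjective homomorphism with compact kernel of an open subgroup onto `V` gives a
`QMap` -/
theorem exists_qmap {V : Type z} [NormedAddCommGroup V] [NormedSpace ℝ V]
    [FiniteDimensional ℝ V] (L : Subgroup G) (hL : IsOpen (L : Set G))
    (q : ↥L →* Multiplicative V) (hq : Continuous q) (hs : Function.Surjective q)
    (hk : IsCompact (q.ker : Set ↥L)) : Nonempty (QMap G V) := by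
  have hLc : IsClosed (L : Set G) := L.isClosed_of_isOpen hL
  have hlc : LocallyCompactSpace ↥L := hL.locallyCompactSpace
  have hpr : ProperSpace V := FiniteDimensional.proper_real V
  have hT2 : T2Space (Multiplicative V) := inferInstanceAs (T2Space V)
  have hsc : SecondCountableTopology ↥L :=
    TopologicalSpace.Subtype.secondCountableTopology (L : Set G)
  have hsg : SigmaCompactSpace ↥L := inferInstance
  have hopen : IsOpenMap q := MonoidHom.isOpenMap_of_sigmaCompact q hs hq
  have hadd : ∀ s : Set (Multiplicative V), IsOpen s → IsOpen (Multiplicative.toAdd '' s) := by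
    intro s hs
    have e : Multiplicative.toAdd '' s = Multiplicative.ofAdd ⁻¹' s :=
      Equiv.image_eq_preimage_symm Multiplicative.toAdd s
    rw [e]
    exact hs.preimage continuous_ofAdd
  obtain ⟨f, hf⟩ : ∃ f : G → V, f = fun g => if h : g ∈ L then (q ⟨g, h⟩).toAdd else 0 :=
    ⟨_, rfl⟩
  have hfL : ∀ g : ↥L, f g = (q g).toAdd := by
    intro g
    rw [hf]
    change (if h : (g : G) ∈ L then (q ⟨g, h⟩).toAdd else 0) = _
    rw [dif_pos g.2]
  have hf0 : ∀ g, g ∉ L → f g = 0 := by
    intro g hg
    rw [hf]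
    change (if h : g ∈ L then (q ⟨g, h⟩).toAdd else 0) = _
    rw [dif_neg hg]
  have hcontL : Continuous fun g : ↥L => f g := by
    have e : (fun g : ↥L => f g) = fun g => (q g).toAdd := funext hfL
    rw [e]
    exact continuous_toAdd.comp hq
  have hcont : Continuous f := by
    rw [continuous_iff_continuousAt]
    intro g
    by_cases hg : g ∈ L
    · have h1 : ContinuousOn f (L : Set G) := by
        rw [continuousOn_iff_continuous_domRestrict]
        exact hcontL
      exact h1.continuousAt (hL.mem_nhds hg)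
    · have h1 : f =ᶠ[𝓝 g] fun _ => 0 := by
        filter_upwards [hLc.isOpen_compl.mem_nhds hg] with x hx
        exact hf0 x hx
      exact continuousAt_const.congr h1.symm
  refine ⟨⟨L, hL, f, hcont, ?_, hf0, ?_, ?_, ?_⟩⟩
  · intro u hu v hv
    have h1 := hfL ⟨u, hu⟩
    have h2 := hfL ⟨v, hv⟩
    have h3 := hfL (⟨u, hu⟩ * ⟨v, hv⟩)
    rw [map_mul, toAdd_mul, ← h1, ← h2] at h3
    exact h3
  · intro x
    obtain ⟨u, hu⟩ := hs (Multiplicative.ofAdd x)
    exact ⟨u, u.2, by rw [hfL, hu]; rfl⟩
  · intro B hB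
    -- a compact set of `L` which covers `B`
    obtain ⟨C, hC, hCB⟩ : ∃ C : Set ↥L, IsCompact C ∧ B ⊆ (fun g : ↥L => f g) '' C := by
      choose N hN hNm using fun u : ↥L => exists_compact_mem_nhds u
      have hcov : B ⊆ ⋃ u : ↥L, (fun g : ↥L => f g) '' (interior (N u)) := by
        intro x hx
        obtain ⟨u, hu⟩ := hs (Multiplicative.ofAdd x)
        refine Set.mem_iUnion.2 ⟨u, u, mem_interior_iff_mem_nhds.2 (hNm u), ?_⟩
        change f u = x
        rw [hfL, hu]
        rfl
      obtain ⟨t, ht⟩ := hB.elim_finite_subcover _ (fun u => by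
        have e : (fun g : ↥L => f g) '' (interior (N u))
            = Multiplicative.toAdd '' (q '' interior (N u)) := by
          rw [Set.image_image]
          exact Set.image_congr fun g _ => hfL g
        rw [e]
        exact hadd _ (hopen _ (isOpen_interior (s := N u)))) hcov
      refine ⟨⋃ u ∈ t, N u, t.isCompact_biUnion fun u _ => hN u, ?_⟩
      intro x hx
      obtain ⟨u, hu, g, hg, hgx⟩ : ∃ u ∈ t, ∃ g ∈ interior (N u), f g = x := by
        have := ht hx
        simpa using this
      exact ⟨g, Set.mem_biUnion hu (interior_subset hg), hgx⟩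
    have h1 : IsCompact (Subtype.val '' (C * (q.ker : Set ↥L))) :=
      (hC.mul hk).image continuous_subtype_val
    refine h1.of_isClosed_subset ?_ ?_
    · have e : {u | u ∈ L ∧ f u ∈ B} = (L : Set G) ∩ f ⁻¹' B := rfl
      rw [e]
      exact hLc.inter (hB.isClosed.preimage hcont)
    · rintro u ⟨hu, huB⟩
      obtain ⟨c, hc, hcu⟩ := hCB huB
      refine ⟨⟨u, hu⟩, ⟨c, hc, c⁻¹ * ⟨u, hu⟩, ?_, mul_inv_cancel_left c _⟩, rfl⟩
      change c⁻¹ * ⟨u, hu⟩ ∈ q.ker
      rw [MonoidHom.mem_ker, map_mul, map_inv]
      have h2 : q c = q ⟨u, hu⟩ := by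
        apply Multiplicative.toAdd.injective
        rw [← hfL c, ← hfL ⟨u, hu⟩]
        exact hcu
      rw [h2, inv_mul_cancel]
  · intro O hO hOL
    have e : f '' O = Multiplicative.toAdd '' (q '' (Subtype.val ⁻¹' O)) := by
      ext x
      constructor
      · rintro ⟨u, hu, rfl⟩
        exact ⟨q ⟨u, hOL hu⟩, ⟨⟨u, hOL hu⟩, hu, rfl⟩, (hfL ⟨u, hOL hu⟩).symm⟩
      · rintro ⟨_, ⟨u, hu, rfl⟩, rfl⟩
        exact ⟨u, hu, hfL u⟩
    rw [e]
    exact hadd _ (hopen _ (hO.preimage continuous_subtype_val))

/-- a homomorphism with compact kernel onto the trivial group: `L` is compact -/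
theorem isCompact_of_subsingleton {V : Type z} [NormedAddCommGroup V] [Subsingleton V]
    (L : Subgroup G) (q : ↥L →* Multiplicative V) (hk : IsCompact (q.ker : Set ↥L)) :
    IsCompact (L : Set G) := by
  have h1 : (q.ker : Set ↥L) = Set.univ := by
    refine Set.eq_univ_of_forall fun x => ?_
    change x ∈ q.ker
    rw [MonoidHom.mem_ker]
    exact Subsingleton.elim (α := V) _ _
  rw [h1] at hk
  have h2 := hk.image (continuous_subtype_val (p := fun x => x ∈ L))
  rwa [Set.image_univ, Subtype.range_coe_subtype] at h2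

end

section
variable {G : Type w} [Group G] [TopologicalSpace G] [IsTopologicalGroup G] [T2Space G]
  [SecondCountableTopology G] [LocallyCompactSpace G] [NoncompactSpace G] [MeasurableSpace G]
  [BorelSpace G] (μ : Measure G) [μ.IsHaarMeasure]
  {H : Type u} [NormedAddCommGroup H] [InnerProductSpace ℂ H] [CompleteSpace H]
  [SeparableSpace H]

/-- the union theorem -/
theorem union_theorem (hμ : ErgLC.FolnerCondition μ) (L : Subgroup G) (hL : IsOpen (L : Set G))
    (n : ℕ) (q : ↥L →* Multiplicative (EuclideanSpace ℝ (Fin n))) (hq : Continuous q)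
    (hs : Function.Surjective q) (hk : IsCompact (q.ker : Set ↥L))
    {M : VonNeumannAlgebra H} (hM : IsII1Factor M)
    {α : G → (H →L[ℂ] H) → (H →L[ℂ] H)} (hα : IsAction M α) (hout : IsStrictlyOuter μ M α) :
    ∃ v : G → (H →L[ℂ] H), IsCocycle M α v ∧ PerturbationIsErgodic M α v := by
  rcases Nat.eq_zero_or_pos n with hn | hn
  · subst hn
    obtain ⟨v, hv, he, -⟩ := compactOpen_theorem μ hμ L hL (isCompact_of_subsingleton L q hk) hM
      hα hout
    exact ⟨v, hv, he⟩
  · have : Nonempty (Fin n) := ⟨⟨0, hn⟩⟩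
    obtain ⟨Q⟩ := exists_qmap L hL q hq hs hk
    obtain ⟨ξ, h⟩ := hM.trace
    have hSO : (actOf ξ h hM.factor hα).SO μ Set.univ := by
      have h1 := so_of_strictlyOuterOn μ ξ h hM.factor hα (M : Set (H →L[ℂ] H)) subset_rfl
        ((isStrictlyOuterOn_iff μ M α).2 hout)
      have e : {x : Alg M | (x : H →L[ℂ] H) ∈ (M : Set (H →L[ℂ] H))} = Set.univ :=
        Set.eq_univ_of_forall fun x => x.2
      rwa [e] at h1
    exact exists_of_key ξ h hα (actOf ξ h hM.factor hα) (fun g x => rfl)
      (TrAct.key_of_stepATyp _ ((actOf ξ h hM.factor hα).stepATyp_of_qmap μ Q hSO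
        (reiter_of_folner μ hμ)))

end

end Pool.Agent.AbCoc
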