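import Pool.Agent.Lib_MP_418a80_hyp.HZ
import Pool.Agent.Lib_MP_418a80_hyp.Bicomm
import Pool.Agent.Lib_MP_418a80_hyp.Comm4

/-!
# MP_418a80_an, union theorem: definitions

`QMap G V`: an open subgroup `U` of `G` with a proper continuous open homomorphism onto a
finite-dimensional real vector space `V`.
-/

set_option autoImplicit false
set_option linter.unusedVariables false
set_option linter.unusedSectionVars false

open MeasureTheory Topology Filter CompactlySupported
open scoped ENNReal NNReal

namespace Pool.Agent.AbCoc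

universe u v w z

/-- an open subgroup `U` and a proper open homomorphism `q : U → V`, extended by `0` -/
structure QMap (G : Type w) [Group G] [TopologicalSpace G] (V : Type z) [NormedAddCommGroup V]
    [NormedSpace ℝ V] where
  U : Subgroup G
  isOpen : IsOpen (U : Set G)
  q : G → V
  cont : Continuous q
  map_mul : ∀ u ∈ U, ∀ v ∈ U, q (u * v) = q u + q v
  off : ∀ g, g ∉ U → q g = 0
  surj : ∀ x, ∃ u ∈ U, q u = x
  proper : ∀ B : Set V, IsCompact B → IsCompact {u | u ∈ U ∧ q u ∈ B}
  isOpenMap : ∀ O : Set G, IsOpen O → O ⊆ (U : Set G) → IsOpen (q '' O)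

section right
variable {G : Type w} [Group G] [TopologicalSpace G] [IsTopologicalGroup G]
  [SecondCountableTopology G] [LocallyCompactSpace G] [MeasurableSpace G] [BorelSpace G]
  (μ : Measure G) [μ.IsHaarMeasure]

/-- the factor `d(g)` in `‖rt g z‖² = d(g)⁻¹ ‖z‖²`... see `norm_rt` -/
noncomputable def dm (g : G) : ℝ := ((Measure.modularCharacterFun g : ℝ≥0) : ℝ)

theorem dm_pos (g : G) : 0 < dm g := by
  unfold dm
  exact_mod_cast Measure.modularCharacterFun_pos g

theorem dm_mul (g h : G) : dm (g * h) = dm g * dm h := by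
  unfold dm
  rw [Measure.modularCharacterFun_map_mul]
  push_cast
  rfl

theorem dm_one : dm (1 : G) = 1 := by
  unfold dm
  rw [Measure.modularCharacterFun_map_one]
  rfl

theorem map_mulRight (g : G) :
    μ.map (· * g) = (Measure.modularCharacterFun g : ℝ≥0) • μ := by
  have h := Measure.isMulLeftInvariant_eq_smul (μ.map (· * g)) μ
  rw [h, Measure.modularCharacterFun_eq_haarScalarFactor μ g]

theorem ae_mulRight (g : G) {p : G → Prop} (h : ∀ᵐ t ∂μ, p t) : ∀ᵐ t ∂μ, p (t * g) := by
  have h1 : ∀ᵐ t ∂(μ.map (· * g)), p t := by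
    rw [map_mulRight]
    exact Measure.smul_absolutelyContinuous.ae_le h
  exact ae_of_ae_map (measurable_mul_const g).aemeasurable h1

variable {E : Type v} [NormedAddCommGroup E] [InnerProductSpace ℂ E]

theorem memLp_mulRight (g : G) (z : Lp E 2 μ) : MemLp (fun t => z (t * g)) 2 μ := by
  have h1 : MemLp z 2 (μ.map (· * g)) := by
    rw [map_mulRight]
    exact (Lp.memLp z).smul_measure ENNReal.coe_ne_top
  exact h1.comp_of_map (measurable_mul_const g).aemeasurable

theorem norm_mulRight (g : G) (z : Lp E 2 μ) :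
    ‖(memLp_mulRight μ g z).toLp _‖ ^ 2 = dm g * ‖z‖ ^ 2 := by
  have h1 : eLpNorm (fun t => z (t * g)) 2 μ
      = eLpNorm z 2 ((Measure.modularCharacterFun g : ℝ≥0) • μ) := by
    rw [← map_mulRight, eLpNorm_map_measure]
    · rfl
    · rw [map_mulRight]
      exact (Lp.aestronglyMeasurable z).mono_ac Measure.smul_absolutelyContinuous
    · exact (measurable_mul_const g).aemeasurable
  rw [Lp.norm_toLp, h1, eLpNorm_smul_measure_of_ne_top' (by simp), Lp.norm_def, ENNReal.smul_def,
    smul_eq_mul, ENNReal.toReal_mul, mul_pow]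
  congr 1
  rw [ENNReal.coe_toReal, NNReal.coe_rpow, ENNReal.toReal_ofNat, ← Real.rpow_natCast,
    ← Real.rpow_mul (NNReal.coe_nonneg _)]
  norm_num
  rfl

/-- the right translation `(rt g z)(t) = z(t g)` (not normalised) -/
noncomputable def rt (E : Type v) [NormedAddCommGroup E] [InnerProductSpace ℂ E] (g : G) :
    Lp E 2 μ →L[ℂ] Lp E 2 μ :=
  LinearMap.mkContinuous
    { toFun := fun z => (memLp_mulRight μ g z).toLp _
      map_add' := by
        intro ξ η
        apply Lp.ext
        filter_upwards [(memLp_mulRight μ g (ξ + η)).coeFn_toLp,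
          (memLp_mulRight μ g ξ).coeFn_toLp, (memLp_mulRight μ g η).coeFn_toLp,
          ae_mulRight μ g (Lp.coeFn_add ξ η),
          Lp.coeFn_add ((memLp_mulRight μ g ξ).toLp _) ((memLp_mulRight μ g η).toLp _)]
          with t h1 h2 h3 h4 h5
        rw [h1, h5, Pi.add_apply, h2, h3, h4, Pi.add_apply]
      map_smul' := by
        intro c ξ
        apply Lp.ext
        filter_upwards [(memLp_mulRight μ g (c • ξ)).coeFn_toLp,
          (memLp_mulRight μ g ξ).coeFn_toLp, ae_mulRight μ g (Lp.coeFn_smul c ξ),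
          Lp.coeFn_smul c ((memLp_mulRight μ g ξ).toLp _)] with t h1 h2 h4 h5
        rw [h1, RingHom.id_apply, h5, Pi.smul_apply, h2, h4, Pi.smul_apply] }
    (Real.sqrt (dm g)) (fun z => by
      change ‖(memLp_mulRight μ g z).toLp _‖ ≤ _
      have h1 := norm_mulRight μ g z
      have h2 : ‖(memLp_mulRight μ g z).toLp _‖ = Real.sqrt (dm g) * ‖z‖ := by
        rw [← Real.sqrt_sq (norm_nonneg ((memLp_mulRight μ g z).toLp _)), h1,
          Real.sqrt_mul (dm_pos g).le, Real.sqrt_sq (norm_nonneg z)]
      exact h2.le)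

theorem rt_ae (g : G) (z : Lp E 2 μ) : rt μ E g z =ᵐ[μ] fun t => z (t * g) :=
  (memLp_mulRight μ g z).coeFn_toLp

theorem rt_norm_sq (g : G) (z : Lp E 2 μ) : ‖rt μ E g z‖ ^ 2 = dm g * ‖z‖ ^ 2 :=
  norm_mulRight μ g z

end right

section nice
variable {G : Type w} [Group G] [TopologicalSpace G] [IsTopologicalGroup G]
  [SecondCountableTopology G] [LocallyCompactSpace G] [MeasurableSpace G] [BorelSpace G]
  (μ : Measure G) [μ.IsHaarMeasure]
variable {V : Type z} [NormedAddCommGroup V] [NormedSpace ℝ V] (Q : QMap G V)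

open Classical in
/-- the function `φ ∘ q` on `U`, `0` off `U` -/
noncomputable def QMap.liftFun (φ : C_c(V, ℂ)) (g : G) : ℂ := if g ∈ Q.U then φ (Q.q g) else 0

theorem QMap.liftFun_cont (φ : C_c(V, ℂ)) : Continuous (Q.liftFun φ) := by
  classical
  have h1 : IsClopen (Q.U : Set G) := ⟨Q.U.isClosed_of_isOpen Q.isOpen, Q.isOpen⟩
  unfold QMap.liftFun
  refine Continuous.if ?_ (φ.continuous.comp Q.cont) continuous_const
  intro a ha
  have h2 : frontier {x | x ∈ Q.U} = ∅ := h1.frontier_eq
  rw [h2] at ha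
  exact absurd ha (Set.notMem_empty a)

theorem QMap.liftFun_supp (φ : C_c(V, ℂ)) : HasCompactSupport (Q.liftFun φ) := by
  classical
  have h1 := Q.proper _ φ.hasCompactSupport.isCompact
  refine HasCompactSupport.intro h1 fun g hg => ?_
  unfold QMap.liftFun
  by_cases h : g ∈ Q.U
  · rw [if_pos h]
    by_contra h2
    exact hg ⟨h, subset_tsupport _ h2⟩
  · rw [if_neg h]

/-- the nice function of `φ` as a bounded continuous function -/
noncomputable def QMap.lift (φ : C_c(V, ℂ)) : BoundedContinuousFunction G ℂ :=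
  BoundedContinuousFunction.ofNormedAddCommGroup (Q.liftFun φ) (Q.liftFun_cont φ)
    ((Q.liftFun_cont φ).bounded_above_of_compact_support (Q.liftFun_supp φ)).choose
    ((Q.liftFun_cont φ).bounded_above_of_compact_support (Q.liftFun_supp φ)).choose_spec

theorem QMap.lift_apply (φ : C_c(V, ℂ)) (g : G) : Q.lift φ g = Q.liftFun φ g := rfl

/-- the nice vector of `φ` -/
noncomputable def QMap.nv (φ : C_c(V, ℂ)) : Lp ℂ 2 μ := cv μ (Q.lift φ) (Q.liftFun_supp φ)

/-- `λ(φ) = ∫ φ(v) λ_v dv` -/
noncomputable def QMap.Lam (E : Type v) [NormedAddCommGroup E] [InnerProductSpace ℂ E]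
    (φ : C_c(V, ℂ)) : Lp E 2 μ →L[ℂ] Lp E 2 μ :=
  have hint : ∀ z : Lp E 2 μ, Integrable (fun v => Q.liftFun φ v • (lam μ E).U v z) μ :=
    fun z => ((Q.liftFun_cont φ).smul ((lam μ E).cont z)).integrable_of_hasCompactSupport
      ((Q.liftFun_supp φ).smul_right)
  LinearMap.mkContinuous
    { toFun := fun z => ∫ v, Q.liftFun φ v • (lam μ E).U v z ∂μ
      map_add' := by
        intro x y
        simp only [map_add, smul_add]
        exact integral_add (hint x) (hint y)
      map_smul' := by
        intro c x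
        simp only [map_smul, RingHom.id_apply]
        rw [← integral_smul]
        congr 1
        funext v
        rw [smul_comm] }
    (∫ v, ‖Q.liftFun φ v‖ ∂μ) (fun z => by
      change ‖∫ v, Q.liftFun φ v • (lam μ E).U v z ∂μ‖ ≤ _
      refine (norm_integral_le_integral_norm _).trans ?_
      rw [← integral_mul_const]
      refine le_of_eq (integral_congr_ae (Filter.Eventually.of_forall fun v => ?_))
      change ‖Q.liftFun φ v • (lam μ E).U v z‖ = ‖Q.liftFun φ v‖ * ‖z‖
      rw [norm_smul, (lam μ E).norm_map])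

theorem QMap.Lam_apply {E : Type v} [NormedAddCommGroup E] [InnerProductSpace ℂ E]
    (φ : C_c(V, ℂ)) (z : Lp E 2 μ) :
    Q.Lam μ E φ z = ∫ v, Q.liftFun φ v • (lam μ E).U v z ∂μ := rfl

end nice

end Pool.Agent.AbCoc
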