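import Pool.Agent.Lib_MP_418a80_un.Un1
import Pool.Agent.Lib_MP_418a80_ab.KeyOf
import Pool.Agent.Lib_MP_418a80_ab.FamDefs

/-!
# MP_418a80_an, union theorem, part A (note 2157): the inequalities
-/

set_option autoImplicit false
set_option linter.unusedVariables false
set_option linter.unusedSectionVars false

open MeasureTheory Topology Filter
open scoped ENNReal NNReal

namespace Pool.Agent.AbCoc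

universe u v w z

variable {A : Type u} [CStarAlgebra A] {K : Type v} [NormedAddCommGroup K]
  [InnerProductSpace ℂ K] [CompleteSpace K]
variable {G : Type w} [Group G] [TopologicalSpace G] {T : TrAlg A K} (S : TrAct G T)
  {V : Type z} [NormedAddCommGroup V] [NormedSpace ℝ V] (Q : QMap G V)

/-- the left coefficient term `Re ⟨a, m α_g(a)⟩` -/
noncomputable def TrAct.ql (g : G) (m a : A) : ℝ := (inner ℂ (T.ι a) (T.ι (m * S.α g a))).re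

/-- the right coefficient term `Re ⟨a, α_g(a) m⟩` -/
noncomputable def TrAct.qr (g : G) (m a : A) : ℝ := (inner ℂ (T.ι a) (T.ι (S.α g a * m))).re

/-- the gap inequality (output of A1, A2) for `a ∈ b1 A b2`, with the factor `c` and a coefficient `y` -/
def TrAct.GapOf [MeasurableSpace G] (b1 b2 : A) (c : ℝ) (m0 : Measure G) (C : ℝ) (y : A) : Prop :=
  ∀ x a : A, a = b1 * x * b2 →
    c * ‖T.ι a‖ ^ 2 ≤ C * (‖T.ι (S.E a)‖ ^ 2 + ∫ s, ‖T.ι (S.α s a - a)‖ ^ 2 ∂m0)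
      + S.ql 1 y a + S.qr 1 y a

/-- output of A3 -/
def TrAct.IneqA (b1 b2 : A) (δ : ℝ) : Prop :=
  ∃ (C R : ℝ) (n : ℕ) (g : Fin n → G) (m m' : Fin n → A) (d : A),
    0 ≤ C ∧ (∀ i, g i ∉ Q.U) ∧ ‖T.ι d‖ ≤ δ ∧
    ∀ (x a : A) (κ : ℝ), a = b1 * x * b2 → 0 ≤ κ →
      (∀ l ∈ Q.U, ‖Q.q l‖ ≤ R → ‖T.ι (S.α l a - a)‖ ≤ κ) →
      ‖T.ι a‖ ^ 2 / 4 ≤ C * (‖T.ι (S.E a)‖ ^ 2 + κ ^ 2) + S.ql 1 d a + S.qr 1 d a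
        + ∑ i, (S.ql (g i) (m i) a + S.qr (g i) (m' i) a)

/-- output of A4 -/
def TrAct.IneqB (b1 b2 : A) (δ : ℝ) : Prop :=
  ∃ (C R : ℝ) (x0 : V →L[ℝ] ℝ) (n : ℕ) (g : Fin n → G) (m m' : Fin n → A) (d1 d2 : A),
    0 ≤ C ∧ (∀ i, g i ∉ Q.U ∧ Q.InZ (g i)) ∧ ‖T.ι d1‖ ≤ δ ∧ ‖T.ι d2‖ ≤ δ ∧
    ∀ (x a : A) (κ : ℝ), a = b1 * x * b2 → 0 ≤ κ →
      (∀ l ∈ Q.U, ‖Q.q l‖ ≤ R → ‖T.ι (S.α l a - chi x0 (Q.q l) • a)‖ ≤ κ) →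
      ‖T.ι a‖ ^ 2 / 8 ≤ C * κ ^ 2 + S.ql 1 d1 a + S.qr 1 d2 a
        + ∑ i, (S.ql (g i) (m i) a + S.qr (g i) (m' i) a)

/-- output of A5 (the final inequality): the right coefficients are fixed by
`L₁ = U ∩ ⋂ g_i U g_i⁻¹` -/
def TrAct.IneqC (b1 b2 : A) (δ : ℝ) : Prop :=
  ∃ (C R : ℝ) (x0 : V →L[ℝ] ℝ) (n : ℕ) (g : Fin n → G) (m m' : Fin n → A) (d1 d2 : A),
    0 ≤ C ∧ 0 ≤ R ∧ (∀ i, g i ∉ Q.U ∧ Q.InZ (g i)) ∧ ‖T.ι d1‖ ≤ δ ∧ ‖T.ι d2‖ ≤ δ ∧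
    (∀ s ∈ Q.U, (∀ i, (g i)⁻¹ * s * g i ∈ Q.U) → S.α s d2 = d2 ∧ ∀ i, S.α s (m' i) = m' i) ∧
    ∀ (x a : A) (κ : ℝ), a = b1 * x * b2 → 0 ≤ κ →
      (∀ l ∈ Q.U, ‖Q.q l‖ ≤ R → ‖T.ι (S.α l a - chi x0 (Q.q l) • a)‖ ≤ κ) →
      ‖T.ι a‖ ^ 2 / 8 ≤ C * κ ^ 2 + S.ql 1 d1 a + S.qr 1 d2 a
        + ∑ i, (S.ql (g i) (m i) a + S.qr (g i) (m' i) a)

end Pool.Agent.AbCoc
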