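import Mathlib

/-! # A1a: separation of a convex cone -/

set_option autoImplicit false
set_option linter.unusedVariables false
set_option linter.unusedSectionVars false

open MeasureTheory Topology Filter
open scoped ENNReal NNReal ComplexConjugate

namespace Pool.Agent.AbCoc

/-- a linear functional on the product, in coordinates -/
private theorem decomp_UA1a {I : Type} [Fintype I] [DecidableEq I]
    (f : (ℝ × ℝ × ℝ × (I → ℝ)) →L[ℝ] ℝ) (o : ℝ × ℝ × ℝ × (I → ℝ)) :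
    f o = o.1 * f (1, 0, 0, 0) + o.2.1 * f (0, 1, 0, 0) + o.2.2.1 * f (0, 0, 1, 0) +
      ∑ i, o.2.2.2 i * f (0, 0, 0, fun j => if i = j then 1 else 0) := by
  obtain ⟨a, b, c, v⟩ := o
  have h1 : ((a, b, c, v) : ℝ × ℝ × ℝ × (I → ℝ)) =
      a • ((1, 0, 0, 0) : ℝ × ℝ × ℝ × (I → ℝ)) + b • ((0, 1, 0, 0) : ℝ × ℝ × ℝ × (I → ℝ)) +
        c • ((0, 0, 1, 0) : ℝ × ℝ × ℝ × (I → ℝ)) + ((0, 0, 0, v) : ℝ × ℝ × ℝ × (I → ℝ)) := by
    simp
  let g : (I → ℝ) →ₗ[ℝ] ℝ :=
    { toFun := fun v => f (0, 0, 0, v)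
      map_add' := fun x y => by
        rw [← map_add]
        simp
      map_smul' := fun r x => by
        rw [← map_smul]
        simp }
  have h2 : f (0, 0, 0, v) =
      ∑ i, v i * f (0, 0, 0, fun j => if i = j then 1 else 0) := by
    have h3 := LinearMap.pi_apply_eq_sum_univ g v
    simpa [g] using h3
  rw [h1, map_add, map_add, map_add, map_smul, map_smul, map_smul, h2]
  simp

/-- A1a: separation of a convex cone -/
theorem cone_separation {I : Type} [Fintype I] (O : Set (ℝ × ℝ × ℝ × (I → ℝ)))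
    (hadd : ∀ o ∈ O, ∀ o' ∈ O, o + o' ∈ O) (hsmul : ∀ o ∈ O, ∀ r : ℝ, 0 ≤ r → r • o ∈ O)
    (h0 : ∀ o ∈ O, 0 ≤ o.2.1 ∧ 0 ≤ o.2.2.1) (κ : ℝ) (hκ : 0 < κ)
    (hno : ∀ o ∈ O, ¬ (1 ≤ o.1 ∧ o.2.1 ≤ κ ∧ o.2.2.1 ≤ κ ∧ ∀ i, |o.2.2.2 i| ≤ κ)) :
    ∃ C : ℝ, 0 ≤ C ∧ ∃ w : I → ℝ, ∀ o ∈ O,
      o.1 ≤ C * (o.2.1 + o.2.2.1) + ∑ i, w i * o.2.2.2 i := by
  classical
  by_cases hO : O.Nonempty
  swap
  · refine ⟨0, le_rfl, 0, fun o ho => ?_⟩
    exact absurd ⟨o, ho⟩ hO
  obtain ⟨o0, ho0⟩ := hO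
  have hz : (0 : ℝ × ℝ × ℝ × (I → ℝ)) ∈ O := by
    have h1 := hsmul o0 ho0 0 le_rfl
    rwa [zero_smul] at h1
  set W : Set (ℝ × ℝ × ℝ × (I → ℝ)) :=
    {o | 1 < o.1 ∧ o.2.1 < κ ∧ o.2.2.1 < κ ∧ ∀ i, |o.2.2.2 i| < κ} with hW
  have hWo : IsOpen W := by
    have h1 : W = {o | 1 < o.1} ∩ ({o | o.2.1 < κ} ∩ ({o | o.2.2.1 < κ} ∩
        ⋂ i, {o | |o.2.2.2 i| < κ})) := by
      ext o
      simp [hW]
    rw [h1]
    refine IsOpen.inter (isOpen_lt (by fun_prop) (by fun_prop)) (IsOpen.inter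
      (isOpen_lt (by fun_prop) (by fun_prop)) (IsOpen.inter
      (isOpen_lt (by fun_prop) (by fun_prop)) (isOpen_iInter_of_finite fun i => ?_)))
    exact isOpen_lt (by fun_prop) (by fun_prop)
  have hWc : Convex ℝ W := by
    rintro ⟨a, b, c, v⟩ ⟨ha, hb, hc, hv⟩ ⟨a', b', c', v'⟩ ⟨ha', hb', hc', hv'⟩ s t hs ht hst
    simp only at ha hb hc hv ha' hb' hc' hv'
    have key : ∀ x y z : ℝ, x < z → y < z → s * x + t * y < z := by
      intro x y z hx hy
      rcases eq_or_lt_of_le hs with h | h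
      · have ht1 : t = 1 := by linarith
        rw [← h, ht1]
        linarith
      · have e : z = s * z + t * z := by rw [← add_mul, hst, one_mul]
        have e1 := mul_lt_mul_of_pos_left hx h
        have e2 := mul_le_mul_of_nonneg_left hy.le ht
        linarith
    refine ⟨?_, ?_, ?_, fun i => ?_⟩
    · have := key (-a) (-a') (-1) (by linarith) (by linarith)
      change 1 < s * a + t * a'
      linarith
    · exact key b b' κ hb hb'
    · exact key c c' κ hc hc'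
    · change |s * v i + t * v' i| < κ
      calc |s * v i + t * v' i| ≤ |s * v i| + |t * v' i| := abs_add_le _ _
        _ = s * |v i| + t * |v' i| := by rw [abs_mul, abs_mul, abs_of_nonneg hs, abs_of_nonneg ht]
        _ < κ := key _ _ _ (hv i) (hv' i)
  have hOc : Convex ℝ O := by
    intro x hx y hy s t hs ht _
    exact hadd _ (hsmul x hx s hs) _ (hsmul y hy t ht)
  have hdisj : Disjoint W O := by
    rw [Set.disjoint_left]
    rintro o ⟨h1, h2, h3, h4⟩ ho
    exact hno o ho ⟨h1.le, h2.le, h3.le, fun i => (h4 i).le⟩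
  obtain ⟨f, u, hfW, hfO⟩ := geometric_hahn_banach_open hWc hWo hOc hdisj
  have hu : u ≤ 0 := by
    have h1 := hfO 0 hz
    rwa [map_zero] at h1
  have hfO' : ∀ o ∈ O, 0 ≤ f o := by
    intro o ho
    by_contra hcon
    push Not at hcon
    have h1 := hfO _ (hsmul o ho ((u - 1) / f o) (div_nonneg_of_nonpos (by linarith) hcon.le))
    rw [map_smul, smul_eq_mul, div_mul_cancel₀ _ hcon.ne] at h1
    linarith
  have hfW' : ∀ o ∈ W, f o < 0 := fun o ho => lt_of_lt_of_le (hfW o ho) hu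
  set a := f (1, 0, 0, 0) with ha
  set b := f (0, 1, 0, 0) with hb
  set c := f (0, 0, 1, 0) with hc
  set g : I → ℝ := fun i => f (0, 0, 0, fun j => if i = j then 1 else 0) with hg
  have hdec : ∀ o : ℝ × ℝ × ℝ × (I → ℝ),
      f o = o.1 * a + o.2.1 * b + o.2.2.1 * c + ∑ i, o.2.2.2 i * g i := decomp_UA1a f
  have ha0 : a < 0 := by
    have h1 := hfW' (2, 0, 0, 0) ⟨by norm_num, hκ, hκ, fun i => by simpa using hκ⟩
    rw [hdec] at h1
    simp at h1
    linarith
  have hb0 : 0 ≤ b := by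
    by_contra hcon
    push Not at hcon
    have h2 : (2 * a - 1) / b ≥ 0 := div_nonneg_of_nonpos (by linarith) hcon.le
    have h1 := hfW' (2, -((2 * a - 1) / b), 0, 0)
      ⟨by norm_num, lt_of_le_of_lt (by simpa using h2) hκ, hκ, fun i => by simpa using hκ⟩
    rw [hdec] at h1
    have h3 : -((2 * a - 1) / b) * b = -(2 * a - 1) := by
      rw [neg_mul, div_mul_cancel₀ _ hcon.ne]
    simp only [h3] at h1
    simp at h1
    linarith
  have hc0 : 0 ≤ c := by
    by_contra hcon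
    push Not at hcon
    have h2 : (2 * a - 1) / c ≥ 0 := div_nonneg_of_nonpos (by linarith) hcon.le
    have h1 := hfW' (2, 0, -((2 * a - 1) / c), 0)
      ⟨by norm_num, hκ, lt_of_le_of_lt (by simpa using h2) hκ, fun i => by simpa using hκ⟩
    rw [hdec] at h1
    have h3 : -((2 * a - 1) / c) * c = -(2 * a - 1) := by
      rw [neg_mul, div_mul_cancel₀ _ hcon.ne]
    simp only [h3] at h1
    simp at h1
    linarith
  have hna : 0 < -a := by linarith
  refine ⟨max b c / (-a), div_nonneg (le_trans hb0 (le_max_left _ _)) hna.le,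
    fun i => g i / (-a), fun o ho => ?_⟩
  have h1 := hfO' o ho
  rw [hdec] at h1
  obtain ⟨h2, h3⟩ := h0 o ho
  have h4 : o.2.1 * b ≤ max b c * o.2.1 := by
    rw [mul_comm]
    exact mul_le_mul_of_nonneg_right (le_max_left _ _) h2
  have h5 : o.2.2.1 * c ≤ max b c * o.2.2.1 := by
    rw [mul_comm]
    exact mul_le_mul_of_nonneg_right (le_max_right _ _) h3
  have h6 : ∑ i, g i / (-a) * o.2.2.2 i = (∑ i, o.2.2.2 i * g i) / (-a) := by
    rw [Finset.sum_div]
    refine Finset.sum_congr rfl fun i _ => ?_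
    ring
  rw [h6, div_mul_eq_mul_div, ← add_div, le_div_iff₀ hna]
  linarith

end Pool.Agent.AbCoc
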