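import Pool.Agent.Lib_MP_418a80_un.UA0
import Pool.Agent.Lib_MP_418a80_un.UA1a
import Pool.Agent.Lib_MP_418a80_ab.FamDom

/-! # A1: the gap inequality -/

set_option autoImplicit false
set_option linter.unusedVariables false
set_option linter.unusedSectionVars false

open MeasureTheory Topology Filter
open scoped ENNReal NNReal ComplexConjugate

namespace Pool.Agent.AbCoc

universe u v w z

variable {A : Type u} [CStarAlgebra A] {K : Type v} [NormedAddCommGroup K]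
  [InnerProductSpace ℂ K] [CompleteSpace K]
variable {G : Type w} [Group G] [TopologicalSpace G] [IsTopologicalGroup G] [T2Space G]
  [SecondCountableTopology G] [LocallyCompactSpace G] [MeasurableSpace G] [BorelSpace G]
  {T : TrAlg A K} (S : TrAct G T)
  {V : Type z} [NormedAddCommGroup V] [NormedSpace ℝ V] (Q : QMap G V)

/-- the displacement integral of one element -/
private noncomputable def ua1_disp (m0 : Measure G) (a : A) : ℝ :=
  ∫ t, ‖T.ι (S.α t a) - T.ι a‖ ^ 2 ∂m0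

private theorem ua1_disp_nonneg (m0 : Measure G) (a : A) : 0 ≤ ua1_disp S m0 a :=
  integral_nonneg fun _ => by positivity

private theorem ua1_disp_smul (m0 : Measure G) (r : ℝ) (a : A) :
    ua1_disp S m0 ((r : ℂ) • a) = r ^ 2 * ua1_disp S m0 a := by
  unfold ua1_disp
  rw [← integral_const_mul]
  refine integral_congr_ae (Eventually.of_forall fun t => ?_)
  change ‖T.ι (S.α t ((r : ℂ) • a)) - T.ι ((r : ℂ) • a)‖ ^ 2
    = r ^ 2 * ‖T.ι (S.α t a) - T.ι a‖ ^ 2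
  rw [map_smul, map_smul, map_smul, ← smul_sub, norm_smul, mul_pow, Complex.norm_real,
    Real.norm_eq_abs, sq_abs]

/-- the outcome of a finite family -/
private noncomputable def ua1_out (m0 : Measure G) (c : ℝ) {Y : Type} (y : Y → A) {J : Type}
    [Fintype J] (a : J → A) : ℝ × ℝ × ℝ × (Y ⊕ Y → ℝ) :=
  (∑ i, ‖T.ι (a i)‖ ^ 2, ∑ i, ‖T.ι (S.E (a i))‖ ^ 2, c * ∑ i, ua1_disp S m0 (a i),
    Sum.elim (fun j => (∑ i, T.dens (a i) (y j - S.E (y j))).re)
      (fun j => (∑ i, T.dens (a i) (y j - S.E (y j))).im))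

private theorem ua1_out_add (m0 : Measure G) (c : ℝ) {Y : Type} (y : Y → A) {J J' : Type}
    [Fintype J] [Fintype J'] (a : J → A) (a' : J' → A) :
    ua1_out S m0 c y a + ua1_out S m0 c y a' = ua1_out S m0 c y (Sum.elim a a') := by
  unfold ua1_out
  refine Prod.ext ?_ (Prod.ext ?_ (Prod.ext ?_ ?_))
  · simp [Fintype.sum_sum_type]
  · simp [Fintype.sum_sum_type]
  · simp [Fintype.sum_sum_type, mul_add]
  · funext k
    rcases k with j | j
    · simp [Fintype.sum_sum_type]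
    · simp [Fintype.sum_sum_type]

private theorem ua1_out_smul (m0 : Measure G) (c : ℝ) {Y : Type} (y : Y → A) {J : Type}
    [Fintype J] (a : J → A) (r : ℝ) :
    (r ^ 2) • ua1_out S m0 c y a = ua1_out S m0 c y (fun i => (r : ℂ) • a i) := by
  unfold ua1_out
  have hn : ∀ b : A, ‖T.ι ((r : ℂ) • b)‖ ^ 2 = r ^ 2 * ‖T.ι b‖ ^ 2 := by
    intro b
    rw [map_smul, norm_smul, mul_pow, Complex.norm_real, Real.norm_eq_abs, sq_abs]
  refine Prod.ext ?_ (Prod.ext ?_ (Prod.ext ?_ ?_))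
  · change r ^ 2 * ∑ i, ‖T.ι (a i)‖ ^ 2 = ∑ i, ‖T.ι ((r : ℂ) • a i)‖ ^ 2
    rw [Finset.mul_sum]
    exact Finset.sum_congr rfl fun i _ => (hn _).symm
  · change r ^ 2 * ∑ i, ‖T.ι (S.E (a i))‖ ^ 2 = ∑ i, ‖T.ι (S.E ((r : ℂ) • a i))‖ ^ 2
    rw [Finset.mul_sum]
    refine Finset.sum_congr rfl fun i _ => ?_
    rw [S.E_smul, hn]
  · change r ^ 2 * (c * ∑ i, ua1_disp S m0 (a i)) = c * ∑ i, ua1_disp S m0 ((r : ℂ) • a i)
    rw [mul_left_comm, Finset.mul_sum]
    congr 1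
    exact Finset.sum_congr rfl fun i _ => (ua1_disp_smul S m0 r _).symm
  · have hd : ∀ z : A, ∑ i, T.dens ((r : ℂ) • a i) z = ((r ^ 2 : ℝ) : ℂ) * ∑ i, T.dens (a i) z := by
      intro z
      rw [Finset.mul_sum]
      exact Finset.sum_congr rfl fun i _ => T.dens_smul_real r (a i) z
    funext k
    rcases k with j | j
    · change r ^ 2 * (∑ i, T.dens (a i) (y j - S.E (y j))).re
        = (∑ i, T.dens ((r : ℂ) • a i) (y j - S.E (y j))).re
      rw [hd, Complex.re_ofReal_mul]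
    · change r ^ 2 * (∑ i, T.dens (a i) (y j - S.E (y j))).im
        = (∑ i, T.dens ((r : ℂ) • a i) (y j - S.E (y j))).im
      rw [hd, Complex.im_ofReal_mul]

/-- the densities are additive in the second variable -/
private theorem ua1_dens_sum (T : TrAlg A K) {Y : Type} [Fintype Y] (a : A) (k : Y → ℂ)
    (d : Y → A) : T.dens a (∑ j, k j • d j) = ∑ j, k j * T.dens a (d j) := by
  unfold TrAlg.dens
  rw [map_sum, inner_sum]
  refine Finset.sum_congr rfl fun j _ => ?_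
  rw [map_smul, inner_smul_right]

/-- A1b -/
theorem TrAct.exists_gap (h : ¬ S.StepATyp) :
    ∃ b1 b2 : A, S.Fixed b1 ∧ S.Fixed b2 ∧ IsSelfAdjoint b1 ∧ IsSelfAdjoint b2 ∧ b1 ≠ 0 ∧ b2 ≠ 0 ∧
      ∃ (m0 : Measure G) (C : ℝ) (y : A), IsProbabilityMeasure m0 ∧
        (∃ C0 : Set G, IsCompact C0 ∧ m0 C0ᶜ = 0) ∧ 0 ≤ C ∧ S.E y = 0 ∧
        S.GapOf b1 b2 1 m0 C y := by
  classical
  unfold TrAct.StepATyp at h
  push Not at h
  obtain ⟨b1, b2, hf1, hf2, hs1, hs2, h1, h2, D, hD, κ, hκ, Y, hY, y, hbad⟩ := h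
  obtain ⟨m0, hm0, hC0, c, hc, hsup⟩ := S.sup_le_integral D hD
  set O : Set (ℝ × ℝ × ℝ × (Y ⊕ Y → ℝ)) :=
    {o | ∃ (J : Type) (_ : Fintype J) (a x : J → A), (∀ i, a i = b1 * x i * b2) ∧
      o = ua1_out S m0 c y a} with hO
  have hadd : ∀ o ∈ O, ∀ o' ∈ O, o + o' ∈ O := by
    rintro _ ⟨J, hJ, a, x, hax, rfl⟩ _ ⟨J', hJ', a', x', hax', rfl⟩
    refine ⟨J ⊕ J', inferInstance, Sum.elim a a', Sum.elim x x', ?_, ua1_out_add S m0 c y a a'⟩
    rintro (i | i)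
    · exact hax i
    · exact hax' i
  have hsmul : ∀ o ∈ O, ∀ r : ℝ, 0 ≤ r → r • o ∈ O := by
    rintro _ ⟨J, hJ, a, x, hax, rfl⟩ r hr
    refine ⟨J, hJ, fun i => ((Real.sqrt r : ℝ) : ℂ) • a i, fun i => ((Real.sqrt r : ℝ) : ℂ) • x i,
      ?_, ?_⟩
    · intro i
      change ((Real.sqrt r : ℝ) : ℂ) • a i = b1 * (((Real.sqrt r : ℝ) : ℂ) • x i) * b2
      rw [hax i, mul_smul_comm, smul_mul_assoc]
    · rw [← ua1_out_smul S m0 c y a (Real.sqrt r), Real.sq_sqrt hr]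
  have h0 : ∀ o ∈ O, 0 ≤ o.2.1 ∧ 0 ≤ o.2.2.1 := by
    rintro _ ⟨J, hJ, a, x, hax, rfl⟩
    refine ⟨Finset.sum_nonneg fun i _ => by positivity, ?_⟩
    exact mul_nonneg hc.le (Finset.sum_nonneg fun i _ => ua1_disp_nonneg S m0 (a i))
  have hno : ∀ o ∈ O, ¬ (1 ≤ o.1 ∧ o.2.1 ≤ κ / 2 ∧ o.2.2.1 ≤ κ / 2 ∧
      ∀ i, |o.2.2.2 i| ≤ κ / 2) := by
    rintro _ ⟨J, hJ, a, x, hax, rfl⟩ ⟨g1, g2, g3, g4⟩
    change 1 ≤ ∑ i, ‖T.ι (a i)‖ ^ 2 at g1
    change ∑ i, ‖T.ι (S.E (a i))‖ ^ 2 ≤ κ / 2 at g2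
    change c * ∑ i, ua1_disp S m0 (a i) ≤ κ / 2 at g3
    obtain ⟨j, hj⟩ := hbad J hJ a x hax g1 (by linarith) (by
      intro s hs
      have e : ∑ i, ‖T.ι (S.α s (a i) - a i)‖ ^ 2 ≤ c * ∑ i, ua1_disp S m0 (a i) := by
        rw [Finset.mul_sum]
        exact Finset.sum_le_sum fun i _ => hsup (a i) s hs
      linarith)
    have k1 : |(∑ i, T.dens (a i) (y j - S.E (y j))).re| ≤ κ / 2 := g4 (Sum.inl j)
    have k2 : |(∑ i, T.dens (a i) (y j - S.E (y j))).im| ≤ κ / 2 := g4 (Sum.inr j)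
    have k3 := Complex.norm_le_abs_re_add_abs_im (∑ i, T.dens (a i) (y j - S.E (y j)))
    have k4 : κ < ‖∑ i, T.dens (a i) (y j - S.E (y j))‖ := hj
    linarith
  obtain ⟨C, hC, wt, hwt⟩ := cone_separation O hadd hsmul h0 (κ / 2) (by linarith) hno
  have hE0 : ∀ b : A, S.E (b - S.E b) = 0 := by
    intro b
    rw [S.E_sub, S.E_of_fixed (S.E_fixed b), sub_self]
  refine ⟨b1, b2, hf1, hf2, hs1, hs2, h1, h2, m0, C * max 1 c,
    ∑ j, ((wt (Sum.inl j) : ℂ) - Complex.I * (wt (Sum.inr j) : ℂ)) • (y j - S.E (y j)), hm0, hC0,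
    mul_nonneg hC (le_trans zero_le_one (le_max_left _ _)), ?_, ?_⟩
  · rw [S.E_sum]
    refine Finset.sum_eq_zero fun j _ => ?_
    rw [S.E_smul, hE0, smul_zero]
  · intro x a hax
    have e1 := hwt (ua1_out S m0 c y (fun _ : Unit => a)) ⟨Unit, inferInstance, fun _ => a,
      fun _ => x, fun _ => hax, rfl⟩
    have o1 : (ua1_out S m0 c y (fun _ : Unit => a)).1 = ‖T.ι a‖ ^ 2 := by
      simp [ua1_out]
    have o2 : (ua1_out S m0 c y (fun _ : Unit => a)).2.1 = ‖T.ι (S.E a)‖ ^ 2 := by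
      simp [ua1_out]
    have o3 : (ua1_out S m0 c y (fun _ : Unit => a)).2.2.1 = c * ua1_disp S m0 a := by
      simp [ua1_out]
    have o4 : ∀ j, (ua1_out S m0 c y (fun _ : Unit => a)).2.2.2 (Sum.inl j)
        = (T.dens a (y j - S.E (y j))).re := by
      intro j
      simp [ua1_out]
    have o5 : ∀ j, (ua1_out S m0 c y (fun _ : Unit => a)).2.2.2 (Sum.inr j)
        = (T.dens a (y j - S.E (y j))).im := by
      intro j
      simp [ua1_out]
    rw [Fintype.sum_sum_type, o1, o2, o3] at e1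
    simp only [o4, o5] at e1
    set dd : A := ∑ j, ((wt (Sum.inl j) : ℂ) - Complex.I * (wt (Sum.inr j) : ℂ)) •
      (y j - S.E (y j)) with hdd
    have e2 : S.ql 1 dd a + S.qr 1 dd a = (T.dens a dd).re := by
      unfold TrAct.ql TrAct.qr
      rw [T.dens_eq, Complex.add_re, S.one, add_comm]
    have e3 : (T.dens a dd).re = ∑ j, wt (Sum.inl j) * (T.dens a (y j - S.E (y j))).re
        + ∑ j, wt (Sum.inr j) * (T.dens a (y j - S.E (y j))).im := by
      rw [hdd, ua1_dens_sum, Complex.re_sum, ← Finset.sum_add_distrib]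
      refine Finset.sum_congr rfl fun j _ => ?_
      simp [Complex.mul_re, sub_mul]
    have e4 : ∫ s, ‖T.ι (S.α s a - a)‖ ^ 2 ∂m0 = ua1_disp S m0 a := by
      unfold ua1_disp
      refine integral_congr_ae (Eventually.of_forall fun t => ?_)
      change ‖T.ι (S.α t a - a)‖ ^ 2 = ‖T.ι (S.α t a) - T.ι a‖ ^ 2
      rw [map_sub]
    have e5 : C * (‖T.ι (S.E a)‖ ^ 2 + c * ua1_disp S m0 a)
        ≤ C * max 1 c * (‖T.ι (S.E a)‖ ^ 2 + ua1_disp S m0 a) := by
      rw [mul_assoc]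
      refine mul_le_mul_of_nonneg_left ?_ hC
      rw [mul_add]
      refine add_le_add ?_ (mul_le_mul_of_nonneg_right (le_max_right _ _)
        (ua1_disp_nonneg S m0 a))
      exact le_mul_of_one_le_left (by positivity) (le_max_left _ _)
    rw [one_mul, e4]
    linarith

end Pool.Agent.AbCoc
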