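import Pool.Agent.Lib_MP_418a80_un.UA0
import Pool.Agent.Lib_MP_418a80_ab.FamDom

/-! # A2: small coefficient in the gap inequality -/

set_option autoImplicit false
set_option linter.unusedVariables false
set_option linter.unusedSectionVars false

open MeasureTheory Topology Filter
open scoped ENNReal NNReal ComplexConjugate

namespace Pool.Agent.AbCoc

universe u v w z

variable {A : Type u} [CStarAlgebra A] {K : Type v} [NormedAddCommGroup K]
  [InnerProductSpace ℂ K] [CompleteSpace K]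
variable {G : Type w} [Group G] [TopologicalSpace G] [IsTopologicalGroup G] [T2Space G]
  [SecondCountableTopology G] [LocallyCompactSpace G] [MeasurableSpace G] [BorelSpace G]
  {T : TrAlg A K} (S : TrAct G T)
  {V : Type z} [NormedAddCommGroup V] [NormedSpace ℝ V] (Q : QMap G V)

/-- A2 -/
theorem TrAct.gap_avg (b1 b2 y : A) (m0 : Measure G) (hm0 : IsProbabilityMeasure m0)
    (hC0 : ∃ C0 : Set G, IsCompact C0 ∧ m0 C0ᶜ = 0) (C : ℝ) (hC : 0 ≤ C) (hy : S.E y = 0)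
    (h : S.GapOf b1 b2 1 m0 C y) (δ : ℝ) (hδ : 0 < δ) :
    ∃ (m1 : Measure G) (C1 : ℝ) (d : A), IsProbabilityMeasure m1 ∧
      (∃ C0 : Set G, IsCompact C0 ∧ m1 C0ᶜ = 0) ∧ 0 ≤ C1 ∧ ‖T.ι d‖ ≤ δ ∧
      S.GapOf b1 b2 (1 / 2) m1 C1 d := by
  obtain ⟨C0, hC0, hm0C⟩ := hC0
  obtain ⟨F, w, hw, hws, hFw⟩ := S.exists_avg_family Unit (fun _ => y) (δ ^ 2) (by positivity)
  obtain ⟨m1, hm1p, hm1c, hm1⟩ := exists_mixture m0 C0 hC0 hm0C F w hw hws
  refine ⟨m1, 2 * C + 16 * ‖y‖ ^ 2, S.avg F w y, hm1p, hm1c, by positivity, ?_, ?_⟩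
  · have h1 : ‖T.ι (S.avg F w y)‖ ^ 2 < δ ^ 2 := by
      simpa [hy] using hFw
    exact (abs_le_of_sq_le_sq' h1.le hδ.le).2
  · intro x a hax
    have h0 := h x a hax
    have hql : ∀ m : A, S.ql 1 m a + S.qr 1 m a = (T.dens a m).re := by
      intro m
      unfold TrAct.ql TrAct.qr
      rw [T.dens_eq, Complex.add_re, S.one]
      ring
    have hcont : Continuous fun s => ‖T.ι (S.α s a - a)‖ ^ 2 := by
      simp only [map_sub]
      exact (((S.cont a).sub continuous_const).norm).pow 2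
    have hbd : ∀ s, ‖T.ι (S.α s a - a)‖ ≤ 2 * ‖T.ι a‖ := fun s => by
      rw [map_sub]
      refine (norm_sub_le _ _).trans ?_
      rw [S.norm_map]
      linarith
    have hint := hm1 _ hcont ⟨(2 * ‖T.ι a‖) ^ 2, fun s => by
      rw [abs_of_nonneg (by positivity)]
      exact pow_le_pow_left₀ (norm_nonneg _) (hbd s) 2⟩
    rw [hint]
    set I0 := ∫ s, ‖T.ι (S.α s a - a)‖ ^ 2 ∂m0 with hI0
    set S0 := ∑ g ∈ F, w g * ‖T.ι (S.α g a - a)‖ ^ 2 with hS0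
    have hI0n : 0 ≤ I0 := integral_nonneg fun s => by positivity
    have hS0n : 0 ≤ S0 := Finset.sum_nonneg fun g _ => mul_nonneg (hw g) (by positivity)
    have hjen := jensen_sum F w hw hws (fun g => ‖T.ι (S.α g a - a)‖)
    set ρ := ∑ g ∈ F, w g * ‖T.ι (S.α g a - a)‖ with hρ
    have hρ2 : ρ ^ 2 ≤ S0 := hjen
    have hd := S.dens_avg F w hw hws a y
    rw [← hρ] at hd
    have hre : (T.dens a y).re ≤ (T.dens a (S.avg F w y)).re + 4 * (‖y‖ * (‖T.ι a‖ * ρ)) := by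
      have h1 := (Complex.abs_re_le_norm (T.dens a y - T.dens a (S.avg F w y))).trans hd
      rw [Complex.sub_re] at h1
      have := (abs_le.1 h1).2
      linarith
    have hyoung : 4 * (‖y‖ * (‖T.ι a‖ * ρ)) ≤ ‖T.ι a‖ ^ 2 / 2 + 8 * ‖y‖ ^ 2 * ρ ^ 2 := by
      nlinarith [sq_nonneg (‖T.ι a‖ - 4 * ‖y‖ * ρ)]
    have hyS : 8 * ‖y‖ ^ 2 * ρ ^ 2 ≤ 8 * ‖y‖ ^ 2 * S0 :=
      mul_le_mul_of_nonneg_left hρ2 (by positivity)
    have h0' : ‖T.ι a‖ ^ 2 ≤ C * (‖T.ι (S.E a)‖ ^ 2 + I0) + (T.dens a y).re := by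
      have := h0
      rw [add_assoc, hql y, one_mul] at this
      exact this
    rw [add_assoc, hql]
    have hn1 : 0 ≤ C * S0 := mul_nonneg hC hS0n
    have hn2 : 0 ≤ ‖y‖ ^ 2 * I0 := by positivity
    have hn3 : 0 ≤ ‖y‖ ^ 2 * ‖T.ι (S.E a)‖ ^ 2 := by positivity
    have hn4 : 0 ≤ C * ‖T.ι (S.E a)‖ ^ 2 := by positivity
    nlinarith

end Pool.Agent.AbCoc
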