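import Pool.Agent.Lib_MP_418a80_un.UA0

/-! # A3b: the norm and the coefficient terms of a combination of translates -/

set_option autoImplicit false
set_option linter.unusedVariables false
set_option linter.unusedSectionVars false

open MeasureTheory Topology Filter
open scoped ENNReal NNReal ComplexConjugate

namespace Pool.Agent.AbCoc

universe u v w z

variable {A : Type u} [CStarAlgebra A] {K : Type v} [NormedAddCommGroup K]
  [InnerProductSpace ℂ K] [CompleteSpace K]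
variable {G : Type w} [Group G] [TopologicalSpace G] [IsTopologicalGroup G] [T2Space G]
  [SecondCountableTopology G] [LocallyCompactSpace G] [MeasurableSpace G] [BorelSpace G]
  {T : TrAlg A K} (S : TrAct G T)
  {V : Type z} [NormedAddCommGroup V] [NormedSpace ℝ V] (Q : QMap G V)

private theorem UA3b_double {X : Type*} (J : Finset X) (c : X → ℝ) (u v : X → A) :
    inner ℂ (T.ι (∑ i ∈ J, (c i : ℂ) • u i)) (T.ι (∑ j ∈ J, (c j : ℂ) • v j))
      = ∑ i ∈ J, ∑ j ∈ J, ((c i * c j : ℝ) : ℂ) * inner ℂ (T.ι (u i)) (T.ι (v j)) := by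
  rw [map_sum, map_sum, sum_inner]
  refine Finset.sum_congr rfl fun i _ => ?_
  rw [inner_sum]
  refine Finset.sum_congr rfl fun j _ => ?_
  rw [map_smul, map_smul, inner_smul_left, inner_smul_right, Complex.conj_ofReal]
  push_cast
  ring

private theorem UA3b_split {X : Type*} [DecidableEq X] (J : Finset X) (f : X → X → ℂ) :
    ∑ i ∈ J, ∑ j ∈ J, f i j = ∑ i ∈ J, f i i + ∑ p ∈ J.offDiag, f p.1 p.2 := by
  have h : ∑ i ∈ J, ∑ j ∈ J, f i j = ∑ p ∈ J ×ˢ J, f p.1 p.2 :=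
    (Finset.sum_product' J J f).symm
  rw [h, ← Finset.diag_union_offDiag, Finset.sum_union (Finset.disjoint_diag_offDiag J),
    Finset.sum_diag]

private theorem UA3b_ql (s t : G) (d a : A) :
    inner ℂ (T.ι (S.α s a)) (T.ι (d * S.α t a))
      = inner ℂ (T.ι a) (T.ι (S.α s⁻¹ d * S.α (s⁻¹ * t) a)) := by
  rw [← S.inner_map s a, map_mul (S.α s), S.apply_inv, ← S.mul, mul_inv_cancel_left]

private theorem UA3b_qr (s t : G) (d a : A) :
    inner ℂ (T.ι (S.α s a)) (T.ι (S.α t a * d))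
      = inner ℂ (T.ι a) (T.ι (S.α (s⁻¹ * t) a * S.α s⁻¹ d)) := by
  rw [← S.inner_map s a, map_mul (S.α s), S.apply_inv, ← S.mul, mul_inv_cancel_left]

/-- A3b': the coefficient terms of a combination of translates -/
theorem TrAct.ql_comb {X : Type*} [DecidableEq X] (r : X → G) (J : Finset X) (c : X → ℝ) (d a : A) :
    S.ql 1 d (∑ i ∈ J, (c i : ℂ) • S.α (r i) a)
      = S.ql 1 (∑ i ∈ J, ((c i ^ 2 : ℝ) : ℂ) • S.α (r i)⁻¹ d) a
        + ∑ p ∈ J.offDiag, S.ql ((r p.1)⁻¹ * r p.2)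
          (((c p.1 * c p.2 : ℝ) : ℂ) • S.α (r p.1)⁻¹ d) a := by
  have h1 : inner ℂ (T.ι (∑ i ∈ J, (c i : ℂ) • S.α (r i) a))
      (T.ι (d * S.α 1 (∑ i ∈ J, (c i : ℂ) • S.α (r i) a)))
      = inner ℂ (T.ι a) (T.ι ((∑ i ∈ J, ((c i ^ 2 : ℝ) : ℂ) • S.α (r i)⁻¹ d) * S.α 1 a))
        + ∑ p ∈ J.offDiag, inner ℂ (T.ι a)
          (T.ι ((((c p.1 * c p.2 : ℝ) : ℂ) • S.α (r p.1)⁻¹ d) * S.α ((r p.1)⁻¹ * r p.2) a)) := by
    rw [S.one, S.one]
    have e1 : d * ∑ i ∈ J, (c i : ℂ) • S.α (r i) a = ∑ i ∈ J, (c i : ℂ) • (d * S.α (r i) a) := by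
      rw [Finset.mul_sum]
      exact Finset.sum_congr rfl fun i _ => mul_smul_comm _ _ _
    rw [e1, UA3b_double, UA3b_split]
    congr 1
    · rw [Finset.sum_mul, map_sum, inner_sum]
      refine Finset.sum_congr rfl fun i _ => ?_
      rw [UA3b_ql, inv_mul_cancel, S.one, smul_mul_assoc, map_smul, inner_smul_right]
      push_cast
      ring
    · refine Finset.sum_congr rfl fun p _ => ?_
      rw [UA3b_ql, smul_mul_assoc, map_smul, inner_smul_right]
  unfold TrAct.ql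
  rw [h1, Complex.add_re, Complex.re_sum]

theorem TrAct.qr_comb {X : Type*} [DecidableEq X] (r : X → G) (J : Finset X) (c : X → ℝ) (d a : A) :
    S.qr 1 d (∑ i ∈ J, (c i : ℂ) • S.α (r i) a)
      = S.qr 1 (∑ i ∈ J, ((c i ^ 2 : ℝ) : ℂ) • S.α (r i)⁻¹ d) a
        + ∑ p ∈ J.offDiag, S.qr ((r p.1)⁻¹ * r p.2)
          (((c p.1 * c p.2 : ℝ) : ℂ) • S.α (r p.1)⁻¹ d) a := by
  have h1 : inner ℂ (T.ι (∑ i ∈ J, (c i : ℂ) • S.α (r i) a))
      (T.ι (S.α 1 (∑ i ∈ J, (c i : ℂ) • S.α (r i) a) * d))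
      = inner ℂ (T.ι a) (T.ι (S.α 1 a * (∑ i ∈ J, ((c i ^ 2 : ℝ) : ℂ) • S.α (r i)⁻¹ d)))
        + ∑ p ∈ J.offDiag, inner ℂ (T.ι a)
          (T.ι (S.α ((r p.1)⁻¹ * r p.2) a * (((c p.1 * c p.2 : ℝ) : ℂ) • S.α (r p.1)⁻¹ d))) := by
    rw [S.one, S.one]
    have e1 : (∑ i ∈ J, (c i : ℂ) • S.α (r i) a) * d = ∑ i ∈ J, (c i : ℂ) • (S.α (r i) a * d) := by
      rw [Finset.sum_mul]
      exact Finset.sum_congr rfl fun i _ => smul_mul_assoc _ _ _
    rw [e1, UA3b_double, UA3b_split]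
    congr 1
    · rw [Finset.mul_sum, map_sum, inner_sum]
      refine Finset.sum_congr rfl fun i _ => ?_
      rw [UA3b_qr, inv_mul_cancel, S.one, mul_smul_comm, map_smul, inner_smul_right]
      push_cast
      ring
    · refine Finset.sum_congr rfl fun p _ => ?_
      rw [UA3b_qr, mul_smul_comm, map_smul, inner_smul_right]
  unfold TrAct.qr
  rw [h1, Complex.add_re, Complex.re_sum]

/-- A3b: the norm of a combination of translates -/
theorem TrAct.norm_sq_comb {X : Type*} [DecidableEq X] (r : X → G) (J : Finset X) (c : X → ℝ) (a : A) :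
    ‖T.ι (∑ i ∈ J, (c i : ℂ) • S.α (r i) a)‖ ^ 2
      = (∑ i ∈ J, c i ^ 2) * ‖T.ι a‖ ^ 2
        + ∑ p ∈ J.offDiag, S.ql ((r p.1)⁻¹ * r p.2) (((c p.1 * c p.2 : ℝ) : ℂ) • (1 : A)) a := by
  have h := S.ql_comb r J c 1 a
  have e0 : ∀ b : A, S.ql 1 1 b = ‖T.ι b‖ ^ 2 := by
    intro b
    unfold TrAct.ql
    rw [S.one, one_mul, inner_self_eq_norm_sq_to_K]
    norm_cast
  rw [e0] at h
  rw [h]
  congr 1
  · have e2 : (∑ i ∈ J, ((c i ^ 2 : ℝ) : ℂ) • S.α (r i)⁻¹ (1 : A))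
        = ((∑ i ∈ J, c i ^ 2 : ℝ) : ℂ) • (1 : A) := by
      rw [Complex.ofReal_sum, Finset.sum_smul]
      exact Finset.sum_congr rfl fun i _ => by rw [map_one]
    unfold TrAct.ql
    rw [e2, S.one, smul_mul_assoc, one_mul, map_smul, inner_smul_right, inner_self_eq_norm_sq_to_K,
      Complex.re_ofReal_mul]
    congr 1
    norm_cast
  · refine Finset.sum_congr rfl fun p _ => ?_
    rw [map_one]

end Pool.Agent.AbCoc
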