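import Pool.Agent.Lib_MP_418a80_un.UA3a
import Pool.Agent.Lib_MP_418a80_un.UA3b

/-! # A3: Reiter weights on `G ⧸ U` inserted in the gap inequality -/

set_option autoImplicit false
set_option linter.unusedVariables false
set_option linter.unusedSectionVars false

open MeasureTheory Topology Filter
open scoped ENNReal NNReal ComplexConjugate

namespace Pool.Agent.AbCoc

universe u v w z

variable {A : Type u} [CStarAlgebra A] {K : Type v} [NormedAddCommGroup K]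
  [InnerProductSpace ℂ K] [CompleteSpace K]
variable {G : Type w} [Group G] [TopologicalSpace G] [IsTopologicalGroup G] [T2Space G]
  [SecondCountableTopology G] [LocallyCompactSpace G] [MeasurableSpace G] [BorelSpace G]
  {T : TrAlg A K} (S : TrAct G T)
  {V : Type z} [NormedAddCommGroup V] [NormedSpace ℝ V] (Q : QMap G V)

private theorem TrAct.UA3_ql_smul (g : G) (r : ℝ) (m a : A) :
    S.ql g ((r : ℂ) • m) a = r * S.ql g m a := by
  unfold TrAct.ql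
  rw [smul_mul_assoc, map_smul, inner_smul_right, Complex.re_ofReal_mul]

private theorem TrAct.UA3_qr_smul (g : G) (r : ℝ) (m a : A) :
    S.qr g ((r : ℂ) • m) a = r * S.qr g m a := by
  unfold TrAct.qr
  rw [mul_smul_comm, map_smul, inner_smul_right, Complex.re_ofReal_mul]

private theorem TrAct.UA3_ql_add (g : G) (m m' a : A) :
    S.ql g (m + m') a = S.ql g m a + S.ql g m' a := by
  unfold TrAct.ql
  rw [add_mul, map_add, inner_add_right, Complex.add_re]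

private theorem UA3_sq (x y : ℝ) : (x + y) ^ 2 ≤ 2 * x ^ 2 + 2 * y ^ 2 := by
  nlinarith [sq_nonneg (x - y)]

omit [SecondCountableTopology G] [LocallyCompactSpace G] [MeasurableSpace G] [BorelSpace G]
  [T2Space G] in
private theorem UA3_out_mem (U : Subgroup G) (s : G) (i : G ⧸ U) :
    (Quotient.out (s • i))⁻¹ * s * Quotient.out i ∈ U := by
  rw [mul_assoc, ← QuotientGroup.eq]
  rw [QuotientGroup.out_eq']
  have h : ((s * Quotient.out i : G) : G ⧸ U) = s • ((Quotient.out i : G) : G ⧸ U) := rfl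
  rw [h, QuotientGroup.out_eq']

omit [SecondCountableTopology G] [LocallyCompactSpace G] [MeasurableSpace G] [BorelSpace G]
  [T2Space G] in
private theorem UA3_cont (U : Subgroup G) (hU : IsOpen (U : Set G)) (w : G ⧸ U → ℝ) (j : G ⧸ U) :
    Continuous fun s : G => √(w (s⁻¹ • j)) := by
  have h0 : DiscreteTopology (G ⧸ U) := QuotientGroup.discreteTopology hU
  have h1 : Continuous fun s : G => s⁻¹ • j := by
    have h2 : (fun s : G => s⁻¹ • j) = fun s : G => ((s⁻¹ * Quotient.out j : G) : G ⧸ U) := by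
      funext s
      have h3 : ((s⁻¹ * Quotient.out j : G) : G ⧸ U)
        = s⁻¹ • ((Quotient.out j : G) : G ⧸ U) := rfl
      rw [h3, QuotientGroup.out_eq']
    rw [h2]
    exact continuous_quotient_mk'.comp (continuous_inv.mul continuous_const)
  exact Real.continuous_sqrt.comp (continuous_of_discreteTopology.comp h1)

open Classical in
/-- A3c: the displacement of the combination -/
theorem TrAct.exists_integral_comb_le (U : Subgroup G) (hU : IsOpen (U : Set G)) (m0 : Measure G)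
    [IsProbabilityMeasure m0] (D : Set G) (hD : IsCompact D) (hm0 : m0 Dᶜ = 0)
    (F J : Finset (G ⧸ U)) (w : G ⧸ U → ℝ) (hw : ∀ i, 0 ≤ w i) (hwF : ∀ i, i ∉ F → w i = 0)
    (hFJ : F ⊆ J) (hDJ : ∀ s ∈ D, ∀ i ∈ F, s • i ∈ J) (κ0 : ℝ)
    (hκ0 : ∀ s ∈ D, ∑ i ∈ J, (√(w (s⁻¹ • i)) - √(w i)) ^ 2 ≤ κ0) :
    ∃ (C : ℝ) (DL : Set G) (γ : (G ⧸ U) × (G ⧸ U) → ℝ), 0 ≤ C ∧ IsCompact DL ∧ DL ⊆ (U : Set G) ∧
      ∀ (a : A) (κ : ℝ), 0 ≤ κ → (∀ l ∈ DL, ‖T.ι (S.α l a - a)‖ ≤ κ) →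
        ∫ s, ‖T.ι (S.α s (∑ i ∈ F, ((√(w i) : ℝ) : ℂ) • S.α (Quotient.out i) a)
            - ∑ i ∈ F, ((√(w i) : ℝ) : ℂ) • S.α (Quotient.out i) a)‖ ^ 2 ∂m0
          ≤ C * κ ^ 2 + 2 * κ0 * ‖T.ι a‖ ^ 2
            + ∑ p ∈ J.offDiag,
              S.ql ((Quotient.out p.1)⁻¹ * Quotient.out p.2) ((γ p : ℂ) • (1 : A)) a := by
  set c : G → G ⧸ U → ℝ := fun s j => √(w (s⁻¹ • j)) - √(w j) with hc
  set W : ℝ := ∑ i ∈ F, √(w i) with hW
  have hW0 : 0 ≤ W := Finset.sum_nonneg fun i _ => Real.sqrt_nonneg _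
  have hwW : ∀ i, √(w i) ≤ W := by
    intro i
    by_cases hi : i ∈ F
    · exact Finset.single_le_sum (f := fun i => √(w i)) (fun i _ => Real.sqrt_nonneg _) hi
    · rw [hwF i hi, Real.sqrt_zero]
      exact hW0
  have hcc : ∀ j, Continuous fun s => c s j := fun j =>
    (UA3_cont U hU w j).sub continuous_const
  have hcb : ∀ s j, |c s j| ≤ W := by
    intro s j
    rw [abs_le]
    have h1 := hwW (s⁻¹ • j)
    have h2 := hwW j
    have h3 := Real.sqrt_nonneg (w (s⁻¹ • j))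
    have h4 := Real.sqrt_nonneg (w j)
    constructor
    · simp only [hc]
      linarith
    · simp only [hc]
      linarith
  set DL : Set G := (U : Set G) ∩ ⋃ i ∈ F, ⋃ j ∈ J,
    (fun s : G => (Quotient.out j)⁻¹ * s * Quotient.out i) '' D with hDL
  refine ⟨2 * W ^ 2, DL, fun p => 2 * ∫ s, c s p.1 * c s p.2 ∂m0, by positivity, ?_, ?_, ?_⟩
  · refine IsCompact.inter_left ?_ (U.isClosed_of_isOpen hU)
    refine F.isCompact_biUnion fun i _ => J.isCompact_biUnion fun j _ => hD.image ?_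
    exact (continuous_const.mul continuous_id).mul continuous_const
  · exact Set.inter_subset_left
  intro a κ hκ ha
  set b : A := ∑ i ∈ F, ((√(w i) : ℝ) : ℂ) • S.α (Quotient.out i) a with hb
  -- pointwise bound
  have hpt : ∀ s ∈ D, ‖T.ι (S.α s b - b)‖ ^ 2 ≤ 2 * W ^ 2 * κ ^ 2 + 2 * κ0 * ‖T.ι a‖ ^ 2
      + ∑ p ∈ J.offDiag, 2 * (c s p.1 * c s p.2)
        * S.ql ((Quotient.out p.1)⁻¹ * Quotient.out p.2) 1 a := by
    intro s hs
    set l : G ⧸ U → G := fun i => (Quotient.out (s • i))⁻¹ * s * Quotient.out i with hl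
    have hlD : ∀ i ∈ F, l i ∈ DL := by
      intro i hi
      refine ⟨UA3_out_mem U s i, ?_⟩
      exact Set.mem_biUnion hi (Set.mem_biUnion (hDJ s hs i hi) ⟨s, hs, rfl⟩)
    set X : A := ∑ i ∈ F, ((√(w i) : ℝ) : ℂ) • S.α (Quotient.out (s • i)) (S.α (l i) a - a)
      with hX
    set Y : A := ∑ j ∈ J, ((c s j : ℝ) : ℂ) • S.α (Quotient.out j) a with hY
    have e1 : S.α s b = X + ∑ i ∈ F, ((√(w i) : ℝ) : ℂ) • S.α (Quotient.out (s • i)) a := by
      rw [hb, hX, map_sum, ← Finset.sum_add_distrib]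
      refine Finset.sum_congr rfl fun i _ => ?_
      rw [map_smul, map_sub, smul_sub, sub_add_cancel, ← S.mul, ← S.mul]
      congr 2
      simp only [hl]
      group
    have e2 : ∑ i ∈ F, ((√(w i) : ℝ) : ℂ) • S.α (Quotient.out (s • i)) a
        = ∑ j ∈ J, ((√(w (s⁻¹ • j)) : ℝ) : ℂ) • S.α (Quotient.out j) a := by
      have hinj : Set.InjOn (fun i : G ⧸ U => s • i) (F : Set (G ⧸ U)) :=
        fun x _ y _ h => smul_left_cancel s h
      rw [← Finset.sum_subset (s₁ := F.image (fun i => s • i)) (s₂ := J)]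
      · rw [Finset.sum_image hinj]
        refine Finset.sum_congr rfl fun i _ => ?_
        rw [inv_smul_smul]
      · intro j hj
        obtain ⟨i, hi, rfl⟩ := Finset.mem_image.1 hj
        exact hDJ s hs i hi
      · intro j _ hj2
        have h1 : s⁻¹ • j ∉ F := fun h => hj2 (Finset.mem_image.2 ⟨s⁻¹ • j, h, smul_inv_smul s j⟩)
        rw [hwF _ h1, Real.sqrt_zero, Complex.ofReal_zero, zero_smul]
    have e3 : b = ∑ j ∈ J, ((√(w j) : ℝ) : ℂ) • S.α (Quotient.out j) a := by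
      rw [hb]
      refine Finset.sum_subset hFJ fun j _ hj => ?_
      rw [hwF _ hj, Real.sqrt_zero, Complex.ofReal_zero, zero_smul]
    have e4 : S.α s b - b = X + Y := by
      rw [e1, e2, add_sub_assoc]
      congr 1
      conv_lhs => rw [e3]
      rw [hY, ← Finset.sum_sub_distrib]
      refine Finset.sum_congr rfl fun j _ => ?_
      rw [← sub_smul, ← Complex.ofReal_sub]
    have hXn : ‖T.ι X‖ ≤ W * κ := by
      rw [hX, map_sum, hW, Finset.sum_mul]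
      refine (norm_sum_le _ _).trans (Finset.sum_le_sum fun i hi => ?_)
      rw [map_smul, norm_smul, Complex.norm_real, Real.norm_eq_abs,
        abs_of_nonneg (Real.sqrt_nonneg _), S.norm_map]
      exact mul_le_mul_of_nonneg_left (ha (l i) (hlD i hi)) (Real.sqrt_nonneg _)
    have hYn : ‖T.ι Y‖ ^ 2 = (∑ j ∈ J, (c s j) ^ 2) * ‖T.ι a‖ ^ 2
        + ∑ p ∈ J.offDiag, S.ql ((Quotient.out p.1)⁻¹ * Quotient.out p.2)
          (((c s p.1 * c s p.2 : ℝ) : ℂ) • (1 : A)) a :=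
      S.norm_sq_comb (fun j : G ⧸ U => Quotient.out j) J (c s) a
    have h1 : ‖T.ι (S.α s b - b)‖ ^ 2 ≤ 2 * ‖T.ι X‖ ^ 2 + 2 * ‖T.ι Y‖ ^ 2 := by
      rw [e4, map_add]
      refine le_trans ?_ (UA3_sq ‖T.ι X‖ ‖T.ι Y‖)
      exact pow_le_pow_left₀ (norm_nonneg _) (norm_add_le _ _) 2
    have h2 : ‖T.ι X‖ ^ 2 ≤ W ^ 2 * κ ^ 2 := by
      rw [← mul_pow]
      exact pow_le_pow_left₀ (norm_nonneg _) hXn 2
    have h3 : (∑ j ∈ J, (c s j) ^ 2) * ‖T.ι a‖ ^ 2 ≤ κ0 * ‖T.ι a‖ ^ 2 :=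
      mul_le_mul_of_nonneg_right (hκ0 s hs) (by positivity)
    have h4 : ∑ p ∈ J.offDiag, 2 * (c s p.1 * c s p.2)
        * S.ql ((Quotient.out p.1)⁻¹ * Quotient.out p.2) 1 a
        = 2 * ∑ p ∈ J.offDiag, S.ql ((Quotient.out p.1)⁻¹ * Quotient.out p.2)
          (((c s p.1 * c s p.2 : ℝ) : ℂ) • (1 : A)) a := by
      rw [Finset.mul_sum]
      refine Finset.sum_congr rfl fun p _ => ?_
      rw [S.UA3_ql_smul]
      ring
    rw [h4]
    rw [hYn] at h1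
    nlinarith [h1, h2, h3]
  -- integrability
  have hint1 : Integrable (fun s => ‖T.ι (S.α s b - b)‖ ^ 2) m0 := by
    have h1 : Continuous fun s => ‖T.ι (S.α s b - b)‖ ^ 2 := by
      simp only [map_sub]
      exact (((S.cont b).sub continuous_const).norm).pow 2
    refine Integrable.of_bound h1.aestronglyMeasurable ((2 * ‖T.ι b‖) ^ 2)
      (Filter.Eventually.of_forall fun s => ?_)
    rw [Real.norm_of_nonneg (by positivity)]
    refine pow_le_pow_left₀ (norm_nonneg _) ?_ 2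
    rw [map_sub]
    refine (norm_sub_le _ _).trans ?_
    rw [S.norm_map]
    linarith
  have hint2 : ∀ p : (G ⧸ U) × (G ⧸ U), Integrable (fun s => c s p.1 * c s p.2) m0 := by
    intro p
    refine Integrable.of_bound ((hcc p.1).mul (hcc p.2)).aestronglyMeasurable (W * W)
      (Filter.Eventually.of_forall fun s => ?_)
    rw [norm_mul]
    exact mul_le_mul (hcb s p.1) (hcb s p.2) (norm_nonneg _) hW0
  have hint3 : ∀ p ∈ J.offDiag, Integrable (fun s => 2 * (c s p.1 * c s p.2)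
        * S.ql ((Quotient.out p.1)⁻¹ * Quotient.out p.2) 1 a) m0 :=
    fun p _ => ((hint2 p).const_mul 2).mul_const _
  have hae : ∀ᵐ s ∂m0, ‖T.ι (S.α s b - b)‖ ^ 2 ≤ (2 * W ^ 2 * κ ^ 2 + 2 * κ0 * ‖T.ι a‖ ^ 2)
      + ∑ p ∈ J.offDiag, 2 * (c s p.1 * c s p.2)
        * S.ql ((Quotient.out p.1)⁻¹ * Quotient.out p.2) 1 a := by
    have h1 : ∀ᵐ s ∂m0, s ∈ D := by
      rw [ae_iff]
      exact hm0
    filter_upwards [h1] with s hs
    exact hpt s hs
  have hsum : Integrable (fun s => ∑ p ∈ J.offDiag, 2 * (c s p.1 * c s p.2)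
        * S.ql ((Quotient.out p.1)⁻¹ * Quotient.out p.2) 1 a) m0 :=
    integrable_finsetSum _ hint3
  calc ∫ s, ‖T.ι (S.α s b - b)‖ ^ 2 ∂m0
      ≤ ∫ s, ((2 * W ^ 2 * κ ^ 2 + 2 * κ0 * ‖T.ι a‖ ^ 2)
      + ∑ p ∈ J.offDiag, 2 * (c s p.1 * c s p.2)
        * S.ql ((Quotient.out p.1)⁻¹ * Quotient.out p.2) 1 a) ∂m0 :=
        integral_mono_ae hint1 ((integrable_const _).add hsum) hae
    _ = (2 * W ^ 2 * κ ^ 2 + 2 * κ0 * ‖T.ι a‖ ^ 2)
      + ∑ p ∈ J.offDiag, (2 * ∫ s, c s p.1 * c s p.2 ∂m0)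
        * S.ql ((Quotient.out p.1)⁻¹ * Quotient.out p.2) 1 a := by
        rw [integral_add (integrable_const _) hsum, integral_const, probReal_univ, one_smul,
          integral_finsetSum _ hint3]
        congr 1
        refine Finset.sum_congr rfl fun p _ => ?_
        rw [integral_mul_const, integral_const_mul]
    _ = 2 * W ^ 2 * κ ^ 2 + 2 * κ0 * ‖T.ι a‖ ^ 2
            + ∑ p ∈ J.offDiag, S.ql ((Quotient.out p.1)⁻¹ * Quotient.out p.2)
              (((2 * ∫ s, c s p.1 * c s p.2 ∂m0 : ℝ) : ℂ) • (1 : A)) a := by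
        congr 1
        refine Finset.sum_congr rfl fun p _ => ?_
        rw [S.UA3_ql_smul]

/-- A3: the inequality in `x` -/
theorem TrAct.ineqA_of_gap (μ : Measure G) [μ.IsHaarMeasure] (hR : Reiter μ) (b1 b2 : A)
    (hb1 : S.Fixed b1) (hb2 : S.Fixed b2) (δ : ℝ)
    (m0 : Measure G) (hm0 : IsProbabilityMeasure m0)
    (hC0 : ∃ C0 : Set G, IsCompact C0 ∧ m0 C0ᶜ = 0) (C : ℝ) (hC : 0 ≤ C) (d : A)
    (hd : ‖T.ι d‖ ≤ δ) (h : S.GapOf b1 b2 (1 / 2) m0 C d) : S.IneqA Q b1 b2 δ := by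
  classical
  obtain ⟨C0, hC0c, hm0C⟩ := hC0
  set κ0 : ℝ := 1 / (8 * (C + 1)) with hκ0
  have hκ0p : 0 < κ0 := by positivity
  have hCκ : C * (2 * κ0) ≤ 1 / 4 := by
    rw [hκ0]
    have h1 : C * (2 * (1 / (8 * (C + 1)))) = C / (C + 1) / 4 := by
      field_simp
      ring
    rw [h1]
    have h2 : C / (C + 1) ≤ 1 := (div_le_one (by positivity)).2 (by linarith)
    linarith
  obtain ⟨F, J, w, hw, hwF, hw1, hFJ, hDJ, hκ⟩ :=
    exists_reiter_coset μ hR Q.U Q.isOpen C0 hC0c κ0 hκ0p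
  obtain ⟨C1, DL, γ, hC1, hDLc, hDLU, hγ⟩ := S.exists_integral_comb_le Q.U Q.isOpen m0 C0 hC0c
    hm0C F J w hw hwF hFJ hDJ κ0 hκ
  obtain ⟨R, hR1⟩ : ∃ R : ℝ, ∀ l ∈ DL, ‖Q.q l‖ ≤ R := by
    have h1 : IsCompact (Q.q '' DL) := hDLc.image Q.cont
    obtain ⟨R, hR⟩ := h1.isBounded.exists_norm_le
    exact ⟨R, fun l hl => hR _ ⟨l, hl, rfl⟩⟩
  set W : ℝ := ∑ i ∈ F, √(w i) with hW
  set d' : A := ∑ i ∈ F, (((√(w i)) ^ 2 : ℝ) : ℂ) • S.α (Quotient.out i)⁻¹ d with hd'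
  set r : (G ⧸ Q.U) × (G ⧸ Q.U) → G := fun p => (Quotient.out p.1)⁻¹ * Quotient.out p.2 with hr
  set ww : (G ⧸ Q.U) × (G ⧸ Q.U) → ℝ := fun p => √(w p.1) * √(w p.2) with hww
  set mR : (G ⧸ Q.U) × (G ⧸ Q.U) → A := fun p => ((ww p : ℝ) : ℂ) • S.α (Quotient.out p.1)⁻¹ d
    with hmR
  set mL : (G ⧸ Q.U) × (G ⧸ Q.U) → A := fun p =>
    ((C * γ p - 1 / 2 * ww p : ℝ) : ℂ) • (1 : A) + mR p with hmL
  have hoff : F.offDiag ⊆ J.offDiag := by
    intro p hp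
    rw [Finset.mem_offDiag] at hp ⊢
    exact ⟨hFJ hp.1, hFJ hp.2.1, hp.2.2⟩
  have hww0 : ∀ p ∈ J.offDiag, p ∉ F.offDiag → ww p = 0 := by
    intro p hp hpF
    rw [Finset.mem_offDiag] at hp hpF
    by_cases h1 : p.1 ∈ F
    · have h2 : p.2 ∉ F := fun h2 => hpF ⟨h1, h2, hp.2.2⟩
      simp only [hww]
      rw [hwF _ h2, Real.sqrt_zero, mul_zero]
    · simp only [hww]
      rw [hwF _ h1, Real.sqrt_zero, zero_mul]
  set e := J.offDiag.equivFin with he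
  refine ⟨C * (W ^ 2 + C1), R, J.offDiag.card, fun i => r (e.symm i).1,
    fun i => mL (e.symm i).1, fun i => mR (e.symm i).1, d', ?_, ?_, ?_, ?_⟩
  · positivity
  · intro i hi
    have h1 := (e.symm i).2
    rw [Finset.mem_offDiag] at h1
    apply h1.2.2
    have h2 : (((Quotient.out (e.symm i).1.1 : G)) : G ⧸ Q.U)
        = ((Quotient.out (e.symm i).1.2 : G) : G ⧸ Q.U) := QuotientGroup.eq.2 hi
    rwa [QuotientGroup.out_eq', QuotientGroup.out_eq'] at h2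
  · rw [hd', map_sum]
    refine (norm_sum_le _ _).trans ?_
    have h1 : ∀ i ∈ F, ‖T.ι ((((√(w i)) ^ 2 : ℝ) : ℂ) • S.α (Quotient.out i)⁻¹ d)‖
        = w i * ‖T.ι d‖ := by
      intro i _
      rw [map_smul, norm_smul, Complex.norm_real, Real.norm_eq_abs, Real.sq_sqrt (hw i),
        abs_of_nonneg (hw i), S.norm_map]
    rw [Finset.sum_congr rfl h1, ← Finset.sum_mul, hw1, one_mul]
    exact hd
  intro x a κ hax hκ0' hκl
  have hsumFin : ∀ f : (G ⧸ Q.U) × (G ⧸ Q.U) → ℝ,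
      ∑ i, f (e.symm i).1 = ∑ p ∈ J.offDiag, f p := by
    intro f
    rw [← Finset.sum_coe_sort J.offDiag f]
    exact Equiv.sum_comp e.symm (fun p : J.offDiag => f p.1)
  rw [hsumFin (fun p => S.ql (r p) (mL p) a + S.qr (r p) (mR p) a)]
  set b : A := ∑ i ∈ F, ((√(w i) : ℝ) : ℂ) • S.α (Quotient.out i) a with hb
  have hbx : b = b1 * (∑ i ∈ F, ((√(w i) : ℝ) : ℂ) • S.α (Quotient.out i) x) * b2 := by
    rw [hb, Finset.mul_sum, Finset.sum_mul]
    refine Finset.sum_congr rfl fun i _ => ?_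
    rw [hax, map_mul, map_mul, hb1, hb2, mul_smul_comm, smul_mul_assoc]
  have hgap := h _ b hbx
  have hI := hγ a κ hκ0' fun l hl => hκl l (hDLU hl) (hR1 l hl)
  have hnb : ‖T.ι b‖ ^ 2 = (∑ i ∈ F, (√(w i)) ^ 2) * ‖T.ι a‖ ^ 2
      + ∑ p ∈ F.offDiag, S.ql (r p) (((√(w p.1) * √(w p.2) : ℝ) : ℂ) • (1 : A)) a :=
    S.norm_sq_comb (fun j : G ⧸ Q.U => Quotient.out j) F (fun i => √(w i)) a
  have hql : S.ql 1 d b = S.ql 1 d' a
      + ∑ p ∈ F.offDiag, S.ql (r p) (((√(w p.1) * √(w p.2) : ℝ) : ℂ)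
          • S.α (Quotient.out p.1)⁻¹ d) a :=
    S.ql_comb (fun j : G ⧸ Q.U => Quotient.out j) F (fun i => √(w i)) d a
  have hqr : S.qr 1 d b = S.qr 1 d' a
      + ∑ p ∈ F.offDiag, S.qr (r p) (((√(w p.1) * √(w p.2) : ℝ) : ℂ)
          • S.α (Quotient.out p.1)⁻¹ d) a :=
    S.qr_comb (fun j : G ⧸ Q.U => Quotient.out j) F (fun i => √(w i)) d a
  have hw1' : ∑ i ∈ F, (√(w i)) ^ 2 = 1 := by
    rw [← hw1]
    exact Finset.sum_congr rfl fun i _ => Real.sq_sqrt (hw i)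
  have hE : ‖T.ι (S.E b)‖ ^ 2 = W ^ 2 * ‖T.ι (S.E a)‖ ^ 2 := by
    have h1 : S.E b = ((W : ℝ) : ℂ) • S.E a := by
      rw [hb, S.E_sum, hW, Complex.ofReal_sum, Finset.sum_smul]
      refine Finset.sum_congr rfl fun i _ => ?_
      rw [S.E_smul, S.E_α]
    rw [h1, map_smul, norm_smul, Complex.norm_real, Real.norm_eq_abs, mul_pow, sq_abs]
  -- extend the sums over `F.offDiag` to `J.offDiag`
  have x1 : ∑ p ∈ F.offDiag, S.ql (r p) (((√(w p.1) * √(w p.2) : ℝ) : ℂ) • (1 : A)) a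
      = ∑ p ∈ J.offDiag, ww p * S.ql (r p) 1 a := by
    have h1 : ∀ p ∈ F.offDiag, S.ql (r p) (((√(w p.1) * √(w p.2) : ℝ) : ℂ) • (1 : A)) a
        = ww p * S.ql (r p) 1 a := fun p _ => S.UA3_ql_smul _ _ _ _
    rw [Finset.sum_congr rfl h1]
    refine Finset.sum_subset hoff fun p hp hpF => ?_
    rw [hww0 p hp hpF, zero_mul]
  have x2 : ∑ p ∈ F.offDiag, S.ql (r p) (((√(w p.1) * √(w p.2) : ℝ) : ℂ)
          • S.α (Quotient.out p.1)⁻¹ d) a
      = ∑ p ∈ J.offDiag, S.ql (r p) (mR p) a := by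
    refine Finset.sum_subset hoff fun p hp hpF => ?_
    change S.ql (r p) (((ww p : ℝ) : ℂ) • S.α (Quotient.out p.1)⁻¹ d) a = 0
    rw [S.UA3_ql_smul, hww0 p hp hpF, zero_mul]
  have x3 : ∑ p ∈ F.offDiag, S.qr (r p) (((√(w p.1) * √(w p.2) : ℝ) : ℂ)
          • S.α (Quotient.out p.1)⁻¹ d) a
      = ∑ p ∈ J.offDiag, S.qr (r p) (mR p) a := by
    refine Finset.sum_subset hoff fun p hp hpF => ?_
    change S.qr (r p) (((ww p : ℝ) : ℂ) • S.α (Quotient.out p.1)⁻¹ d) a = 0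
    rw [S.UA3_qr_smul, hww0 p hp hpF, zero_mul]
  have x4 : ∑ p ∈ J.offDiag, S.ql ((Quotient.out p.1)⁻¹ * Quotient.out p.2)
        ((γ p : ℂ) • (1 : A)) a = ∑ p ∈ J.offDiag, γ p * S.ql (r p) 1 a :=
    Finset.sum_congr rfl fun p _ => S.UA3_ql_smul _ _ _ _
  have x5 : ∑ p ∈ J.offDiag, (S.ql (r p) (mL p) a + S.qr (r p) (mR p) a)
      = C * (∑ p ∈ J.offDiag, γ p * S.ql (r p) 1 a)
        - 1 / 2 * (∑ p ∈ J.offDiag, ww p * S.ql (r p) 1 a)
        + ∑ p ∈ J.offDiag, S.ql (r p) (mR p) a + ∑ p ∈ J.offDiag, S.qr (r p) (mR p) a := by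
    rw [Finset.mul_sum, Finset.mul_sum, ← Finset.sum_sub_distrib, ← Finset.sum_add_distrib,
      ← Finset.sum_add_distrib]
    refine Finset.sum_congr rfl fun p _ => ?_
    simp only [hmL]
    rw [S.UA3_ql_add, S.UA3_ql_smul]
    ring
  rw [x1, hw1', one_mul] at hnb
  rw [x2] at hql
  rw [x3] at hqr
  rw [x4] at hI
  rw [hnb, hql, hqr, hE] at hgap
  rw [x5]
  set I := ∫ s, ‖T.ι (S.α s b - b)‖ ^ 2 ∂m0 with hIdef
  have hCI := mul_le_mul_of_nonneg_left hI hC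
  have hCa : C * (2 * κ0) * ‖T.ι a‖ ^ 2 ≤ 1 / 4 * ‖T.ι a‖ ^ 2 :=
    mul_le_mul_of_nonneg_right hCκ (by positivity)
  have p1 : 0 ≤ C * C1 * ‖T.ι (S.E a)‖ ^ 2 := by positivity
  have p2 : 0 ≤ C * W ^ 2 * κ ^ 2 := by positivity
  nlinarith [hgap, hCI, hCa, p1, p2]

end Pool.Agent.AbCoc
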