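import Pool.Agent.Lib_MP_418a80_un.UA0

/-! # A3a: Reiter weights on the cosets of an open subgroup -/

set_option autoImplicit false
set_option linter.unusedVariables false
set_option linter.unusedSectionVars false

open MeasureTheory Topology Filter
open scoped ENNReal NNReal ComplexConjugate

namespace Pool.Agent.AbCoc

universe u v w z

section
variable {G : Type w} [Group G] [TopologicalSpace G] [IsTopologicalGroup G] [T2Space G]
  [SecondCountableTopology G] [LocallyCompactSpace G] [MeasurableSpace G] [BorelSpace G]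
  (μ : Measure G) [μ.IsHaarMeasure]

private theorem UA3a_sqrt_sub_sq_le {a b : ℝ} (ha : 0 ≤ a) (hb : 0 ≤ b) :
    (√a - √b) ^ 2 ≤ |a - b| := by
  have h1 : a - b = (√a - √b) * (√a + √b) := by
    have ha2 := Real.mul_self_sqrt ha
    have hb2 := Real.mul_self_sqrt hb
    linear_combination -ha2 + hb2
  rw [h1, abs_mul, abs_of_nonneg (add_nonneg (Real.sqrt_nonneg a) (Real.sqrt_nonneg b)),
    ← sq_abs, sq]
  refine mul_le_mul_of_nonneg_left ?_ (abs_nonneg _)
  rw [abs_le]
  constructor <;> linarith [Real.sqrt_nonneg a, Real.sqrt_nonneg b]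

/-- A3a: Reiter weights on the cosets of an open subgroup -/
theorem exists_reiter_coset (hR : Reiter μ) (U : Subgroup G) (hU : IsOpen (U : Set G))
    (D : Set G) (hD : IsCompact D) (κ : ℝ) (hκ : 0 < κ) :
    ∃ (F J : Finset (G ⧸ U)) (w : G ⧸ U → ℝ), (∀ i, 0 ≤ w i) ∧ (∀ i, i ∉ F → w i = 0) ∧
      ∑ i ∈ F, w i = 1 ∧ F ⊆ J ∧ (∀ s ∈ D, ∀ i ∈ F, s • i ∈ J) ∧
      ∀ s ∈ D, ∑ i ∈ J, (√(w (s⁻¹ • i)) - √(w i)) ^ 2 ≤ κ := by
  classical
  obtain ⟨f, hfc, hfs, hf0, hf1, hfD⟩ := hR D hD κ hκ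
  have hdisc : DiscreteTopology (G ⧸ U) := QuotientGroup.discreteTopology hU
  have hcont : Continuous (QuotientGroup.mk : G → G ⧸ U) := QuotientGroup.continuous_mk
  have hfi : Integrable f μ := hfc.integrable_of_hasCompactSupport hfs
  -- the cosets
  obtain ⟨c, hc⟩ : ∃ c : G ⧸ U → Set G, ∀ i, c i = QuotientGroup.mk ⁻¹' {i} := ⟨_, fun _ => rfl⟩
  have hco : ∀ i, IsOpen (c i) := fun i => by
    rw [hc]
    exact (isOpen_discrete {i}).preimage hcont
  have hcm : ∀ i, MeasurableSet (c i) := fun i => (hco i).measurableSet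
  have hcd : ∀ J : Finset (G ⧸ U), Set.Pairwise (↑J) (Function.onFun Disjoint c) := by
    intro J i _ j _ hij
    rw [Function.onFun, Set.disjoint_left]
    intro t ht hj
    rw [hc, Set.mem_preimage, Set.mem_singleton_iff] at ht hj
    exact hij (ht.symm.trans hj)
  obtain ⟨w, hw⟩ : ∃ w : G ⧸ U → ℝ, ∀ i, w i = ∫ t in c i, f t ∂μ := ⟨_, fun _ => rfl⟩
  have hw0 : ∀ i, 0 ≤ w i := fun i => by
    rw [hw]
    exact integral_nonneg hf0
  -- the finite sets
  have hFfin : ((QuotientGroup.mk : G → G ⧸ U) '' tsupport f).Finite :=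
    (hfs.isCompact.image hcont).finite_of_discrete
  obtain ⟨F, hF⟩ : ∃ F : Finset (G ⧸ U), F = hFfin.toFinset := ⟨_, rfl⟩
  have hFmem : ∀ i, i ∈ F ↔ ∃ t ∈ tsupport f, (QuotientGroup.mk t : G ⧸ U) = i := by
    intro i
    rw [hF, Set.Finite.mem_toFinset]
    rfl
  have hDfin : ∀ i : G ⧸ U, ((fun s : G => s • i) '' D).Finite := by
    intro i
    obtain ⟨g, rfl⟩ := QuotientGroup.mk_surjective i
    have h1 : (fun s : G => s • (QuotientGroup.mk g : G ⧸ U)) =
        fun s : G => (QuotientGroup.mk (s * g) : G ⧸ U) := rfl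
    rw [h1]
    exact (hD.image (hcont.comp (continuous_mul_const g))).finite_of_discrete
  obtain ⟨J, hJ⟩ : ∃ J : Finset (G ⧸ U), J = F ∪ F.biUnion fun i => (hDfin i).toFinset := ⟨_, rfl⟩
  have hwF : ∀ i, i ∉ F → w i = 0 := by
    intro i hi
    rw [hw]
    refine setIntegral_eq_zero_of_forall_eq_zero fun t ht => ?_
    by_contra hne
    refine hi ((hFmem i).2 ⟨t, subset_tsupport f hne, ?_⟩)
    rw [hc] at ht
    exact ht
  have htrans : ∀ (s : G) (i : G ⧸ U), w (s⁻¹ • i) = ∫ t in c i, f (s⁻¹ * t) ∂μ := by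
    intro s i
    rw [hw, ← integral_indicator (hcm _), ← integral_indicator (hcm _),
      ← integral_mul_left_eq_self (μ := μ) ((c (s⁻¹ • i)).indicator f) s⁻¹]
    congr 1
    funext t
    have h1 : s⁻¹ * t ∈ c (s⁻¹ • i) ↔ t ∈ c i := by
      rw [hc, hc, Set.mem_preimage, Set.mem_preimage, Set.mem_singleton_iff,
        Set.mem_singleton_iff]
      have h2 : (QuotientGroup.mk (s⁻¹ * t) : G ⧸ U) = s⁻¹ • (QuotientGroup.mk t : G ⧸ U) := rfl
      rw [h2]
      exact (MulAction.injective s⁻¹).eq_iff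
    by_cases ht : t ∈ c i
    · rw [Set.indicator_of_mem ht, Set.indicator_of_mem (h1.2 ht)]
    · rw [Set.indicator_of_notMem ht, Set.indicator_of_notMem fun h => ht (h1.1 h)]
  refine ⟨F, J, w, hw0, hwF, ?_, ?_, ?_, ?_⟩
  · have h1 : ∑ i ∈ F, w i = ∫ t in ⋃ i ∈ F, c i, f t ∂μ := by
      rw [integral_biUnion_finset F (fun i _ => hcm i) (hcd F) fun i _ => hfi.integrableOn]
      exact Finset.sum_congr rfl fun i _ => hw i
    rw [h1, setIntegral_eq_integral_of_forall_compl_eq_zero, hf1]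
    intro t ht
    by_contra hne
    refine ht (Set.mem_biUnion (x := (QuotientGroup.mk t : G ⧸ U)) ?_ ?_)
    · exact (hFmem _).2 ⟨t, subset_tsupport f hne, rfl⟩
    · rw [hc]
      rfl
  · rw [hJ]
    exact Finset.subset_union_left
  · intro s hs i hi
    rw [hJ]
    refine Finset.mem_union_right _ (Finset.mem_biUnion.2 ⟨i, hi, ?_⟩)
    rw [Set.Finite.mem_toFinset]
    exact ⟨s, hs, rfl⟩
  · intro s hs
    have hfi2 : Integrable (fun t => f (s⁻¹ * t)) μ := hfi.comp_mul_left s⁻¹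
    have hfi3 : Integrable (fun t => |f (s⁻¹ * t) - f t|) μ := (hfi2.sub hfi).abs
    have h1 : ∀ i ∈ J, (√(w (s⁻¹ • i)) - √(w i)) ^ 2 ≤ ∫ t in c i, |f (s⁻¹ * t) - f t| ∂μ := by
      intro i _
      refine (UA3a_sqrt_sub_sq_le (hw0 _) (hw0 _)).trans ?_
      rw [htrans, hw, ← integral_sub hfi2.integrableOn hfi.integrableOn]
      exact abs_integral_le_integral_abs
    refine (Finset.sum_le_sum h1).trans ?_
    rw [← integral_biUnion_finset J (fun i _ => hcm i) (hcd J) fun i _ => hfi3.integrableOn]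
    exact (setIntegral_le_integral hfi3
      (Filter.Eventually.of_forall fun t => abs_nonneg _)).trans (hfD s hs)

end

end Pool.Agent.AbCoc
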