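import Mathlib

/-! # A4a, A4b: the choice of the functional and of the scale -/

set_option autoImplicit false
set_option linter.unusedVariables false
set_option linter.unusedSectionVars false

open MeasureTheory Topology Filter
open scoped ENNReal NNReal ComplexConjugate

namespace Pool.Agent.AbCoc

universe u v w z

/-- A4a: a functional which does not vanish on finitely many nonzero vectors -/
theorem exists_functional_ne_zero {V : Type z} [NormedAddCommGroup V] [NormedSpace ℝ V]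
    [FiniteDimensional ℝ V] (W : Finset V) (hW : ∀ x ∈ W, x ≠ 0) :
    ∃ x0 : V →L[ℝ] ℝ, ∀ x ∈ W, x0 x ≠ 0 := by
  classical
  induction W using Finset.induction_on with
  | empty => exact ⟨0, fun x hx => absurd hx (Finset.notMem_empty x)⟩
  | insert w W hw ih =>
    obtain ⟨x0, hx0⟩ := ih fun x hx => hW x (Finset.mem_insert_of_mem hx)
    have hw0 : w ≠ 0 := hW w (Finset.mem_insert_self w W)
    obtain ⟨x1, -, hx1⟩ := exists_dual_vector ℝ w (norm_ne_zero_iff.2 hw0)
    have hx1w : x1 w ≠ 0 := by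
      rw [hx1]
      exact norm_ne_zero_iff.2 hw0
    by_cases hx0w : x0 w = 0
    · obtain ⟨t, ht⟩ := Infinite.exists_notMem_finset
        (insert (0 : ℝ) (W.image fun x => -(x0 x) / x1 x))
      rw [Finset.mem_insert, not_or] at ht
      refine ⟨x0 + t • x1, fun x hx => ?_⟩
      rw [ContinuousLinearMap.add_apply, ContinuousLinearMap.smul_apply, smul_eq_mul]
      rcases Finset.mem_insert.1 hx with rfl | hx
      · rw [hx0w, zero_add]
        exact mul_ne_zero ht.1 hx1w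
      · intro h1
        by_cases h2 : x1 x = 0
        · rw [h2, mul_zero, add_zero] at h1
          exact hx0 x hx h1
        · apply ht.2
          rw [Finset.mem_image]
          refine ⟨x, hx, ?_⟩
          rw [div_eq_iff h2]
          linarith
    · refine ⟨x0, fun x hx => ?_⟩
      rcases Finset.mem_insert.1 hx with rfl | hx
      · exact hx0w
      · exact hx0 x hx

section erg
variable {K : Type v} [NormedAddCommGroup K] [InnerProductSpace ℂ K] [CompleteSpace K]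

/-- the mean ergodic theorem for `ω U` -/
private theorem UA4a_ergodic (U : K →L[ℂ] K) (hU : ∀ ξ η, inner ℂ (U ξ) (U η) = inner ℂ ξ η)
    (ω : ℂ) (hω : ‖ω‖ = 1) (ξ : K) :
    ∃ z : K, ω • U z = z ∧ inner ℂ z ξ = ((‖z‖ ^ 2 : ℝ) : ℂ) ∧
      Tendsto (fun N : ℕ => ((N : ℂ)⁻¹) • ∑ k ∈ Finset.range N, ω ^ k • (U ^ k) ξ) atTop (𝓝 z) := by
  have hUn : ∀ x, ‖U x‖ = ‖x‖ := by
    intro x
    have h := hU x x
    rw [inner_self_eq_norm_sq_to_K, inner_self_eq_norm_sq_to_K] at h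
    have h2 : ‖U x‖ ^ 2 = ‖x‖ ^ 2 := by exact_mod_cast h
    exact (pow_left_inj₀ (norm_nonneg _) (norm_nonneg _) two_ne_zero).1 h2
  set f : K →L[ℂ] K := ω • U with hf
  have hf1 : ‖f‖ ≤ 1 := by
    refine ContinuousLinearMap.opNorm_le_bound _ zero_le_one fun x => ?_
    change ‖ω • U x‖ ≤ 1 * ‖x‖
    rw [norm_smul, hω, hUn]
  have h1 := f.tendsto_birkhoffAverage_orthogonalProjection hf1 ξ
  set E := f.eqLocus (1 : K →L[ℂ] K) with hE
  set z : E := E.orthogonalProjectionOnto ξ with hz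
  refine ⟨(z : K), ?_, ?_, ?_⟩
  · have h2 := z.2
    exact h2
  · have h2 : inner ℂ (z : K) (ξ - (z : K)) = (0 : ℂ) := by
      have h3 := Submodule.starProjection_inner_eq_zero (K := E) ξ z z.2
      rw [← inner_conj_symm, ← map_zero (starRingEnd ℂ)]
      congr 1
    rw [inner_sub_right, sub_eq_zero, inner_self_eq_norm_sq_to_K] at h2
    rw [h2]
    push_cast
    rfl
  · refine h1.congr fun N => ?_
    have hk : ∀ k : ℕ, (⇑f)^[k] ξ = ω ^ k • (U ^ k) ξ := by
      intro k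
      induction k with
      | zero =>
        rw [pow_zero, pow_zero, one_smul]
        rfl
      | succ k ih =>
        rw [Function.iterate_succ_apply', ih]
        change ω • U (ω ^ k • (U ^ k) ξ) = _
        rw [map_smul, smul_smul, ← pow_succ', pow_succ' U]
        rfl
    unfold birkhoffAverage birkhoffSum
    congr 1
    exact Finset.sum_congr rfl fun k _ => hk k

/-- eigenvectors of an isometry for distinct eigenvalues are orthogonal -/
private theorem UA4a_orth (U : K →L[ℂ] K) (hU : ∀ ξ η, inner ℂ (U ξ) (U η) = inner ℂ ξ η)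
    (ω ω' : ℂ) (hω : ‖ω‖ = 1) (hω' : ‖ω'‖ = 1) (hne : ω ≠ ω') (z z' : K) (hz : ω • U z = z)
    (hz' : ω' • U z' = z') : inner ℂ z z' = (0 : ℂ) := by
  have h1 : inner ℂ z z' = (starRingEnd ℂ) ω * ω' * inner ℂ z z' := by
    conv_lhs => rw [← hz, ← hz']
    rw [inner_smul_left, inner_smul_right, hU, mul_assoc]
  by_contra h2
  have h3 : (starRingEnd ℂ) ω * ω' = 1 := by
    have h4 : ((starRingEnd ℂ) ω * ω' - 1) * inner ℂ z z' = 0 := by
      rw [sub_mul, one_mul, ← h1, sub_self]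
    exact sub_eq_zero.1 ((mul_eq_zero.1 h4).resolve_right h2)
  apply hne
  have h5 : ω * (starRingEnd ℂ) ω = 1 := by
    rw [Complex.mul_conj, Complex.normSq_eq_norm_sq, hω]
    norm_num
  calc ω = ω * ((starRingEnd ℂ) ω * ω') := by rw [h3, mul_one]
    _ = ω * (starRingEnd ℂ) ω * ω' := by ring
    _ = ω' := by rw [h5, one_mul]

/-- Bessel -/
private theorem UA4a_bessel {J : Type*} (F : Finset J) (z : J → K) (ξ : K)
    (ho : ∀ i ∈ F, ∀ j ∈ F, i ≠ j → inner ℂ (z i) (z j) = (0 : ℂ))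
    (hz : ∀ i ∈ F, inner ℂ (z i) ξ = ((‖z i‖ ^ 2 : ℝ) : ℂ)) :
    ∑ i ∈ F, ‖z i‖ ^ 2 ≤ ‖ξ‖ ^ 2 := by
  classical
  set s := ∑ i ∈ F, z i with hs
  set B := ∑ i ∈ F, ‖z i‖ ^ 2 with hB
  have h1 : inner ℂ s s = ((B : ℝ) : ℂ) := by
    rw [hs, sum_inner, hB, Complex.ofReal_sum]
    refine Finset.sum_congr rfl fun i hi => ?_
    rw [inner_sum, Finset.sum_eq_single i]
    · rw [inner_self_eq_norm_sq_to_K]
      push_cast
      rfl
    · intro j hj hji
      exact ho i hi j hj (Ne.symm hji)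
    · intro h
      exact absurd hi h
  have h2 : inner ℂ s ξ = ((B : ℝ) : ℂ) := by
    rw [hs, sum_inner, hB, Complex.ofReal_sum]
    exact Finset.sum_congr rfl fun i hi => hz i hi
  have h3 : ‖s‖ ^ 2 = B := by
    apply Complex.ofReal_injective
    rw [← h1, inner_self_eq_norm_sq_to_K]
    push_cast
    rfl
  have h4 : ‖inner ℂ s ξ‖ ≤ ‖s‖ * ‖ξ‖ := norm_inner_le_norm s ξ
  have hB0 : 0 ≤ B := Finset.sum_nonneg fun i _ => by positivity
  rw [h2, Complex.norm_real, Real.norm_of_nonneg hB0] at h4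
  by_cases h5 : ‖s‖ = 0
  · rw [← h3, h5, zero_pow two_ne_zero]
    positivity
  · have h6 : 0 < ‖s‖ := lt_of_le_of_ne (norm_nonneg _) (Ne.symm h5)
    have h7 : ‖s‖ ≤ ‖ξ‖ := by
      rw [← h3, pow_two] at h4
      exact le_of_mul_le_mul_left h4 h6
    rw [← h3]
    exact pow_le_pow_left₀ (norm_nonneg _) h7 2

end erg

/-- A4b: one small `t` for which all twisted averages are small -/
theorem exists_t_avg {K : Type v} [NormedAddCommGroup K] [InnerProductSpace ℂ K] [CompleteSpace K]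
    {P : Type} [Fintype P] (Up : P → K →L[ℂ] K)
    (hU : ∀ p ξ η, inner ℂ (Up p ξ) (Up p η) = inner ℂ ξ η) (ξ : P → K) (c : P → ℝ)
    (hc : ∀ p, c p ≠ 0) (t0 : ℝ) (ht0 : 0 < t0) (η : ℝ) (hη : 0 < η) :
    ∃ t : ℝ, 0 < t ∧ t ≤ t0 ∧ ∃ N : ℕ, 0 < N ∧
      ∀ p, ‖((N : ℂ)⁻¹) • ∑ k ∈ Finset.range N,
        (Complex.exp (((t * c p : ℝ) : ℂ) * Complex.I)) ^ k • ((Up p) ^ k) (ξ p)‖ ≤ η := by
  classical
  -- the scale
  obtain ⟨t1, ht1, ht10, ht1c⟩ : ∃ t1 : ℝ, 0 < t1 ∧ t1 ≤ t0 ∧ ∀ p, t1 * |c p| ≤ 1 := by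
    set C : ℝ := ∑ p, |c p| with hC
    have hC0 : 0 ≤ C := Finset.sum_nonneg fun p _ => abs_nonneg _
    refine ⟨min t0 (1 / (C + 1)), lt_min ht0 (by positivity), min_le_left _ _, fun p => ?_⟩
    have h1 : |c p| ≤ C := Finset.single_le_sum (f := fun p => |c p|)
      (fun p _ => abs_nonneg _) (Finset.mem_univ p)
    calc min t0 (1 / (C + 1)) * |c p| ≤ 1 / (C + 1) * |c p| :=
          mul_le_mul_of_nonneg_right (min_le_right _ _) (abs_nonneg _)
      _ ≤ 1 / (C + 1) * (C + 1) := mul_le_mul_of_nonneg_left (by linarith) (by positivity)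
      _ = 1 := by rw [one_div, inv_mul_cancel₀ (by positivity)]
  set tt : ℕ → ℝ := fun j => t1 / (j + 1) with htt
  have htt0 : ∀ j, 0 < tt j := fun j => by positivity
  have htt1 : ∀ j, tt j ≤ t1 := fun j => by
    rw [htt]
    refine div_le_self ht1.le ?_
    have : (0 : ℝ) ≤ (j : ℝ) := Nat.cast_nonneg j
    linarith
  set om : ℕ → P → ℂ := fun j p => Complex.exp (((tt j * c p : ℝ) : ℂ) * Complex.I) with hom
  have hom1 : ∀ j p, ‖om j p‖ = 1 := fun j p => Complex.norm_exp_ofReal_mul_I _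
  have homne : ∀ p i j, i ≠ j → om i p ≠ om j p := by
    intro p i j hij h
    rw [hom] at h
    obtain ⟨n, hn⟩ := Complex.exp_eq_exp_iff_exists_int.1 h
    have h1 : tt i * c p = tt j * c p + n * (2 * Real.pi) := by
      have h2 := congrArg Complex.im hn
      simpa using h2
    have h3 : |tt i * c p - tt j * c p| ≤ 2 := by
      have h4 : ∀ j, |tt j * c p| ≤ 1 := fun j => by
        rw [abs_mul, abs_of_pos (htt0 j)]
        exact (mul_le_mul_of_nonneg_right (htt1 j) (abs_nonneg _)).trans (ht1c p)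
      have h5 := abs_sub (tt i * c p) (tt j * c p)
      have := h4 i
      have := h4 j
      linarith
    have h6 : n = 0 := by
      by_contra hn0
      have h7 : (1 : ℝ) ≤ |(n : ℝ)| := by exact_mod_cast Int.one_le_abs hn0
      have h8 : tt i * c p - tt j * c p = n * (2 * Real.pi) := by linarith
      rw [h8, abs_mul, abs_of_pos (by positivity : (0 : ℝ) < 2 * Real.pi)] at h3
      have := Real.pi_gt_three
      nlinarith
    rw [h6, Int.cast_zero, zero_mul, add_zero] at h1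
    have h9 : tt i = tt j := mul_right_cancel₀ (hc p) h1
    rw [htt] at h9
    have h10 : ((i : ℝ) + 1) = (j : ℝ) + 1 := by
      have hi : ((i : ℝ) + 1) ≠ 0 := by positivity
      have hj : ((j : ℝ) + 1) ≠ 0 := by positivity
      have h11 : t1 / ((i : ℝ) + 1) = t1 / ((j : ℝ) + 1) := h9
      rw [div_eq_div_iff hi hj] at h11
      exact (mul_left_cancel₀ ht1.ne' h11).symm
    apply hij
    have : (i : ℝ) = j := by linarith
    exact_mod_cast this
  -- the limits
  have hz : ∀ j p, ∃ z : K, om j p • Up p z = z ∧ inner ℂ z (ξ p) = ((‖z‖ ^ 2 : ℝ) : ℂ) ∧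
      Tendsto (fun N : ℕ => ((N : ℂ)⁻¹) • ∑ k ∈ Finset.range N,
        om j p ^ k • ((Up p) ^ k) (ξ p)) atTop (𝓝 z) := fun j p =>
    UA4a_ergodic (Up p) (hU p) (om j p) (hom1 j p) (ξ p)
  choose z hz1 hz2 hz3 using hz
  have hb : ∀ n p, ∑ j ∈ Finset.range n, ‖z j p‖ ^ 2 ≤ ‖ξ p‖ ^ 2 := fun n p =>
    UA4a_bessel (Finset.range n) (fun j => z j p) (ξ p)
      (fun i _ j _ hij => UA4a_orth (Up p) (hU p) (om i p) (om j p) (hom1 i p) (hom1 j p)
        (homne p i j hij) (z i p) (z j p) (hz1 i p) (hz1 j p)) (fun i _ => hz2 i p)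
  set B : ℝ := ∑ p, ‖ξ p‖ ^ 2 with hB
  have hB0 : 0 ≤ B := Finset.sum_nonneg fun p _ => by positivity
  obtain ⟨n, hn⟩ := exists_nat_gt (B / (η / 2) ^ 2)
  have hη2 : 0 < (η / 2) ^ 2 := by positivity
  have hsum : ∑ j ∈ Finset.range n, ∑ p, ‖z j p‖ ^ 2 ≤ B := by
    rw [Finset.sum_comm]
    exact Finset.sum_le_sum fun p _ => hb n p
  have hn0 : 0 < n := by
    have : (0 : ℝ) < n := lt_of_le_of_lt (by positivity) hn
    exact_mod_cast this
  obtain ⟨j, hj, hjη⟩ : ∃ j ∈ Finset.range n, ∑ p, ‖z j p‖ ^ 2 ≤ (η / 2) ^ 2 := by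
    refine Finset.exists_le_of_sum_le (Finset.nonempty_range_iff.2 hn0.ne') ?_
    refine hsum.trans ?_
    rw [Finset.sum_const, Finset.card_range, nsmul_eq_mul]
    rw [div_lt_iff₀ hη2] at hn
    exact hn.le
  have hzj : ∀ p, ‖z j p‖ < η := by
    intro p
    have h1 : ‖z j p‖ ^ 2 ≤ (η / 2) ^ 2 :=
      (Finset.single_le_sum (f := fun p => ‖z j p‖ ^ 2) (fun p _ => by positivity)
        (Finset.mem_univ p)).trans hjη
    have h2 := (pow_le_pow_iff_left₀ (norm_nonneg _) (by positivity) two_ne_zero).1 h1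
    linarith
  refine ⟨tt j, htt0 j, (htt1 j).trans ht10, ?_⟩
  have hev : ∀ᶠ N : ℕ in atTop, ∀ p, ‖((N : ℂ)⁻¹) • ∑ k ∈ Finset.range N,
      om j p ^ k • ((Up p) ^ k) (ξ p)‖ ≤ η := by
    rw [Filter.eventually_all]
    intro p
    have h1 := (hz3 j p).norm
    exact (h1.eventually (gt_mem_nhds (hzj p))).mono fun N hN => le_of_lt hN
  obtain ⟨N, hN1, hN2⟩ := (hev.and (Filter.eventually_gt_atTop 0)).exists
  exact ⟨N, hN2, hN1⟩

end Pool.Agent.AbCoc
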