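import Pool.Agent.Lib_MP_418a80_un.UA0

/-! # A4c-A4e: the shift and the absorption of a coefficient -/

set_option autoImplicit false
set_option linter.unusedVariables false
set_option linter.unusedSectionVars false

open MeasureTheory Topology Filter
open scoped ENNReal NNReal ComplexConjugate

namespace Pool.Agent.AbCoc

universe u v w z

section chi
variable {V : Type z} [NormedAddCommGroup V] [NormedSpace ℝ V]

theorem norm_chi_UA4c (x0 : V →L[ℝ] ℝ) (x : V) : ‖chi x0 x‖ = 1 := by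
  unfold chi
  exact Complex.norm_exp_ofReal_mul_I _

theorem chi_sub_UA4c (x0 : V →L[ℝ] ℝ) (x y : V) : chi x0 (x - y) = conj (chi x0 y) * chi x0 x := by
  unfold chi
  rw [← Complex.exp_conj, ← Complex.exp_add]
  congr 1
  rw [map_mul, Complex.conj_I, Complex.conj_ofReal, map_sub]
  push_cast
  ring

end chi

/-- the elementary estimate behind the two shifts -/
theorem abs_re_inner_sub_le {K : Type v} [NormedAddCommGroup K] [InnerProductSpace ℂ K]
    (u a v w : K) (c : ℂ) (hc : ‖c‖ = 1) (r1 r2 κ M : ℝ) (h1 : ‖u - c • a‖ ≤ κ)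
    (hv : ‖v‖ ≤ M * r1) (hw : ‖v - w‖ ≤ M * κ) (ha : ‖a‖ ≤ r1) (hM : 0 ≤ M) (hr : 0 ≤ r1) :
    |(inner ℂ u v).re - (inner ℂ (c • a) w).re| ≤ 2 * M * r1 * κ := by
  have hκ : 0 ≤ κ := (norm_nonneg _).trans h1
  have e : inner ℂ u v - inner ℂ (c • a) w
      = inner ℂ (u - c • a) v + inner ℂ (c • a) (v - w) := by
    rw [inner_sub_left, inner_sub_right]
    ring
  rw [← Complex.sub_re, e]
  refine (Complex.abs_re_le_norm _).trans ((norm_add_le _ _).trans ?_)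
  have e1 : ‖inner ℂ (u - c • a) v‖ ≤ κ * (M * r1) :=
    (norm_inner_le_norm _ _).trans (mul_le_mul h1 hv (norm_nonneg _) hκ)
  have e2 : ‖inner ℂ (c • a) (v - w)‖ ≤ r1 * (M * κ) := by
    refine (norm_inner_le_norm _ _).trans ?_
    rw [norm_smul, hc, one_mul]
    exact mul_le_mul ha hw (norm_nonneg _) hr
  calc _ ≤ κ * (M * r1) + r1 * (M * κ) := add_le_add e1 e2
    _ = 2 * M * r1 * κ := by ring

variable {A : Type u} [CStarAlgebra A] {K : Type v} [NormedAddCommGroup K]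
  [InnerProductSpace ℂ K] [CompleteSpace K]
variable {G : Type w} [Group G] [TopologicalSpace G] [IsTopologicalGroup G] [T2Space G]
  [SecondCountableTopology G] [LocallyCompactSpace G] [MeasurableSpace G] [BorelSpace G]
  {T : TrAlg A K} (S : TrAct G T)
  {V : Type z} [NormedAddCommGroup V] [NormedSpace ℝ V] (Q : QMap G V)

theorem TrAct.α_conj (g s : G) (a : A) :
    S.α s (S.α g a) = S.α g (S.α (g⁻¹ * s * g) a) := by
  rw [← S.mul, ← S.mul]
  congr 2
  group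

/-- A4c: moving the coefficient by `s` (left) -/
theorem TrAct.ql_shift (x0 : V →L[ℝ] ℝ) (a m : A) (g s : G) (κ : ℝ)
    (h1 : ‖T.ι (S.α s a - chi x0 (Q.q s) • a)‖ ≤ κ)
    (h2 : ‖T.ι (S.α (g⁻¹ * s * g) a - chi x0 (Q.q (g⁻¹ * s * g)) • a)‖ ≤ κ) :
    |S.ql g m a - S.ql g (chi x0 (Q.q (g⁻¹ * s * g) - Q.q s) • S.α s m) a|
      ≤ 2 * ‖m‖ * ‖T.ι a‖ * κ := by
  set b := g⁻¹ * s * g with hb
  set c1 := chi x0 (Q.q s) with hc1
  set c2 := chi x0 (Q.q b) with hc2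
  have e1 : S.ql g m a = (inner ℂ (T.ι (S.α s a)) (T.ι (S.α s m * S.α g (S.α b a)))).re := by
    unfold TrAct.ql
    rw [← S.inner_map s, map_mul, S.α_conj g s a]
  have e2 : S.ql g (chi x0 (Q.q b - Q.q s) • S.α s m) a
      = (inner ℂ (c1 • T.ι a) (T.ι (S.α s m * S.α g (c2 • a)))).re := by
    unfold TrAct.ql
    rw [chi_sub_UA4c, map_smul (S.α g), smul_mul_assoc, mul_smul_comm, map_smul, map_smul,
      inner_smul_right, inner_smul_right, inner_smul_left, mul_assoc, mul_left_comm]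
  rw [e1, e2]
  refine abs_re_inner_sub_le _ _ _ _ c1 (norm_chi_UA4c _ _) ‖T.ι a‖ 0 κ ‖m‖ ?_ ?_ ?_ le_rfl
    (norm_nonneg _) (norm_nonneg _)
  · rw [← map_smul, ← map_sub]
    exact h1
  · refine (T.mul_le _ _).trans ?_
    rw [S.norm_map, S.norm_map]
    exact mul_le_mul_of_nonneg_right (S.norm_le s m) (norm_nonneg _)
  · rw [← map_sub, ← mul_sub, ← map_sub]
    refine (T.mul_le _ _).trans ?_
    rw [S.norm_map]
    exact mul_le_mul (S.norm_le s m) h2 (norm_nonneg _) (norm_nonneg _)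

/-- A4c: moving the coefficient by `s` (right) -/
theorem TrAct.qr_shift (x0 : V →L[ℝ] ℝ) (a m : A) (g s : G) (κ : ℝ)
    (h1 : ‖T.ι (S.α s a - chi x0 (Q.q s) • a)‖ ≤ κ)
    (h2 : ‖T.ι (S.α (g⁻¹ * s * g) a - chi x0 (Q.q (g⁻¹ * s * g)) • a)‖ ≤ κ) :
    |S.qr g m a - S.qr g (chi x0 (Q.q (g⁻¹ * s * g) - Q.q s) • S.α s m) a|
      ≤ 2 * ‖m‖ * ‖T.ι a‖ * κ := by
  set b := g⁻¹ * s * g with hb
  set c1 := chi x0 (Q.q s) with hc1
  set c2 := chi x0 (Q.q b) with hc2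
  have e1 : S.qr g m a = (inner ℂ (T.ι (S.α s a)) (T.ι (S.α g (S.α b a) * S.α s m))).re := by
    unfold TrAct.qr
    rw [← S.inner_map s, map_mul, S.α_conj g s a]
  have e2 : S.qr g (chi x0 (Q.q b - Q.q s) • S.α s m) a
      = (inner ℂ (c1 • T.ι a) (T.ι (S.α g (c2 • a) * S.α s m))).re := by
    unfold TrAct.qr
    rw [chi_sub_UA4c, map_smul (S.α g), smul_mul_assoc, mul_smul_comm, map_smul, map_smul,
      inner_smul_right, inner_smul_right, inner_smul_left, mul_assoc, mul_left_comm]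
  rw [e1, e2]
  refine abs_re_inner_sub_le _ _ _ _ c1 (norm_chi_UA4c _ _) ‖T.ι a‖ 0 κ ‖m‖ ?_ ?_ ?_ le_rfl
    (norm_nonneg _) (norm_nonneg _)
  · rw [← map_smul, ← map_sub]
    exact h1
  · refine (T.mul_le' _ _).trans ?_
    rw [S.norm_map, S.norm_map, mul_comm]
    exact mul_le_mul_of_nonneg_right (S.norm_le s m) (norm_nonneg _)
  · rw [← map_sub, ← sub_mul, ← map_sub]
    refine (T.mul_le' _ _).trans ?_
    rw [S.norm_map, mul_comm]
    exact mul_le_mul (S.norm_le s m) h2 (norm_nonneg _) (norm_nonneg _)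

theorem am_gm_absorb (x y η : ℝ) (hη : 0 < η) : x * y ≤ η * y ^ 2 + (4 * η)⁻¹ * x ^ 2 := by
  have h : 0 ≤ (4 * η)⁻¹ * (x - 2 * η * y) ^ 2 := by positivity
  have e : (4 * η)⁻¹ * (x - 2 * η * y) ^ 2 = η * y ^ 2 + (4 * η)⁻¹ * x ^ 2 - x * y := by
    field_simp
    ring
  rw [e] at h
  linarith

/-- A4d: absorption of a coefficient with small `2`-norm -/
theorem TrAct.ql_absorb (g : G) (m a : A) (η : ℝ) (hη : 0 < η) :
    S.ql g m a ≤ η * ‖T.ι a‖ ^ 2 + S.ql 1 ((((4 * η)⁻¹ : ℝ) : ℂ) • (m * star m)) a := by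
  have e1 : S.ql g m a = (inner ℂ (T.ι (star m * a)) (T.ι (S.α g a))).re := by
    unfold TrAct.ql
    rw [T.left']
  have e2 : S.ql 1 ((((4 * η)⁻¹ : ℝ) : ℂ) • (m * star m)) a
      = (4 * η)⁻¹ * ‖T.ι (star m * a)‖ ^ 2 := by
    unfold TrAct.ql
    rw [S.one, smul_mul_assoc, map_smul, inner_smul_right, mul_assoc, ← T.left', Complex.re_ofReal_mul,
      inner_self_eq_norm_sq_to_K]
    norm_cast
  rw [e1, e2]
  have h1 : (inner ℂ (T.ι (star m * a)) (T.ι (S.α g a))).re ≤ ‖T.ι (star m * a)‖ * ‖T.ι a‖ := by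
    refine (Complex.re_le_norm _).trans ((norm_inner_le_norm _ _).trans ?_)
    rw [S.norm_map]
  exact h1.trans (am_gm_absorb _ _ η hη)

theorem TrAct.qr_absorb (g : G) (m a : A) (η : ℝ) (hη : 0 < η) :
    S.qr g m a ≤ η * ‖T.ι a‖ ^ 2 + S.qr 1 ((((4 * η)⁻¹ : ℝ) : ℂ) • (star m * m)) a := by
  have e1 : S.qr g m a = (inner ℂ (T.ι (a * star m)) (T.ι (S.α g a))).re := by
    unfold TrAct.qr
    rw [T.right']
  have e2 : S.qr 1 ((((4 * η)⁻¹ : ℝ) : ℂ) • (star m * m)) a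
      = (4 * η)⁻¹ * ‖T.ι (a * star m)‖ ^ 2 := by
    unfold TrAct.qr
    rw [S.one, mul_smul_comm, map_smul, inner_smul_right, ← mul_assoc, ← T.right',
      Complex.re_ofReal_mul, inner_self_eq_norm_sq_to_K]
    norm_cast
  rw [e1, e2]
  have h1 : (inner ℂ (T.ι (a * star m)) (T.ι (S.α g a))).re ≤ ‖T.ι (a * star m)‖ * ‖T.ι a‖ := by
    refine (Complex.re_le_norm _).trans ((norm_inner_le_norm _ _).trans ?_)
    rw [S.norm_map]
  exact h1.trans (am_gm_absorb _ _ η hη)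

/-- A4e: the conditional expectation of a near-eigenvector is small -/
theorem TrAct.norm_E_le_of_near (a : A) (l : G) (c : ℂ) :
    ‖1 - c‖ * ‖T.ι (S.E a)‖ ≤ ‖T.ι (S.α l a - c • a)‖ := by
  have h := S.norm_E_le (S.α l a - c • a)
  have e : S.E (S.α l a - c • a) = (1 - c) • S.E a := by
    rw [S.E_sub, S.E_α, S.E_smul, sub_smul, one_smul]
  rwa [e, map_smul, norm_smul] at h

end Pool.Agent.AbCoc
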