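import Pool.Agent.Lib_MP_418a80_un.UA0
import Pool.Agent.Lib_MP_418a80_un.UA4c
import Pool.Agent.Lib_MP_418a80_un.UA4a

/-! # A4: the choice of the character -/

set_option autoImplicit false
set_option linter.unusedVariables false
set_option linter.unusedSectionVars false

open MeasureTheory Topology Filter
open scoped ENNReal NNReal ComplexConjugate

namespace Pool.Agent.AbCoc

universe u v w z

variable {A : Type u} [CStarAlgebra A] {K : Type v} [NormedAddCommGroup K]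
  [InnerProductSpace ℂ K] [CompleteSpace K]
variable {G : Type w} [Group G] [TopologicalSpace G] [IsTopologicalGroup G] [T2Space G]
  [SecondCountableTopology G] [LocallyCompactSpace G] [MeasurableSpace G] [BorelSpace G]
  {T : TrAlg A K} (S : TrAct G T)
  {V : Type z} [NormedAddCommGroup V] [NormedSpace ℝ V] (Q : QMap G V)

private theorem UA4_ql_real_smul (g : G) (r : ℝ) (m a : A) :
    S.ql g ((r : ℂ) • m) a = r * S.ql g m a := by
  unfold TrAct.ql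
  rw [smul_mul_assoc, map_smul, inner_smul_right, Complex.re_ofReal_mul]

private theorem UA4_qr_real_smul (g : G) (r : ℝ) (m a : A) :
    S.qr g ((r : ℂ) • m) a = r * S.qr g m a := by
  unfold TrAct.qr
  rw [mul_smul_comm, map_smul, inner_smul_right, Complex.re_ofReal_mul]

private theorem UA4_ql_add (g : G) (m m' a : A) :
    S.ql g (m + m') a = S.ql g m a + S.ql g m' a := by
  unfold TrAct.ql
  rw [add_mul, map_add, inner_add_right, Complex.add_re]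

private theorem UA4_qr_add (g : G) (m m' a : A) :
    S.qr g (m + m') a = S.qr g m a + S.qr g m' a := by
  unfold TrAct.qr
  rw [mul_add, map_add, inner_add_right, Complex.add_re]

private theorem UA4_ql_sum {J : Type*} (s : Finset J) (g : G) (f : J → A) (a : A) :
    S.ql g (∑ j ∈ s, f j) a = ∑ j ∈ s, S.ql g (f j) a := by
  unfold TrAct.ql
  rw [Finset.sum_mul, map_sum, inner_sum, Complex.re_sum]

private theorem UA4_qr_sum {J : Type*} (s : Finset J) (g : G) (f : J → A) (a : A) :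
    S.qr g (∑ j ∈ s, f j) a = ∑ j ∈ s, S.qr g (f j) a := by
  unfold TrAct.qr
  rw [Finset.mul_sum, map_sum, inner_sum, Complex.re_sum]

/-- the twisted average of a coefficient -/
private noncomputable def UA4_mbar (s : G) (ω : ℂ) (N : ℕ) (m : A) : A :=
  ((N : ℂ)⁻¹) • ∑ k ∈ Finset.range N, ω ^ k • S.α (s ^ k) m

private theorem UA4_U_pow (s : G) (k : ℕ) : (S.U.U s) ^ k = S.U.U (s ^ k) := by
  induction k with
  | zero => rw [pow_zero, pow_zero, S.U.one]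
  | succ k ih => rw [pow_succ, pow_succ, ih, S.U.mul]

private theorem UA4_ι_mbar (s : G) (ω : ℂ) (N : ℕ) (m : A) :
    T.ι (UA4_mbar S s ω N m)
      = ((N : ℂ)⁻¹) • ∑ k ∈ Finset.range N, ω ^ k • ((S.U.U s) ^ k) (T.ι m) := by
  unfold UA4_mbar
  rw [map_smul, map_sum]
  congr 1
  refine Finset.sum_congr rfl fun k _ => ?_
  rw [map_smul, UA4_U_pow, S.U_ι]

private theorem UA4_norm_mbar_le (s : G) (ω : ℂ) (hω : ‖ω‖ = 1) (N : ℕ) (hN : 0 < N) (m : A) :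
    ‖UA4_mbar S s ω N m‖ ≤ ‖m‖ := by
  unfold UA4_mbar
  have hN' : (0 : ℝ) < N := by exact_mod_cast hN
  rw [norm_smul, norm_inv, Complex.norm_natCast]
  have h1 : ‖∑ k ∈ Finset.range N, ω ^ k • S.α (s ^ k) m‖ ≤ N * ‖m‖ := by
    refine (norm_sum_le _ _).trans ?_
    refine (Finset.sum_le_card_nsmul _ _ ‖m‖ fun k _ => ?_).trans (le_of_eq ?_)
    · rw [norm_smul, norm_pow, hω, one_pow, one_mul]
      exact S.norm_le _ _
    · rw [Finset.card_range, nsmul_eq_mul]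
  calc (N : ℝ)⁻¹ * ‖∑ k ∈ Finset.range N, ω ^ k • S.α (s ^ k) m‖
      ≤ (N : ℝ)⁻¹ * (N * ‖m‖) := mul_le_mul_of_nonneg_left h1 (inv_nonneg.2 hN'.le)
    _ = ‖m‖ := by rw [← mul_assoc, inv_mul_cancel₀ hN'.ne', one_mul]

private theorem UA4_ql_mbar (g s : G) (ω : ℂ) (N : ℕ) (m a : A) :
    S.ql g (UA4_mbar S s ω N m) a
      = (N : ℝ)⁻¹ * ∑ k ∈ Finset.range N, S.ql g (ω ^ k • S.α (s ^ k) m) a := by
  unfold UA4_mbar
  have : ((N : ℂ)⁻¹) = (((N : ℝ)⁻¹ : ℝ) : ℂ) := by push_cast; rfl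
  rw [this, UA4_ql_real_smul, UA4_ql_sum]

private theorem UA4_qr_mbar (g s : G) (ω : ℂ) (N : ℕ) (m a : A) :
    S.qr g (UA4_mbar S s ω N m) a
      = (N : ℝ)⁻¹ * ∑ k ∈ Finset.range N, S.qr g (ω ^ k • S.α (s ^ k) m) a := by
  unfold UA4_mbar
  have : ((N : ℂ)⁻¹) = (((N : ℝ)⁻¹ : ℝ) : ℂ) := by push_cast; rfl
  rw [this, UA4_qr_real_smul, UA4_qr_sum]

/-- an average of numbers each within `e` of `x` -/
private theorem UA4_avg_le (N : ℕ) (hN : 0 < N) (x e : ℝ) (f : ℕ → ℝ)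
    (h : ∀ k ∈ Finset.range N, |x - f k| ≤ e) :
    x ≤ (N : ℝ)⁻¹ * ∑ k ∈ Finset.range N, f k + e := by
  have hN' : (0 : ℝ) < N := by exact_mod_cast hN
  have h1 : (N : ℝ) * (x - e) ≤ ∑ k ∈ Finset.range N, f k := by
    have h2 := Finset.card_nsmul_le_sum (Finset.range N) f (x - e) fun k hk => by
      have := (abs_le.1 (h k hk)).2
      linarith
    rwa [Finset.card_range, nsmul_eq_mul] at h2
  have h3 : x - e ≤ (N : ℝ)⁻¹ * ∑ k ∈ Finset.range N, f k := by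
    calc x - e = (N : ℝ)⁻¹ * (N * (x - e)) := by
          rw [← mul_assoc, inv_mul_cancel₀ hN'.ne', one_mul]
      _ ≤ _ := mul_le_mul_of_nonneg_left h1 (inv_nonneg.2 hN'.le)
  linarith

omit [IsTopologicalGroup G] [T2Space G] [SecondCountableTopology G] [LocallyCompactSpace G]
  [MeasurableSpace G] [BorelSpace G] in
private theorem UA4_q_pow (s : G) (hs : s ∈ Q.U) (k : ℕ) : Q.q (s ^ k) = (k : ℝ) • Q.q s := by
  have h1 : Q.q 1 = 0 := by
    have := Q.map_mul 1 Q.U.one_mem 1 Q.U.one_mem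
    rw [mul_one] at this
    simpa using this
  induction k with
  | zero => rw [pow_zero, h1]; simp
  | succ k ih =>
    rw [pow_succ, Q.map_mul _ (Q.U.pow_mem hs k) _ hs, ih]
    push_cast
    rw [add_smul, one_smul]

private theorem UA4_conj_pow (g s : G) (k : ℕ) : g⁻¹ * s ^ k * g = (g⁻¹ * s * g) ^ k := by
  have := conj_pow (a := g⁻¹) (b := s) (i := k)
  rw [inv_inv] at this
  exact this.symm

/-- the phase of the `k`-th shift -/
private theorem UA4_phase (x0' : V →L[ℝ] ℝ) (t : ℝ) (g s : G) (hs : s ∈ Q.U)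
    (hs' : g⁻¹ * s * g ∈ Q.U) (k : ℕ) :
    chi (t • x0') (Q.q (g⁻¹ * s ^ k * g) - Q.q (s ^ k))
      = (Complex.exp (((t * x0' (Q.q (g⁻¹ * s * g) - Q.q s) : ℝ) : ℂ) * Complex.I)) ^ k := by
  rw [UA4_conj_pow, UA4_q_pow Q _ hs', UA4_q_pow Q _ hs, ← smul_sub]
  unfold chi
  rw [← Complex.exp_nat_mul]
  congr 1
  rw [ContinuousLinearMap.smul_apply, map_smul]
  push_cast
  simp only [smul_eq_mul]
  push_cast
  ring

private theorem UA4_norm_exp (r : ℝ) : ‖Complex.exp ((r : ℂ) * Complex.I)‖ = 1 :=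
  Complex.norm_exp_ofReal_mul_I r

/-- `2 p q κ ≤ η q² + p² κ² / η` -/
private theorem UA4_amgm (p q κ η : ℝ) (hη : 0 < η) :
    2 * p * q * κ ≤ η * q ^ 2 + p ^ 2 * κ ^ 2 / η := by
  have h1 : 0 ≤ (η * q - p * κ) ^ 2 / η := by positivity
  have h2 : (η * q - p * κ) ^ 2 / η = η * q ^ 2 - 2 * p * q * κ + p ^ 2 * κ ^ 2 / η := by
    field_simp
    ring
  linarith

/-- the bound of one left term -/
private theorem UA4_left (x0' : V →L[ℝ] ℝ) (t : ℝ) (g s : G) (hs : s ∈ Q.U)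
    (hs' : g⁻¹ * s * g ∈ Q.U) (N : ℕ) (hN : 0 < N) (R' κ η : ℝ) (hη : 0 < η) (m a : A)
    (hR1 : ∀ k ∈ Finset.range N, ‖Q.q (s ^ k)‖ ≤ R')
    (hR2 : ∀ k ∈ Finset.range N, ‖Q.q (g⁻¹ * s ^ k * g)‖ ≤ R')
    (hnear : ∀ l ∈ Q.U, ‖Q.q l‖ ≤ R' → ‖T.ι (S.α l a - chi (t • x0') (Q.q l) • a)‖ ≤ κ) :
    S.ql g m a ≤ 2 * η * ‖T.ι a‖ ^ 2 + ‖m‖ ^ 2 * κ ^ 2 / η + S.ql 1 ((((4 * η)⁻¹ : ℝ) : ℂ) •
      (UA4_mbar S s (Complex.exp (((t * x0' (Q.q (g⁻¹ * s * g) - Q.q s) : ℝ) : ℂ) * Complex.I)) N m *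
        star (UA4_mbar S s
          (Complex.exp (((t * x0' (Q.q (g⁻¹ * s * g) - Q.q s) : ℝ) : ℂ) * Complex.I)) N m))) a := by
  set ω := Complex.exp (((t * x0' (Q.q (g⁻¹ * s * g) - Q.q s) : ℝ) : ℂ) * Complex.I) with hω
  have h1 : S.ql g m a ≤ (N : ℝ)⁻¹ * ∑ k ∈ Finset.range N, S.ql g (ω ^ k • S.α (s ^ k) m) a
      + 2 * ‖m‖ * ‖T.ι a‖ * κ := by
    refine UA4_avg_le N hN _ _ _ fun k hk => ?_
    have h2 := S.ql_shift Q (t • x0') a m g (s ^ k) κ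
      (hnear _ (Q.U.pow_mem hs k) (hR1 k hk))
      (hnear _ (by rw [UA4_conj_pow]; exact Q.U.pow_mem hs' k) (hR2 k hk))
    rw [UA4_phase Q x0' t g s hs hs' k] at h2
    exact h2
  rw [← UA4_ql_mbar] at h1
  have h3 := S.ql_absorb g (UA4_mbar S s ω N m) a η hη
  have h4 := UA4_amgm ‖m‖ ‖T.ι a‖ κ η hη
  linarith

/-- the bound of one right term -/
private theorem UA4_right (x0' : V →L[ℝ] ℝ) (t : ℝ) (g s : G) (hs : s ∈ Q.U)
    (hs' : g⁻¹ * s * g ∈ Q.U) (N : ℕ) (hN : 0 < N) (R' κ η : ℝ) (hη : 0 < η) (m a : A)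
    (hR1 : ∀ k ∈ Finset.range N, ‖Q.q (s ^ k)‖ ≤ R')
    (hR2 : ∀ k ∈ Finset.range N, ‖Q.q (g⁻¹ * s ^ k * g)‖ ≤ R')
    (hnear : ∀ l ∈ Q.U, ‖Q.q l‖ ≤ R' → ‖T.ι (S.α l a - chi (t • x0') (Q.q l) • a)‖ ≤ κ) :
    S.qr g m a ≤ 2 * η * ‖T.ι a‖ ^ 2 + ‖m‖ ^ 2 * κ ^ 2 / η + S.qr 1 ((((4 * η)⁻¹ : ℝ) : ℂ) •
      (star (UA4_mbar S s
          (Complex.exp (((t * x0' (Q.q (g⁻¹ * s * g) - Q.q s) : ℝ) : ℂ) * Complex.I)) N m) *
        UA4_mbar S s
          (Complex.exp (((t * x0' (Q.q (g⁻¹ * s * g) - Q.q s) : ℝ) : ℂ) * Complex.I)) N m)) a := by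
  set ω := Complex.exp (((t * x0' (Q.q (g⁻¹ * s * g) - Q.q s) : ℝ) : ℂ) * Complex.I) with hω
  have h1 : S.qr g m a ≤ (N : ℝ)⁻¹ * ∑ k ∈ Finset.range N, S.qr g (ω ^ k • S.α (s ^ k) m) a
      + 2 * ‖m‖ * ‖T.ι a‖ * κ := by
    refine UA4_avg_le N hN _ _ _ fun k hk => ?_
    have h2 := S.qr_shift Q (t • x0') a m g (s ^ k) κ
      (hnear _ (Q.U.pow_mem hs k) (hR1 k hk))
      (hnear _ (by rw [UA4_conj_pow]; exact Q.U.pow_mem hs' k) (hR2 k hk))
    rw [UA4_phase Q x0' t g s hs hs' k] at h2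
    exact h2
  rw [← UA4_qr_mbar] at h1
  have h3 := S.qr_absorb g (UA4_mbar S s ω N m) a η hη
  have h4 := UA4_amgm ‖m‖ ‖T.ι a‖ κ η hη
  linarith

/-- `|exp(i x) - 1| ≤ |x|` for the character -/
private theorem UA4_chi_sub_one (x0 : V →L[ℝ] ℝ) (v : V) : ‖chi x0 v - 1‖ ≤ |x0 v| := by
  unfold chi
  have := Real.norm_exp_I_mul_ofReal_sub_one_le (x := x0 v)
  rw [mul_comm] at this
  simpa using this

/-- the bound of the `2`-norm of the new coefficient -/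
private theorem UA4_norm_coeff (η : ℝ) (hη : 0 < η) (m : A) (M η' : ℝ) (hM : ‖m‖ ≤ M)
    (hm : ‖T.ι m‖ ≤ η') :
    ‖T.ι ((((4 * η)⁻¹ : ℝ) : ℂ) • (m * star m))‖ ≤ (4 * η)⁻¹ * (M * η') := by
  rw [map_smul, norm_smul, Complex.norm_real, Real.norm_of_nonneg (by positivity)]
  refine mul_le_mul_of_nonneg_left ?_ (by positivity)
  refine (T.mul_le _ _).trans ?_
  rw [T.norm_star]
  exact mul_le_mul hM hm (norm_nonneg _) ((norm_nonneg _).trans hM)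

private theorem UA4_norm_coeff' (η : ℝ) (hη : 0 < η) (m : A) (M η' : ℝ) (hM : ‖m‖ ≤ M)
    (hm : ‖T.ι m‖ ≤ η') :
    ‖T.ι ((((4 * η)⁻¹ : ℝ) : ℂ) • (star m * m))‖ ≤ (4 * η)⁻¹ * (M * η') := by
  have h := UA4_norm_coeff (T := T) η hη (star m) M η' (by rwa [norm_star]) (by rwa [T.norm_star])
  rwa [star_star] at h

/-- A4 -/
theorem TrAct.ineqB_of_ineqA [FiniteDimensional ℝ V] [Nontrivial V] (b1 b2 : A)
    (hb1 : S.Fixed b1) (hb2 : S.Fixed b2) (δ : ℝ) (hδ : 0 < δ) (h : S.IneqA Q b1 b2 δ) :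
    S.IneqB Q b1 b2 (2 * δ) := by
  classical
  obtain ⟨C, R, n, g, m, m', d, hC, hgU, hd, hmain⟩ := h
  have hs : ∀ i, ∃ s : G, (¬ Q.InZ (g i)) → (s ∈ Q.U ∧ (g i)⁻¹ * s * g i ∈ Q.U ∧
      Q.q ((g i)⁻¹ * s * g i) ≠ Q.q s) := by
    intro i
    by_cases hi : Q.InZ (g i)
    · exact ⟨1, fun h => absurd hi h⟩
    · have hi' := hi
      unfold QMap.InZ at hi'
      push Not at hi'
      obtain ⟨u, hu1, hu2, hu3⟩ := hi'
      exact ⟨u, fun _ => ⟨hu1, hu2, hu3⟩⟩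
  choose s hs using hs
  obtain ⟨v1, hv1⟩ := exists_ne (0 : V)
  obtain ⟨l1, hl1U, hl1q⟩ := Q.surj v1
  obtain ⟨x0', hx0'⟩ := exists_functional_ne_zero
    (insert v1 ((Finset.univ.filter fun i => ¬ Q.InZ (g i)).image
      fun i => Q.q ((g i)⁻¹ * s i * g i) - Q.q (s i))) (by
    intro x hx
    rw [Finset.mem_insert, Finset.mem_image] at hx
    rcases hx with rfl | ⟨i, hi, rfl⟩
    · exact hv1
    · exact sub_ne_zero.2 ((hs i (Finset.mem_filter.1 hi).2).2.2))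
  have hxv1 : x0' v1 ≠ 0 := hx0' v1 (Finset.mem_insert_self _ _)
  have hxw : ∀ i, ¬ Q.InZ (g i) → x0' (Q.q ((g i)⁻¹ * s i * g i) - Q.q (s i)) ≠ 0 := fun i hi =>
    hx0' _ (Finset.mem_insert_of_mem (Finset.mem_image.2
      ⟨i, Finset.mem_filter.2 ⟨Finset.mem_univ i, hi⟩, rfl⟩))
  -- constants
  set M : ℝ := ∑ i, (‖m i‖ + ‖m' i‖) with hMdef
  have hM0 : 0 ≤ M := Finset.sum_nonneg fun i _ => by positivity
  have hMi : ∀ i, ‖m i‖ + ‖m' i‖ ≤ M := fun i =>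
    Finset.single_le_sum (f := fun i => ‖m i‖ + ‖m' i‖) (fun i _ => by positivity)
      (Finset.mem_univ i)
  have hM1 : ∀ i, ‖m i‖ ≤ M := fun i => by have := hMi i; have := norm_nonneg (m' i); linarith
  have hM2 : ∀ i, ‖m' i‖ ≤ M := fun i => by have := hMi i; have := norm_nonneg (m i); linarith
  have hn0 : (0 : ℝ) ≤ n := Nat.cast_nonneg n
  obtain ⟨η1, hη1, hη1n⟩ : ∃ η1 : ℝ, 0 < η1 ∧ 4 * n * η1 ≤ 1 / 16 := by
    refine ⟨1 / (64 * (n + 1)), by positivity, ?_⟩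
    rw [mul_one_div, div_le_div_iff₀ (by positivity) (by norm_num)]
    linarith
  obtain ⟨η, hη, hηC⟩ : ∃ η : ℝ, 0 < η ∧ 2 * C * η ^ 2 ≤ 1 / 16 := by
    refine ⟨1 / (8 * (C + 1)), by positivity, ?_⟩
    rw [div_pow, one_pow, mul_one_div, div_le_div_iff₀ (by positivity) (by norm_num)]
    nlinarith
  set η' : ℝ := 4 * η1 * δ / ((n + 1) * (M + 1)) with hη'def
  have hη' : 0 < η' := by positivity
  have hη'b : n * ((4 * η1)⁻¹ * (M * η')) ≤ δ := by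
    have h1 : n * ((4 * η1)⁻¹ * (M * η')) = δ * (n * M / ((n + 1) * (M + 1))) := by
      rw [hη'def]
      field_simp
    rw [h1]
    have h2 : n * M / ((n + 1) * (M + 1)) ≤ 1 := by
      rw [div_le_one (by positivity)]
      nlinarith
    calc δ * (n * M / ((n + 1) * (M + 1))) ≤ δ * 1 := mul_le_mul_of_nonneg_left h2 hδ.le
      _ = δ := mul_one δ
  obtain ⟨t0, ht0, ht0R, ht0v⟩ : ∃ t0 : ℝ, 0 < t0 ∧ t0 * (‖x0'‖ * |R|) ≤ η ∧
      t0 * |x0' v1| ≤ 1 := by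
    have h1 : 0 < |x0' v1| := abs_pos.2 hxv1
    refine ⟨min (η / (‖x0'‖ * |R| + 1)) (1 / |x0' v1|), ?_, ?_, ?_⟩
    · refine lt_min ?_ ?_ <;> positivity
    · have h2 : 0 ≤ ‖x0'‖ * |R| := by positivity
      calc min (η / (‖x0'‖ * |R| + 1)) (1 / |x0' v1|) * (‖x0'‖ * |R|)
          ≤ η / (‖x0'‖ * |R| + 1) * (‖x0'‖ * |R|) :=
            mul_le_mul_of_nonneg_right (min_le_left _ _) h2
        _ = η * ((‖x0'‖ * |R|) / (‖x0'‖ * |R| + 1)) := by ring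
        _ ≤ η * 1 := mul_le_mul_of_nonneg_left
            ((div_le_one (by positivity)).2 (by linarith)) hη.le
        _ = η := mul_one η
    · calc min (η / (‖x0'‖ * |R| + 1)) (1 / |x0' v1|) * |x0' v1|
          ≤ 1 / |x0' v1| * |x0' v1| := mul_le_mul_of_nonneg_right (min_le_right _ _) h1.le
        _ = 1 := by rw [one_div, inv_mul_cancel₀ h1.ne']
        _ ≤ 1 := le_refl 1
  obtain ⟨t, ht, htt0, N, hN, hNavg⟩ := exists_t_avg (P := Fin n × Bool)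
    (fun p => S.U.U (s p.1)) (fun p ξ ζ => S.U.inner_map _ _ _)
    (fun p => if p.2 then T.ι (m p.1) else T.ι (m' p.1))
    (fun p => if Q.InZ (g p.1) then 1 else x0' (Q.q ((g p.1)⁻¹ * s p.1 * g p.1) - Q.q (s p.1)))
    (by
      intro p
      by_cases hp : Q.InZ (g p.1)
      · simp [hp]
      · simp only [hp, if_false]
        exact hxw _ hp) t0 ht0 η' hη'
  set ω : Fin n → ℂ := fun i =>
    Complex.exp (((t * x0' (Q.q ((g i)⁻¹ * s i * g i) - Q.q (s i)) : ℝ) : ℂ) * Complex.I) with hω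
  have hω1 : ∀ i, ‖ω i‖ = 1 := fun i => UA4_norm_exp _
  have hmb : ∀ i, ¬ Q.InZ (g i) → ‖T.ι (UA4_mbar S (s i) (ω i) N (m i))‖ ≤ η' := by
    intro i hi
    have h1 := hNavg (i, true)
    simp only [hi, if_false, if_true] at h1
    rw [UA4_ι_mbar]
    exact h1
  have hmb' : ∀ i, ¬ Q.InZ (g i) → ‖T.ι (UA4_mbar S (s i) (ω i) N (m' i))‖ ≤ η' := by
    intro i hi
    have h1 := hNavg (i, false)
    simp only [hi, if_false, Bool.false_eq_true] at h1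
    rw [UA4_ι_mbar]
    exact h1
  -- the new radius
  set R' : ℝ := |R| + ‖v1‖ + ∑ i, ∑ k ∈ Finset.range N,
    (‖Q.q (s i ^ k)‖ + ‖Q.q ((g i)⁻¹ * s i ^ k * g i)‖) with hR'
  have hsum0 : 0 ≤ ∑ i, ∑ k ∈ Finset.range N,
      (‖Q.q (s i ^ k)‖ + ‖Q.q ((g i)⁻¹ * s i ^ k * g i)‖) :=
    Finset.sum_nonneg fun i _ => Finset.sum_nonneg fun k _ => by positivity
  have hRR' : R ≤ R' := by
    have := le_abs_self R
    have := norm_nonneg v1
    linarith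
  have hvR' : ‖v1‖ ≤ R' := by
    have := abs_nonneg R
    linarith
  have hkR' : ∀ i, ∀ k ∈ Finset.range N,
      ‖Q.q (s i ^ k)‖ + ‖Q.q ((g i)⁻¹ * s i ^ k * g i)‖ ≤ R' := by
    intro i k hk
    have h1 : ‖Q.q (s i ^ k)‖ + ‖Q.q ((g i)⁻¹ * s i ^ k * g i)‖ ≤ ∑ k ∈ Finset.range N,
        (‖Q.q (s i ^ k)‖ + ‖Q.q ((g i)⁻¹ * s i ^ k * g i)‖) :=
      Finset.single_le_sum (f := fun k => ‖Q.q (s i ^ k)‖ + ‖Q.q ((g i)⁻¹ * s i ^ k * g i)‖)
        (fun k _ => by positivity) hk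
    have h2 : ∑ k ∈ Finset.range N, (‖Q.q (s i ^ k)‖ + ‖Q.q ((g i)⁻¹ * s i ^ k * g i)‖)
        ≤ ∑ i, ∑ k ∈ Finset.range N,
          (‖Q.q (s i ^ k)‖ + ‖Q.q ((g i)⁻¹ * s i ^ k * g i)‖) :=
      Finset.single_le_sum (f := fun i => ∑ k ∈ Finset.range N,
        (‖Q.q (s i ^ k)‖ + ‖Q.q ((g i)⁻¹ * s i ^ k * g i)‖))
        (fun i _ => Finset.sum_nonneg fun k _ => by positivity) (Finset.mem_univ i)
    have := norm_nonneg v1
    have := abs_nonneg R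
    linarith
  have hk1 : ∀ i, ∀ k ∈ Finset.range N, ‖Q.q (s i ^ k)‖ ≤ R' := fun i k hk => by
    have := hkR' i k hk
    have := norm_nonneg (Q.q ((g i)⁻¹ * s i ^ k * g i))
    linarith
  have hk2 : ∀ i, ∀ k ∈ Finset.range N, ‖Q.q ((g i)⁻¹ * s i ^ k * g i)‖ ≤ R' := fun i k hk => by
    have := hkR' i k hk
    have := norm_nonneg (Q.q (s i ^ k))
    linarith
  -- the value of the character at `l1`
  set c1 : ℂ := chi (t • x0') (Q.q l1) with hc1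
  have hc1ne : 0 < ‖1 - c1‖ := by
    rw [norm_pos_iff, sub_ne_zero]
    intro h1
    have h2 : Complex.exp (((t • x0') (Q.q l1) : ℂ) * Complex.I) = 1 := by
      rw [← Complex.ofReal_one] at h1
      rw [hc1] at h1
      unfold chi at h1
      rw [← h1]
      simp
    obtain ⟨j, hj⟩ := Complex.exp_eq_one_iff.1 h2
    have h3 : (t • x0') (Q.q l1) = j * (2 * Real.pi) := by
      have h4 := congrArg Complex.im hj
      simpa using h4
    rw [hl1q, ContinuousLinearMap.smul_apply, smul_eq_mul] at h3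
    have h5 : |t * x0' v1| ≤ 1 := by
      rw [abs_mul, abs_of_pos ht]
      exact (mul_le_mul_of_nonneg_right htt0 (abs_nonneg _)).trans ht0v
    rw [h3, abs_mul, abs_of_pos (by positivity : (0 : ℝ) < 2 * Real.pi)] at h5
    have h6 : j = 0 := by
      by_contra hj0
      have h7 : (1 : ℝ) ≤ |(j : ℝ)| := by
        exact_mod_cast Int.one_le_abs hj0
      have := Real.pi_gt_three
      nlinarith
    rw [h6] at h3
    simp only [Int.cast_zero, zero_mul, mul_eq_zero] at h3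
    rcases h3 with h3 | h3
    · exact ht.ne' h3
    · exact hxv1 h3
  set NZ := Finset.univ.filter fun i => ¬ Q.InZ (g i) with hNZ
  have hNZcard : (NZ.card : ℝ) ≤ n := by
    have h1 : NZ.card ≤ n := by
      have := Finset.card_filter_le (Finset.univ : Finset (Fin n)) fun i => ¬ Q.InZ (g i)
      rwa [Finset.card_univ, Fintype.card_fin] at this
    exact_mod_cast h1
  set e := (Fintype.equivFin {i // Q.InZ (g i)}).symm with he
  refine ⟨2 * C + C / ‖1 - c1‖ ^ 2 + ∑ i, (‖m i‖ ^ 2 + ‖m' i‖ ^ 2) / η1, R', t • x0',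
    Fintype.card {i // Q.InZ (g i)}, fun j => g (e j).1, fun j => m (e j).1, fun j => m' (e j).1,
    d + ∑ i ∈ NZ, (((4 * η1)⁻¹ : ℝ) : ℂ) •
      (UA4_mbar S (s i) (ω i) N (m i) * star (UA4_mbar S (s i) (ω i) N (m i))),
    d + ∑ i ∈ NZ, (((4 * η1)⁻¹ : ℝ) : ℂ) •
      (star (UA4_mbar S (s i) (ω i) N (m' i)) * UA4_mbar S (s i) (ω i) N (m' i)),
    ?_, ?_, ?_, ?_, ?_⟩
  · have : 0 ≤ ∑ i, (‖m i‖ ^ 2 + ‖m' i‖ ^ 2) / η1 := Finset.sum_nonneg fun i _ => by positivity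
    positivity
  · intro j
    exact ⟨hgU _, (e j).2⟩
  · rw [map_add, map_sum]
    refine (norm_add_le _ _).trans ?_
    have h1 : ‖∑ i ∈ NZ, T.ι ((((4 * η1)⁻¹ : ℝ) : ℂ) •
        (UA4_mbar S (s i) (ω i) N (m i) * star (UA4_mbar S (s i) (ω i) N (m i))))‖
        ≤ n * ((4 * η1)⁻¹ * (M * η')) := by
      refine (norm_sum_le _ _).trans ?_
      refine (Finset.sum_le_card_nsmul _ _ ((4 * η1)⁻¹ * (M * η')) fun i hi => ?_).trans ?_
      · exact UA4_norm_coeff η1 hη1 _ M η'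
          ((UA4_norm_mbar_le S _ _ (hω1 i) N hN _).trans (hM1 i)) (hmb i (Finset.mem_filter.1 hi).2)
      · rw [nsmul_eq_mul]
        exact mul_le_mul_of_nonneg_right hNZcard (by positivity)
    linarith
  · rw [map_add, map_sum]
    refine (norm_add_le _ _).trans ?_
    have h1 : ‖∑ i ∈ NZ, T.ι ((((4 * η1)⁻¹ : ℝ) : ℂ) •
        (star (UA4_mbar S (s i) (ω i) N (m' i)) * UA4_mbar S (s i) (ω i) N (m' i)))‖
        ≤ n * ((4 * η1)⁻¹ * (M * η')) := by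
      refine (norm_sum_le _ _).trans ?_
      refine (Finset.sum_le_card_nsmul _ _ ((4 * η1)⁻¹ * (M * η')) fun i hi => ?_).trans ?_
      · exact UA4_norm_coeff' η1 hη1 _ M η'
          ((UA4_norm_mbar_le S _ _ (hω1 i) N hN _).trans (hM2 i)) (hmb' i (Finset.mem_filter.1 hi).2)
      · rw [nsmul_eq_mul]
        exact mul_le_mul_of_nonneg_right hNZcard (by positivity)
    linarith
  · intro x a κ ha hκ hnear
    -- the conditional expectation
    have hE : ‖T.ι (S.E a)‖ ^ 2 ≤ κ ^ 2 / ‖1 - c1‖ ^ 2 := by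
      have h1 := (S.norm_E_le_of_near a l1 c1).trans (hnear l1 hl1U (by rw [hl1q]; exact hvR'))
      rw [le_div_iff₀ (by positivity), mul_comm, ← mul_pow]
      exact pow_le_pow_left₀ (by positivity) h1 2
    -- the hypothesis of `hmain`
    have h1 := hmain x a (κ + η * ‖T.ι a‖) ha (by positivity) (by
      intro l hl hlR
      have e1 : S.α l a - a = (S.α l a - chi (t • x0') (Q.q l) • a)
          + (chi (t • x0') (Q.q l) - 1) • a := by
        rw [sub_smul, one_smul]; abel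
      rw [e1, map_add]
      refine (norm_add_le _ _).trans (add_le_add (hnear l hl (hlR.trans hRR')) ?_)
      rw [map_smul, norm_smul]
      refine mul_le_mul_of_nonneg_right ((UA4_chi_sub_one _ _).trans ?_) (norm_nonneg _)
      rw [ContinuousLinearMap.smul_apply, smul_eq_mul, abs_mul, abs_of_pos ht]
      have e2 : |x0' (Q.q l)| ≤ ‖x0'‖ * |R| := by
        refine (x0'.le_opNorm _).trans ?_
        exact mul_le_mul_of_nonneg_left (hlR.trans (le_abs_self R)) (norm_nonneg _)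
      calc t * |x0' (Q.q l)| ≤ t0 * (‖x0'‖ * |R|) :=
            mul_le_mul htt0 e2 (abs_nonneg _) ht0.le
        _ ≤ η := ht0R)
    -- split the sum
    have hsplit : ∑ i, (S.ql (g i) (m i) a + S.qr (g i) (m' i) a)
        = (∑ j, (S.ql (g (e j).1) (m (e j).1) a + S.qr (g (e j).1) (m' (e j).1) a))
          + ∑ i ∈ NZ, (S.ql (g i) (m i) a + S.qr (g i) (m' i) a) := by
      rw [← Finset.sum_filter_add_sum_filter_not Finset.univ (fun i => Q.InZ (g i))]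
      congr 1
      rw [Equiv.sum_comp e (fun i : {i // Q.InZ (g i)} =>
        (S.ql (g i.1) (m i.1) a + S.qr (g i.1) (m' i.1) a))]
      rw [← Finset.sum_subtype_eq_sum_filter]
      simp
    -- bound the noncentralising terms
    have hNZb : ∑ i ∈ NZ, (S.ql (g i) (m i) a + S.qr (g i) (m' i) a)
        ≤ 4 * n * η1 * ‖T.ι a‖ ^ 2 + (∑ i, (‖m i‖ ^ 2 + ‖m' i‖ ^ 2) / η1) * κ ^ 2
          + S.ql 1 (∑ i ∈ NZ, (((4 * η1)⁻¹ : ℝ) : ℂ) •
            (UA4_mbar S (s i) (ω i) N (m i) * star (UA4_mbar S (s i) (ω i) N (m i)))) a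
          + S.qr 1 (∑ i ∈ NZ, (((4 * η1)⁻¹ : ℝ) : ℂ) •
            (star (UA4_mbar S (s i) (ω i) N (m' i)) * UA4_mbar S (s i) (ω i) N (m' i))) a := by
      rw [UA4_ql_sum, UA4_qr_sum]
      have h2 : ∀ i ∈ NZ, S.ql (g i) (m i) a + S.qr (g i) (m' i) a
          ≤ 4 * η1 * ‖T.ι a‖ ^ 2 + (‖m i‖ ^ 2 + ‖m' i‖ ^ 2) / η1 * κ ^ 2
            + S.ql 1 ((((4 * η1)⁻¹ : ℝ) : ℂ) •
              (UA4_mbar S (s i) (ω i) N (m i) * star (UA4_mbar S (s i) (ω i) N (m i)))) a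
            + S.qr 1 ((((4 * η1)⁻¹ : ℝ) : ℂ) •
              (star (UA4_mbar S (s i) (ω i) N (m' i)) * UA4_mbar S (s i) (ω i) N (m' i))) a := by
        intro i hi
        obtain ⟨hi1, hi2, hi3⟩ := hs i (Finset.mem_filter.1 hi).2
        have h3 := UA4_left S Q x0' t (g i) (s i) hi1 hi2 N hN R' κ η1 hη1 (m i) a (hk1 i)
          (hk2 i) hnear
        have h4 := UA4_right S Q x0' t (g i) (s i) hi1 hi2 N hN R' κ η1 hη1 (m' i) a (hk1 i)
          (hk2 i) hnear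
        have h5 : (‖m i‖ ^ 2 + ‖m' i‖ ^ 2) / η1 * κ ^ 2
            = ‖m i‖ ^ 2 * κ ^ 2 / η1 + ‖m' i‖ ^ 2 * κ ^ 2 / η1 := by ring
        rw [h5]
        linarith
      refine (Finset.sum_le_sum h2).trans ?_
      rw [Finset.sum_add_distrib, Finset.sum_add_distrib, Finset.sum_add_distrib]
      have h3 : ∑ i ∈ NZ, 4 * η1 * ‖T.ι a‖ ^ 2 ≤ 4 * n * η1 * ‖T.ι a‖ ^ 2 := by
        rw [Finset.sum_const, nsmul_eq_mul]
        have : 0 ≤ 4 * η1 * ‖T.ι a‖ ^ 2 := by positivity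
        calc (NZ.card : ℝ) * (4 * η1 * ‖T.ι a‖ ^ 2) ≤ n * (4 * η1 * ‖T.ι a‖ ^ 2) :=
              mul_le_mul_of_nonneg_right hNZcard this
          _ = 4 * n * η1 * ‖T.ι a‖ ^ 2 := by ring
      have h4 : ∑ i ∈ NZ, (‖m i‖ ^ 2 + ‖m' i‖ ^ 2) / η1 * κ ^ 2
          ≤ (∑ i, (‖m i‖ ^ 2 + ‖m' i‖ ^ 2) / η1) * κ ^ 2 := by
        rw [Finset.sum_mul]
        exact Finset.sum_le_sum_of_subset_of_nonneg (Finset.filter_subset _ _)
          fun i _ _ => by positivity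
      linarith
    rw [hsplit] at h1
    have hκη : (κ + η * ‖T.ι a‖) ^ 2 ≤ 2 * κ ^ 2 + 2 * η ^ 2 * ‖T.ι a‖ ^ 2 := by
      nlinarith [sq_nonneg (κ - η * ‖T.ι a‖)]
    have hCκ : C * (κ + η * ‖T.ι a‖) ^ 2 ≤ C * (2 * κ ^ 2 + 2 * η ^ 2 * ‖T.ι a‖ ^ 2) :=
      mul_le_mul_of_nonneg_left hκη hC
    have hCE : C * ‖T.ι (S.E a)‖ ^ 2 ≤ C * (κ ^ 2 / ‖1 - c1‖ ^ 2) :=
      mul_le_mul_of_nonneg_left hE hC
    have hA1 : 2 * C * η ^ 2 * ‖T.ι a‖ ^ 2 ≤ 1 / 16 * ‖T.ι a‖ ^ 2 :=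
      mul_le_mul_of_nonneg_right hηC (by positivity)
    have hA2 : 4 * n * η1 * ‖T.ι a‖ ^ 2 ≤ 1 / 16 * ‖T.ι a‖ ^ 2 :=
      mul_le_mul_of_nonneg_right hη1n (by positivity)
    rw [UA4_ql_add, UA4_qr_add]
    have e3 : C * (κ ^ 2 / ‖1 - c1‖ ^ 2) = C / ‖1 - c1‖ ^ 2 * κ ^ 2 := by ring
    rw [e3] at hCE
    nlinarith


end Pool.Agent.AbCoc
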