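import Pool.Agent.Lib_MP_418a80_un.UA0

/-! # A5: the right coefficients become invariant -/

set_option autoImplicit false
set_option linter.unusedVariables false
set_option linter.unusedSectionVars false

open MeasureTheory Topology Filter
open scoped ENNReal NNReal ComplexConjugate

namespace Pool.Agent.AbCoc

universe u v w z

variable {A : Type u} [CStarAlgebra A] {K : Type v} [NormedAddCommGroup K]
  [InnerProductSpace ℂ K] [CompleteSpace K]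
variable {G : Type w} [Group G] [TopologicalSpace G] [IsTopologicalGroup G] [T2Space G]
  [SecondCountableTopology G] [LocallyCompactSpace G] [MeasurableSpace G] [BorelSpace G]
  {T : TrAlg A K} (S : TrAct G T)
  {V : Type z} [NormedAddCommGroup V] [NormedSpace ℝ V] (Q : QMap G V)

/-- the restriction of the action to a subgroup -/
def TrAct.restrict (L : Subgroup G) : TrAct (↥L) T where
  α := fun g => S.α g
  one := fun a => S.one a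
  mul := fun g h a => S.mul g h a
  norm_map := fun g a => S.norm_map g a
  cont := fun a => (S.cont a).comp continuous_subtype_val

private theorem conj_eq (a : A) (g s : G) :
    S.α s⁻¹ (S.α g (S.α s a)) = S.α g (S.α (g⁻¹ * s⁻¹ * g * s) a) := by
  rw [← S.mul, ← S.mul, ← S.mul]
  congr 1
  group

/-- A5a (left) -/
theorem TrAct.ql_conj (a m : A) (g s : G) :
    |S.ql g m (S.α s a) - S.ql g (S.α s⁻¹ m) a|
      ≤ ‖m‖ * ‖T.ι a‖ * ‖T.ι (S.α (g⁻¹ * s⁻¹ * g * s) a - a)‖ := by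
  unfold TrAct.ql
  have h1 : inner ℂ (T.ι (S.α s a)) (T.ι (m * S.α g (S.α s a)))
      = inner ℂ (T.ι a) (T.ι (S.α s⁻¹ m * S.α g (S.α (g⁻¹ * s⁻¹ * g * s) a))) := by
    rw [← S.inner_map s⁻¹, S.inv_apply, map_mul, conj_eq]
  rw [h1, ← Complex.sub_re, ← inner_sub_right, ← map_sub T.ι, ← mul_sub, ← map_sub (S.α g)]
  refine (Complex.abs_re_le_norm _).trans ((norm_inner_le_norm _ _).trans ?_)
  have h2 : ‖T.ι (S.α s⁻¹ m * S.α g (S.α (g⁻¹ * s⁻¹ * g * s) a - a))‖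
      ≤ ‖m‖ * ‖T.ι (S.α (g⁻¹ * s⁻¹ * g * s) a - a)‖ := by
    refine (T.mul_le _ _).trans ?_
    rw [S.norm_map]
    exact mul_le_mul_of_nonneg_right (S.norm_le _ _) (norm_nonneg _)
  calc _ ≤ ‖T.ι a‖ * (‖m‖ * ‖T.ι (S.α (g⁻¹ * s⁻¹ * g * s) a - a)‖) :=
        mul_le_mul_of_nonneg_left h2 (norm_nonneg _)
    _ = _ := by ring

/-- A5a (right) -/
theorem TrAct.qr_conj (a m : A) (g s : G) :
    |S.qr g m (S.α s a) - S.qr g (S.α s⁻¹ m) a|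
      ≤ ‖m‖ * ‖T.ι a‖ * ‖T.ι (S.α (g⁻¹ * s⁻¹ * g * s) a - a)‖ := by
  unfold TrAct.qr
  have h1 : inner ℂ (T.ι (S.α s a)) (T.ι (S.α g (S.α s a) * m))
      = inner ℂ (T.ι a) (T.ι (S.α g (S.α (g⁻¹ * s⁻¹ * g * s) a) * S.α s⁻¹ m)) := by
    rw [← S.inner_map s⁻¹, S.inv_apply, map_mul, conj_eq]
  rw [h1, ← Complex.sub_re, ← inner_sub_right, ← map_sub T.ι, ← sub_mul, ← map_sub (S.α g)]
  refine (Complex.abs_re_le_norm _).trans ((norm_inner_le_norm _ _).trans ?_)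
  have h2 : ‖T.ι (S.α g (S.α (g⁻¹ * s⁻¹ * g * s) a - a) * S.α s⁻¹ m)‖
      ≤ ‖T.ι (S.α (g⁻¹ * s⁻¹ * g * s) a - a)‖ * ‖m‖ := by
    refine (T.mul_le' _ _).trans ?_
    rw [S.norm_map]
    exact mul_le_mul_of_nonneg_left (S.norm_le _ _) (norm_nonneg _)
  calc _ ≤ ‖T.ι a‖ * (‖T.ι (S.α (g⁻¹ * s⁻¹ * g * s) a - a)‖ * ‖m‖) :=
        mul_le_mul_of_nonneg_left h2 (norm_nonneg _)
    _ = _ := by ring

private theorem ql_sub (g : G) (m m2 a : A) :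
    S.ql g (m - m2) a = S.ql g m a - S.ql g m2 a := by
  unfold TrAct.ql
  rw [sub_mul, map_sub, inner_sub_right, Complex.sub_re]

private theorem qr_sub (g : G) (m m2 a : A) :
    S.qr g (m - m2) a = S.qr g m a - S.qr g m2 a := by
  unfold TrAct.qr
  rw [mul_sub, map_sub, inner_sub_right, Complex.sub_re]

private theorem ql_add (g : G) (m m2 a : A) :
    S.ql g (m + m2) a = S.ql g m a + S.ql g m2 a := by
  unfold TrAct.ql
  rw [add_mul, map_add, inner_add_right, Complex.add_re]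

private theorem ql_sum {ι' : Type*} (F : Finset ι') (w : ι' → ℝ) (g : G) (m : ι' → A) (a : A) :
    S.ql g (∑ s ∈ F, w s • m s) a = ∑ s ∈ F, w s * S.ql g (m s) a := by
  unfold TrAct.ql
  rw [Finset.sum_mul, map_sum, inner_sum, Complex.re_sum]
  refine Finset.sum_congr rfl fun s _ => ?_
  have h : w s • m s = (w s : ℂ) • m s := rfl
  rw [h, smul_mul_assoc, map_smul, inner_smul_right, Complex.re_ofReal_mul]

private theorem qr_sum {ι' : Type*} (F : Finset ι') (w : ι' → ℝ) (g : G) (m : ι' → A) (a : A) :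
    S.qr g (∑ s ∈ F, w s • m s) a = ∑ s ∈ F, w s * S.qr g (m s) a := by
  unfold TrAct.qr
  rw [Finset.mul_sum, map_sum, inner_sum, Complex.re_sum]
  refine Finset.sum_congr rfl fun s _ => ?_
  have h : w s • m s = (w s : ℂ) • m s := rfl
  rw [h, mul_smul_comm, map_smul, inner_smul_right, Complex.re_ofReal_mul]

private theorem ql_le (g : G) (m a : A) : |S.ql g m a| ≤ ‖T.ι m‖ * (‖a‖ * ‖T.ι a‖) := by
  unfold TrAct.ql
  refine (Complex.abs_re_le_norm _).trans ((norm_inner_le_norm _ _).trans ?_)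
  have h2 : ‖T.ι (m * S.α g a)‖ ≤ ‖T.ι m‖ * ‖a‖ :=
    (T.mul_le' _ _).trans (mul_le_mul_of_nonneg_left (S.norm_le _ _) (norm_nonneg _))
  calc _ ≤ ‖T.ι a‖ * (‖T.ι m‖ * ‖a‖) := mul_le_mul_of_nonneg_left h2 (norm_nonneg _)
    _ = _ := by ring

private theorem qr_le (g : G) (m a : A) : |S.qr g m a| ≤ ‖T.ι m‖ * (‖a‖ * ‖T.ι a‖) := by
  unfold TrAct.qr
  refine (Complex.abs_re_le_norm _).trans ((norm_inner_le_norm _ _).trans ?_)
  have h2 : ‖T.ι (S.α g a * m)‖ ≤ ‖a‖ * ‖T.ι m‖ :=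
    (T.mul_le _ _).trans (mul_le_mul_of_nonneg_right (S.norm_le _ _) (norm_nonneg _))
  calc _ ≤ ‖T.ι a‖ * (‖a‖ * ‖T.ι m‖) := mul_le_mul_of_nonneg_left h2 (norm_nonneg _)
    _ = _ := by ring

private theorem q_one : Q.q 1 = 0 := by
  have h := Q.map_mul 1 Q.U.one_mem 1 Q.U.one_mem
  rw [mul_one] at h
  simpa using h

private theorem q_inv (s : G) (hs : s ∈ Q.U) : Q.q s⁻¹ = -Q.q s := by
  have h := Q.map_mul s⁻¹ (Q.U.inv_mem hs) s hs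
  rw [inv_mul_cancel, q_one] at h
  exact eq_neg_of_add_eq_zero_left h.symm

/-- the subgroup `L₁` -/
private def L1 {n : ℕ} (g : Fin n → G) : Subgroup G where
  carrier := {s | s ∈ Q.U ∧ ∀ i, (g i)⁻¹ * s * g i ∈ Q.U}
  one_mem' := ⟨Q.U.one_mem, fun i => by
    have h : (g i)⁻¹ * 1 * g i = 1 := by group
    rw [h]
    exact Q.U.one_mem⟩
  mul_mem' := by
    rintro s t ⟨hs, hs'⟩ ⟨ht, ht'⟩
    refine ⟨Q.U.mul_mem hs ht, fun i => ?_⟩
    have h : (g i)⁻¹ * (s * t) * g i = ((g i)⁻¹ * s * g i) * ((g i)⁻¹ * t * g i) := by group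
    rw [h]
    exact Q.U.mul_mem (hs' i) (ht' i)
  inv_mem' := by
    rintro s ⟨hs, hs'⟩
    refine ⟨Q.U.inv_mem hs, fun i => ?_⟩
    have h : (g i)⁻¹ * s⁻¹ * g i = ((g i)⁻¹ * s * g i)⁻¹ := by group
    rw [h]
    exact Q.U.inv_mem (hs' i)

/-- the inequality applied to `α_(s⁻¹) a` -/
private theorem step {b1 b2 : A} (hb1 : S.Fixed b1) (hb2 : S.Fixed b2) {C R : ℝ}
    {x0 : V →L[ℝ] ℝ} {n : ℕ} {g : Fin n → G} {m m' : Fin n → A} {d1 d2 : A}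
    (hg : ∀ i, g i ∉ Q.U ∧ Q.InZ (g i))
    (hineq : ∀ (x a : A) (κ : ℝ), a = b1 * x * b2 → 0 ≤ κ →
      (∀ l ∈ Q.U, ‖Q.q l‖ ≤ R → ‖T.ι (S.α l a - chi x0 (Q.q l) • a)‖ ≤ κ) →
      ‖T.ι a‖ ^ 2 / 8 ≤ C * κ ^ 2 + S.ql 1 d1 a + S.qr 1 d2 a
        + ∑ i, (S.ql (g i) (m i) a + S.qr (g i) (m' i) a))
    (x a : A) (κ : ℝ) (ha : a = b1 * x * b2) (hκ : 0 ≤ κ)
    (hnear : ∀ l ∈ Q.U, ‖Q.q l‖ ≤ max R 0 → ‖T.ι (S.α l a - chi x0 (Q.q l) • a)‖ ≤ κ)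
    (s : G) (hs : s ∈ Q.U) (hs' : ∀ i, (g i)⁻¹ * s * g i ∈ Q.U) :
    ‖T.ι a‖ ^ 2 / 8 ≤ C * κ ^ 2 + S.ql 1 (S.α s d1) a + S.qr 1 (S.α s d2) a
        + ∑ i, (S.ql (g i) (S.α s (m i)) a + S.qr (g i) (S.α s (m' i)) a)
        + (∑ i, (‖m i‖ + ‖m' i‖)) * ‖T.ι a‖ * κ := by
  have hqs := q_inv Q s hs
  have h1 := hineq (S.α s⁻¹ x) (S.α s⁻¹ a) κ
    (by rw [ha, map_mul, map_mul, hb1, hb2]) hκ (by
      intro l hl hlR
      have h2 : S.α l (S.α s⁻¹ a) - chi x0 (Q.q l) • S.α s⁻¹ a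
          = S.α s⁻¹ (S.α (s * l * s⁻¹) a - chi x0 (Q.q (s * l * s⁻¹)) • a) := by
        have h3 : Q.q (s * l * s⁻¹) = Q.q l := by
          rw [Q.map_mul _ (Q.U.mul_mem hs hl) _ (Q.U.inv_mem hs), Q.map_mul _ hs _ hl, hqs]
          abel
        rw [h3, map_sub, map_smul, ← S.mul, ← S.mul]
        congr 3
        group
      rw [h2, S.norm_map]
      refine hnear _ (Q.U.mul_mem (Q.U.mul_mem hs hl) (Q.U.inv_mem hs)) ?_
      have h3 : Q.q (s * l * s⁻¹) = Q.q l := by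
        rw [Q.map_mul _ (Q.U.mul_mem hs hl) _ (Q.U.inv_mem hs), Q.map_mul _ hs _ hl, hqs]
        abel
      rw [h3]
      exact hlR.trans (le_max_left _ _))
  rw [S.norm_map] at h1
  have hk : ∀ i, ‖T.ι (S.α ((g i)⁻¹ * s * g i * s⁻¹) a - a)‖ ≤ κ := by
    intro i
    have hk1 : Q.q ((g i)⁻¹ * s * g i * s⁻¹) = 0 := by
      rw [Q.map_mul _ (hs' i) _ (Q.U.inv_mem hs), (hg i).2 s hs (hs' i), hqs, add_neg_cancel]
    have h4 := hnear _ (Q.U.mul_mem (hs' i) (Q.U.inv_mem hs)) (by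
      rw [hk1, norm_zero]
      exact le_max_right _ _)
    rw [hk1] at h4
    have h5 : chi x0 (0 : V) = 1 := by
      unfold chi
      simp
    rwa [h5, one_smul] at h4
  have hL1 := S.ql_conj a d1 1 s⁻¹
  have hR1 := S.qr_conj a d2 1 s⁻¹
  have he : (1 : G)⁻¹ * s⁻¹⁻¹ * 1 * s⁻¹ = 1 := by group
  rw [he, S.one, sub_self, map_zero, norm_zero, mul_zero, inv_inv] at hL1 hR1
  have hL2 : S.ql 1 d1 (S.α s⁻¹ a) = S.ql 1 (S.α s d1) a :=
    sub_eq_zero.1 (abs_eq_zero.1 (le_antisymm hL1 (abs_nonneg _)))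
  have hR2 : S.qr 1 d2 (S.α s⁻¹ a) = S.qr 1 (S.α s d2) a :=
    sub_eq_zero.1 (abs_eq_zero.1 (le_antisymm hR1 (abs_nonneg _)))
  have hsum : ∑ i, (S.ql (g i) (m i) (S.α s⁻¹ a) + S.qr (g i) (m' i) (S.α s⁻¹ a))
      ≤ ∑ i, (S.ql (g i) (S.α s (m i)) a + S.qr (g i) (S.α s (m' i)) a)
        + (∑ i, (‖m i‖ + ‖m' i‖)) * ‖T.ι a‖ * κ := by
    rw [Finset.sum_mul, Finset.sum_mul, ← Finset.sum_add_distrib]
    refine Finset.sum_le_sum fun i _ => ?_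
    have h6 := S.ql_conj a (m i) (g i) s⁻¹
    have h7 := S.qr_conj a (m' i) (g i) s⁻¹
    rw [inv_inv] at h6 h7
    have h8 : ‖m i‖ * ‖T.ι a‖ * ‖T.ι (S.α ((g i)⁻¹ * s * g i * s⁻¹) a - a)‖
        ≤ ‖m i‖ * ‖T.ι a‖ * κ := mul_le_mul_of_nonneg_left (hk i) (by positivity)
    have h9 : ‖m' i‖ * ‖T.ι a‖ * ‖T.ι (S.α ((g i)⁻¹ * s * g i * s⁻¹) a - a)‖
        ≤ ‖m' i‖ * ‖T.ι a‖ * κ := mul_le_mul_of_nonneg_left (hk i) (by positivity)
    have h10 := (abs_le.1 (h6.trans h8)).2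
    have h11 := (abs_le.1 (h7.trans h9)).2
    linarith
  rw [hL2, hR2] at h1
  linarith

/-- the averaged inequality -/
private theorem averaged {b1 b2 : A} (hb1 : S.Fixed b1) (hb2 : S.Fixed b2) {C R : ℝ}
    {x0 : V →L[ℝ] ℝ} {n : ℕ} {g : Fin n → G} {m m' : Fin n → A} {d1 d2 : A}
    (hg : ∀ i, g i ∉ Q.U ∧ Q.InZ (g i))
    (hineq : ∀ (x a : A) (κ : ℝ), a = b1 * x * b2 → 0 ≤ κ →
      (∀ l ∈ Q.U, ‖Q.q l‖ ≤ R → ‖T.ι (S.α l a - chi x0 (Q.q l) • a)‖ ≤ κ) →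
      ‖T.ι a‖ ^ 2 / 8 ≤ C * κ ^ 2 + S.ql 1 d1 a + S.qr 1 d2 a
        + ∑ i, (S.ql (g i) (m i) a + S.qr (g i) (m' i) a))
    (x a : A) (κ : ℝ) (ha : a = b1 * x * b2) (hκ : 0 ≤ κ)
    (hnear : ∀ l ∈ Q.U, ‖Q.q l‖ ≤ max R 0 → ‖T.ι (S.α l a - chi x0 (Q.q l) • a)‖ ≤ κ) :
    ‖T.ι a‖ ^ 2 / 8 ≤ C * κ ^ 2 + S.ql 1 ((S.restrict (L1 Q g)).E d1) a
        + S.qr 1 ((S.restrict (L1 Q g)).E d2) a
        + ∑ i, (S.ql (g i) ((S.restrict (L1 Q g)).E (m i)) a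
          + S.qr (g i) ((S.restrict (L1 Q g)).E (m' i)) a)
        + (∑ i, (‖m i‖ + ‖m' i‖)) * ‖T.ι a‖ * κ := by
  refine le_of_forall_pos_le_add fun ε hε => ?_
  set S1 := S.restrict (L1 Q g) with hS1
  -- the size of the error
  set B : ℝ := (2 + 2 * (n : ℝ)) * (‖a‖ * ‖T.ι a‖) + 1 with hB
  have hBpos : 0 < B := by positivity
  have hη : 0 < (ε / B) ^ 2 := by positivity
  let y : Bool ⊕ (Fin n × Bool) → A := Sum.elim (fun b : Bool => if b then d1 else d2)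
    (fun p : Fin n × Bool => if p.2 then m p.1 else m' p.1)
  obtain ⟨F, w, hw, hws, hF⟩ := S1.exists_avg_family (Bool ⊕ (Fin n × Bool)) y
    ((ε / B) ^ 2) hη
  have hone : ∀ j, ‖T.ι (S1.avg F w (y j) - S1.E (y j))‖ ≤ ε / B := by
    intro j
    have h1 := Finset.single_le_sum
      (f := fun j => ‖T.ι (S1.avg F w (y j) - S1.E (y j))‖ ^ 2)
      (fun j _ => by positivity) (Finset.mem_univ j)
    have h2 := h1.trans hF.le
    exact (pow_le_pow_iff_left₀ (norm_nonneg _) (by positivity) two_ne_zero).1 h2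
  have hd1 : ‖T.ι (S1.avg F w d1 - S1.E d1)‖ ≤ ε / B := by simpa [y] using hone (Sum.inl true)
  have hd2 : ‖T.ι (S1.avg F w d2 - S1.E d2)‖ ≤ ε / B := by simpa [y] using hone (Sum.inl false)
  have hm : ∀ i, ‖T.ι (S1.avg F w (m i) - S1.E (m i))‖ ≤ ε / B := fun i => by
    simpa [y] using hone (Sum.inr (i, true))
  have hm' : ∀ i, ‖T.ι (S1.avg F w (m' i) - S1.E (m' i))‖ ≤ ε / B := fun i => by
    simpa [y] using hone (Sum.inr (i, false))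
  -- comparison of the terms
  have cl : ∀ (h : G) (y : A), ‖T.ι (S1.avg F w y - S1.E y)‖ ≤ ε / B →
      S.ql h (S1.avg F w y) a ≤ S.ql h (S1.E y) a + ε / B * (‖a‖ * ‖T.ι a‖) := by
    intro h y hy
    have h1 := ql_le S h (S1.avg F w y - S1.E y) a
    rw [ql_sub] at h1
    have h2 := (abs_le.1 (h1.trans (mul_le_mul_of_nonneg_right hy (by positivity)))).2
    linarith
  have cr : ∀ (h : G) (y : A), ‖T.ι (S1.avg F w y - S1.E y)‖ ≤ ε / B →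
      S.qr h (S1.avg F w y) a ≤ S.qr h (S1.E y) a + ε / B * (‖a‖ * ‖T.ι a‖) := by
    intro h y hy
    have h1 := qr_le S h (S1.avg F w y - S1.E y) a
    rw [qr_sub] at h1
    have h2 := (abs_le.1 (h1.trans (mul_le_mul_of_nonneg_right hy (by positivity)))).2
    linarith
  -- the average of the inequalities
  have hav : ‖T.ι a‖ ^ 2 / 8 ≤ C * κ ^ 2 + S.ql 1 (S1.avg F w d1) a + S.qr 1 (S1.avg F w d2) a
        + ∑ i, (S.ql (g i) (S1.avg F w (m i)) a + S.qr (g i) (S1.avg F w (m' i)) a)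
        + (∑ i, (‖m i‖ + ‖m' i‖)) * ‖T.ι a‖ * κ := by
    have h1 : ∀ s : ↥(L1 Q g), ‖T.ι a‖ ^ 2 / 8 - C * κ ^ 2
          - (∑ i, (‖m i‖ + ‖m' i‖)) * ‖T.ι a‖ * κ
        ≤ S.ql 1 (S.α s d1) a + S.qr 1 (S.α s d2) a
          + ∑ i, (S.ql (g i) (S.α s (m i)) a + S.qr (g i) (S.α s (m' i)) a) := by
      intro s
      have h2 := step S Q hb1 hb2 hg hineq x a κ ha hκ hnear (s : G) s.2.1 s.2.2
      linarith
    have h3 : ∑ s ∈ F, w s * (‖T.ι a‖ ^ 2 / 8 - C * κ ^ 2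
          - (∑ i, (‖m i‖ + ‖m' i‖)) * ‖T.ι a‖ * κ)
        ≤ ∑ s ∈ F, w s * (S.ql 1 (S.α s d1) a + S.qr 1 (S.α s d2) a
          + ∑ i, (S.ql (g i) (S.α s (m i)) a + S.qr (g i) (S.α s (m' i)) a)) :=
      Finset.sum_le_sum fun s _ => mul_le_mul_of_nonneg_left (h1 s) (hw s)
    rw [← Finset.sum_mul, hws, one_mul] at h3
    have h4 : ∑ s ∈ F, w s * (S.ql 1 (S.α s d1) a + S.qr 1 (S.α s d2) a
          + ∑ i, (S.ql (g i) (S.α s (m i)) a + S.qr (g i) (S.α s (m' i)) a))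
        = S.ql 1 (S1.avg F w d1) a + S.qr 1 (S1.avg F w d2) a
          + ∑ i, (S.ql (g i) (S1.avg F w (m i)) a + S.qr (g i) (S1.avg F w (m' i)) a) := by
      have e1 : ∀ (h : G) (y : A), S.ql h (S1.avg F w y) a
          = ∑ s ∈ F, w s * S.ql h (S.α s y) a := fun h y => ql_sum S F w h (fun s => S.α s y) a
      have e2 : ∀ (h : G) (y : A), S.qr h (S1.avg F w y) a
          = ∑ s ∈ F, w s * S.qr h (S.α s y) a := fun h y => qr_sum S F w h (fun s => S.α s y) a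
      simp only [e1, e2, mul_add, Finset.sum_add_distrib, Finset.mul_sum]
      rw [Finset.sum_comm (s := F), Finset.sum_comm (s := F)]
    rw [h4] at h3
    linarith
  have hsum : ∑ i, (S.ql (g i) (S1.avg F w (m i)) a + S.qr (g i) (S1.avg F w (m' i)) a)
      ≤ ∑ i, (S.ql (g i) (S1.E (m i)) a + S.qr (g i) (S1.E (m' i)) a)
        + (n : ℝ) * (2 * (ε / B * (‖a‖ * ‖T.ι a‖))) := by
    have h1 : (n : ℝ) * (2 * (ε / B * (‖a‖ * ‖T.ι a‖)))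
        = ∑ _i : Fin n, (2 * (ε / B * (‖a‖ * ‖T.ι a‖))) := by
      rw [Finset.sum_const, Finset.card_univ, Fintype.card_fin, nsmul_eq_mul]
    rw [h1, ← Finset.sum_add_distrib]
    refine Finset.sum_le_sum fun i _ => ?_
    have h2 := cl (g i) (m i) (hm i)
    have h3 := cr (g i) (m' i) (hm' i)
    linarith
  have h1 := cl 1 d1 hd1
  have h2 := cr 1 d2 hd2
  have h5 : (2 + 2 * (n : ℝ)) * (ε / B * (‖a‖ * ‖T.ι a‖)) ≤ ε := by
    have h6 : (2 + 2 * (n : ℝ)) * (ε / B * (‖a‖ * ‖T.ι a‖)) = ε / B * (B - 1) := by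
      rw [hB]
      ring
    rw [h6]
    have h7 : ε / B * B = ε := div_mul_cancel₀ _ hBpos.ne'
    have h8 : 0 < ε / B := by positivity
    nlinarith
  have h9 : (n : ℝ) * (2 * (ε / B * (‖a‖ * ‖T.ι a‖))) + 2 * (ε / B * (‖a‖ * ‖T.ι a‖))
      = (2 + 2 * (n : ℝ)) * (ε / B * (‖a‖ * ‖T.ι a‖)) := by ring
  linarith

/-- A5 -/
theorem TrAct.ineqC_of_ineqB (b1 b2 : A) (hb1 : S.Fixed b1) (hb2 : S.Fixed b2) (δ : ℝ)
    (hδ : 0 < δ) (h : S.IneqB Q b1 b2 δ) : S.IneqC Q b1 b2 (2 * δ) := by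
  obtain ⟨C, R, x0, n, g, m, m', d1, d2, hC, hg, hd1, hd2, hineq⟩ := h
  set M : ℝ := ∑ i, (‖m i‖ + ‖m' i‖) with hM
  refine ⟨C + M ^ 2 / (4 * δ), max R 0, x0, n, g, fun i => (S.restrict (L1 Q g)).E (m i),
    fun i => (S.restrict (L1 Q g)).E (m' i),
    (S.restrict (L1 Q g)).E d1 + (δ : ℂ) • (1 : A), (S.restrict (L1 Q g)).E d2,
    by positivity, le_max_right _ _, hg, ?_, ?_, ?_, ?_⟩
  · rw [map_add, map_smul]
    refine (norm_add_le _ _).trans ?_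
    have h1 := (S.restrict (L1 Q g)).norm_E_le d1
    have h2 : ‖(δ : ℂ) • T.ι 1‖ = δ := by
      rw [norm_smul, T.norm_one, mul_one, Complex.norm_real, Real.norm_eq_abs, abs_of_pos hδ]
    rw [h2]
    linarith
  · have h1 := (S.restrict (L1 Q g)).norm_E_le d2
    linarith
  · intro s hs hs'
    have hsL : s ∈ L1 Q g := ⟨hs, hs'⟩
    exact ⟨(S.restrict (L1 Q g)).E_fixed d2 ⟨s, hsL⟩,
      fun i => (S.restrict (L1 Q g)).E_fixed (m' i) ⟨s, hsL⟩⟩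
  · intro x a κ ha hκ hnear
    have h1 := averaged S Q hb1 hb2 hg hineq x a κ ha hκ hnear
    have h2 : S.ql 1 ((S.restrict (L1 Q g)).E d1 + (δ : ℂ) • (1 : A)) a
        = S.ql 1 ((S.restrict (L1 Q g)).E d1) a + δ * ‖T.ι a‖ ^ 2 := by
      rw [ql_add]
      congr 1
      unfold TrAct.ql
      rw [S.one, smul_mul_assoc, one_mul, map_smul, inner_smul_right, Complex.re_ofReal_mul,
        inner_self_eq_norm_sq_to_K]
      norm_cast
    rw [h2]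
    have h3 : M * ‖T.ι a‖ * κ ≤ δ * ‖T.ι a‖ ^ 2 + M ^ 2 / (4 * δ) * κ ^ 2 := by
      have h4 : 0 ≤ (2 * δ * ‖T.ι a‖ - M * κ) ^ 2 / (4 * δ) := by positivity
      have h5 : (2 * δ * ‖T.ι a‖ - M * κ) ^ 2 / (4 * δ)
          = δ * ‖T.ι a‖ ^ 2 + M ^ 2 / (4 * δ) * κ ^ 2 - M * ‖T.ι a‖ * κ := by
        field_simp
        ring
      linarith
    have h6 : (C + M ^ 2 / (4 * δ)) * κ ^ 2 = C * κ ^ 2 + M ^ 2 / (4 * δ) * κ ^ 2 := by ring
    rw [h6]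
    linarith

end Pool.Agent.AbCoc
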