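import Pool.Agent.Lib_MP_418a80_un.UB0
import Pool.Agent.Lib_MP_418a80_eg.Irr

/-! # B1, B4: irreducibility of the corner, non-vanishing -/

set_option autoImplicit false
set_option linter.unusedVariables false
set_option linter.unusedSectionVars false

open MeasureTheory Topology Filter
open scoped ENNReal NNReal ComplexConjugate

namespace Pool.Agent.AbCoc

universe u v w z

variable {H : Type u} [NormedAddCommGroup H] [InnerProductSpace ℂ H] [CompleteSpace H]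

/-- a closed star subalgebra is spanned by its unitaries -/
private theorem sum_unitary_UB1 {A : Type u} [CStarAlgebra A] (F : StarSubalgebra ℂ A)
    (hF : IsClosed (F : Set A)) {w : A}
    (hw : w ∈ F) : ∃ (u : Fin 4 → A) (c : Fin 4 → ℂ), (∀ i, u i ∈ unitary A ∧ u i ∈ F) ∧
      w = ∑ i, c i • u i := by
  have : IsClosed (F : Set A) := hF
  let _ : CStarAlgebra F := StarSubalgebra.cstarAlgebra F
  obtain ⟨u, c, h1, -⟩ := CStarAlgebra.exists_sum_four_unitary (⟨w, hw⟩ : F)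
  refine ⟨fun i => ((u i : F) : A), c, fun i => ⟨?_, (u i : F).2⟩, ?_⟩
  · rw [Unitary.mem_iff]
    have h2 := Unitary.mem_iff.1 (u i).2
    exact ⟨congrArg Subtype.val h2.1, congrArg Subtype.val h2.2⟩
  · have h2 : w = ((∑ i, c i • ((u i : F)) : F) : A) := congrArg Subtype.val h1
    rw [h2]
    simp

/-- the set of products `x * T'` -/
private def Qset (P : ComPair H) (X0 : Set (H →L[ℂ] H)) : Set (H →L[ℂ] H) :=
  {S | ∃ x ∈ X0, ∃ T ∈ P.N', S = x * T}

private theorem one_mem_N' (P : ComPair H) : (1 : H →L[ℂ] H) ∈ P.N' := by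
  rw [P.comm]
  exact Set.one_mem_centralizer

private theorem comm_NN' (P : ComPair H) {x T : H →L[ℂ] H} (hx : x ∈ P.N) (hT : T ∈ P.N') :
    x * T = T * x := by
  rw [P.comm] at hT
  exact Set.mem_centralizer_iff.1 hT x hx

private theorem Q_one (P : ComPair H) (X0 : Set (H →L[ℂ] H)) (h1 : 1 ∈ X0) :
    (1 : H →L[ℂ] H) ∈ Qset P X0 := ⟨1, h1, 1, one_mem_N' P, (mul_one 1).symm⟩

private theorem Q_mul (P : ComPair H) (X0 : Set (H →L[ℂ] H)) (hX0 : X0 ⊆ P.N)
    (hmul : ∀ x ∈ X0, ∀ y ∈ X0, x * y ∈ X0) :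
    ∀ S ∈ Qset P X0, ∀ T ∈ Qset P X0, S * T ∈ Qset P X0 := by
  rintro _ ⟨x, hx, S, hS, rfl⟩ _ ⟨y, hy, T, hT, rfl⟩
  refine ⟨x * y, hmul x hx y hy, S * T, ?_, ?_⟩
  · have hS' := hS
    have hT' := hT
    rw [P.comm] at hS' hT' ⊢
    exact Set.mul_mem_centralizer hS' hT'
  · rw [mul_assoc, ← mul_assoc S y T, ← comm_NN' P (hX0 hy) hS]
    simp only [mul_assoc]

private theorem Q_star (P : ComPair H) (X0 : Set (H →L[ℂ] H)) (hX0 : X0 ⊆ P.N)
    (hstar : ∀ x ∈ X0, star x ∈ X0) :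
    ∀ S ∈ Qset P X0, star S ∈ Qset P X0 := by
  rintro _ ⟨x, hx, S, hS, rfl⟩
  refine ⟨star x, hstar x hx, star S, P.star_mem' S hS, ?_⟩
  rw [star_mul, comm_NN' P (hX0 (hstar x hx)) (P.star_mem' S hS)]

private theorem Q_irr (P : ComPair H) (X0 : Set (H →L[ℂ] H)) (h1 : 1 ∈ X0)
    (hirr : ∀ Y ∈ P.N, (∀ x ∈ X0, Y * x = x * Y) → ∃ c : ℂ, Y = c • (1 : H →L[ℂ] H))
    (T : H →L[ℂ] H) (hT : ∀ S ∈ Qset P X0, T * S = S * T) :
    ∃ c : ℂ, T = c • (1 : H →L[ℂ] H) := by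
  refine hirr T ?_ ?_
  · rw [P.comm', Set.mem_centralizer_iff]
    intro S hS
    have h2 := hT S ⟨1, h1, S, hS, (one_mul S).symm⟩
    exact h2.symm
  · intro x hx
    exact hT x ⟨x, hx, 1, one_mem_N' P, (mul_one x).symm⟩

/-- B1 for unitaries, pointwise -/
private theorem ir_unitary_point (P : ComPair H) (X0 : Set (H →L[ℂ] H)) (hX0 : X0 ⊆ P.N)
    (h1 : 1 ∈ X0)
    (hmul : ∀ x ∈ X0, ∀ y ∈ X0, x * y ∈ X0) (hstar : ∀ x ∈ X0, star x ∈ X0)
    (hirr : ∀ Y ∈ P.N, (∀ x ∈ X0, Y * x = x * Y) → ∃ c : ℂ, Y = c • (1 : H →L[ℂ] H))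
    (p : H →L[ℂ] H) (hp : p ∈ P.N) (hps : star p = p) (U : H →L[ℂ] H) (hU : U ∈ P.N)
    (hUu : star U * U = 1)
    (hUp : U * p = p * U) (hUp' : star U * p = p * star U)
    (hUx : ∀ x ∈ X0, star U * (p * x * p) = (p * x * p) * star U) (w : H) :
    ∃ c : ℂ, U (p w) = c • p w := by
  refine ErgLC.proportional_of_vector_states (Qset P X0) (Q_one P X0 h1) (Q_mul P X0 hX0 hmul)
    (Q_star P X0 hX0 hstar) (Q_irr P X0 h1 hirr) (p w) (U (p w)) ?_
  rintro _ ⟨x, hx, T, hT, rfl⟩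
  have hk : star (U * p) * (x * T) * (U * p) = star p * (x * T) * p := by
    have e1 : T * (U * p) = p * (U * T) := by
      rw [hUp, ← mul_assoc, ← comm_NN' P hp hT, mul_assoc, ← comm_NN' P hU hT]
    calc star (U * p) * (x * T) * (U * p) = star (U * p) * x * (T * (U * p)) := by
          simp only [mul_assoc]
      _ = p * star U * x * (p * (U * T)) := by rw [e1, star_mul, hps]
      _ = star U * (p * x * p) * (U * T) := by rw [← hUp']; simp only [mul_assoc]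
      _ = (p * x * p) * (star U * U) * T := by rw [hUx x hx]; simp only [mul_assoc]
      _ = p * x * (p * T) := by rw [hUu, mul_one]; simp only [mul_assoc]
      _ = p * x * (T * p) := by rw [comm_NN' P hp hT]
      _ = star p * (x * T) * p := by rw [hps]; simp only [mul_assoc]
  have hk2 : ∀ (A B : H →L[ℂ] H), inner ℂ (A w) (B (A w)) = inner ℂ w ((star A * B * A) w) := by
    intro A B
    change inner ℂ (A w) (B (A w)) = inner ℂ w (star A (B (A w)))
    rw [ContinuousLinearMap.star_eq_adjoint, ContinuousLinearMap.adjoint_inner_right]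
  have h3 := hk2 p (x * T)
  have h4 := hk2 (U * p) (x * T)
  rw [hk] at h4
  exact h3.trans h4.symm

private theorem ir_unitary (P : ComPair H) (X0 : Set (H →L[ℂ] H)) (hX0 : X0 ⊆ P.N)
    (h1 : 1 ∈ X0)
    (hmul : ∀ x ∈ X0, ∀ y ∈ X0, x * y ∈ X0) (hstar : ∀ x ∈ X0, star x ∈ X0)
    (hirr : ∀ Y ∈ P.N, (∀ x ∈ X0, Y * x = x * Y) → ∃ c : ℂ, Y = c • (1 : H →L[ℂ] H))
    (p : H →L[ℂ] H) (hp : p ∈ P.N) (hps : star p = p) (U : H →L[ℂ] H) (hU : U ∈ P.N)
    (hUu : star U * U = 1)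
    (hUp : U * p = p * U) (hUp' : star U * p = p * star U)
    (hUx : ∀ x ∈ X0, star U * (p * x * p) = (p * x * p) * star U) :
    ∃ c : ℂ, U * p = c • p := by
  have hpt := ir_unitary_point P X0 hX0 h1 hmul hstar hirr p hp hps U hU hUu hUp hUp' hUx
  by_cases hp0 : p = 0
  · exact ⟨0, by rw [hp0, mul_zero, smul_zero]⟩
  obtain ⟨w0, hw0⟩ : ∃ w0, p w0 ≠ 0 := by
    by_contra hcon
    push Not at hcon
    apply hp0
    ext w
    exact hcon w
  obtain ⟨d, hd⟩ := hpt w0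
  refine ⟨d, ?_⟩
  ext w
  change U (p w) = d • p w
  obtain ⟨c, hc⟩ := hpt w
  obtain ⟨e, he⟩ := hpt (w0 + w)
  rw [map_add, map_add, hd, hc] at he
  have h2 : (d - e) • p w0 = (e - c) • p w := by
    rw [sub_smul, sub_smul]
    rw [smul_add] at he
    have : d • p w0 - e • p w0 = e • p w - c • p w := by
      rw [sub_eq_sub_iff_add_eq_add, he, add_comm]
    exact this
  by_cases hec : e = c
  · rw [hec, sub_self, zero_smul] at h2
    rcases smul_eq_zero.1 h2 with h3 | h3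
    · rw [hc, sub_eq_zero.1 h3]
    · exact absurd h3 hw0
  · have h4 : e - c ≠ 0 := sub_ne_zero.2 hec
    have h5 : p w = ((e - c)⁻¹ * (d - e)) • p w0 := by
      rw [mul_smul, h2, smul_smul, inv_mul_cancel₀ h4, one_smul]
    rw [h5, map_smul, hd, smul_comm]

/-- B1: an operator of `N` which commutes with `p` and with all `p x p` is scalar on the range
of `p` -/
theorem ComPair.ir (P : ComPair H) (X0 : Set (H →L[ℂ] H)) (hX0 : X0 ⊆ P.N) (h1 : 1 ∈ X0)
    (hmul : ∀ x ∈ X0, ∀ y ∈ X0, x * y ∈ X0) (hstar : ∀ x ∈ X0, star x ∈ X0)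
    (hirr : ∀ Y ∈ P.N, (∀ x ∈ X0, Y * x = x * Y) → ∃ c : ℂ, Y = c • (1 : H →L[ℂ] H))
    (p : H →L[ℂ] H) (hp : p ∈ P.N) (hps : star p = p) (Y : H →L[ℂ] H) (hY : Y ∈ P.N)
    (hYp : Y * p = p * Y) (hYx : ∀ x ∈ X0, Y * (p * x * p) = (p * x * p) * Y) :
    ∃ c : ℂ, Y * p = c • p := by
  set T : Set (H →L[ℂ] H) := P.N' ∪ {p} ∪ {S | ∃ x ∈ X0, S = p * x * p} with hT
  have hTs : ∀ S ∈ T, star S ∈ T := by
    rintro S ((hS | hS) | ⟨x, hx, rfl⟩)
    · exact Or.inl (Or.inl (P.star_mem' S hS))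
    · rw [Set.mem_singleton_iff] at hS
      rw [hS, hps]
      exact Or.inl (Or.inr rfl)
    · refine Or.inr ⟨star x, hstar x hx, ?_⟩
      rw [star_mul, star_mul, hps, mul_assoc]
  set F : StarSubalgebra ℂ (H →L[ℂ] H) := StarSubalgebra.centralizer ℂ T with hF
  have hcl : IsClosed (F : Set (H →L[ℂ] H)) := by
    rw [hF, StarSubalgebra.coe_centralizer]
    exact Set.isClosed_centralizer _
  have hmem : ∀ x : H →L[ℂ] H, x ∈ F ↔ ∀ S ∈ T, S * x = x * S := by
    intro x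
    rw [hF, StarSubalgebra.mem_centralizer_iff]
    constructor
    · intro hx S hS
      exact (hx S hS).1
    · intro hx S hS
      exact ⟨hx S hS, hx _ (hTs S hS)⟩
  have hYF : Y ∈ F := by
    rw [hmem]
    rintro S ((hS | hS) | ⟨x, hx, rfl⟩)
    · exact (comm_NN' P hY hS).symm
    · rw [Set.mem_singleton_iff] at hS
      rw [hS, hYp]
    · exact (hYx x hx).symm
  obtain ⟨U, c, hU, rfl⟩ := sum_unitary_UB1 F hcl hYF
  have h3 : ∀ i, ∃ d : ℂ, U i * p = d • p := by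
    intro i
    have hUF := (hmem _).1 (hU i).2
    have hUF' := (hmem _).1 (StarMemClass.star_mem (hU i).2)
    refine ir_unitary P X0 hX0 h1 hmul hstar hirr p hp hps (U i) ?_
      (Unitary.mem_iff.1 (hU i).1).1 ?_ ?_ ?_
    · rw [P.comm', Set.mem_centralizer_iff]
      intro S hS
      exact hUF S (Or.inl (Or.inl hS))
    · exact (hUF p (Or.inl (Or.inr rfl))).symm
    · exact (hUF' p (Or.inl (Or.inr rfl))).symm
    · intro x hx
      exact (hUF' _ (Or.inr ⟨x, hx, rfl⟩)).symm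
  choose d hd using h3
  refine ⟨∑ i, c i * d i, ?_⟩
  rw [Finset.sum_mul, Finset.sum_smul]
  refine Finset.sum_congr rfl fun i _ => ?_
  rw [smul_mul_assoc, hd i, smul_smul]

/-- B4: non-vanishing -/
theorem ComPair.exists_ne_zero (P : ComPair H) (X0 : Set (H →L[ℂ] H)) (hX0 : X0 ⊆ P.N)
    (h1 : 1 ∈ X0) (hmul : ∀ x ∈ X0, ∀ y ∈ X0, x * y ∈ X0) (hstar : ∀ x ∈ X0, star x ∈ X0)
    (hirr : ∀ Y ∈ P.N, (∀ x ∈ X0, Y * x = x * Y) → ∃ c : ℂ, Y = c • (1 : H →L[ℂ] H))
    (p : H →L[ℂ] H) (hp : p ∈ P.N) (hp0 : p ≠ 0) (η : H) (hη : η ≠ 0) :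
    ∃ x ∈ X0, p (x η) ≠ 0 := by
  by_contra hcon
  push Not at hcon
  set Z0 : Submodule ℂ H := Submodule.span ℂ {y | ∃ S ∈ Qset P X0, y = S η} with hZ0
  set Z : Submodule ℂ H := Z0.topologicalClosure with hZ
  have hZc : IsClosed (Z : Set H) := Submodule.isClosed_topologicalClosure _
  have : CompleteSpace Z := hZc.completeSpace_coe
  have hinv : ∀ S ∈ Qset P X0, ∀ x ∈ Z, S x ∈ Z := by
    intro S hS x hx
    have h2 : Z0.topologicalClosure ≤ Z.comap (S : H →ₗ[ℂ] H) := by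
      refine Submodule.topologicalClosure_minimal _ ?_ (hZc.preimage S.continuous)
      refine Submodule.span_le.2 ?_
      rintro y ⟨T, hT, rfl⟩
      exact Submodule.le_topologicalClosure _
        (Submodule.subset_span ⟨S * T, Q_mul P X0 hX0 hmul S hS T hT, rfl⟩)
    exact h2 hx
  have hker : ∀ x ∈ Z, p x = 0 := by
    intro x hx
    have h2 : Z0.topologicalClosure ≤ LinearMap.ker (p : H →ₗ[ℂ] H) := by
      refine Submodule.topologicalClosure_minimal _ ?_ p.isClosed_ker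
      refine Submodule.span_le.2 ?_
      rintro y ⟨_, ⟨x, hx, T, hT, rfl⟩, rfl⟩
      change p (x (T η)) = 0
      have h3 : p * x * T = T * (p * x) := by
        rw [mul_assoc, comm_NN' P (hX0 hx) hT, ← mul_assoc, comm_NN' P hp hT, mul_assoc]
      have h4 : (p * x * T) η = (T * (p * x)) η := by rw [h3]
      have h5 : p (x (T η)) = T (p (x η)) := h4
      rw [h5, hcon x hx, map_zero]
    exact h2 hx
  have hηZ : η ∈ Z := Submodule.le_topologicalClosure _
    (Submodule.subset_span ⟨1, Q_one P X0 h1, rfl⟩)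
  obtain ⟨c, hc⟩ := Q_irr P X0 h1 hirr Z.starProjection (fun S hS =>
    ErgLC.comm_starProjection Z S (hinv S hS) (hinv _ (Q_star P X0 hX0 hstar S hS)))
  have h2 : Z.starProjection η = η := Submodule.starProjection_eq_self_iff.2 hηZ
  rw [hc] at h2
  have h2' : c • η = η := h2
  have h3 : c = 1 := by
    have h4 : (c - 1) • η = 0 := by rw [sub_smul, one_smul, h2', sub_self]
    rcases smul_eq_zero.1 h4 with h5 | h5
    · exact sub_eq_zero.1 h5
    · exact absurd h5 hη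
  apply hp0
  ext x
  refine hker x ?_
  rw [← Submodule.starProjection_eq_self_iff, hc, h3, one_smul]
  rfl

end Pool.Agent.AbCoc
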