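import Pool.Agent.Lib_MP_418a80_un.UB0
import Pool.Agent.Lib_MP_418a80_eg.Irr

/-! # B2: bounded vectors -/

set_option autoImplicit false
set_option linter.unusedVariables false
set_option linter.unusedSectionVars false

open MeasureTheory Topology Filter
open scoped ENNReal NNReal ComplexConjugate

namespace Pool.Agent.AbCoc

universe u v w z

variable {H : Type u} [NormedAddCommGroup H] [InnerProductSpace ℂ H] [CompleteSpace H]

/-- B2: a vector `ζ` dominated by `v` with respect to `N'` is `Y v` for some `Y ∈ N` -/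
theorem ComPair.exists_bounded (P : ComPair H) (v ζ : H) (C : ℝ)
    (h : ∀ T ∈ P.N', ‖T ζ‖ ≤ C * ‖T v‖) :
    ∃ Y ∈ P.N, Y v = ζ ∧ ∀ w, (∀ T ∈ P.N', inner ℂ (T v) w = 0) → Y w = 0 := by
  classical
  let A : Subalgebra ℂ (H →L[ℂ] H) := Subalgebra.centralizer ℂ P.N
  have hA : ∀ T : H →L[ℂ] H, T ∈ A ↔ T ∈ P.N' := by
    intro T
    rw [P.comm]
    rfl
  let ev : H → (A →ₗ[ℂ] H) := fun x =>
    { toFun := fun T => (T : H →L[ℂ] H) x
      map_add' := fun _ _ => rfl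
      map_smul' := fun _ _ => rfl }
  have hev : ∀ x (T : A), ev x T = (T : H →L[ℂ] H) x := fun _ _ => rfl
  let Z : Submodule ℂ H := LinearMap.range (ev v)
  have hZ : ∀ w, w ∈ Zᗮ ↔ ∀ T ∈ P.N', inner ℂ (T v) w = 0 := by
    intro w
    rw [Submodule.mem_orthogonal]
    constructor
    · intro h1 T hT
      exact h1 (T v) ⟨⟨T, (hA T).2 hT⟩, rfl⟩
    · rintro h1 _ ⟨T, rfl⟩
      exact h1 T ((hA _).1 T.2)
  let e : (A × Zᗮ) →ₗ[ℂ] H := (ev v).coprod Zᗮ.subtype
  let f : (A × Zᗮ) →ₗ[ℂ] H := (ev ζ).coprod 0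
  have he : ∀ (T : A) (w : Zᗮ), e (T, w) = (T : H →L[ℂ] H) v + (w : H) := fun _ _ => rfl
  have hf : ∀ (T : A) (w : Zᗮ), f (T, w) = (T : H →L[ℂ] H) ζ := fun T w => by
    change (T : H →L[ℂ] H) ζ + 0 = _
    rw [add_zero]
  have hdense : DenseRange e := by
    have h1 : LinearMap.range e = Z ⊔ Zᗮ := by
      change LinearMap.range ((ev v).coprod Zᗮ.subtype) = _
      rw [LinearMap.range_coprod, Submodule.range_subtype]
    have h2 : (Z ⊔ Zᗮ).topologicalClosure = ⊤ := by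
      rw [Submodule.topologicalClosure_eq_top_iff, ← Submodule.inf_orthogonal]
      exact Submodule.inf_orthogonal_eq_bot Zᗮ
    have h3 : Dense ((LinearMap.range e : Submodule ℂ H) : Set H) := by
      rw [h1]
      exact Submodule.dense_iff_topologicalClosure_eq_top.2 h2
    exact h3
  have hnorm : ∃ C', ∀ x, ‖f x‖ ≤ C' * ‖e x‖ := by
    refine ⟨|C|, ?_⟩
    rintro ⟨T, w⟩
    rw [he, hf]
    have h1 : inner ℂ ((T : H →L[ℂ] H) v) (w : H) = 0 := (hZ w).1 w.2 T ((hA _).1 T.2)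
    have h2 := norm_add_sq_eq_norm_sq_add_norm_sq_of_inner_eq_zero ((T : H →L[ℂ] H) v) (w : H) h1
    have h3 : ‖(T : H →L[ℂ] H) v‖ ≤ ‖(T : H →L[ℂ] H) v + (w : H)‖ := by
      apply le_of_sq_le_sq _ (norm_nonneg _)
      nlinarith [mul_self_nonneg ‖(w : H)‖]
    calc ‖(T : H →L[ℂ] H) ζ‖ ≤ C * ‖(T : H →L[ℂ] H) v‖ := h T ((hA _).1 T.2)
      _ ≤ |C| * ‖(T : H →L[ℂ] H) v‖ :=
        mul_le_mul_of_nonneg_right (le_abs_self C) (norm_nonneg _)
      _ ≤ _ := mul_le_mul_of_nonneg_left h3 (abs_nonneg C)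
  have hY : ∀ (T : A) (w : Zᗮ),
      f.extendOfNorm e ((T : H →L[ℂ] H) v + (w : H)) = (T : H →L[ℂ] H) ζ := by
    intro T w
    rw [← he, LinearMap.extendOfNorm_eq hdense hnorm, hf]
  refine ⟨f.extendOfNorm e, ?_, ?_, ?_⟩
  · rw [P.comm', Set.mem_centralizer_iff]
    intro S hS
    have hS' := P.star_mem' S hS
    ext x
    have hcl : IsClosed {x : H | (S * f.extendOfNorm e) x = (f.extendOfNorm e * S) x} :=
      isClosed_eq (ContinuousLinearMap.continuous _) (ContinuousLinearMap.continuous _)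
    refine hdense.induction_on (p := fun x => (S * f.extendOfNorm e) x = (f.extendOfNorm e * S) x)
      x hcl ?_
    rintro ⟨T, w⟩
    have h1 : S (w : H) ∈ Zᗮ := by
      rw [hZ]
      intro T' hT'
      rw [← ContinuousLinearMap.adjoint_inner_left]
      have h2 : star S * T' ∈ P.N' := (hA _).1 (A.mul_mem ((hA _).2 hS') ((hA _).2 hT'))
      exact (hZ w).1 w.2 (star S * T') h2
    have h3 : S * (T : H →L[ℂ] H) ∈ A := A.mul_mem ((hA _).2 hS) T.2
    have h4 := hY ⟨S * (T : H →L[ℂ] H), h3⟩ ⟨S (w : H), h1⟩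
    change S (f.extendOfNorm e (e (T, w))) = f.extendOfNorm e (S (e (T, w)))
    rw [he, hY, map_add]
    exact h4.symm
  · have h1 := hY 1 0
    have h2 : ((1 : A) : H →L[ℂ] H) v + ((0 : Zᗮ) : H) = v := by
      change v + 0 = v
      rw [add_zero]
    rw [h2] at h1
    exact h1
  · intro w hw
    have h1 := hY 0 ⟨w, (hZ w).2 hw⟩
    have h2 : ((0 : A) : H →L[ℂ] H) v + ((⟨w, (hZ w).2 hw⟩ : Zᗮ) : H) = w := by
      change (0 : H) + w = w
      rw [zero_add]
    rw [h2] at h1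
    exact h1

end Pool.Agent.AbCoc
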