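import Pool.Agent.Lib_MP_418a80_un.UB2
import Pool.Agent.Lib_MP_418a80_ab.Hull

/-! # B3: Dixmier averaging with respect to a vector -/

set_option autoImplicit false
set_option linter.unusedVariables false
set_option linter.unusedSectionVars false

open MeasureTheory Topology Filter
open scoped ENNReal NNReal ComplexConjugate

namespace Pool.Agent.AbCoc

universe u v w z

variable {H : Type u} [NormedAddCommGroup H] [InnerProductSpace ℂ H] [CompleteSpace H]

namespace B3

theorem comm_inv {a R Z : H →L[ℂ] H} (h1 : a * R = 1) (h2 : R * a = 1) (hZ : Z * a = a * Z) :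
    Z * R = R * Z := by
  calc Z * R = (R * a) * (Z * R) := by rw [h2, one_mul]
    _ = R * (a * Z) * R := by simp only [mul_assoc]
    _ = R * (Z * a) * R := by rw [hZ]
    _ = R * Z * (a * R) := by simp only [mul_assoc]
    _ = R * Z := by rw [h1, mul_one]

theorem exists_inv (a : H →L[ℂ] H) (ha : star a = a) :
    ∃ R : H →L[ℂ] H, (a + Complex.I • (1 : H →L[ℂ] H)) * R = 1 ∧
      R * (a + Complex.I • (1 : H →L[ℂ] H)) = 1 := by
  have hs : IsSelfAdjoint a := ha
  have h1 : (-Complex.I) ∉ spectrum ℂ a := by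
    intro h
    have h2 := hs.im_eq_zero_of_mem_spectrum h
    rw [Complex.neg_im, Complex.I_im] at h2
    norm_num at h2
  rw [spectrum.notMem_iff] at h1
  have h3 : IsUnit (a + Complex.I • (1 : H →L[ℂ] H)) := by
    have h4 := h1.neg
    have h5 : -((algebraMap ℂ (H →L[ℂ] H)) (-Complex.I) - a) =
        a + Complex.I • (1 : H →L[ℂ] H) := by
      rw [Algebra.algebraMap_eq_smul_one, neg_smul]
      abel
    rwa [h5] at h4
  obtain ⟨u, hu⟩ := h3
  exact ⟨((u⁻¹ : (H →L[ℂ] H)ˣ) : H →L[ℂ] H), by rw [← hu]; exact u.mul_inv, by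
    rw [← hu]; exact u.inv_mul⟩

/-- Cayley transforms -/
theorem cayley (a R : H →L[ℂ] H) (ha : star a = a)
    (h1 : (a + Complex.I • (1 : H →L[ℂ] H)) * R = 1)
    (h2 : R * (a + Complex.I • (1 : H →L[ℂ] H)) = 1) :
    star (1 - (2 * Complex.I) • R) * (1 - (2 * Complex.I) • R) = 1 ∧
      (1 - (2 * Complex.I) • R) * star (1 - (2 * Complex.I) • R) = 1 := by
  set b : H →L[ℂ] H := a + Complex.I • (1 : H →L[ℂ] H) with hb
  set b' : H →L[ℂ] H := a - Complex.I • (1 : H →L[ℂ] H) with hb'
  have hsb : star b = b' := by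
    rw [hb, hb', star_add, star_smul, ha, star_one, Complex.star_def, Complex.conj_I, neg_smul,
      sub_eq_add_neg]
  have hu : (1 - (2 * Complex.I) • R) = b' * R := by
    have h3 : b' = b - (2 * Complex.I) • (1 : H →L[ℂ] H) := by
      rw [hb, hb', two_mul, add_smul]
      abel
    rw [h3, sub_mul, h1, smul_mul_assoc, one_mul]
  have hsb' : star b' = b := by rw [← hsb, star_star]
  have hR1 : star R * b' = 1 := by rw [← hsb, ← star_mul, h1, star_one]
  have hR2 : b' * star R = 1 := by rw [← hsb, ← star_mul, h2, star_one]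
  have hbb : b * b' = b' * b := by
    rw [hb, hb']
    simp only [add_mul, mul_add, sub_mul, mul_sub, smul_mul_assoc, mul_smul_comm, one_mul,
      mul_one, smul_add, smul_sub]
    abel
  have hbR : b * star R = star R * b := comm_inv hR2 hR1 hbb
  have hRR : star R * R = R * star R := comm_inv h1 h2 hbR.symm
  rw [hu, star_mul, hsb']
  constructor
  · calc star R * b * (b' * R) = star R * (b * b') * R := by simp only [mul_assoc]
      _ = (star R * b') * (b * R) := by rw [hbb]; simp only [mul_assoc]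
      _ = 1 := by rw [hR1, h1, one_mul]
  · calc b' * R * (star R * b) = b' * (R * star R) * b := by simp only [mul_assoc]
      _ = (b' * star R) * (R * b) := by rw [← hRR]; simp only [mul_assoc]
      _ = 1 := by rw [hR2, h2, one_mul]

section
variable (P : ComPair H)

theorem one_N : (1 : H →L[ℂ] H) ∈ P.N := by
  rw [P.comm']
  exact Set.one_mem_centralizer

theorem one_N' : (1 : H →L[ℂ] H) ∈ P.N' := by
  rw [P.comm]
  exact Set.one_mem_centralizer

theorem mul_N {x y : H →L[ℂ] H} (hx : x ∈ P.N) (hy : y ∈ P.N) : x * y ∈ P.N := by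
  rw [P.comm'] at hx hy ⊢
  exact Set.mul_mem_centralizer hx hy

theorem mul_N' {x y : H →L[ℂ] H} (hx : x ∈ P.N') (hy : y ∈ P.N') : x * y ∈ P.N' := by
  rw [P.comm] at hx hy ⊢
  exact Set.mul_mem_centralizer hx hy

theorem comm_NN' {x y : H →L[ℂ] H} (hx : x ∈ P.N) (hy : y ∈ P.N') : x * y = y * x := by
  rw [P.comm, Set.mem_centralizer_iff] at hy
  exact hy x hx

theorem comm_app {x y : H →L[ℂ] H} (hx : x ∈ P.N) (hy : y ∈ P.N') (ξ : H) :
    x (y ξ) = y (x ξ) := by
  have h := congrArg (fun T : H →L[ℂ] H => T ξ) (comm_NN' P hx hy)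
  exact h

theorem mem_N_of {x : H →L[ℂ] H} (h : ∀ y ∈ P.N', y * x = x * y) : x ∈ P.N := by
  rw [P.comm', Set.mem_centralizer_iff]
  exact h

theorem mem_N'_of {x : H →L[ℂ] H} (h : ∀ y ∈ P.N, y * x = x * y) : x ∈ P.N' := by
  rw [P.comm, Set.mem_centralizer_iff]
  exact h

/-- the group of the `u* u'` -/
def Gr (v : H) {I : Type w} (ρ : I → H →L[ℂ] H) : Subgroup (unitary (H →L[ℂ] H)) where
  carrier := {s | ∃ u u' : H →L[ℂ] H, u ∈ P.N ∧ star u * u = 1 ∧ u * star u = 1 ∧
    (∀ Z : H →L[ℂ] H, (∀ i, Z * ρ i = ρ i * Z) → Z * u = u * Z) ∧ u' ∈ P.N' ∧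
    star u' * u' = 1 ∧ u' * star u' = 1 ∧ u v = u' v ∧ (s : H →L[ℂ] H) = star u * u'}
  one_mem' := ⟨1, 1, one_N P, by rw [star_one, one_mul], by rw [star_one, one_mul],
    fun Z _ => by rw [one_mul, mul_one], one_N' P, by rw [star_one, one_mul],
    by rw [star_one, one_mul], rfl, by rw [star_one, one_mul]; rfl⟩
  mul_mem' := by
    rintro s t ⟨u1, u1', a1, b1, c1, d1, e1, f1, g1, h1, k1⟩ ⟨u2, u2', a2, b2, c2, d2, e2, f2, g2, h2, k2⟩
    refine ⟨u2 * u1, u1' * u2', mul_N P a2 a1, ?_, ?_, ?_, mul_N' P e1 e2, ?_, ?_, ?_, ?_⟩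
    · calc star (u2 * u1) * (u2 * u1) = star u1 * (star u2 * u2) * u1 := by
            rw [star_mul]; simp only [mul_assoc]
        _ = 1 := by rw [b2, mul_one, b1]
    · calc (u2 * u1) * star (u2 * u1) = u2 * (u1 * star u1) * star u2 := by
            rw [star_mul]; simp only [mul_assoc]
        _ = 1 := by rw [c1, mul_one, c2]
    · intro Z hZ
      rw [← mul_assoc, d2 Z hZ, mul_assoc, d1 Z hZ, mul_assoc]
    · calc star (u1' * u2') * (u1' * u2') = star u2' * (star u1' * u1') * u2' := by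
            rw [star_mul]; simp only [mul_assoc]
        _ = 1 := by rw [f1, mul_one, f2]
    · calc (u1' * u2') * star (u1' * u2') = u1' * (u2' * star u2') * star u1' := by
            rw [star_mul]; simp only [mul_assoc]
        _ = 1 := by rw [g2, mul_one, g1]
    · change u2 (u1 v) = u1' (u2' v)
      rw [h1, comm_app P a2 e1, h2]
    · have hc : star u2 * u1' = u1' * star u2 := comm_NN' P (P.star_mem _ a2) e1
      change (s : H →L[ℂ] H) * (t : H →L[ℂ] H) = _
      rw [k1, k2, star_mul]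
      calc star u1 * u1' * (star u2 * u2') = star u1 * (u1' * star u2) * u2' := by
            simp only [mul_assoc]
        _ = star u1 * star u2 * (u1' * u2') := by rw [← hc]; simp only [mul_assoc]
  inv_mem' := by
    rintro s ⟨u, u', a, b, c, d, e, f, g, h, k⟩
    refine ⟨star u, star u', P.star_mem _ a, ?_, ?_, ?_, P.star_mem' _ e, ?_, ?_, ?_, ?_⟩
    · rw [star_star, c]
    · rw [star_star, b]
    · intro Z hZ
      exact comm_inv c b (d Z hZ)
    · rw [star_star, g]
    · rw [star_star, f]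
    · have h3 : star u' v = star u (star u' (u v)) := by
        rw [comm_app P (P.star_mem _ a) (P.star_mem' _ e)]
        have h4 : star u (u v) = (star u * u) v := rfl
        rw [h4, b]
        rfl
      rw [h3, h]
      have h4 : star u' (u' v) = (star u' * u') v := rfl
      rw [h4, f]
      rfl
    · change star (s : H →L[ℂ] H) = _
      rw [k, star_mul, star_star, ← comm_NN' P a (P.star_mem' _ e)]

/-- the representation -/
noncomputable def rep (v : H) {I : Type w} (ρ : I → H →L[ℂ] H) : IsoRep (Gr P v ρ) H where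
  U := fun g => ((g : unitary (H →L[ℂ] H)) : H →L[ℂ] H)
  one := rfl
  mul := fun s t => rfl
  inner_map := fun s ξ η => by
    have h1 : star (((s : unitary (H →L[ℂ] H)) : H →L[ℂ] H)) *
        ((s : unitary (H →L[ℂ] H)) : H →L[ℂ] H) = 1 := (s : unitary (H →L[ℂ] H)).2.1
    rw [← ContinuousLinearMap.adjoint_inner_right, ← ContinuousLinearMap.star_eq_adjoint]
    have h2 : star (((s : unitary (H →L[ℂ] H)) : H →L[ℂ] H))
        (((s : unitary (H →L[ℂ] H)) : H →L[ℂ] H) η) = η := by
      have h3 := congrArg (fun T : H →L[ℂ] H => T η) h1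
      exact h3
    rw [h2]

end

end B3

open B3 in
/-- B3 -/
theorem ComPair.dixmier (P : ComPair H) (v : H) (hv : v ≠ 0) {I : Type w}
    (ρ ρ' : I → H →L[ℂ] H) (hρ : ∀ i, ρ i ∈ P.N) (hρ' : ∀ i, ρ' i ∈ P.N')
    (hsa : ∀ i, star (ρ i) = ρ i) (hsa' : ∀ i, star (ρ' i) = ρ' i) (hρv : ∀ i, ρ i v = ρ' i v)
    (hir : ∀ Y ∈ P.N, (∀ i, Y * ρ i = ρ i * Y) → ∃ c : ℂ, Y v = c • v)
    {J : Type} [Fintype J] (X : J → H →L[ℂ] H) (hX : ∀ j, X j ∈ P.N) (ε : ℝ) (hε : 0 < ε) :
    ∃ (M : Type) (_ : Fintype M) (w : M → ℝ) (u : M → H →L[ℂ] H), (∀ l, 0 ≤ w l) ∧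
      ∑ l, w l = 1 ∧
      (∀ l, u l ∈ P.N ∧ star (u l) * u l = 1 ∧ u l * star (u l) = 1 ∧
        ∀ Z : H →L[ℂ] H, (∀ i, Z * ρ i = ρ i * Z) → Z * u l = u l * Z) ∧
      ∀ j, ‖(∑ l, (w l : ℂ) • star (u l) (X j (u l v)))
        - (inner ℂ v (X j v) / ((‖v‖ ^ 2 : ℝ) : ℂ)) • v‖ ≤ ε := by
  classical
  obtain ⟨ζ, hfix, hinn, -, happ⟩ := (rep P v ρ).exists_fixed_family J (fun j => X j v)
  -- the elements of the group
  have hgr : ∀ g : Gr P v ρ, ∃ u u' : H →L[ℂ] H, u ∈ P.N ∧ star u * u = 1 ∧ u * star u = 1 ∧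
      (∀ Z : H →L[ℂ] H, (∀ i, Z * ρ i = ρ i * Z) → Z * u = u * Z) ∧ u' ∈ P.N' ∧
      star u' * u' = 1 ∧ u' * star u' = 1 ∧ u v = u' v ∧
      (rep P v ρ).U g = star u * u' := fun g => g.2
  choose U U' k1 k2 k3 k4 k5 k6 k7 k8 k9 using hgr
  have hWX : ∀ g, ∀ x ∈ P.N, (rep P v ρ).U g (x v) = star (U g) (x (U g v)) := by
    intro g x hx
    rw [k9]
    change star (U g) (U' g (x v)) = _
    rw [← comm_app P hx (k5 g), ← k8]
  -- `v` is fixed
  have hvfix : ∀ g, (rep P v ρ).U g v = v := by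
    intro g
    have h1 := hWX g 1 (one_N P)
    have h2 : (star (U g)) ((1 : H →L[ℂ] H) (U g v)) = (star (U g) * U g) v := rfl
    rw [h2, k2] at h1
    exact h1
  have hsc : ∀ j, inner ℂ v (ζ j) = inner ℂ v (X j v) := fun j => hinn j v hvfix
  -- fixed vectors
  have hrho : ∀ j i, ρ i (ζ j) = ρ' i (ζ j) := by
    intro j i
    obtain ⟨R, r1, r2⟩ := exists_inv (ρ i) (hsa i)
    obtain ⟨R', r1', r2'⟩ := exists_inv (ρ' i) (hsa' i)
    have hRc : ∀ Z : H →L[ℂ] H, Z * ρ i = ρ i * Z → Z * R = R * Z := by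
      intro Z hZ
      apply comm_inv r1 r2
      rw [mul_add, add_mul, hZ, mul_smul_comm, smul_mul_assoc, one_mul, mul_one]
    have hRc' : ∀ Z : H →L[ℂ] H, Z * ρ' i = ρ' i * Z → Z * R' = R' * Z := by
      intro Z hZ
      apply comm_inv r1' r2'
      rw [mul_add, add_mul, hZ, mul_smul_comm, smul_mul_assoc, one_mul, mul_one]
    have hRN : R ∈ P.N := mem_N_of P fun y hy => hRc y (comm_NN' P (hρ i) hy).symm
    have hRN' : R' ∈ P.N' := mem_N'_of P fun y hy => hRc' y (comm_NN' P hy (hρ' i))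
    have hsub : ∀ x : H →L[ℂ] H, x ∈ P.N → (1 - (2 * Complex.I) • x) ∈ P.N := by
      intro x hx
      apply mem_N_of P
      intro y hy
      rw [mul_sub, sub_mul, mul_one, one_mul, mul_smul_comm, smul_mul_assoc,
        comm_NN' P hx hy]
    have hsub' : ∀ x : H →L[ℂ] H, x ∈ P.N' → (1 - (2 * Complex.I) • x) ∈ P.N' := by
      intro x hx
      apply mem_N'_of P
      intro y hy
      rw [mul_sub, sub_mul, mul_one, one_mul, mul_smul_comm, smul_mul_assoc,
        comm_NN' P hy hx]
    have hRv : R v = R' v := by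
      have e1 : (ρ i + Complex.I • (1 : H →L[ℂ] H)) v = (ρ' i + Complex.I • (1 : H →L[ℂ] H)) v := by
        change ρ i v + _ = ρ' i v + _
        rw [hρv]
      have e2 : R ((ρ i + Complex.I • (1 : H →L[ℂ] H)) v) = v := by
        have h3 := congrArg (fun T : H →L[ℂ] H => T v) r2
        exact h3
      have e3 : R' ((ρ' i + Complex.I • (1 : H →L[ℂ] H)) v) = v := by
        have h3 := congrArg (fun T : H →L[ℂ] H => T v) r2'
        exact h3
      calc R v = R (R' ((ρ' i + Complex.I • (1 : H →L[ℂ] H)) v)) := by rw [e3]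
        _ = R' (R ((ρ' i + Complex.I • (1 : H →L[ℂ] H)) v)) := comm_app P hRN hRN' _
        _ = R' v := by rw [← e1, e2]
    set uu : H →L[ℂ] H := 1 - (2 * Complex.I) • R with huu
    set uu' : H →L[ℂ] H := 1 - (2 * Complex.I) • R' with huu'
    have hcy := cayley (ρ i) R (hsa i) r1 r2
    have hcy' := cayley (ρ' i) R' (hsa' i) r1' r2'
    rw [← huu] at hcy
    rw [← huu'] at hcy'
    have huv : uu v = uu' v := by
      rw [huu, huu']
      change v - (2 * Complex.I) • R v = v - (2 * Complex.I) • R' v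
      rw [hRv]
    have hmemu : star uu * uu' ∈ unitary (H →L[ℂ] H) := by
      have h3 : star uu ∈ unitary (H →L[ℂ] H) := ⟨by rw [star_star]; exact hcy.2, by
        rw [star_star]; exact hcy.1⟩
      exact mul_mem h3 ⟨hcy'.1, hcy'.2⟩
    have hg : (⟨star uu * uu', hmemu⟩ : unitary (H →L[ℂ] H)) ∈ Gr P v ρ :=
      ⟨uu, uu', hsub R hRN, hcy.1, hcy.2, fun Z hZ => by
        rw [huu, mul_sub, sub_mul, mul_one, one_mul, mul_smul_comm, smul_mul_assoc,
          hRc Z (hZ i)], hsub' R' hRN', hcy'.1, hcy'.2, huv, rfl⟩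
    have hf := hfix j ⟨_, hg⟩
    have hf2 : star uu (uu' (ζ j)) = ζ j := hf
    have hf3 : uu' (ζ j) = uu (ζ j) := by
      have h3 := congrArg (fun x => uu x) hf2
      have h4 : uu (star uu (uu' (ζ j))) = (uu * star uu) (uu' (ζ j)) := rfl
      have h5 : uu (star uu (uu' (ζ j))) = uu (ζ j) := h3
      rw [h4, hcy.2] at h5
      exact h5
    have hf4 : R' (ζ j) = R (ζ j) := by
      rw [huu, huu'] at hf3
      have h3 : ζ j - (2 * Complex.I) • R' (ζ j) = ζ j - (2 * Complex.I) • R (ζ j) := hf3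
      have h4 := sub_right_injective h3
      have h5 : (2 * Complex.I) ≠ 0 := mul_ne_zero two_ne_zero Complex.I_ne_zero
      exact smul_right_injective H h5 h4
    have hb : ∀ x : H, (ρ i + Complex.I • (1 : H →L[ℂ] H)) (R x) = x := fun x => by
      have h3 := congrArg (fun T : H →L[ℂ] H => T x) r1
      exact h3
    have hb' : ∀ x : H, (ρ' i + Complex.I • (1 : H →L[ℂ] H)) (R' x) = x := fun x => by
      have h3 := congrArg (fun T : H →L[ℂ] H => T x) r1'
      exact h3
    have hbc : ∀ x : H, (ρ i + Complex.I • (1 : H →L[ℂ] H))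
        ((ρ' i + Complex.I • (1 : H →L[ℂ] H)) x) =
        (ρ' i + Complex.I • (1 : H →L[ℂ] H)) ((ρ i + Complex.I • (1 : H →L[ℂ] H)) x) := by
      intro x
      simp only [add_apply, smul_apply, one_apply_eq_self, map_add, map_smul, smul_add]
      rw [comm_app P (hρ i) (hρ' i)]
      abel
    have hf5 : (ρ i + Complex.I • (1 : H →L[ℂ] H)) (ζ j) =
        (ρ' i + Complex.I • (1 : H →L[ℂ] H)) (ζ j) := by
      calc (ρ i + Complex.I • (1 : H →L[ℂ] H)) (ζ j)
          = (ρ i + Complex.I • (1 : H →L[ℂ] H))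
              ((ρ' i + Complex.I • (1 : H →L[ℂ] H)) (R' (ζ j))) := by rw [hb']
        _ = (ρ' i + Complex.I • (1 : H →L[ℂ] H))
              ((ρ i + Complex.I • (1 : H →L[ℂ] H)) (R (ζ j))) := by rw [hbc, hf4]
        _ = (ρ' i + Complex.I • (1 : H →L[ℂ] H)) (ζ j) := by rw [hb]
    simp only [add_apply, smul_apply, one_apply_eq_self] at hf5
    exact add_right_cancel hf5
  -- bounded vectors
  have hbd : ∀ j, ∀ T ∈ P.N', ‖T (ζ j)‖ ≤ ‖X j‖ * ‖T v‖ := by
    intro j T hT
    apply le_of_forall_pos_le_add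
    intro δ hδ
    obtain ⟨F, w, w0, w1, happ'⟩ := happ ((δ / (‖T‖ + 1)) ^ 2) (by positivity)
    set avg : H := ∑ g ∈ F, w g • (rep P v ρ).U g (X j v) with havg
    have hsm : ‖avg - ζ j‖ < δ / (‖T‖ + 1) := by
      have h3 : ‖avg - ζ j‖ ^ 2 < (δ / (‖T‖ + 1)) ^ 2 :=
        lt_of_le_of_lt (Finset.single_le_sum
          (f := fun j => ‖(∑ g ∈ F, w g • (rep P v ρ).U g (X j v)) - ζ j‖ ^ 2)
          (fun i _ => by positivity) (Finset.mem_univ j)) happ'
      exact lt_of_pow_lt_pow_left₀ 2 (by positivity) h3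
    have hav : ‖T avg‖ ≤ ‖X j‖ * ‖T v‖ := by
      rw [havg, map_sum]
      calc ‖∑ g ∈ F, T (w g • (rep P v ρ).U g (X j v))‖
          ≤ ∑ g ∈ F, ‖T (w g • (rep P v ρ).U g (X j v))‖ := norm_sum_le _ _
        _ ≤ ∑ g ∈ F, w g * (‖X j‖ * ‖T v‖) := by
            apply Finset.sum_le_sum
            intro g _
            have e1 : w g • (rep P v ρ).U g (X j v) = ((w g : ℝ) : ℂ) • (rep P v ρ).U g (X j v) :=
              rfl
            rw [e1, map_smul, norm_smul, Complex.norm_real, Real.norm_eq_abs,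
              abs_of_nonneg (w0 g)]
            apply mul_le_mul_of_nonneg_left _ (w0 g)
            rw [hWX g _ (hX j), ← comm_app P (P.star_mem _ (k1 g)) hT,
              ← comm_app P (hX j) hT, ← comm_app P (k1 g) hT]
            have nU : ∀ x : H, ‖U g x‖ = ‖x‖ := by
              intro x
              have h3 : inner ℂ (U g x) (U g x) = inner ℂ x x := by
                rw [← ContinuousLinearMap.adjoint_inner_right,
                  ← ContinuousLinearMap.star_eq_adjoint]
                have h4 := congrArg (fun T : H →L[ℂ] H => T x) (k2 g)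
                have h5 : star (U g) (U g x) = x := h4
                rw [h5]
              rw [inner_self_eq_norm_sq_to_K, inner_self_eq_norm_sq_to_K] at h3
              have h4 : ‖U g x‖ ^ 2 = ‖x‖ ^ 2 := by exact_mod_cast h3
              exact (pow_left_inj₀ (norm_nonneg _) (norm_nonneg _) two_ne_zero).1 h4
            have nUs : ∀ x : H, ‖star (U g) x‖ = ‖x‖ := by
              intro x
              rw [← nU (star (U g) x)]
              have h4 := congrArg (fun T : H →L[ℂ] H => T x) (k3 g)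
              have h5 : U g (star (U g) x) = x := h4
              rw [h5]
            rw [nUs]
            refine (ContinuousLinearMap.le_opNorm _ _).trans ?_
            rw [nU]
        _ = ‖X j‖ * ‖T v‖ := by rw [← Finset.sum_mul, w1, one_mul]
    have h6 : T (ζ j) = T avg - T (avg - ζ j) := by rw [map_sub]; abel
    rw [h6]
    refine (norm_sub_le _ _).trans (add_le_add hav ?_)
    refine (ContinuousLinearMap.le_opNorm _ _).trans ?_
    calc ‖T‖ * ‖avg - ζ j‖ ≤ (‖T‖ + 1) * (δ / (‖T‖ + 1)) := by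
          apply mul_le_mul (by linarith) hsm.le (norm_nonneg _)
          have := norm_nonneg T
          linarith
      _ = δ := by
          have := norm_nonneg T
          field_simp
  -- the fixed vectors are multiples of `v`
  have hmul : ∀ j, ∃ c : ℂ, ζ j = c • v := by
    intro j
    obtain ⟨Y, hY, hYv, hY0⟩ := P.exists_bounded v (ζ j) ‖X j‖ (hbd j)
    have hYc : ∀ i, Y * ρ i = ρ i * Y := by
      intro i
      set E : H →L[ℂ] H := Y * ρ i - ρ i * Y with hE
      have hEa : ∀ x, E x = Y (ρ i x) - ρ i (Y x) := fun x => rfl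
      set K : Submodule ℂ H :=
        (Submodule.span ℂ {x | ∃ T ∈ P.N', x = T v}).topologicalClosure with hK
      have g1 : ∀ T ∈ P.N', E (T v) = 0 := by
        intro T hT
        have h3 : Y (ρ i (T v)) = T (ρ' i (ζ j)) := by
          rw [comm_app P (hρ i) hT, hρv]
          have h4 := comm_app P hY (mul_N' P hT (hρ' i)) v
          have h5 : Y (T (ρ' i v)) = T (ρ' i (Y v)) := h4
          rw [h5, hYv]
        have h6 : ρ i (Y (T v)) = T (ρ i (ζ j)) := by
          rw [comm_app P hY hT, hYv, comm_app P (hρ i) hT]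
        rw [hEa, h3, h6, hrho, sub_self]
      have g2 : ∀ x ∈ K, E x = 0 := by
        intro x hx
        have hcl : IsClosed {x : H | E x = 0} := isClosed_eq E.continuous continuous_const
        have h3 : (Submodule.span ℂ {x | ∃ T ∈ P.N', x = T v} : Set H) ⊆ {x : H | E x = 0} := by
          intro y hy
          have hy' : y ∈ Submodule.span ℂ {x | ∃ T ∈ P.N', x = T v} := hy
          change E y = 0
          induction hy' using Submodule.span_induction with
          | mem z hz =>
            obtain ⟨T, hT, rfl⟩ := hz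
            exact g1 T hT
          | zero => exact map_zero E
          | add a b _ _ ha hb =>
            rw [map_add, ha (by assumption), hb (by assumption), add_zero]
          | smul c a _ ha => rw [map_smul, ha (by assumption), smul_zero]
        have h4 : x ∈ closure (Submodule.span ℂ {x | ∃ T ∈ P.N', x = T v} : Set H) := hx
        exact closure_minimal h3 hcl h4
      have hKmem : ∀ T ∈ P.N', T v ∈ K := fun T hT =>
        Submodule.le_topologicalClosure _ (Submodule.subset_span ⟨T, hT, rfl⟩)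
      have g3 : ∀ x ∈ Kᗮ, E x = 0 := by
        intro x hx
        have h3 : ∀ T ∈ P.N', inner ℂ (T v) x = 0 := fun T hT => hx _ (hKmem T hT)
        have h4 : Y x = 0 := hY0 x h3
        have h5 : Y (ρ i x) = 0 := by
          apply hY0
          intro T hT
          have h6 : inner ℂ (T v) (ρ i x) = inner ℂ (ρ i (T v)) x := by
            conv_lhs => rw [← hsa i]
            rw [ContinuousLinearMap.star_eq_adjoint, ContinuousLinearMap.adjoint_inner_right]
          rw [h6, comm_app P (hρ i) hT, hρv]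
          exact h3 _ (mul_N' P hT (hρ' i))
        rw [hEa, h4, h5, map_zero, sub_zero]
      have hcK : IsComplete (K : Set H) :=
        (Submodule.isClosed_topologicalClosure _).isComplete
      have : CompleteSpace K := hcK.completeSpace_coe
      have g4 : E = 0 := by
        ext x
        have h5 : x = K.starProjection x + (x - K.starProjection x) := by abel
        rw [h5, map_add, g2 _ (K.starProjection_apply_mem x),
          g3 _ (K.sub_starProjection_mem_orthogonal x), add_zero]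
        rfl
      exact sub_eq_zero.1 g4
    obtain ⟨c, hc⟩ := hir Y hY hYc
    exact ⟨c, by rw [← hYv, hc]⟩
  have hnv : ((‖v‖ ^ 2 : ℝ) : ℂ) ≠ 0 := by
    have h3 : 0 < ‖v‖ := norm_pos_iff.2 hv
    exact_mod_cast (by positivity : (‖v‖ ^ 2 : ℝ) ≠ 0)
  have hval : ∀ j, ζ j = (inner ℂ v (X j v) / ((‖v‖ ^ 2 : ℝ) : ℂ)) • v := by
    intro j
    obtain ⟨c, hc⟩ := hmul j
    have h3 := hsc j
    rw [hc, inner_smul_right, inner_self_eq_norm_sq_to_K] at h3
    rw [hc]
    congr 1
    rw [eq_div_iff hnv, ← h3]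
    push_cast
    rfl
  obtain ⟨F, w, w0, w1, happ'⟩ := happ (ε ^ 2) (by positivity)
  refine ⟨Fin F.card, inferInstance, fun l => w (F.equivFin.symm l), fun l =>
    U (F.equivFin.symm l), fun l => w0 _, ?_, fun l => ⟨k1 _, k2 _, k3 _, k4 _⟩, ?_⟩
  · rw [Equiv.sum_comp F.equivFin.symm (fun g : F => w g), Finset.sum_coe_sort F w, w1]
  · intro j
    have h3 : ∑ l, ((w (F.equivFin.symm l) : ℝ) : ℂ) • star (U (F.equivFin.symm l))
        (X j (U (F.equivFin.symm l) v)) = ∑ g ∈ F, w g • (rep P v ρ).U g (X j v) := by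
      rw [Equiv.sum_comp F.equivFin.symm (fun g : F => ((w g : ℝ) : ℂ) • star (U g)
        (X j (U g v))), Finset.sum_coe_sort F (fun g => ((w g : ℝ) : ℂ) • star (U g)
        (X j (U g v)))]
      apply Finset.sum_congr rfl
      intro g _
      rw [hWX g _ (hX j)]
      rfl
    rw [h3, ← hval j]
    have h4 : ‖(∑ g ∈ F, w g • (rep P v ρ).U g (X j v)) - ζ j‖ ^ 2 < ε ^ 2 :=
      lt_of_le_of_lt (Finset.single_le_sum
        (f := fun j => ‖(∑ g ∈ F, w g • (rep P v ρ).U g (X j v)) - ζ j‖ ^ 2)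
        (fun i _ => by positivity) (Finset.mem_univ j)) happ'
    exact (lt_of_pow_lt_pow_left₀ 2 hε.le h4).le

end Pool.Agent.AbCoc
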