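import Pool.Agent.Lib_MP_418a80_un.UB0

/-! # B5: functional calculus at a common vector -/

set_option autoImplicit false
set_option linter.unusedVariables false
set_option linter.unusedSectionVars false

open MeasureTheory Topology Filter
open scoped ENNReal NNReal ComplexConjugate

namespace Pool.Agent.AbCoc

universe u v w z

variable {H : Type u} [NormedAddCommGroup H] [InnerProductSpace ℂ H] [CompleteSpace H]

private lemma UB5_spec (h : H →L[ℂ] H) {x : ℝ} (hx : x ∈ spectrum ℝ h) : |x| ≤ ‖h‖ := by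
  rcases subsingleton_or_nontrivial (H →L[ℂ] H) with hs | hs
  · exfalso
    rw [spectrum.mem_iff] at hx
    exact hx (isUnit_of_subsingleton _)
  · have := spectrum.norm_le_norm_of_mem hx
    rwa [Real.norm_eq_abs] at this

private lemma UB5_near (h : H →L[ℂ] H) (hh : IsSelfAdjoint h) (g : ℝ → ℝ) (hg : Continuous g) (R ε : ℝ)
    (hR : ‖h‖ ≤ R) (hε : 0 ≤ ε) (Q : Polynomial ℝ) (hQ : ∀ x ∈ Set.Icc (-R) R, |Q.eval x - g x| < ε) :
    ‖Polynomial.aeval h Q - cfc g h‖ ≤ ε := by
  rw [← cfc_polynomial (R := ℝ) Q h hh, ← cfc_sub (R := ℝ) Q.eval g h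
    Q.continuous.continuousOn hg.continuousOn]
  refine norm_cfc_le hε fun x hx => ?_
  rw [Real.norm_eq_abs]
  have h1 := (UB5_spec h hx).trans hR
  rw [abs_le] at h1
  exact (hQ x ⟨h1.1, h1.2⟩).le

/-- B5 -/
theorem cfc_apply_eq (h h' : H →L[ℂ] H) (hh : IsSelfAdjoint h) (hh' : IsSelfAdjoint h')
    (hc : h * h' = h' * h) (f : H) (hf : h f = h' f) (g : ℝ → ℝ) (hg : Continuous g) :
    cfc g h f = cfc g h' f := by
  have hpow : ∀ n : ℕ, (h ^ n) f = (h' ^ n) f := by
    intro n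
    induction n with
    | zero => rw [pow_zero, pow_zero]
    | succ n ih =>
      have h1 : h * h' ^ n = h' ^ n * h := ((show Commute h h' from hc).pow_right n).eq
      calc (h ^ (n + 1)) f = h ((h ^ n) f) := by rw [pow_succ']; rfl
        _ = (h * h' ^ n) f := by rw [ih]; rfl
        _ = (h' ^ n) (h f) := by rw [h1]; rfl
        _ = (h' ^ (n + 1)) f := by rw [hf, pow_succ]; rfl
  have hpol : ∀ Q : Polynomial ℝ, (Polynomial.aeval h Q) f = (Polynomial.aeval h' Q) f := by
    intro Q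
    rw [Polynomial.aeval_eq_sum_range, Polynomial.aeval_eq_sum_range, ContinuousLinearMap.sum_apply,
      ContinuousLinearMap.sum_apply]
    refine Finset.sum_congr rfl fun i _ => ?_
    show Q.coeff i • (h ^ i) f = Q.coeff i • (h' ^ i) f
    rw [hpow]
  have key : ∀ ε : ℝ, 0 < ε → ‖cfc g h f - cfc g h' f‖ ≤ ε * (2 * ‖f‖) := by
    intro ε hε
    obtain ⟨Q, hQ⟩ := exists_polynomial_near_of_continuousOn (-(‖h‖ + ‖h'‖)) (‖h‖ + ‖h'‖) g
      hg.continuousOn ε hε
    have h1 := UB5_near h hh g hg (‖h‖ + ‖h'‖) ε (by linarith [norm_nonneg h']) hε.le Q hQ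
    have h2 := UB5_near h' hh' g hg (‖h‖ + ‖h'‖) ε (by linarith [norm_nonneg h]) hε.le Q hQ
    have h3 : cfc g h f - cfc g h' f = (Polynomial.aeval h' Q - cfc g h') f - (Polynomial.aeval h Q - cfc g h) f := by
      rw [ContinuousLinearMap.sub_apply, ContinuousLinearMap.sub_apply, hpol]
      abel
    rw [h3]
    calc _ ≤ ‖(Polynomial.aeval h' Q - cfc g h') f‖ + ‖(Polynomial.aeval h Q - cfc g h) f‖ := norm_sub_le _ _
      _ ≤ ε * ‖f‖ + ε * ‖f‖ := add_le_add
          (((Polynomial.aeval h' Q - cfc g h').le_opNorm f).trans (mul_le_mul_of_nonneg_right h2 (norm_nonneg _)))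
          (((Polynomial.aeval h Q - cfc g h).le_opNorm f).trans (mul_le_mul_of_nonneg_right h1 (norm_nonneg _)))
      _ = ε * (2 * ‖f‖) := by ring
  have h0 : ‖cfc g h f - cfc g h' f‖ ≤ 0 := by
    by_contra hlt
    rw [not_le] at hlt
    set c := ‖cfc g h f - cfc g h' f‖ with hcdef
    have h4 := key (c / (2 * (2 * ‖f‖ + 1))) (by positivity)
    have h5 : c / (2 * (2 * ‖f‖ + 1)) * (2 * ‖f‖) ≤ c / 2 := by
      have h6 : (2 * ‖f‖) ≤ 2 * ‖f‖ + 1 := by linarith
      calc _ ≤ c / (2 * (2 * ‖f‖ + 1)) * (2 * ‖f‖ + 1) := mul_le_mul_of_nonneg_left h6 (by positivity)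
        _ = c / 2 := by
          have : (2 * ‖f‖ + 1) ≠ 0 := by positivity
          field_simp
    linarith
  exact sub_eq_zero.1 (norm_le_zero_iff.1 h0)

end Pool.Agent.AbCoc
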