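import Pool.Agent.Lib_MP_418a80_un.UB5

/-! # B6: windows from two commuting averages -/

set_option autoImplicit false
set_option linter.unusedVariables false
set_option linter.unusedSectionVars false

open MeasureTheory Topology Filter
open scoped ENNReal NNReal ComplexConjugate

namespace Pool.Agent.AbCoc

universe u v w z

variable {H : Type u} [NormedAddCommGroup H] [InnerProductSpace ℂ H] [CompleteSpace H]

/-- `(t - a)⁺` -/
noncomputable def wp (a t : ℝ) : ℝ := max (t - a) 0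

/-- `1 / max(t, a)` -/
noncomputable def wq (a t : ℝ) : ℝ := 1 / max t a

/-- `(t - a)⁺ / max(t, a)` -/
noncomputable def wpt (a t : ℝ) : ℝ := wp a t * wq a t

/-- the data from which the windows are made -/
structure PreWin {P : ComPair H} {A : Type v} [CStarAlgebra A] (L : LRep P A) where
  h : H →L[ℂ] H
  h' : H →L[ℂ] H
  f : H
  mem : h ∈ P.N
  mem' : h' ∈ P.N'
  sa : star h = h
  sa' : star h' = h'
  base : ∀ x, h (L.l x f) = h' (L.r x f)

/-- the closed range projection of the window -/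
noncomputable def rproj (p : H →L[ℂ] H) : H →L[ℂ] H :=
  (LinearMap.range (p : H →ₗ[ℂ] H)).topologicalClosure.starProjection

private lemma UB6_wp_cont (a : ℝ) : Continuous (wp a) := by
  unfold wp
  fun_prop

private lemma UB6_wq_cont (a : ℝ) (ha : 0 < a) : Continuous (wq a) := by
  unfold wq
  refine continuous_const.div (by fun_prop) fun t => ?_
  exact (lt_of_lt_of_le ha (le_max_right t a)).ne'

private lemma UB6_wpt_cont (a : ℝ) (ha : 0 < a) : Continuous (wpt a) := by
  unfold wpt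
  exact (UB6_wp_cont a).mul (UB6_wq_cont a ha)

private lemma UB6_wpt_mul (a : ℝ) (ha : 0 < a) (t : ℝ) : wpt a t * t = wp a t := by
  unfold wpt wp wq
  rcases le_total t a with h | h
  · rw [max_eq_right (by linarith : t - a ≤ 0)]
    ring
  · rw [max_eq_left h]
    have : t ≠ 0 := by
      have := lt_of_lt_of_le ha h
      exact this.ne'
    field_simp

private lemma UB6_N {P : ComPair H} {h : H →L[ℂ] H} (hm : h ∈ P.N) (g : ℝ → ℝ) : cfc g h ∈ P.N := by
  rw [P.comm', Set.mem_centralizer_iff]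
  intro y hy
  have h1 : Commute h y := by
    rw [P.comm', Set.mem_centralizer_iff] at hm
    exact (hm y hy).symm
  exact (h1.cfc_real g).eq.symm

private lemma UB6_N' {P : ComPair H} {h : H →L[ℂ] H} (hm : h ∈ P.N') (g : ℝ → ℝ) : cfc g h ∈ P.N' :=
  UB6_N (P := P.swap) hm g

private lemma UB6_comm {P : ComPair H} {x y : H →L[ℂ] H} (hx : x ∈ P.N) (hy : y ∈ P.N') (z : H) :
    x (y z) = y (x z) := by
  rw [P.comm, Set.mem_centralizer_iff] at hy
  exact congrArg (fun T : H →L[ℂ] H => T z) (hy x hx)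

private lemma UB6_base {P : ComPair H} {A : Type v} [CStarAlgebra A] {L : LRep P A} (W : PreWin L)
    (g : ℝ → ℝ) (hg : Continuous g) : cfc g W.h W.f = cfc g W.h' W.f := by
  refine cfc_apply_eq W.h W.h' W.sa W.sa' ?_ W.f ?_ g hg
  · have h1 := W.mem'
    rw [P.comm, Set.mem_centralizer_iff] at h1
    exact h1 _ W.mem
  · have h1 := W.base 1
    rwa [L.l_one, L.r_one] at h1

private lemma UB6_mul {h : H →L[ℂ] H} (hh : star h = h) (g1 g2 g3 : ℝ → ℝ) (h1 : Continuous g1) (h2 : Continuous g2)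
    (h12 : ∀ t, g1 t * g2 t = g3 t) (z : H) : cfc g1 h (cfc g2 h z) = cfc g3 h z := by
  have h3 : cfc g3 h = cfc g1 h * cfc g2 h := by
    rw [← cfc_mul (R := ℝ) g1 g2 h h1.continuousOn h2.continuousOn]
    congr 1
    funext t
    exact (h12 t).symm
  rw [h3]
  rfl

private lemma UB6_id {h : H →L[ℂ] H} (hh : star h = h) (z : H) : cfc (fun t : ℝ => t) h z = h z := by
  have hh' : IsSelfAdjoint h := hh
  rw [cfc_id' (R := ℝ) h hh']

private lemma UB6_key {P : ComPair H} {A : Type v} [CStarAlgebra A] {L : LRep P A} (W1 W2 : PreWin L)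
    (hbase : ∀ x, W1.h (L.l x W2.f) = W2.h' (L.r x W1.f)) (g1 g2 : ℝ → ℝ) (h1 : Continuous g1)
    (h2 : Continuous g2) (x : A) :
    cfc g1 W1.h (W1.h (L.l x (cfc g2 W2.h W2.f))) = cfc g2 W2.h' (W2.h' (L.r x (cfc g1 W1.h' W1.f))) := by
  rw [UB6_base W2 g2 h2, ← UB6_base W1 g1 h1]
  have a1 := UB6_N W1.mem g1
  have a2 := UB6_N' W2.mem' g2
  rw [UB6_comm (L.l_mem x) a2, UB6_comm W1.mem a2, UB6_comm a1 a2, hbase,
    UB6_comm a1 W2.mem', UB6_comm a1 (L.r_mem x)]

private lemma UB6_rmem (p : H →L[ℂ] H) (z : H) : rproj p z ∈ closure (Set.range p) := by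
  have h1 : rproj p z ∈ (LinearMap.range (p : H →ₗ[ℂ] H)).topologicalClosure :=
    Submodule.starProjection_apply_mem _ z
  have h2 : ((LinearMap.range (p : H →ₗ[ℂ] H)).topologicalClosure : Set H) = closure (Set.range p) := by
    rw [Submodule.topologicalClosure_coe]
    rfl
  rw [← h2]
  exact h1

private lemma UB6_rfix (p : H →L[ℂ] H) (z : H) : rproj p (p z) = p z := by
  refine Submodule.starProjection_eq_self_iff.2 ?_
  exact Submodule.le_topologicalClosure _ ⟨z, rfl⟩

private lemma UB6_ker (p : H →L[ℂ] H) (hp : star p = p) (z : H) (hz : p z = 0) : rproj p z = 0 := by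
  refine (Submodule.starProjection_apply_eq_zero_iff _).2 ?_
  rw [Submodule.orthogonal_closure, Submodule.mem_orthogonal]
  rintro _ ⟨y, rfl⟩
  show inner ℂ (p y) z = 0
  rw [← hp, ContinuousLinearMap.star_eq_adjoint, ContinuousLinearMap.adjoint_inner_left, hz, inner_zero_right]

private lemma UB6_pr (p : H →L[ℂ] H) (hp : star p = p) (z : H) : p (rproj p z) = p z := by
  have h1 : z - rproj p z ∈ (LinearMap.range (p : H →ₗ[ℂ] H)).topologicalClosureᗮ :=
    Submodule.sub_starProjection_mem_orthogonal z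
  rw [Submodule.orthogonal_closure, Submodule.mem_orthogonal] at h1
  have h2 : p (z - rproj p z) = 0 := by
    rw [← inner_self_eq_zero (𝕜 := ℂ)]
    have h3 := h1 (p (p (z - rproj p z))) ⟨_, rfl⟩
    have h4 : inner ℂ (p (p (z - rproj p z))) (z - rproj p z) = inner ℂ (p (z - rproj p z)) (p (z - rproj p z)) := by
      conv_lhs => rw [← hp, ContinuousLinearMap.star_eq_adjoint, ContinuousLinearMap.adjoint_inner_left]
      rw [← ContinuousLinearMap.star_eq_adjoint, hp]
    rw [← h4]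
    exact h3
  rw [map_sub, sub_eq_zero] at h2
  exact h2.symm

private lemma UB6_rcomm (p y : H →L[ℂ] H) (hp : star p = p) (h1 : ∀ z, y (p z) = p (y z))
    (h2 : ∀ z, star y (p z) = p (star y z)) (z : H) : rproj p (y z) = y (rproj p z) := by
  have e : y z = y (rproj p z) + y (z - rproj p z) := by
    rw [← map_add]
    congr 1
    abel
  have hK : ∀ w ∈ (LinearMap.range (p : H →ₗ[ℂ] H)).topologicalClosure, y w ∈
      (LinearMap.range (p : H →ₗ[ℂ] H)).topologicalClosure := by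
    intro w hw
    have hw' : w ∈ closure (LinearMap.range (p : H →ₗ[ℂ] H) : Set H) := hw
    have h3 : y w ∈ closure (LinearMap.range (p : H →ₗ[ℂ] H) : Set H) := by
      refine map_mem_closure y.continuous hw' ?_
      rintro _ ⟨u, rfl⟩
      exact ⟨y u, (h1 u).symm⟩
    exact h3
  have hKo : ∀ w ∈ (LinearMap.range (p : H →ₗ[ℂ] H)).topologicalClosureᗮ, y w ∈
      (LinearMap.range (p : H →ₗ[ℂ] H)).topologicalClosureᗮ := by
    intro w hw
    rw [Submodule.orthogonal_closure, Submodule.mem_orthogonal] at hw ⊢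
    rintro _ ⟨u, rfl⟩
    have h3 := hw (p (star y u)) ⟨_, rfl⟩
    show inner ℂ (p u) (y w) = 0
    rw [← h2] at h3
    rw [ContinuousLinearMap.star_eq_adjoint, ContinuousLinearMap.adjoint_inner_left] at h3
    exact h3
  have h5 : rproj p z ∈ (LinearMap.range (p : H →ₗ[ℂ] H)).topologicalClosure :=
    Submodule.starProjection_apply_mem _ z
  have h6 : z - rproj p z ∈ (LinearMap.range (p : H →ₗ[ℂ] H)).topologicalClosureᗮ :=
    Submodule.sub_starProjection_mem_orthogonal z
  have h7 : rproj p (y (rproj p z)) = y (rproj p z) := Submodule.starProjection_eq_self_iff.2 (hK _ h5)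
  have h8 : rproj p (y (z - rproj p z)) = 0 := (Submodule.starProjection_apply_eq_zero_iff _).2 (hKo _ h6)
  rw [e, map_add, h7, h8, add_zero]

private lemma UB6_rN {P : ComPair H} {p : H →L[ℂ] H} (hm : p ∈ P.N) (hp : star p = p) : rproj p ∈ P.N := by
  rw [P.comm', Set.mem_centralizer_iff]
  intro y hy
  ext z
  show y (rproj p z) = rproj p (y z)
  exact (UB6_rcomm p y hp (fun z => (UB6_comm hm hy z).symm) (fun z => (UB6_comm hm (P.star_mem' y hy) z).symm) z).symm

private lemma UB6_rN' {P : ComPair H} {p : H →L[ℂ] H} (hm : p ∈ P.N') (hp : star p = p) : rproj p ∈ P.N' :=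
  UB6_rN (P := P.swap) hm hp

private lemma UB6_sa {h : H →L[ℂ] H} (g : ℝ → ℝ) : star (cfc g h) = cfc g h :=
  (cfc_predicate (R := ℝ) g h : IsSelfAdjoint (cfc g h))

/-- the two projections agree at a vector -/
private lemma UB6_proj {P : ComPair H} {p p' : H →L[ℂ] H} (hm : p ∈ P.N) (hm' : p' ∈ P.N') (hp : star p = p)
    (hp' : star p' = p') (z : H) (hz : p z = p' z) : rproj p z = rproj p' z := by
  have hQ := UB6_rN hm hp
  have hQ' := UB6_rN' hm' hp'
  have h1 : rproj p (z - rproj p' z) = 0 := by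
    refine UB6_ker p hp _ ?_
    rw [map_sub, UB6_comm hm hQ', hz, UB6_rfix, sub_self]
  have h2 : rproj p' (z - rproj p z) = 0 := by
    refine UB6_ker p' hp' _ ?_
    rw [map_sub, ← UB6_comm hQ hm', ← hz, UB6_rfix, sub_self]
  rw [map_sub, sub_eq_zero] at h1 h2
  exact h1.trans ((UB6_comm hQ hQ' z).trans h2.symm)

/-- B6: the window of a pre-window, at the threshold `a` -/
theorem PreWin.exists_window {P : ComPair H} {A : Type v} [CStarAlgebra A] {L : LRep P A}
    (W : PreWin L) (a : ℝ) (ha : 0 < a) (hne : cfc (wpt a) W.h W.f ≠ 0) :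
    ∃ V : VWin L, V.p = cfc (wp a) W.h ∧ V.p' = cfc (wp a) W.h' ∧
      V.v = rproj (cfc (wp a) W.h) (cfc (wq a) W.h W.f) ∧
      V.p V.v = cfc (wpt a) W.h W.f ∧ V.p' V.v = cfc (wpt a) W.h' W.f := by
  have c1 := UB6_wp_cont a
  have c2 := UB6_wq_cont a ha
  have c3 := UB6_wpt_cont a ha
  have m1 := UB6_N W.mem (wp a)
  have m2 := UB6_N' W.mem' (wp a)
  have s1 : star (cfc (wp a) W.h) = cfc (wp a) W.h := UB6_sa _
  have s2 : star (cfc (wp a) W.h') = cfc (wp a) W.h' := UB6_sa _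
  have e1 : cfc (wp a) W.h (cfc (wq a) W.h W.f) = cfc (wpt a) W.h W.f :=
    UB6_mul W.sa (wp a) (wq a) (wpt a) c1 c2 (fun _ => rfl) _
  have e2 : cfc (wp a) W.h' (cfc (wq a) W.h W.f) = cfc (wpt a) W.h' W.f := by
    rw [UB6_base W _ c2]
    exact UB6_mul W.sa' (wp a) (wq a) (wpt a) c1 c2 (fun _ => rfl) _
  have e3 : cfc (wp a) W.h (cfc (wq a) W.h W.f) = cfc (wp a) W.h' (cfc (wq a) W.h W.f) := by
    rw [e1, e2, UB6_base W _ c3]
  have e4 := UB6_proj m1 m2 s1 s2 _ e3
  have e5 : cfc (wp a) W.h (rproj (cfc (wp a) W.h) (cfc (wq a) W.h W.f)) = cfc (wpt a) W.h W.f := by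
    rw [UB6_pr _ s1, e1]
  have e6 : cfc (wp a) W.h' (rproj (cfc (wp a) W.h) (cfc (wq a) W.h W.f)) = cfc (wpt a) W.h' W.f := by
    rw [e4, UB6_pr _ s2, e2]
  have e7 : ∀ z, cfc (wpt a) W.h (W.h z) = cfc (wp a) W.h z := by
    intro z
    have h1 := UB6_mul W.sa (wpt a) (fun t => t) (wp a) c3 continuous_id (UB6_wpt_mul a ha) z
    rwa [UB6_id W.sa] at h1
  have e8 : ∀ z, cfc (wpt a) W.h' (W.h' z) = cfc (wp a) W.h' z := by
    intro z
    have h1 := UB6_mul W.sa' (wpt a) (fun t => t) (wp a) c3 continuous_id (UB6_wpt_mul a ha) z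
    rwa [UB6_id W.sa'] at h1
  refine ⟨⟨cfc (wp a) W.h, cfc (wp a) W.h', rproj (cfc (wp a) W.h) (cfc (wq a) W.h W.f), m1, m2, s1, s2,
    ?_, ?_, UB6_rmem _ _, ?_, ?_⟩, rfl, rfl, rfl, e5, e6⟩
  · rw [e5, e6, UB6_base W _ c3]
  · intro x
    rw [e5, e6, ← e7, ← e8]
    exact UB6_key W W W.base (wpt a) (wpt a) c3 c3 x
  · rw [e4]
    exact UB6_rmem _ _
  · intro h0
    apply hne
    rw [← e5, h0, map_zero]

/-- B6: two pre-windows with a common base identity give linked windows -/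
theorem PreWin.linked {P : ComPair H} {A : Type v} [CStarAlgebra A] {L : LRep P A}
    (W1 W2 : PreWin L) (a : ℝ) (ha : 0 < a)
    (hbase : ∀ x, W1.h (L.l x W2.f) = W2.h' (L.r x W1.f)) (V1 V2 : VWin L)
    (h1 : V1.p = cfc (wp a) W1.h) (h2 : V1.p' V1.v = cfc (wpt a) W1.h' W1.f)
    (h3 : V2.p' = cfc (wp a) W2.h') (h4 : V2.p V2.v = cfc (wpt a) W2.h W2.f) :
    V1.Linked V2 := by
  intro x
  have c3 := UB6_wpt_cont a ha
  have e7 : ∀ z, cfc (wpt a) W1.h (W1.h z) = cfc (wp a) W1.h z := by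
    intro z
    have h1 := UB6_mul W1.sa (wpt a) (fun t => t) (wp a) c3 continuous_id (UB6_wpt_mul a ha) z
    rwa [UB6_id W1.sa] at h1
  have e8 : ∀ z, cfc (wpt a) W2.h' (W2.h' z) = cfc (wp a) W2.h' z := by
    intro z
    have h1 := UB6_mul W2.sa' (wpt a) (fun t => t) (wp a) c3 continuous_id (UB6_wpt_mul a ha) z
    rwa [UB6_id W2.sa'] at h1
  rw [h4, h2, h1, h3, ← e7, ← e8]
  exact UB6_key W1 W2 hbase (wpt a) (wpt a) c3 c3 x

end Pool.Agent.AbCoc
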