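import Pool.Agent.Lib_MP_418a80_un.UB1
import Pool.Agent.Lib_MP_418a80_un.UB3

/-! # B7: the families of vectors -/

set_option autoImplicit false
set_option linter.unusedVariables false
set_option linter.unusedSectionVars false

open MeasureTheory Topology Filter
open scoped ENNReal NNReal ComplexConjugate

namespace Pool.Agent.AbCoc

universe u v w z

variable {H : Type u} [NormedAddCommGroup H] [InnerProductSpace ℂ H] [CompleteSpace H]

private theorem ComPair.cc (P : ComPair H) {x y : H →L[ℂ] H} (hx : x ∈ P.N) (hy : y ∈ P.N') :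
    x * y = y * x := by
  have h := P.comm ▸ hy
  exact (Set.mem_centralizer_iff.1 h) x hx

private theorem ComPair.cc_apply (P : ComPair H) {x y : H →L[ℂ] H} (hx : x ∈ P.N)
    (hy : y ∈ P.N') (t : H) : x (y t) = y (x t) := by
  have h := P.cc hx hy
  have := congrArg (fun f : H →L[ℂ] H => f t) h
  simpa using this

private theorem ComPair.mul_mem (P : ComPair H) {x y : H →L[ℂ] H} (hx : x ∈ P.N)
    (hy : y ∈ P.N) : x * y ∈ P.N := by
  have h1 := P.comm' ▸ hx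
  have h2 := P.comm' ▸ hy
  rw [P.comm']
  exact Set.mul_mem_centralizer h1 h2

/-- `v` in the closure of the range of a self-adjoint `p`, and `p v = 0`: then `v = 0` -/
private theorem eq_zero_of_cl {p : H →L[ℂ] H} (hp : star p = p) {v : H}
    (hv : v ∈ closure (Set.range p)) (h0 : p v = 0) : v = 0 := by
  have h : ∀ y ∈ closure (Set.range p), inner ℂ y v = 0 := by
    have hcl : IsClosed {y : H | inner ℂ y v = (0 : ℂ)} :=
      isClosed_eq (by fun_prop) continuous_const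
    refine closure_minimal ?_ hcl
    rintro y ⟨t, rfl⟩
    show inner ℂ (p t) v = 0
    rw [← hp, ContinuousLinearMap.star_eq_adjoint, ContinuousLinearMap.adjoint_inner_left, h0,
      inner_zero_right]
  have := h v hv
  exact inner_self_eq_zero.1 this

/-- an operator commuting with `p` maps the closure of the range of `p` to itself -/
private theorem cl_of_comm {p Y : H →L[ℂ] H} (h : Y * p = p * Y) {y : H}
    (hy : y ∈ closure (Set.range p)) : Y y ∈ closure (Set.range p) := by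
  have hc : Set.MapsTo Y (Set.range p) (Set.range p) := by
    rintro _ ⟨t, rfl⟩
    refine ⟨Y t, ?_⟩
    have := congrArg (fun f : H →L[ℂ] H => f t) h
    simpa using this.symm
  exact hc.closure Y.continuous hy

/-- the dixmier averaging at a window -/
private theorem win_dixmier (P : ComPair H) {A : Type v} [CStarAlgebra A]
    (l r : A → H →L[ℂ] H) (l_mem : ∀ x, l x ∈ P.N) (r_mem : ∀ x, r x ∈ P.N') (l_one : l 1 = 1)
    (l_mul : ∀ x y, ∃ z, l x * l y = l z) (l_add : ∀ x y, l (x + y) = l x + l y)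
    (l_smul : ∀ (c : ℂ) x, l (c • x) = c • l x)
    (l_star : ∀ x, l (star x) = star (l x)) (r_star : ∀ x, r (star x) = star (r x))
    (l_irr : ∀ Y ∈ P.N, (∀ x, Y * l x = l x * Y) → ∃ c : ℂ, Y = c • (1 : H →L[ℂ] H))
    (p p' : H →L[ℂ] H) (v : H) (mem : p ∈ P.N) (mem' : p' ∈ P.N') (sa : star p = p)
    (sa' : star p' = p') (pv : p v = p' v) (px : ∀ x, p (l x (p v)) = p' (r x (p' v)))
    (cl : v ∈ closure (Set.range p)) (ne : v ≠ 0)
    {J : Type} [Fintype J] (X : J → H →L[ℂ] H) (hX : ∀ j, X j ∈ P.N) (ε : ℝ) (hε : 0 < ε) :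
    ∃ (M : Type) (_ : Fintype M) (w : M → ℝ) (u : M → H →L[ℂ] H), (∀ k, 0 ≤ w k) ∧
      ∑ k, w k = 1 ∧
      (∀ k, u k ∈ P.N ∧ star (u k) * u k = 1 ∧ u k * star (u k) = 1 ∧
        ∀ Z : H →L[ℂ] H, Z * p = p * Z → (∀ x, Z * (p * l x * p) = (p * l x * p) * Z) →
          Z * u k = u k * Z) ∧
      ∀ j, ‖(∑ k, (w k : ℂ) • star (u k) (X j (u k v)))
        - (inner ℂ v (X j v) / ((‖v‖ ^ 2 : ℝ) : ℂ)) • v‖ ≤ ε := by
  classical
  let ρ : Option {x : A // star x = x} → H →L[ℂ] H := fun o =>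
    match o with
    | none => p
    | some x => p * l x.1 * p
  let ρ' : Option {x : A // star x = x} → H →L[ℂ] H := fun o =>
    match o with
    | none => p'
    | some x => p' * r x.1 * p'
  have hmul' : ∀ {x y : H →L[ℂ] H}, x ∈ P.N' → y ∈ P.N' → x * y ∈ P.N' :=
    fun hx hy => P.swap.mul_mem hx hy
  have hρ : ∀ i, ρ i ∈ P.N := by
    rintro (_ | x)
    · exact mem
    · exact P.mul_mem (P.mul_mem mem (l_mem _)) mem
  have hρ' : ∀ i, ρ' i ∈ P.N' := by
    rintro (_ | x)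
    · exact mem'
    · exact hmul' (hmul' mem' (r_mem _)) mem'
  have hsa : ∀ i, star (ρ i) = ρ i := by
    rintro (_ | x)
    · exact sa
    · show star (p * l x.1 * p) = p * l x.1 * p
      rw [star_mul, star_mul, sa, ← l_star, x.2, mul_assoc]
  have hsa' : ∀ i, star (ρ' i) = ρ' i := by
    rintro (_ | x)
    · exact sa'
    · show star (p' * r x.1 * p') = p' * r x.1 * p'
      rw [star_mul, star_mul, sa', ← r_star, x.2, mul_assoc]
  have hρv : ∀ i, ρ i v = ρ' i v := by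
    rintro (_ | x)
    · exact pv
    · exact px x.1
  -- commutation with all `p l x p` follows from the self-adjoint ones
  have hall : ∀ Y : H →L[ℂ] H, (∀ i, Y * ρ i = ρ i * Y) →
      ∀ x, Y * (p * l x * p) = (p * l x * p) * Y := by
    intro Y hY x
    have hre : ∀ y : A, star y = y → Y * (p * l y * p) = (p * l y * p) * Y :=
      fun y hy => hY (some ⟨y, hy⟩)
    have h1 := hre (realPart x : A) (realPart x).2
    have h2 := hre (imaginaryPart x : A) (imaginaryPart x).2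
    have hx : x = (realPart x : A) + Complex.I • (imaginaryPart x : A) :=
      (realPart_add_I_smul_imaginaryPart x).symm
    have hl : l x = l (realPart x : A) + Complex.I • l (imaginaryPart x : A) := by
      conv_lhs => rw [hx]
      rw [l_add, l_smul]
    rw [hl, mul_add, add_mul, mul_add, add_mul, h1, mul_smul_comm, smul_mul_assoc, mul_smul_comm,
      h2, smul_mul_assoc]
  have hir : ∀ Y ∈ P.N, (∀ i, Y * ρ i = ρ i * Y) → ∃ c : ℂ, Y v = c • v := by
    intro Y hY hYρ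
    obtain ⟨c, hc⟩ := P.ir (Set.range l) (by rintro _ ⟨x, rfl⟩; exact l_mem x)
      ⟨1, l_one⟩ (by
        rintro _ ⟨x, rfl⟩ _ ⟨y, rfl⟩
        obtain ⟨z, hz⟩ := l_mul x y
        exact ⟨z, hz.symm⟩) (by
        rintro _ ⟨x, rfl⟩
        exact ⟨star x, l_star x⟩) (by
        intro Y hY h
        exact l_irr Y hY (fun x => h _ ⟨x, rfl⟩)) p mem sa Y hY (hYρ none) (by
        rintro _ ⟨x, rfl⟩
        exact hall Y hYρ x)
    refine ⟨c, ?_⟩
    have hcl : IsClosed {y : H | Y y = c • y} :=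
      isClosed_eq (by fun_prop) (by fun_prop)
    have hsub : closure (Set.range p) ⊆ {y : H | Y y = c • y} := by
      refine closure_minimal ?_ hcl
      rintro _ ⟨t, rfl⟩
      have := congrArg (fun f : H →L[ℂ] H => f t) hc
      simpa using this
    exact hsub cl
  obtain ⟨M, iM, w, u, hw, hw1, hu, hX'⟩ := P.dixmier v ne ρ ρ' hρ hρ' hsa hsa' hρv hir X hX ε hε
  refine ⟨M, iM, w, u, hw, hw1, ?_, hX'⟩
  intro k
  obtain ⟨h1, h2, h3, h4⟩ := hu k
  refine ⟨h1, h2, h3, ?_⟩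
  intro Z hZp hZx
  apply h4
  rintro (_ | x)
  · exact hZp
  · exact hZx x.1

/-- unitaries of the window averaging preserve the closure of the range of `p` -/
private theorem cl_of_prop {p u : H →L[ℂ] H} {A : Type v} (l : A → H →L[ℂ] H) (sa : star p = p)
    (hu : ∀ Z : H →L[ℂ] H, Z * p = p * Z → (∀ x, Z * (p * l x * p) = (p * l x * p) * Z) →
      Z * u = u * Z) {y : H} (hy : y ∈ closure (Set.range p)) :
    u y ∈ closure (Set.range p) := by
  classical
  let K : Submodule ℂ H := (LinearMap.range (p : H →ₗ[ℂ] H)).topologicalClosure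
  have hK : IsClosed (K : Set H) := Submodule.isClosed_topologicalClosure _
  have : CompleteSpace K := hK.completeSpace_coe
  have hKs : (K : Set H) = closure (Set.range p) := by
    show ((LinearMap.range (p : H →ₗ[ℂ] H)).topologicalClosure : Set H) = _
    rw [Submodule.topologicalClosure_coe]
    congr 1
  have hmem : ∀ t, p t ∈ K := fun t => by
    have : p t ∈ (K : Set H) := by
      rw [hKs]
      exact subset_closure ⟨t, rfl⟩
    exact this
  let Q : H →L[ℂ] H := K.starProjection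
  have hQs : star Q = Q := by
    have := (isSelfAdjoint_starProjection K)
    exact this
  have hQp : Q * p = p := by
    ext t
    show K.starProjection (p t) = p t
    exact Submodule.starProjection_eq_self_iff.2 (hmem t)
  have hpQ : p * Q = p := by
    have := congrArg star hQp
    rw [star_mul, hQs, sa] at this
    exact this
  have hcomm := hu Q (by rw [hQp, hpQ]) (by
    intro x
    rw [← mul_assoc, ← mul_assoc, hQp, mul_assoc, mul_assoc, mul_assoc, hpQ])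
  have hyK : y ∈ K := by
    have : y ∈ (K : Set H) := by rw [hKs]; exact hy
    exact this
  have hQy : Q y = y := Submodule.starProjection_eq_self_iff.2 hyK
  have h1 : u y = Q (u y) := by
    have := congrArg (fun f : H →L[ℂ] H => f y) hcomm
    have h2 : Q (u y) = u (Q y) := by simpa using this
    rw [h2, hQy]
  have h2 : Q (u y) ∈ K := Submodule.starProjection_apply_mem K _
  rw [← h1] at h2
  have : u y ∈ (K : Set H) := h2
  rw [hKs] at this
  exact this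

private theorem cl_smul (p : H →L[ℂ] H) (c : ℂ) {y : H} (hy : y ∈ closure (Set.range p)) :
    c • y ∈ closure (Set.range p) := by
  have h : (c • (1 : H →L[ℂ] H)) * p = p * (c • (1 : H →L[ℂ] H)) := by
    rw [smul_mul_assoc, mul_smul_comm, one_mul, mul_one]
  have := cl_of_comm h hy
  simpa using this

private theorem norm_of_iso {u : H →L[ℂ] H} (h : star u * u = 1) (y : H) : ‖u y‖ = ‖y‖ := by
  have h1 : inner ℂ (u y) (u y) = inner ℂ y y := by
    have : star u (u y) = y := by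
      have := congrArg (fun f : H →L[ℂ] H => f y) h
      simpa using this
    rw [← ContinuousLinearMap.adjoint_inner_right, ← ContinuousLinearMap.star_eq_adjoint, this]
  rw [inner_self_eq_norm_sq_to_K, inner_self_eq_norm_sq_to_K] at h1
  have h2 : ‖u y‖ ^ 2 = ‖y‖ ^ 2 := by exact_mod_cast h1
  exact (sq_eq_sq₀ (norm_nonneg _) (norm_nonneg _)).1 h2

private theorem norm_coef_le (X : H →L[ℂ] H) {v : H} (hv : v ≠ 0) :
    ‖inner ℂ v (X v) / ((‖v‖ ^ 2 : ℝ) : ℂ)‖ ≤ ‖X‖ := by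
  have hv' : 0 < ‖v‖ := norm_pos_iff.2 hv
  rw [norm_div, Complex.norm_real, Real.norm_of_nonneg (by positivity), div_le_iff₀ (by positivity)]
  calc ‖inner ℂ v (X v)‖ ≤ ‖v‖ * ‖X v‖ := norm_inner_le_norm _ _
    _ ≤ ‖v‖ * (‖X‖ * ‖v‖) := by gcongr; exact X.le_opNorm v
    _ = ‖X‖ * ‖v‖ ^ 2 := by ring

/-- B7 -/
theorem VWin.families {P : ComPair H} {A : Type v} [CStarAlgebra A] {L : LRep P A}
    (W1 W2 : VWin L) (hl : W1.Linked W2) {J J' : Type} [Fintype J] [Fintype J']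
    (X : J → H →L[ℂ] H) (X' : J' → H →L[ℂ] H) (hX : ∀ j, X j ∈ P.N) (hX' : ∀ j, X' j ∈ P.N')
    (ε : ℝ) (hε : 0 < ε) :
    ∃ (M : Type) (_ : Fintype M) (ζ : M → H),
      (∀ l, ζ l ∈ closure (Set.range W1.p)) ∧ (∀ l, ζ l ∈ closure (Set.range W2.p')) ∧
      (∀ Z : H →L[ℂ] H, Z * W1.p = W1.p * Z → Z * W2.p = W2.p * Z → Z * W2.p' = W2.p' * Z →
        (∀ x, Z * L.l x = L.l x * Z) → (∀ x, Z * L.r x = L.r x * Z) → Z W2.v = W2.v →
        ∀ l, Z (ζ l) = ζ l) ∧
      ∀ j j', ‖(∑ l, inner ℂ (ζ l) (X j (X' j' (ζ l))))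
        - (inner ℂ W1.v (X j W1.v) / ((‖W1.v‖ ^ 2 : ℝ) : ℂ))
          * (inner ℂ W2.v (X' j' W2.v) / ((‖W2.v‖ ^ 2 : ℝ) : ℂ))‖ ≤ ε := by
  classical
  -- the vector `ξ`
  have hη : W2.p W2.v ≠ 0 := fun h0 => W2.ne (eq_zero_of_cl W2.sa W2.cl h0)
  have hp1 : W1.p ≠ 0 := by
    intro h0
    exact W1.ne (eq_zero_of_cl W1.sa W1.cl (by rw [h0]; rfl))
  obtain ⟨_, ⟨m0, rfl⟩, hm0⟩ := P.exists_ne_zero (Set.range L.l)
    (by rintro _ ⟨x, rfl⟩; exact L.l_mem x) ⟨1, L.l_one⟩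
    (by rintro _ ⟨x, rfl⟩ _ ⟨y, rfl⟩; exact ⟨x * y, L.l_mul x y⟩)
    (by rintro _ ⟨x, rfl⟩; exact ⟨star x, L.l_star x⟩)
    (fun Y hY h => L.l_irr Y hY (fun x => h _ ⟨x, rfl⟩)) W1.p W1.mem hp1 (W2.p W2.v) hη
  obtain ⟨m, hξn⟩ : ∃ m : A, ‖W1.p (L.l m (W2.p W2.v))‖ = 1 := by
    refine ⟨((‖W1.p (L.l m0 (W2.p W2.v))‖⁻¹ : ℝ) : ℂ) • m0, ?_⟩
    rw [L.l_smul, smul_apply, map_smul, norm_smul, Complex.norm_real,
      Real.norm_of_nonneg (by positivity), inv_mul_cancel₀ (norm_ne_zero_iff.2 hm0)]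
  obtain ⟨ξ, hξ⟩ : ∃ ξ : H, ξ = W1.p (L.l m (W2.p W2.v)) := ⟨_, rfl⟩
  rw [← hξ] at hξn
  obtain ⟨T, hT, hTv⟩ : ∃ T ∈ P.N, T W2.v = ξ :=
    ⟨W1.p * L.l m * W2.p, P.mul_mem (P.mul_mem W1.mem (L.l_mem m)) W2.mem, by rw [hξ]; rfl⟩
  obtain ⟨T', hT', hTv'⟩ : ∃ T' ∈ P.N', T' W1.v = ξ :=
    ⟨W2.p' * L.r m * W1.p', P.swap.mul_mem (P.swap.mul_mem W2.mem' (L.r_mem m)) W1.mem', by
      rw [hξ, hl m]; rfl⟩
  -- the constants
  obtain ⟨B, hB0, hB⟩ : ∃ B : ℝ, 0 ≤ B ∧ ∀ j, ‖X j‖ ≤ B :=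
    ⟨∑ j, ‖X j‖, Finset.sum_nonneg (fun _ _ => norm_nonneg _),
      fun j => Finset.single_le_sum (f := fun j => ‖X j‖) (fun _ _ => norm_nonneg _)
        (Finset.mem_univ j)⟩
  obtain ⟨B', hB0', hB'⟩ : ∃ B : ℝ, 0 ≤ B ∧ ∀ j, ‖X' j‖ ≤ B :=
    ⟨∑ j, ‖X' j‖, Finset.sum_nonneg (fun _ _ => norm_nonneg _),
      fun j => Finset.single_le_sum (f := fun j => ‖X' j‖) (fun _ _ => norm_nonneg _)
        (Finset.mem_univ j)⟩
  obtain ⟨e1, he1, he1'⟩ : ∃ e : ℝ, 0 < e ∧ B * (‖T‖ * e) ≤ ε / 2 := by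
    have hpos : 0 < 1 + B * ‖T‖ := by positivity
    refine ⟨ε / 2 / (1 + B * ‖T‖), by positivity, ?_⟩
    have : B * (‖T‖ * (ε / 2 / (1 + B * ‖T‖))) = (B * ‖T‖) / (1 + B * ‖T‖) * (ε / 2) := by
      field_simp
    rw [this]
    have h1 : (B * ‖T‖) / (1 + B * ‖T‖) ≤ 1 := by
      rw [div_le_one hpos]; linarith
    have h2 : 0 ≤ ε / 2 := by positivity
    nlinarith
  obtain ⟨e2, he2, he2'⟩ : ∃ e : ℝ, 0 < e ∧ B' * (‖T'‖ * e) ≤ ε / 2 := by
    have hpos : 0 < 1 + B' * ‖T'‖ := by positivity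
    refine ⟨ε / 2 / (1 + B' * ‖T'‖), by positivity, ?_⟩
    have : B' * (‖T'‖ * (ε / 2 / (1 + B' * ‖T'‖)))
        = (B' * ‖T'‖) / (1 + B' * ‖T'‖) * (ε / 2) := by
      field_simp
    rw [this]
    have h1 : (B' * ‖T'‖) / (1 + B' * ‖T'‖) ≤ 1 := by
      rw [div_le_one hpos]; linarith
    have h2 : 0 ≤ ε / 2 := by positivity
    nlinarith
  -- the averages
  obtain ⟨M2, i2, w2, u2, hw2, hw21, hu2, hD2⟩ := win_dixmier P.swap L.r L.l L.r_mem L.l_mem
    L.r_one (fun x y => ⟨y * x, (L.r_mul y x).symm⟩) L.r_add L.r_smul L.r_star L.l_star L.r_irr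
    W2.p' W2.p W2.v W2.mem' W2.mem W2.sa' W2.sa W2.pv.symm (fun x => (W2.px x).symm) W2.cl' W2.ne
    X' hX' e1 he1
  obtain ⟨M1, i1, w1, u1, hw1, hw11, hu1, hD1⟩ := win_dixmier P L.l L.r L.l_mem L.r_mem
    L.l_one (fun x y => ⟨x * y, (L.l_mul x y).symm⟩) L.l_add L.l_smul L.l_star L.r_star L.l_irr
    W1.p W1.p' W1.v W1.mem W1.mem' W1.sa W1.sa' W1.pv W1.px W1.cl W1.ne
    X hX e2 he2
  have hu1N : ∀ i, u1 i ∈ P.N := fun i => (hu1 i).1
  have hu2N : ∀ k, u2 k ∈ P.N' := fun k => (hu2 k).1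
  have hξ1 : ξ ∈ closure (Set.range W1.p) := by rw [hξ]; exact subset_closure ⟨_, rfl⟩
  have hξ2 : ξ ∈ closure (Set.range W2.p') := by rw [hξ, hl m]; exact subset_closure ⟨_, rfl⟩
  refine ⟨M1 × M2, inferInstance,
    fun q => ((Real.sqrt (w1 q.1 * w2 q.2) : ℝ) : ℂ) • u1 q.1 (u2 q.2 ξ), ?_, ?_, ?_, ?_⟩
  · rintro ⟨i, k⟩
    refine cl_smul _ _ (cl_of_prop L.l W1.sa (hu1 i).2.2.2 (cl_of_comm ?_ hξ1))
    exact (P.cc W1.mem (hu2N k)).symm
  · rintro ⟨i, k⟩
    refine cl_smul _ _ (cl_of_comm (P.cc (hu1N i) W2.mem') ?_)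
    exact cl_of_prop L.r W2.sa' (hu2 k).2.2.2 hξ2
  · intro Z hZ1 hZ2 hZ2' hZl hZr hZv
    rintro ⟨i, k⟩
    have a1 : Z * u1 i = u1 i * Z := by
      refine (hu1 i).2.2.2 Z hZ1 (fun x => ?_)
      rw [← mul_assoc, ← mul_assoc, hZ1, mul_assoc W1.p Z, hZl, mul_assoc, mul_assoc, hZ1]
      simp only [mul_assoc]
    have a2 : Z * u2 k = u2 k * Z := by
      refine (hu2 k).2.2.2 Z hZ2' (fun x => ?_)
      rw [← mul_assoc, ← mul_assoc, hZ2', mul_assoc W2.p' Z, hZr, mul_assoc, mul_assoc, hZ2']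
      simp only [mul_assoc]
    have b : ∀ {Y : H →L[ℂ] H}, Z * Y = Y * Z → ∀ t, Z (Y t) = Y (Z t) := by
      intro Y hY t
      have := congrArg (fun f : H →L[ℂ] H => f t) hY
      simpa using this
    have a3 : Z ξ = ξ := by
      rw [hξ, b hZ1, b (hZl m), b hZ2, hZv]
    show Z (((Real.sqrt (w1 i * w2 k) : ℝ) : ℂ) • u1 i (u2 k ξ)) = _
    rw [map_smul, b a1, b a2, a3]
  · intro j j'
    obtain ⟨c1, hc1⟩ : ∃ c : ℂ, c = inner ℂ W1.v (X j W1.v) / ((‖W1.v‖ ^ 2 : ℝ) : ℂ) := ⟨_, rfl⟩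
    obtain ⟨c2, hc2⟩ : ∃ c : ℂ, c = inner ℂ W2.v (X' j' W2.v) / ((‖W2.v‖ ^ 2 : ℝ) : ℂ) := ⟨_, rfl⟩
    have hc1n : ‖c1‖ ≤ B := by rw [hc1]; exact (norm_coef_le (X j) W1.ne).trans (hB j)
    obtain ⟨d1, hd1⟩ : ∃ d : H, d = (∑ i, (w1 i : ℂ) • star (u1 i) (X j (u1 i W1.v)))
      - c1 • W1.v := ⟨_, rfl⟩
    obtain ⟨d2, hd2⟩ : ∃ d : H, d = (∑ k, (w2 k : ℂ) • star (u2 k) (X' j' (u2 k W2.v)))
      - c2 • W2.v := ⟨_, rfl⟩
    have hd1n : ‖d1‖ ≤ e2 := by rw [hd1, hc1]; exact hD1 j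
    have hd2n : ‖d2‖ ≤ e1 := by rw [hd2, hc2]; exact hD2 j'
    have hXj := hX j
    have hXj' := hX' j'
    rw [← hc1, ← hc2]
    -- one term
    have hterm : ∀ i k, inner ℂ (((Real.sqrt (w1 i * w2 k) : ℝ) : ℂ) • u1 i (u2 k ξ))
        (X j (X' j' (((Real.sqrt (w1 i * w2 k) : ℝ) : ℂ) • u1 i (u2 k ξ))))
        = (w2 k : ℂ) * inner ℂ (star (X' j') (u2 k ξ))
            ((w1 i : ℂ) • (u2 k (T' (star (u1 i) (X j (u1 i W1.v)))))) := by
      intro i k
      have hsq : ((Real.sqrt (w1 i * w2 k) : ℝ) : ℂ) * ((Real.sqrt (w1 i * w2 k) : ℝ) : ℂ)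
          = (w2 k : ℂ) * (w1 i : ℂ) := by
        rw [← Complex.ofReal_mul, Real.mul_self_sqrt (mul_nonneg (hw1 i) (hw2 k)), mul_comm,
          Complex.ofReal_mul]
      have hA : X j (X' j' (u1 i (u2 k ξ))) = X' j' (X j (u1 i (u2 k ξ))) :=
        P.cc_apply hXj hXj' _
      have hBB : inner ℂ (u1 i (u2 k ξ)) (X' j' (X j (u1 i (u2 k ξ))))
          = inner ℂ (star (X' j') (u2 k ξ)) (star (u1 i) (X j (u1 i (u2 k ξ)))) := by
        rw [← ContinuousLinearMap.adjoint_inner_left, ← ContinuousLinearMap.star_eq_adjoint,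
          ← P.cc_apply (hu1N i) (P.star_mem' _ hXj'), ContinuousLinearMap.star_eq_adjoint (u1 i),
          ContinuousLinearMap.adjoint_inner_right]
      have hCC : star (u1 i) (X j (u1 i (u2 k ξ)))
          = u2 k (T' (star (u1 i) (X j (u1 i W1.v)))) := by
        rw [← hTv', P.cc_apply (hu1N i) (hu2N k), P.cc_apply (hu1N i) hT',
          P.cc_apply hXj (hu2N k), P.cc_apply hXj hT',
          P.cc_apply (P.star_mem _ (hu1N i)) (hu2N k), P.cc_apply (P.star_mem _ (hu1N i)) hT']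
      rw [map_smul, map_smul, inner_smul_left, inner_smul_right, hA, hBB, hCC, Complex.conj_ofReal,
        ← mul_assoc, hsq, inner_smul_right, mul_assoc]
    have hsum : (∑ q : M1 × M2, inner ℂ (((Real.sqrt (w1 q.1 * w2 q.2) : ℝ) : ℂ) •
        u1 q.1 (u2 q.2 ξ)) (X j (X' j' (((Real.sqrt (w1 q.1 * w2 q.2) : ℝ) : ℂ) •
        u1 q.1 (u2 q.2 ξ))))) - c1 * c2
        = c1 * inner ℂ ξ (T d2)
          + ∑ k, (w2 k : ℂ) * inner ℂ (star (X' j') (u2 k ξ)) (u2 k (T' d1)) := by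
      rw [Fintype.sum_prod_type_right]
      simp only [hterm]
      have hS : ∀ k, ∑ i, (w2 k : ℂ) * inner ℂ (star (X' j') (u2 k ξ))
            ((w1 i : ℂ) • (u2 k (T' (star (u1 i) (X j (u1 i W1.v))))))
          = c1 * ((w2 k : ℂ) * inner ℂ ξ (T (star (u2 k) (X' j' (u2 k W2.v)))))
            + (w2 k : ℂ) * inner ℂ (star (X' j') (u2 k ξ)) (u2 k (T' d1)) := by
        intro k
        rw [← Finset.mul_sum, ← inner_sum]
        have h1 : ∑ i, (w1 i : ℂ) • (u2 k (T' (star (u1 i) (X j (u1 i W1.v)))))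
            = c1 • u2 k ξ + u2 k (T' d1) := by
          have : ∑ i, (w1 i : ℂ) • (u2 k (T' (star (u1 i) (X j (u1 i W1.v)))))
              = u2 k (T' (∑ i, (w1 i : ℂ) • star (u1 i) (X j (u1 i W1.v)))) := by
            rw [map_sum, map_sum]
            exact Finset.sum_congr rfl (fun i _ => by rw [map_smul, map_smul])
          rw [this]
          have h2 : (∑ i, (w1 i : ℂ) • star (u1 i) (X j (u1 i W1.v))) = c1 • W1.v + d1 := by
            rw [hd1]; abel
          rw [h2, map_add, map_add, map_smul, map_smul, hTv']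
        rw [h1, inner_add_right, inner_smul_right]
        have h3 : inner ℂ (star (X' j') (u2 k ξ)) (u2 k ξ)
            = inner ℂ ξ (T (star (u2 k) (X' j' (u2 k W2.v)))) := by
          rw [ContinuousLinearMap.star_eq_adjoint (X' j'), ContinuousLinearMap.adjoint_inner_left,
            ← ContinuousLinearMap.adjoint_inner_right (u2 k), ← ContinuousLinearMap.star_eq_adjoint]
          congr 1
          rw [P.cc_apply hT (P.star_mem' _ (hu2N k)), P.cc_apply hT hXj',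
            P.cc_apply hT (hu2N k), hTv]
        rw [h3]
        ring
      simp only [hS]
      rw [Finset.sum_add_distrib, ← Finset.mul_sum]
      have h4 : ∑ k, (w2 k : ℂ) * inner ℂ ξ (T (star (u2 k) (X' j' (u2 k W2.v))))
          = c2 + inner ℂ ξ (T d2) := by
        have : ∑ k, (w2 k : ℂ) * inner ℂ ξ (T (star (u2 k) (X' j' (u2 k W2.v))))
            = inner ℂ ξ (T (∑ k, (w2 k : ℂ) • star (u2 k) (X' j' (u2 k W2.v)))) := by
          rw [map_sum, inner_sum]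
          exact Finset.sum_congr rfl (fun k _ => by rw [map_smul, inner_smul_right])
        rw [this]
        have h2 : (∑ k, (w2 k : ℂ) • star (u2 k) (X' j' (u2 k W2.v))) = c2 • W2.v + d2 := by
          rw [hd2]; abel
        rw [h2, map_add, map_smul, hTv, inner_add_right, inner_smul_right,
          inner_self_eq_norm_sq_to_K, hξn]
        simp
      rw [h4]
      ring
    rw [hsum]
    have hb1 : ‖c1 * inner ℂ ξ (T d2)‖ ≤ ε / 2 := by
      rw [norm_mul]
      calc ‖c1‖ * ‖inner ℂ ξ (T d2)‖ ≤ B * (‖T‖ * e1) := by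
            refine mul_le_mul hc1n ?_ (norm_nonneg _) hB0
            calc ‖inner ℂ ξ (T d2)‖ ≤ ‖ξ‖ * ‖T d2‖ := norm_inner_le_norm _ _
              _ = ‖T d2‖ := by rw [hξn, one_mul]
              _ ≤ ‖T‖ * ‖d2‖ := T.le_opNorm _
              _ ≤ ‖T‖ * e1 := by gcongr
        _ ≤ ε / 2 := he1'
    have hb2 : ‖∑ k, (w2 k : ℂ) * inner ℂ (star (X' j') (u2 k ξ)) (u2 k (T' d1))‖ ≤ ε / 2 := by
      calc ‖∑ k, (w2 k : ℂ) * inner ℂ (star (X' j') (u2 k ξ)) (u2 k (T' d1))‖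
          ≤ ∑ k, ‖(w2 k : ℂ) * inner ℂ (star (X' j') (u2 k ξ)) (u2 k (T' d1))‖ :=
            norm_sum_le _ _
        _ ≤ ∑ k, w2 k * (B' * (‖T'‖ * e2)) := by
            refine Finset.sum_le_sum (fun k _ => ?_)
            rw [norm_mul, Complex.norm_real, Real.norm_of_nonneg (hw2 k)]
            refine mul_le_mul_of_nonneg_left ?_ (hw2 k)
            calc ‖inner ℂ (star (X' j') (u2 k ξ)) (u2 k (T' d1))‖
                ≤ ‖star (X' j') (u2 k ξ)‖ * ‖u2 k (T' d1)‖ := norm_inner_le_norm _ _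
              _ ≤ B' * (‖T'‖ * e2) := by
                refine mul_le_mul ?_ ?_ (norm_nonneg _) hB0'
                · calc ‖star (X' j') (u2 k ξ)‖ ≤ ‖star (X' j')‖ * ‖u2 k ξ‖ :=
                        (star (X' j')).le_opNorm _
                    _ = ‖X' j'‖ := by
                      rw [norm_of_iso (hu2 k).2.1, hξn, mul_one, norm_star]
                    _ ≤ B' := hB' j'
                · rw [norm_of_iso (hu2 k).2.1]
                  exact (T'.le_opNorm _).trans (by gcongr)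
        _ = B' * (‖T'‖ * e2) := by rw [← Finset.sum_mul, hw21, one_mul]
        _ ≤ ε / 2 := he2'
    calc _ ≤ ‖c1 * inner ℂ ξ (T d2)‖
          + ‖∑ k, (w2 k : ℂ) * inner ℂ (star (X' j') (u2 k ξ)) (u2 k (T' d1))‖ := norm_add_le _ _
      _ ≤ ε := by linarith

end Pool.Agent.AbCoc
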