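import Pool.Agent.Lib_MP_418a80_un.UB6
import Pool.Agent.Lib_MP_418a80_eg.Irr

/-! # F1a: two facts on the functional calculus -/

set_option autoImplicit false
set_option linter.unusedVariables false
set_option linter.unusedSectionVars false

open MeasureTheory Topology Filter
open scoped ENNReal NNReal ComplexConjugate

namespace Pool.Agent.AbCoc

universe u v w z

variable {H : Type u} [NormedAddCommGroup H] [InnerProductSpace ℂ H] [CompleteSpace H]

/-- on the closure of the range of `(h - a)⁺` one has `h ≥ a` -/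
theorem re_inner_ge_of_mem_closure (h : H →L[ℂ] H) (hh : IsSelfAdjoint h) (a : ℝ) (ζ : H)
    (hζ : ζ ∈ closure (Set.range (cfc (wp a) h : H →L[ℂ] H))) :
    a * ‖ζ‖ ^ 2 ≤ (inner ℂ ζ (h ζ)).re := by
  have hc1 : Continuous (wp a) := by
    unfold wp
    fun_prop
  have hc2 : Continuous fun t : ℝ => Real.sqrt (wp a t) * wp a t :=
    (Real.continuous_sqrt.comp hc1).mul hc1
  have hcl : IsClosed {ζ : H | a * ‖ζ‖ ^ 2 ≤ (inner ℂ ζ (h ζ)).re} := by
    refine isClosed_le (by fun_prop) ?_
    exact Complex.continuous_re.comp (continuous_id.inner h.continuous)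
  refine closure_minimal ?_ hcl hζ
  rintro _ ⟨w, rfl⟩
  set p : H →L[ℂ] H := cfc (wp a) h with hp
  set k : H →L[ℂ] H := cfc (fun t : ℝ => Real.sqrt (wp a t) * wp a t) h with hk
  have hps : star p = p := (cfc_predicate (R := ℝ) (wp a) h : IsSelfAdjoint p)
  have hks : star k = k := (cfc_predicate (R := ℝ) _ h : IsSelfAdjoint k)
  have e1 : k * k = p * h * p - a • (p * p) := by
    have h1 : p * h = cfc (fun t : ℝ => wp a t * t) h := by
      rw [cfc_mul (wp a) (fun t : ℝ => t) h hc1.continuousOn continuousOn_id, cfc_id' ℝ h hh]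
    have h2 : p * h * p = cfc (fun t : ℝ => wp a t * t * wp a t) h := by
      rw [h1, hp, ← cfc_mul (fun t : ℝ => wp a t * t) (wp a) h
        (hc1.mul continuous_id).continuousOn hc1.continuousOn]
    have h3 : a • (p * p) = cfc (fun t : ℝ => a • (wp a t * wp a t)) h := by
      rw [cfc_smul a (fun t : ℝ => wp a t * wp a t) h (hc1.mul hc1).continuousOn, hp,
        ← cfc_mul (wp a) (wp a) h hc1.continuousOn hc1.continuousOn]
    rw [h2, h3, hk, ← cfc_mul _ _ h hc2.continuousOn hc2.continuousOn, ← cfc_sub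
      (fun t : ℝ => wp a t * t * wp a t) (fun t : ℝ => a • (wp a t * wp a t)) h
      ((hc1.mul continuous_id).mul hc1).continuousOn
      ((hc1.mul hc1).const_smul a).continuousOn]
    refine cfc_congr fun t _ => ?_
    have h4 : 0 ≤ wp a t := le_max_right _ _
    have h5 : Real.sqrt (wp a t) * Real.sqrt (wp a t) = wp a t := Real.mul_self_sqrt h4
    show Real.sqrt (wp a t) * wp a t * (Real.sqrt (wp a t) * wp a t)
      = wp a t * t * wp a t - a • (wp a t * wp a t)
    have h6 : wp a t * wp a t * wp a t = (t - a) * (wp a t * wp a t) := by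
      unfold wp
      rcases le_total t a with ht | ht
      · rw [max_eq_right (by linarith : t - a ≤ 0)]
        ring
      · rw [max_eq_left (by linarith : (0 : ℝ) ≤ t - a)]
        ring
    rw [smul_eq_mul]
    linear_combination (wp a t * wp a t) * h5 + h6
  have e2 : p (h (p w)) = k (k w) + (a : ℂ) • p (p w) := by
    have h1 := congrArg (fun Z : H →L[ℂ] H => Z w) e1
    have h2 : (k * k) w = k (k w) := rfl
    have h3 : (p * h * p - a • (p * p)) w = p (h (p w)) - (a : ℂ) • p (p w) := rfl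
    have h4 : k (k w) = p (h (p w)) - (a : ℂ) • p (p w) := h2.symm.trans (h1.trans h3)
    rw [h4]
    abel
  have hsw : ∀ (q : H →L[ℂ] H), star q = q → ∀ x y : H, inner ℂ x (q y) = inner ℂ (q x) y := by
    intro q hq x y
    rw [← ContinuousLinearMap.adjoint_inner_left, ← ContinuousLinearMap.star_eq_adjoint, hq]
  have e3 : inner ℂ (p w) (h (p w)) = inner ℂ w (p (h (p w))) := (hsw p hps w (h (p w))).symm
  have e4 : inner ℂ w (k (k w)) = inner ℂ (k w) (k w) := hsw k hks w (k w)
  have e5 : inner ℂ w (p (p w)) = inner ℂ (p w) (p w) := hsw p hps w (p w)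
  have e6 : inner ℂ (p w) (h (p w)) = ((‖k w‖ ^ 2 + a * ‖p w‖ ^ 2 : ℝ) : ℂ) := by
    rw [e3, e2, inner_add_right, inner_smul_right, e4, e5, inner_self_eq_norm_sq_to_K,
      inner_self_eq_norm_sq_to_K]
    push_cast
    rfl
  show a * ‖p w‖ ^ 2 ≤ (inner ℂ (p w) (h (p w))).re
  rw [e6, Complex.ofReal_re]
  nlinarith [sq_nonneg ‖k w‖]

/-- the functional calculus and the range projection commute with everything that commutes with
`h` -/
theorem comm_rproj_cfc (h : H →L[ℂ] H) (hh : IsSelfAdjoint h) (g1 g2 : ℝ → ℝ)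
    (hg1 : Continuous g1) (hg2 : Continuous g2) (Z : H →L[ℂ] H) (hZ : Z * h = h * Z)
    (hZ' : star Z * h = h * star Z) :
    Z * (rproj (cfc g1 h) * cfc g2 h) = (rproj (cfc g1 h) * cfc g2 h) * Z := by
  have hc : ∀ (g : ℝ → ℝ) (Y : H →L[ℂ] H), Y * h = h * Y → cfc g h * Y = Y * cfc g h := by
    intro g Y hY
    have h1 : Commute h Y := hY.symm
    exact (h1.cfc_real g).eq
  have hinv : ∀ Y : H →L[ℂ] H, Y * h = h * Y →
      ∀ x ∈ (LinearMap.range ((cfc g1 h : H →L[ℂ] H) : H →ₗ[ℂ] H)).topologicalClosure,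
        Y x ∈ (LinearMap.range ((cfc g1 h : H →L[ℂ] H) : H →ₗ[ℂ] H)).topologicalClosure := by
    intro Y hY x hx
    have hx' : x ∈ closure (LinearMap.range ((cfc g1 h : H →L[ℂ] H) : H →ₗ[ℂ] H) : Set H) := hx
    have h3 : Y x ∈ closure (LinearMap.range ((cfc g1 h : H →L[ℂ] H) : H →ₗ[ℂ] H) : Set H) := by
      refine map_mem_closure Y.continuous hx' ?_
      rintro _ ⟨u, rfl⟩
      exact ⟨Y u, congrArg (fun T : H →L[ℂ] H => T u) (hc g1 Y hY)⟩
    exact h3
  have hr : rproj (cfc g1 h) * Z = Z * rproj (cfc g1 h) := by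
    unfold rproj
    exact Pool.Agent.ErgLC.comm_starProjection _ Z (hinv Z hZ) (hinv (star Z) hZ')
  calc Z * (rproj (cfc g1 h) * cfc g2 h) = (Z * rproj (cfc g1 h)) * cfc g2 h := by rw [mul_assoc]
    _ = rproj (cfc g1 h) * (Z * cfc g2 h) := by rw [← hr, mul_assoc]
    _ = (rproj (cfc g1 h) * cfc g2 h) * Z := by rw [← hc g2 Z hZ, mul_assoc]

end Pool.Agent.AbCoc
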