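import Pool.Agent.Lib_MP_418a80_un.UnW1

/-! # W2b: the test function -/

set_option autoImplicit false
set_option linter.unusedVariables false
set_option linter.unusedSectionVars false

open MeasureTheory Topology Filter CompactlySupported
open scoped ENNReal NNReal

namespace Pool.Agent.AbCoc

universe u v w z

section tent
variable {V : Type z} [NormedAddCommGroup V] [NormedSpace ℝ V]

/-- the tent function -/
noncomputable def unTent (R : ℝ) (x : V) : ℝ := max 0 (1 - ‖x‖ / R)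

theorem unTent_cont (R : ℝ) : Continuous (unTent (V := V) R) := by
  unfold unTent
  fun_prop

theorem unTent_nonneg (R : ℝ) (x : V) : 0 ≤ unTent R x := le_max_left _ _

theorem unTent_le_one {R : ℝ} (hR : 0 < R) (x : V) : unTent R x ≤ 1 :=
  max_le zero_le_one (by have := div_nonneg (norm_nonneg x) hR.le; linarith)

theorem unTent_zero {R : ℝ} (hR : 0 < R) {x : V} (hx : R ≤ ‖x‖) : unTent R x = 0 :=
  max_eq_left (by have := (one_le_div hR).2 hx; linarith)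

theorem unTent_half {R : ℝ} (hR : 0 < R) {x : V} (hx : ‖x‖ ≤ R / 2) : 1 / 2 ≤ unTent R x :=
  le_max_of_le_right (by
    have : ‖x‖ / R ≤ 1 / 2 := by rw [div_le_iff₀ hR]; linarith
    linarith)

theorem unTent_lip {R : ℝ} (hR : 0 < R) (x y : V) :
    |unTent R x - unTent R y| ≤ ‖x - y‖ / R := by
  unfold unTent
  refine (abs_max_sub_max_le_max _ _ _ _).trans ?_
  rw [sub_self, abs_zero]
  apply max_le (by positivity)
  have : 1 - ‖x‖ / R - (1 - ‖y‖ / R) = (‖y‖ - ‖x‖) / R := by ring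
  rw [this, abs_div, abs_of_pos hR]
  exact div_le_div_of_nonneg_right ((abs_norm_sub_norm_le y x).trans_eq (norm_sub_rev y x)) hR.le

theorem unTent_neg (R : ℝ) (x : V) : unTent R (-x) = unTent R x := by
  unfold unTent
  rw [norm_neg]

private theorem chi_norm (x0 : V →L[ℝ] ℝ) (x : V) : ‖chi x0 x‖ = 1 := by
  unfold chi
  rw [Complex.norm_exp_ofReal_mul_I]

private theorem chi_cont (x0 : V →L[ℝ] ℝ) : Continuous (chi x0) := by
  unfold chi
  fun_prop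

private theorem chi_add (x0 : V →L[ℝ] ℝ) (x y : V) : chi x0 (x + y) = chi x0 x * chi x0 y := by
  unfold chi
  rw [← Complex.exp_add, map_add]
  push_cast
  ring_nf

private theorem chi_neg (x0 : V →L[ℝ] ℝ) (x : V) : chi x0 (-x) = starRingEnd ℂ (chi x0 x) := by
  unfold chi
  rw [← Complex.exp_conj, map_neg, map_mul, Complex.conj_I, Complex.conj_ofReal]
  push_cast
  ring_nf

private theorem chi_conj_mul (x0 : V →L[ℝ] ℝ) (x : V) : starRingEnd ℂ (chi x0 x) * chi x0 x = 1 := by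
  rw [← Complex.normSq_eq_conj_mul_self, Complex.normSq_eq_norm_sq, chi_norm]
  norm_num

variable [FiniteDimensional ℝ V]

/-- `conj χ · a · tent R` -/
noncomputable def unCt (x0 : V →L[ℝ] ℝ) (a : ℝ) (R : ℝ) (hR : 0 < R) : C_c(V, ℂ) where
  toFun x := starRingEnd ℂ (chi x0 x) * ((a * unTent R x : ℝ) : ℂ)
  continuous_toFun := by
    exact (Complex.continuous_conj.comp (chi_cont x0)).mul
      (Complex.continuous_ofReal.comp (continuous_const.mul (unTent_cont R)))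
  hasCompactSupport' := by
    refine HasCompactSupport.intro (isCompact_closedBall (0 : V) R) fun x hx => ?_
    have h1 : R ≤ ‖x‖ := by
      rw [Metric.mem_closedBall, dist_zero_right, not_le] at hx
      exact hx.le
    rw [unTent_zero hR h1, mul_zero, Complex.ofReal_zero, mul_zero]

theorem unCt_apply (x0 : V →L[ℝ] ℝ) (a : ℝ) (R : ℝ) (hR : 0 < R) (x : V) :
    unCt x0 a R hR x = starRingEnd ℂ (chi x0 x) * ((a * unTent R x : ℝ) : ℂ) := rfl

end tent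

section
variable {K : Type v} [NormedAddCommGroup K]
  [InnerProductSpace ℂ K] [CompleteSpace K]
variable {G : Type w} [Group G] [TopologicalSpace G] [IsTopologicalGroup G]
  [SecondCountableTopology G] [LocallyCompactSpace G] [MeasurableSpace G] [BorelSpace G]
  (μ : Measure G) [μ.IsHaarMeasure]
  {V : Type z} [NormedAddCommGroup V] [NormedSpace ℝ V] [FiniteDimensional ℝ V] (Q : QMap G V)

open Classical in
/-- the lift of the tent function -/
noncomputable def QMap.rl (R : ℝ) (g : G) : ℝ := if g ∈ Q.U then unTent R (Q.q g) else 0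

theorem QMap.rl_mem (R : ℝ) {g : G} (hg : g ∈ Q.U) : Q.rl R g = unTent R (Q.q g) := by
  unfold QMap.rl
  rw [if_pos hg]

theorem QMap.rl_not (R : ℝ) {g : G} (hg : g ∉ Q.U) : Q.rl R g = 0 := by
  unfold QMap.rl
  rw [if_neg hg]

theorem QMap.rl_nonneg (R : ℝ) (g : G) : 0 ≤ Q.rl R g := by
  by_cases hg : g ∈ Q.U
  · rw [Q.rl_mem R hg]; exact unTent_nonneg _ _
  · rw [Q.rl_not R hg]

theorem QMap.rl_cont (R : ℝ) : Continuous (Q.rl R) := by
  classical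
  have h1 : IsClopen (Q.U : Set G) := ⟨Q.U.isClosed_of_isOpen Q.isOpen, Q.isOpen⟩
  unfold QMap.rl
  refine Continuous.if ?_ ((unTent_cont R).comp Q.cont) continuous_const
  intro a ha
  have h2 : frontier {x | x ∈ Q.U} = ∅ := h1.frontier_eq
  rw [h2] at ha
  exact absurd ha (Set.notMem_empty a)

theorem QMap.rl_supp {R : ℝ} (hR : 0 < R) : HasCompactSupport (Q.rl R) := by
  have h1 := Q.proper _ (isCompact_closedBall (0 : V) R)
  refine HasCompactSupport.intro h1 fun g hg => ?_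
  by_cases h : g ∈ Q.U
  · rw [Q.rl_mem R h]
    refine unTent_zero hR ?_
    by_contra h2
    refine hg ⟨h, ?_⟩
    rw [Metric.mem_closedBall, dist_zero_right]
    exact (not_le.1 h2).le
  · exact Q.rl_not R h

theorem QMap.liftFun_unCt (x0 : V →L[ℝ] ℝ) (a : ℝ) (R : ℝ) (hR : 0 < R) (g : G) :
    Q.liftFun (unCt x0 a R hR) g
      = starRingEnd ℂ (chi x0 (Q.q g)) * ((a * Q.rl R g : ℝ) : ℂ) := by
  by_cases h : g ∈ Q.U
  · rw [Q.rl_mem R h]
    unfold QMap.liftFun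
    rw [if_pos h]
    rfl
  · rw [Q.rl_not R h]
    unfold QMap.liftFun
    rw [if_neg h]
    simp

theorem QMap.rl_int {R : ℝ} (hR : 0 < R) {F : G → ℝ} (hF : Continuous F) :
    Integrable (fun v => Q.rl R v * F v) μ :=
  ((Q.rl_cont R).mul hF).integrable_of_hasCompactSupport ((Q.rl_supp hR).mul_right)

theorem QMap.rl_int_pos {R : ℝ} (hR : 0 < R) : 0 < ∫ v, Q.rl R v ∂μ := by
  have h1 : Continuous (Q.rl R) := Q.rl_cont R
  have h2 : Q.rl R 1 ≠ 0 := by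
    rw [Q.rl_mem R Q.U.one_mem, Q.q_one]
    unfold unTent
    rw [norm_zero, zero_div, sub_zero]
    norm_num
  exact h1.integral_pos_of_hasCompactSupport_nonneg_nonzero (Q.rl_supp hR) (Q.rl_nonneg R) h2

/-- the defect -/
noncomputable def QMap.DD (x0 : V →L[ℝ] ℝ) (z : Lp K 2 μ) (v : G) : ℝ :=
  ‖starRingEnd ℂ (chi x0 (Q.q v)) • (lam μ K).U v z - z‖ ^ 2

theorem QMap.DD_cont (x0 : V →L[ℝ] ℝ) (z : Lp K 2 μ) : Continuous (Q.DD μ x0 z) := by
  unfold QMap.DD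
  exact ((((Complex.continuous_conj.comp ((chi_cont x0).comp Q.cont)).smul
    ((lam μ K).cont z)).sub continuous_const).norm).pow 2

theorem QMap.DD_nonneg (x0 : V →L[ℝ] ℝ) (z : Lp K 2 μ) (v : G) : 0 ≤ Q.DD μ x0 z v := by
  unfold QMap.DD
  positivity

theorem QMap.DD_eq (x0 : V →L[ℝ] ℝ) (z : Lp K 2 μ) (v : G) :
    Q.DD μ x0 z v = 2 * ‖z‖ ^ 2
      - 2 * (inner ℂ z (starRingEnd ℂ (chi x0 (Q.q v)) • (lam μ K).U v z)).re := by
  unfold QMap.DD
  have h1 : ‖starRingEnd ℂ (chi x0 (Q.q v)) • (lam μ K).U v z‖ = ‖z‖ := by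
    rw [norm_smul, (lam μ K).norm_map, RCLike.norm_conj, chi_norm, one_mul]
  have h2 := @norm_sub_sq ℂ (Lp K 2 μ) _ _ _
    (starRingEnd ℂ (chi x0 (Q.q v)) • (lam μ K).U v z) z
  rw [h1] at h2
  rw [h2, inner_re_symm]
  change ‖z‖ ^ 2 - 2 * (inner ℂ z (starRingEnd ℂ (chi x0 (Q.q v)) • (lam μ K).U v z)).re
    + ‖z‖ ^ 2 = _
  ring

/-- the main identity -/
theorem QMap.un_id (x0 : V →L[ℝ] ℝ) (a R : ℝ) (hR : 0 < R) (ha : a * ∫ v, Q.rl R v ∂μ = 1)
    (z : Lp K 2 μ) :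
    2 * ‖z‖ ^ 2 - 2 * (inner ℂ z (Q.Lam μ K (unCt x0 a R hR) z)).re
      = a * ∫ v, Q.rl R v * Q.DD μ x0 z v ∂μ := by
  have hc1 : Continuous fun v => starRingEnd ℂ (chi x0 (Q.q v)) • (lam μ K).U v z :=
    (Complex.continuous_conj.comp ((chi_cont x0).comp Q.cont)).smul ((lam μ K).cont z)
  have hc2 : Continuous fun v =>
      (inner ℂ z (starRingEnd ℂ (chi x0 (Q.q v)) • (lam μ K).U v z)).re :=
    Complex.continuous_re.comp (continuous_const.inner hc1)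
  have hint : Integrable (fun v => Q.liftFun (unCt x0 a R hR) v • (lam μ K).U v z) μ :=
    ((Q.liftFun_cont _).smul ((lam μ K).cont z)).integrable_of_hasCompactSupport
      ((Q.liftFun_supp _).smul_right)
  have h1 : (inner ℂ z (Q.Lam μ K (unCt x0 a R hR) z)).re
      = a * ∫ v, Q.rl R v * (inner ℂ z (starRingEnd ℂ (chi x0 (Q.q v)) • (lam μ K).U v z)).re
        ∂μ := by
    rw [QMap.Lam_apply, ← integral_inner hint z]
    have h2 := Complex.reCLM.integral_comp_comm (hint.const_inner z)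
    have h3 : (∫ v, inner ℂ z (Q.liftFun (unCt x0 a R hR) v • (lam μ K).U v z) ∂μ).re
        = ∫ v, (inner ℂ z (Q.liftFun (unCt x0 a R hR) v • (lam μ K).U v z)).re ∂μ := h2.symm
    rw [h3, ← integral_const_mul]
    congr 1
    funext v
    rw [Q.liftFun_unCt, mul_comm (starRingEnd ℂ (chi x0 (Q.q v))), mul_smul, inner_smul_right,
      Complex.re_ofReal_mul, mul_assoc]
  have h4 : ∫ v, Q.rl R v * Q.DD μ x0 z v ∂μ
      = (2 * ‖z‖ ^ 2) * ∫ v, Q.rl R v ∂μ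
        - 2 * ∫ v, Q.rl R v * (inner ℂ z (starRingEnd ℂ (chi x0 (Q.q v)) • (lam μ K).U v z)).re
          ∂μ := by
    rw [← integral_const_mul, ← integral_const_mul, ← integral_sub]
    · congr 1
      funext v
      rw [Q.DD_eq μ]
      ring
    · exact ((Q.rl_cont R).integrable_of_hasCompactSupport (Q.rl_supp hR)).const_mul _
    · exact (Q.rl_int μ hR hc2).const_mul _
  rw [h1, h4]
  have : a * (2 * ‖z‖ ^ 2 * ∫ v, Q.rl R v ∂μ
      - 2 * ∫ v, Q.rl R v * (inner ℂ z (starRingEnd ℂ (chi x0 (Q.q v)) • (lam μ K).U v z)).re ∂μ)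
      = 2 * ‖z‖ ^ 2 * (a * ∫ v, Q.rl R v ∂μ) - 2 * (a *
        ∫ v, Q.rl R v * (inner ℂ z (starRingEnd ℂ (chi x0 (Q.q v)) • (lam μ K).U v z)).re ∂μ) := by
    ring
  rw [this, ha, mul_one]

theorem QMap.DD_tri (x0 : V →L[ℝ] ℝ) (z : Lp K 2 μ) {s v : G} (hs : s ∈ Q.U) (hv : v ∈ Q.U) :
    ‖(lam μ K).U s z - chi x0 (Q.q s) • z‖ ^ 2
      ≤ 2 * Q.DD μ x0 z (v * s) + 2 * Q.DD μ x0 z v := by
  have h1 : ‖(lam μ K).U s z - chi x0 (Q.q s) • z‖
      = ‖starRingEnd ℂ (chi x0 (Q.q (v * s))) • (lam μ K).U (v * s) z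
        - starRingEnd ℂ (chi x0 (Q.q v)) • (lam μ K).U v z‖ := by
    have h2 : starRingEnd ℂ (chi x0 (Q.q (v * s))) • (lam μ K).U (v * s) z
        - starRingEnd ℂ (chi x0 (Q.q v)) • (lam μ K).U v z
        = starRingEnd ℂ (chi x0 (Q.q (v * s))) •
          (lam μ K).U v ((lam μ K).U s z - chi x0 (Q.q s) • z) := by
      rw [map_sub, map_smul, smul_sub, (lam μ K).mul_apply, smul_smul, Q.map_mul v hv s hs,
        chi_add, _root_.map_mul, mul_assoc, chi_conj_mul, mul_one]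
    rw [h2, norm_smul, (lam μ K).norm_map, RCLike.norm_conj, chi_norm, one_mul]
  have h3 : ‖starRingEnd ℂ (chi x0 (Q.q (v * s))) • (lam μ K).U (v * s) z
        - starRingEnd ℂ (chi x0 (Q.q v)) • (lam μ K).U v z‖
      ≤ ‖starRingEnd ℂ (chi x0 (Q.q (v * s))) • (lam μ K).U (v * s) z - z‖
        + ‖starRingEnd ℂ (chi x0 (Q.q v)) • (lam μ K).U v z - z‖ := by
    have := norm_sub_le (starRingEnd ℂ (chi x0 (Q.q (v * s))) • (lam μ K).U (v * s) z - z)
      (starRingEnd ℂ (chi x0 (Q.q v)) • (lam μ K).U v z - z)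
    rwa [sub_sub_sub_cancel_right] at this
  rw [h1]
  unfold QMap.DD
  have h4 := norm_nonneg (starRingEnd ℂ (chi x0 (Q.q (v * s))) • (lam μ K).U (v * s) z
        - starRingEnd ℂ (chi x0 (Q.q v)) • (lam μ K).U v z)
  nlinarith [sq_nonneg (‖starRingEnd ℂ (chi x0 (Q.q (v * s))) • (lam μ K).U (v * s) z - z‖
        - ‖starRingEnd ℂ (chi x0 (Q.q v)) • (lam μ K).U v z - z‖)]

/-- part 4 -/
theorem QMap.un_near (x0 : V →L[ℝ] ℝ) (R : ℝ) (hR : 0 < R) (hR2 : 1 ≤ R / 2)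
    {s : G} (hs : s ∈ Q.U) (hsR : 1 + ‖Q.q s‖ ≤ R / 2) (z : Lp K 2 μ) :
    (∫ v, Q.rl 1 v ∂μ) * ‖(lam μ K).U s z - chi x0 (Q.q s) • z‖ ^ 2
      ≤ 8 * ∫ v, Q.rl R v * Q.DD μ x0 z v ∂μ := by
  have hD := Q.DD_cont μ x0 z
  have hD0 := Q.DD_nonneg μ x0 z
  have hDs : Continuous fun v => Q.DD μ x0 z (v * s) := hD.comp (continuous_mul_const s)
  have hi1 : Integrable (fun v => Q.rl 1 v * Q.DD μ x0 z v) μ := Q.rl_int μ one_pos hD
  have hi2 : Integrable (fun v => Q.rl 1 v * Q.DD μ x0 z (v * s)) μ := Q.rl_int μ one_pos hDs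
  have hi3 : Integrable (fun v => Q.rl R v * Q.DD μ x0 z v) μ := Q.rl_int μ hR hD
  have hi4 : Integrable (fun v => Q.rl 1 (v * s⁻¹) * Q.DD μ x0 z v) μ := by
    refine Continuous.integrable_of_hasCompactSupport
      (((Q.rl_cont 1).comp (continuous_mul_const s⁻¹)).mul hD) ?_
    refine HasCompactSupport.mul_right ?_
    exact (Q.rl_supp one_pos).comp_homeomorph (Homeomorph.mulRight s⁻¹)
  have e1 : ∫ v, Q.rl 1 v * Q.DD μ x0 z (v * s) ∂μ
      = ∫ v, Q.rl 1 (v * s⁻¹) * Q.DD μ x0 z v ∂μ := by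
    have h := Q.integral_mul_right μ
      (fun v => ((Q.rl 1 (v * s⁻¹) * Q.DD μ x0 z v : ℝ) : ℂ)) hs
    simp only [mul_inv_cancel_right] at h
    rw [integral_complex_ofReal, integral_complex_ofReal] at h
    exact_mod_cast h
  have h2 : ∀ v, Q.rl 1 v ≤ 2 * Q.rl R v := by
    intro v
    by_cases hv : v ∈ Q.U
    · rw [Q.rl_mem 1 hv, Q.rl_mem R hv]
      by_cases h1 : 1 ≤ ‖Q.q v‖
      · rw [unTent_zero one_pos h1]
        have := unTent_nonneg R (Q.q v)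
        linarith
      · have h3 := unTent_half hR (x := Q.q v) ((not_le.1 h1).le.trans hR2)
        have h4 := unTent_le_one one_pos (Q.q v)
        linarith
    · rw [Q.rl_not 1 hv, Q.rl_not R hv]
      norm_num
  have h3 : ∀ v, Q.rl 1 (v * s⁻¹) ≤ 2 * Q.rl R v := by
    intro v
    by_cases hv : v ∈ Q.U
    · have hv' : v * s⁻¹ ∈ Q.U := Q.U.mul_mem hv (Q.U.inv_mem hs)
      rw [Q.rl_mem 1 hv', Q.rl_mem R hv, Q.map_mul v hv _ (Q.U.inv_mem hs), Q.q_inv hs]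
      by_cases h1 : 1 ≤ ‖Q.q v + -Q.q s‖
      · rw [unTent_zero one_pos h1]
        have := unTent_nonneg R (Q.q v)
        linarith
      · have h5 : ‖Q.q v‖ ≤ R / 2 := by
          have h6 : ‖Q.q v‖ ≤ ‖Q.q v + -Q.q s‖ + ‖Q.q s‖ := by
            have := norm_add_le (Q.q v + -Q.q s) (Q.q s)
            rwa [neg_add_cancel_right] at this
          linarith [not_le.1 h1]
        have h3 := unTent_half hR h5
        have h4 := unTent_le_one one_pos (Q.q v + -Q.q s)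
        linarith
    · have hv' : v * s⁻¹ ∉ Q.U := fun h => hv (by
        have := Q.U.mul_mem h hs
        rwa [inv_mul_cancel_right] at this)
      rw [Q.rl_not 1 hv', Q.rl_not R hv]
      norm_num
  have h4 : ∫ v, Q.rl 1 v * Q.DD μ x0 z v ∂μ ≤ 2 * ∫ v, Q.rl R v * Q.DD μ x0 z v ∂μ := by
    rw [← integral_const_mul]
    refine integral_mono hi1 (hi3.const_mul 2) fun v => ?_
    change Q.rl 1 v * Q.DD μ x0 z v ≤ 2 * (Q.rl R v * Q.DD μ x0 z v)
    rw [← mul_assoc]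
    exact mul_le_mul_of_nonneg_right (h2 v) (hD0 v)
  have h5 : ∫ v, Q.rl 1 (v * s⁻¹) * Q.DD μ x0 z v ∂μ
      ≤ 2 * ∫ v, Q.rl R v * Q.DD μ x0 z v ∂μ := by
    rw [← integral_const_mul]
    refine integral_mono hi4 (hi3.const_mul 2) fun v => ?_
    change Q.rl 1 (v * s⁻¹) * Q.DD μ x0 z v ≤ 2 * (Q.rl R v * Q.DD μ x0 z v)
    rw [← mul_assoc]
    exact mul_le_mul_of_nonneg_right (h3 v) (hD0 v)
  have h6 : (∫ v, Q.rl 1 v ∂μ) * ‖(lam μ K).U s z - chi x0 (Q.q s) • z‖ ^ 2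
      ≤ 2 * (∫ v, Q.rl 1 v * Q.DD μ x0 z (v * s) ∂μ)
        + 2 * ∫ v, Q.rl 1 v * Q.DD μ x0 z v ∂μ := by
    rw [← integral_mul_const, ← integral_const_mul, ← integral_const_mul,
      ← integral_add (hi2.const_mul 2) (hi1.const_mul 2)]
    refine integral_mono ?_ ((hi2.const_mul 2).add (hi1.const_mul 2)) fun v => ?_
    · exact ((Q.rl_cont 1).integrable_of_hasCompactSupport (Q.rl_supp one_pos)).mul_const _
    · change Q.rl 1 v * ‖(lam μ K).U s z - chi x0 (Q.q s) • z‖ ^ 2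
        ≤ 2 * (Q.rl 1 v * Q.DD μ x0 z (v * s)) + 2 * (Q.rl 1 v * Q.DD μ x0 z v)
      by_cases hv : v ∈ Q.U
      · have h7 := mul_le_mul_of_nonneg_left (Q.DD_tri μ x0 z hs hv) (Q.rl_nonneg 1 v)
        linarith
      · rw [Q.rl_not 1 hv]
        norm_num
  rw [e1] at h6
  linarith

/-- scaling of the preimages of balls -/
theorem QMap.un_scale (r : ℝ) (hr : 0 < r) :
    μ.real {u | u ∈ Q.U ∧ Q.q u ∈ Metric.closedBall (0 : V) (2 * r)}
      = 4 ^ (Module.finrank ℝ V) *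
        μ.real {u | u ∈ Q.U ∧ Q.q u ∈ Metric.closedBall (0 : V) (r / 2)} := by
  letI : MeasurableSpace V := borel V
  haveI : BorelSpace V := ⟨rfl⟩
  have hqm : Measurable Q.q := Q.cont.measurable
  have hUm : MeasurableSet (Q.U : Set G) := Q.isOpen.measurableSet
  let ν : Measure V := (μ.restrict (Q.U : Set G)).map Q.q
  have hν : ∀ B : Set V, MeasurableSet B → ν B = μ {u | u ∈ Q.U ∧ Q.q u ∈ B} := by
    intro B hB
    change (μ.restrict (Q.U : Set G)).map Q.q B = _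
    rw [Measure.map_apply hqm hB, Measure.restrict_apply (hqm hB)]
    congr 1
    ext u
    constructor
    · rintro ⟨h1, h2⟩
      exact ⟨h2, h1⟩
    · rintro ⟨h1, h2⟩
      exact ⟨h2, h1⟩
  haveI : IsFiniteMeasureOnCompacts ν := by
    refine ⟨fun B hB => ?_⟩
    rw [hν B hB.measurableSet]
    exact (Q.proper B hB).measure_lt_top
  haveI : Measure.IsAddLeftInvariant ν := by
    refine ⟨fun x => ?_⟩
    obtain ⟨u, hu, hux⟩ := Q.surj x
    ext B hB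
    rw [Measure.map_apply (measurable_const_add x) hB, hν _ (measurable_const_add x hB), hν B hB]
    have e1 : {t | t ∈ Q.U ∧ Q.q t ∈ (fun y => x + y) ⁻¹' B}
        = (fun t => u * t) ⁻¹' {t | t ∈ Q.U ∧ Q.q t ∈ B} := by
      ext t
      constructor
      · rintro ⟨h1, h2⟩
        refine ⟨Q.U.mul_mem hu h1, ?_⟩
        rw [Q.map_mul u hu t h1, hux]
        exact h2
      · rintro ⟨h1, h2⟩
        have h3 : t ∈ Q.U := by
          have := Q.U.mul_mem (Q.U.inv_mem hu) h1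
          rwa [inv_mul_cancel_left] at this
        refine ⟨h3, ?_⟩
        change Q.q (u * t) ∈ B at h2
        rw [Q.map_mul u hu t h3, hux] at h2
        exact h2
    rw [e1, measure_preimage_mul]
  haveI : Measure.IsOpenPosMeasure ν := by
    refine ⟨fun O hO hne h0 => ?_⟩
    rw [hν O hO.measurableSet] at h0
    have h1 : IsOpen {u | u ∈ Q.U ∧ Q.q u ∈ O} := Q.isOpen.inter (hO.preimage Q.cont)
    obtain ⟨x, hx⟩ := hne
    obtain ⟨u, hu, hux⟩ := Q.surj x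
    have h2 : {u | u ∈ Q.U ∧ Q.q u ∈ O}.Nonempty := ⟨u, hu, by rw [hux]; exact hx⟩
    exact h1.measure_ne_zero μ h2 h0
  haveI : ν.IsAddHaarMeasure := { }
  have h1 := Measure.addHaar_closedBall_mul ν (0 : V) (r := 4) (by norm_num) (s := r / 2)
    (by positivity)
  have h2 : (4 : ℝ) * (r / 2) = 2 * r := by ring
  rw [h2, hν _ Metric.isClosed_closedBall.measurableSet,
    hν _ Metric.isClosed_closedBall.measurableSet] at h1
  unfold Measure.real
  rw [h1, ENNReal.toReal_mul, ENNReal.toReal_ofReal (by positivity)]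

theorem QMap.un_pos (r : ℝ) (hr : 0 < r) :
    0 < μ.real {u | u ∈ Q.U ∧ Q.q u ∈ Metric.closedBall (0 : V) r} := by
  have h1 : IsOpen {u | u ∈ Q.U ∧ Q.q u ∈ Metric.ball (0 : V) r} :=
    Q.isOpen.inter (Metric.isOpen_ball.preimage Q.cont)
  have h2 : {u | u ∈ Q.U ∧ Q.q u ∈ Metric.ball (0 : V) r}.Nonempty :=
    ⟨1, Q.U.one_mem, by rw [Q.q_one]; exact Metric.mem_ball_self hr⟩
  have h3 : 0 < μ {u | u ∈ Q.U ∧ Q.q u ∈ Metric.ball (0 : V) r} := h1.measure_pos μ h2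
  have h4 : μ {u | u ∈ Q.U ∧ Q.q u ∈ Metric.ball (0 : V) r}
      ≤ μ {u | u ∈ Q.U ∧ Q.q u ∈ Metric.closedBall (0 : V) r} :=
    measure_mono fun u hu => ⟨hu.1, Metric.ball_subset_closedBall hu.2⟩
  have h5 : μ {u | u ∈ Q.U ∧ Q.q u ∈ Metric.closedBall (0 : V) r} < ∞ :=
    (Q.proper _ (isCompact_closedBall (0 : V) r)).measure_lt_top
  exact ENNReal.toReal_pos (h3.trans_le h4).ne' h5.ne

theorem QMap.un_meas (r : ℝ) :
    MeasurableSet {u | u ∈ Q.U ∧ Q.q u ∈ Metric.closedBall (0 : V) r} :=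
  Q.isOpen.measurableSet.inter (Metric.isClosed_closedBall.preimage Q.cont).measurableSet

theorem QMap.un_fin (r : ℝ) :
    μ {u | u ∈ Q.U ∧ Q.q u ∈ Metric.closedBall (0 : V) r} ≠ ∞ :=
  (Q.proper _ (isCompact_closedBall (0 : V) r)).measure_lt_top.ne

theorem QMap.un_lower (x0 : V →L[ℝ] ℝ) (r : ℝ) (hr : 0 < r) (η : K) :
    1 / 2 * ‖η‖ * Real.sqrt (μ.real {u | u ∈ Q.U ∧ Q.q u ∈ Metric.closedBall (0 : V) (r / 2)})
      ≤ ‖tens μ η (Q.nv μ (unCt x0 1 r hr))‖ := by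
  have h1 : ‖(indicatorConstLp 2 (Q.un_meas (r / 2)) (Q.un_fin μ (r / 2))
      (1 / 2 * ‖η‖ : ℝ) : Lp ℝ 2 μ)‖
      = 1 / 2 * ‖η‖ *
        Real.sqrt (μ.real {u | u ∈ Q.U ∧ Q.q u ∈ Metric.closedBall (0 : V) (r / 2)}) := by
    rw [norm_indicatorConstLp (by norm_num) (by norm_num), Real.norm_of_nonneg (by positivity),
      Real.sqrt_eq_rpow]
    norm_num
  rw [← h1]
  refine Lp.norm_le_norm_of_ae_le ?_
  filter_upwards [indicatorConstLp_coeFn (p := 2) (hs := Q.un_meas (r / 2))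
    (hμs := Q.un_fin μ (r / 2)) (c := (1 / 2 * ‖η‖ : ℝ)), tens_ae μ η (Q.nv μ (unCt x0 1 r hr)),
    Q.nv_ae μ (unCt x0 1 r hr)] with t h2 h3 h4
  rw [h2, h3, h4, norm_smul, Q.liftFun_unCt, norm_mul, RCLike.norm_conj, chi_norm, one_mul,
    one_mul, Complex.norm_real, Real.norm_of_nonneg (Q.rl_nonneg r t)]
  by_cases ht : t ∈ {u | u ∈ Q.U ∧ Q.q u ∈ Metric.closedBall (0 : V) (r / 2)}
  · rw [Set.indicator_of_mem ht, Real.norm_of_nonneg (by positivity)]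
    refine mul_le_mul_of_nonneg_right ?_ (norm_nonneg _)
    rw [Q.rl_mem r ht.1]
    refine unTent_half hr ?_
    have := ht.2
    rwa [Metric.mem_closedBall, dist_zero_right] at this
  · rw [Set.indicator_of_notMem ht, norm_zero]
    exact mul_nonneg (Q.rl_nonneg r t) (norm_nonneg _)

theorem QMap.un_upper (x0 : V →L[ℝ] ℝ) (R r : ℝ) (hR : 0 < R) (hr : 0 < r) (hRr : R ≤ r) (η : K)
    {v : G} (hv : v ∈ Q.U) (hvR : ‖Q.q v‖ ≤ R) :
    ‖starRingEnd ℂ (chi x0 (Q.q v)) • (lam μ K).U v (tens μ η (Q.nv μ (unCt x0 1 r hr)))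
        - tens μ η (Q.nv μ (unCt x0 1 r hr))‖
      ≤ R / r * ‖η‖ *
        Real.sqrt (μ.real {u | u ∈ Q.U ∧ Q.q u ∈ Metric.closedBall (0 : V) (2 * r)}) := by
  have h1 : ‖(indicatorConstLp 2 (Q.un_meas (2 * r)) (Q.un_fin μ (2 * r))
      (R / r * ‖η‖ : ℝ) : Lp ℝ 2 μ)‖
      = R / r * ‖η‖ *
        Real.sqrt (μ.real {u | u ∈ Q.U ∧ Q.q u ∈ Metric.closedBall (0 : V) (2 * r)}) := by
    rw [norm_indicatorConstLp (by norm_num) (by norm_num), Real.norm_of_nonneg (by positivity),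
      Real.sqrt_eq_rpow]
    norm_num
  rw [← h1]
  refine Lp.norm_le_norm_of_ae_le ?_
  have e5 := ae_translate μ v⁻¹ (tens_ae μ η (Q.nv μ (unCt x0 1 r hr)))
  have e6 := ae_translate μ v⁻¹ (Q.nv_ae μ (unCt x0 1 r hr))
  filter_upwards [indicatorConstLp_coeFn (p := 2) (hs := Q.un_meas (2 * r))
    (hμs := Q.un_fin μ (2 * r)) (c := (R / r * ‖η‖ : ℝ)), tens_ae μ η (Q.nv μ (unCt x0 1 r hr)),
    Q.nv_ae μ (unCt x0 1 r hr), e5, e6, lam_ae μ v (tens μ η (Q.nv μ (unCt x0 1 r hr))),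
    Lp.coeFn_smul (starRingEnd ℂ (chi x0 (Q.q v)))
      ((lam μ K).U v (tens μ η (Q.nv μ (unCt x0 1 r hr)))),
    Lp.coeFn_sub (starRingEnd ℂ (chi x0 (Q.q v)) •
      (lam μ K).U v (tens μ η (Q.nv μ (unCt x0 1 r hr))))
      (tens μ η (Q.nv μ (unCt x0 1 r hr)))] with t h2 h3 h4 h5 h6 h7 h8 h9
  rw [h2, h9, Pi.sub_apply, h8, Pi.smul_apply, h7, h5, h6, h3, h4, smul_smul, ← sub_smul,
    norm_smul, Q.liftFun_unCt, Q.liftFun_unCt, one_mul, one_mul]
  by_cases htU : t ∈ Q.U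
  · have htU' : v⁻¹ * t ∈ Q.U := Q.U.mul_mem (Q.U.inv_mem hv) htU
    have e1 : Q.q (v⁻¹ * t) = -Q.q v + Q.q t := by
      rw [Q.map_mul _ (Q.U.inv_mem hv) t htU, Q.q_inv hv]
    have e2 : starRingEnd ℂ (chi x0 (Q.q v)) *
        (starRingEnd ℂ (chi x0 (Q.q (v⁻¹ * t))) * ((Q.rl r (v⁻¹ * t) : ℝ) : ℂ))
        - starRingEnd ℂ (chi x0 (Q.q t)) * ((Q.rl r t : ℝ) : ℂ)
        = starRingEnd ℂ (chi x0 (Q.q t)) * ((Q.rl r (v⁻¹ * t) - Q.rl r t : ℝ) : ℂ) := by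
      have e3 : Q.q t = Q.q v + Q.q (v⁻¹ * t) := by rw [e1]; abel
      have e4 : starRingEnd ℂ (chi x0 (Q.q t))
          = starRingEnd ℂ (chi x0 (Q.q v)) * starRingEnd ℂ (chi x0 (Q.q (v⁻¹ * t))) := by
        rw [← _root_.map_mul, ← chi_add, ← e3]
      rw [e4]
      push_cast
      ring
    rw [e2, norm_mul, RCLike.norm_conj, chi_norm, one_mul, Complex.norm_real]
    by_cases ht : t ∈ {u | u ∈ Q.U ∧ Q.q u ∈ Metric.closedBall (0 : V) (2 * r)}
    · rw [Set.indicator_of_mem ht, Real.norm_of_nonneg (by positivity : 0 ≤ R / r * ‖η‖)]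
      refine mul_le_mul_of_nonneg_right ?_ (norm_nonneg _)
      rw [Q.rl_mem r htU', Q.rl_mem r htU, Real.norm_eq_abs]
      refine (unTent_lip hr _ _).trans (div_le_div_of_nonneg_right ?_ hr.le)
      rw [e1, add_sub_cancel_right, norm_neg]
      exact hvR
    · have h10 : 2 * r ≤ ‖Q.q t‖ := by
        by_contra h
        refine ht ⟨htU, ?_⟩
        rw [Metric.mem_closedBall, dist_zero_right]
        exact (not_le.1 h).le
      have h11 : r ≤ ‖Q.q (v⁻¹ * t)‖ := by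
        rw [e1]
        have := norm_sub_le (-Q.q v + Q.q t) (-Q.q v)
        rw [add_sub_cancel_left, norm_neg] at this
        linarith
      rw [Q.rl_mem r htU', Q.rl_mem r htU, unTent_zero hr h11,
        unTent_zero hr (by linarith : r ≤ ‖Q.q t‖), sub_zero, norm_zero, zero_mul]
      exact norm_nonneg _
  · have htU' : v⁻¹ * t ∉ Q.U := fun h => htU (by
      have := Q.U.mul_mem hv h
      rwa [mul_inv_cancel_left] at this)
    rw [Q.rl_not r htU, Q.rl_not r htU', Complex.ofReal_zero, mul_zero, mul_zero, mul_zero,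
      sub_zero, norm_zero, zero_mul]
    exact norm_nonneg _

/-- nearly `χ`-invariant vectors -/
theorem QMap.un_exists (x0 : V →L[ℝ] ℝ) (hK : ∃ η : K, η ≠ 0) (R : ℝ) (hR : 0 < R) (ε : ℝ)
    (hε : 0 < ε) : ∃ z : Lp K 2 μ, 0 < ‖z‖ ∧ ∀ v ∈ Q.U, ‖Q.q v‖ ≤ R →
      ‖starRingEnd ℂ (chi x0 (Q.q v)) • (lam μ K).U v z - z‖ ≤ ε * ‖z‖ := by
  obtain ⟨η, hη⟩ := hK
  have hη0 : 0 < ‖η‖ := norm_pos_iff.2 hη
  set n := Module.finrank ℝ V with hn
  obtain ⟨r, hr1, hr2⟩ : ∃ r : ℝ, R ≤ r ∧ R * (2 * 2 ^ n) / ε ≤ r :=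
    ⟨max R (R * (2 * 2 ^ n) / ε), le_max_left _ _, le_max_right _ _⟩
  have hr : 0 < r := hR.trans_le hr1
  have hpos := Q.un_pos μ (r / 2) (by positivity)
  have h1 := Q.un_lower μ x0 r hr η
  have hs : Real.sqrt (μ.real {u | u ∈ Q.U ∧ Q.q u ∈ Metric.closedBall (0 : V) (2 * r)})
      = 2 ^ n * Real.sqrt (μ.real {u | u ∈ Q.U ∧ Q.q u ∈ Metric.closedBall (0 : V) (r / 2)}) := by
    rw [Q.un_scale μ r hr, ← hn, Real.sqrt_mul (by positivity)]
    congr 1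
    rw [show (4 : ℝ) ^ n = (2 ^ n) ^ 2 by rw [← pow_mul, mul_comm n 2, pow_mul]; norm_num]
    exact Real.sqrt_sq (by positivity)
  refine ⟨tens μ η (Q.nv μ (unCt x0 1 r hr)), ?_, fun v hv hvR => ?_⟩
  · refine lt_of_lt_of_le ?_ h1
    have := Real.sqrt_pos.2 hpos
    positivity
  · have h2 := Q.un_upper μ x0 R r hR hr hr1 η hv hvR
    rw [hs] at h2
    refine h2.trans (le_trans ?_ (mul_le_mul_of_nonneg_left h1 hε.le))
    have h3 : R / r * 2 ^ n ≤ ε * (1 / 2) := by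
      rw [div_mul_eq_mul_div, div_le_iff₀ hr]
      rw [div_le_iff₀ hε] at hr2
      linarith
    have h4 : 0 ≤ ‖η‖ *
        Real.sqrt (μ.real {u | u ∈ Q.U ∧ Q.q u ∈ Metric.closedBall (0 : V) (r / 2)}) := by
      positivity
    have h5 := mul_le_mul_of_nonneg_right h3 h4
    linarith

/-- W2b: the function `Ψ = conj χ · φ₀` -/
theorem exists_test (hK : ∃ η : K, η ≠ 0) (x0 : V →L[ℝ] ℝ) (Sc : Set G) (hSc : IsCompact Sc)
    (hU : Sc ⊆ (Q.U : Set G)) (κ : ℝ) (hκ : 0 < κ) :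
    ∃ (Ψ : C_c(V, ℂ)) (c : ℝ), (∀ x, Ψ (-x) = starRingEnd ℂ (Ψ x)) ∧ 0 < c ∧
      (∃ z : Lp K 2 μ, c * ‖z‖ ^ 2 < (inner ℂ z (Q.Lam μ K Ψ z)).re) ∧
      ∀ z : Lp K 2 μ, c * ‖z‖ ^ 2 ≤ (inner ℂ z (Q.Lam μ K Ψ z)).re → ∀ s ∈ Sc,
        ‖(lam μ K).U s z - chi x0 (Q.q s) • z‖ ≤ κ * ‖z‖ := by
  obtain ⟨M, hM⟩ : ∃ M : ℝ, ∀ s ∈ Sc, ‖Q.q s‖ ≤ M :=
    hSc.exists_bound_of_continuousOn Q.cont.continuousOn
  obtain ⟨R, hR1, hR2⟩ : ∃ R : ℝ, 2 ≤ R ∧ 2 * (1 + M) ≤ R :=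
    ⟨max 2 (2 * (1 + M)), le_max_left _ _, le_max_right _ _⟩
  have hR : 0 < R := by linarith
  have hI := Q.rl_int_pos μ hR
  have hI1 := Q.rl_int_pos μ (one_pos : (0 : ℝ) < 1)
  set I := ∫ v, Q.rl R v ∂μ with hIdef
  set I1 := ∫ v, Q.rl 1 v ∂μ with hI1def
  have ha : I⁻¹ * ∫ v, Q.rl R v ∂μ = 1 := by
    rw [← hIdef]
    exact inv_mul_cancel₀ hI.ne'
  -- the number `d = 1 - c`
  obtain ⟨d, hd0, hd1, hd2⟩ : ∃ d : ℝ, 0 < d ∧ d ≤ 1 / 2 ∧ 16 * I * d ≤ κ ^ 2 * I1 := by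
    refine ⟨min (1 / 2) (κ ^ 2 * I1 / (16 * I)), ?_, min_le_left _ _, ?_⟩
    · exact lt_min (by norm_num) (by positivity)
    · have := min_le_right (1 / 2) (κ ^ 2 * I1 / (16 * I))
      rw [le_div_iff₀ (by positivity)] at this
      linarith
  refine ⟨unCt x0 I⁻¹ R hR, 1 - d, fun x => ?_, by linarith, ?_, fun z hz s hs => ?_⟩
  · rw [unCt_apply, unCt_apply, unTent_neg, chi_neg, map_mul, Complex.conj_ofReal]
  · obtain ⟨z, hz0, hz⟩ := Q.un_exists μ x0 hK R hR (Real.sqrt d) (Real.sqrt_pos.2 hd0)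
    refine ⟨z, ?_⟩
    have h1 := Q.un_id μ x0 I⁻¹ R hR ha z
    have h2 : ∫ v, Q.rl R v * Q.DD μ x0 z v ∂μ ≤ I * (d * ‖z‖ ^ 2) := by
      rw [hIdef, ← integral_mul_const]
      refine integral_mono (Q.rl_int μ hR (Q.DD_cont μ x0 z)) ?_ fun v => ?_
      · exact ((Q.rl_cont R).integrable_of_hasCompactSupport (Q.rl_supp hR)).mul_const _
      · change Q.rl R v * Q.DD μ x0 z v ≤ Q.rl R v * (d * ‖z‖ ^ 2)
        by_cases hv : v ∈ Q.U
        · by_cases hvR : ‖Q.q v‖ ≤ R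
          · refine mul_le_mul_of_nonneg_left ?_ (Q.rl_nonneg R v)
            have h3 := hz v hv hvR
            unfold QMap.DD
            have h4 := pow_le_pow_left₀ (norm_nonneg _) h3 2
            rwa [mul_pow, Real.sq_sqrt hd0.le] at h4
          · rw [Q.rl_mem R hv, unTent_zero hR (not_le.1 hvR).le, zero_mul, zero_mul]
        · rw [Q.rl_not R hv, zero_mul, zero_mul]
    have h3 : I⁻¹ * ∫ v, Q.rl R v * Q.DD μ x0 z v ∂μ ≤ d * ‖z‖ ^ 2 := by
      rw [inv_mul_le_iff₀ hI]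
      exact h2
    have h4 : 0 < d * ‖z‖ ^ 2 := by positivity
    nlinarith
  · have h1 := Q.un_id μ x0 I⁻¹ R hR ha z
    have h2 := Q.un_near μ x0 R hR (by linarith) (hU hs) (by linarith [hM s hs]) z
    rw [← hI1def] at h2
    have h3 : I⁻¹ * ∫ v, Q.rl R v * Q.DD μ x0 z v ∂μ ≤ 2 * (d * ‖z‖ ^ 2) := by
      rw [← h1]
      linarith
    rw [inv_mul_le_iff₀ hI] at h3
    have h4 : I1 * ‖(lam μ K).U s z - chi x0 (Q.q s) • z‖ ^ 2 ≤ I1 * (κ * ‖z‖) ^ 2 := by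
      refine h2.trans ?_
      have h5 : 16 * I * d * ‖z‖ ^ 2 ≤ κ ^ 2 * I1 * ‖z‖ ^ 2 :=
        mul_le_mul_of_nonneg_right hd2 (sq_nonneg _)
      nlinarith
    have h5 := le_of_mul_le_mul_left h4 hI1
    exact (pow_le_pow_iff_left₀ (norm_nonneg _) (by positivity) two_ne_zero).1 h5

end

end Pool.Agent.AbCoc
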