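import Pool.Agent.Lib_MP_418a80_un.UnC0b
import Pool.Agent.Lib_MP_418a80_un.UnW2b

/-! # C-c: windows -/

set_option autoImplicit false
set_option linter.unusedVariables false
set_option linter.unusedSectionVars false

open MeasureTheory Topology Filter CompactlySupported
open scoped ENNReal NNReal

namespace Pool.Agent.AbCoc

universe u v w z

/-- continuous functional calculus of a self-adjoint operator on a Hilbert space (wrapper) -/
noncomputable def cf {E : Type v} [NormedAddCommGroup E] [InnerProductSpace ℂ E] [CompleteSpace E]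
    (f : ℝ → ℝ) (h : E →L[ℂ] E) : E →L[ℂ] E := cfc f h

section
variable {A : Type u} [CStarAlgebra A] {K : Type v} [NormedAddCommGroup K]
  [InnerProductSpace ℂ K] [CompleteSpace K]
variable {G : Type w} [Group G] [TopologicalSpace G] [IsTopologicalGroup G]
  [SecondCountableTopology G] [LocallyCompactSpace G] [MeasurableSpace G] [BorelSpace G]
  (μ : Measure G) [μ.IsHaarMeasure] {T : TrAlg A K} (S : TrAct G T)
  {V : Type z} [NormedAddCommGroup V] [NormedSpace ℝ V] [FiniteDimensional ℝ V] (Q : QMap G V)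

/-- `conj χ · φ₀` -/
noncomputable def tw (x0 : V →L[ℝ] ℝ) (φ0 : C_c(V, ℝ)) : C_c(V, ℂ) where
  toFun x := starRingEnd ℂ (chi x0 x) * (φ0 x : ℂ)
  continuous_toFun := by
    unfold chi
    have := φ0.continuous
    fun_prop
  hasCompactSupport' := by
    have h1 : HasCompactSupport fun x => (φ0 x : ℂ) :=
      φ0.hasCompactSupport.comp_left (g := fun r : ℝ => (r : ℂ)) Complex.ofReal_zero
    exact h1.mul_left

theorem tw_apply (x0 : V →L[ℝ] ℝ) (φ0 : C_c(V, ℝ)) (x : V) :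
    tw x0 φ0 x = starRingEnd ℂ (chi x0 x) * (φ0 x : ℂ) := rfl

private theorem C1_chi_neg (x0 : V →L[ℝ] ℝ) (x : V) :
    chi x0 (-x) = starRingEnd ℂ (chi x0 x) := by
  unfold chi
  rw [← Complex.exp_conj, map_neg, map_mul, Complex.conj_I, Complex.conj_ofReal]
  push_cast
  ring_nf

theorem tw_neg (x0 : V →L[ℝ] ℝ) (φ0 : C_c(V, ℝ)) (hev : ∀ x, φ0 (-x) = φ0 x) (x : V) :
    tw x0 φ0 (-x) = starRingEnd ℂ (tw x0 φ0 x) := by
  rw [tw_apply, tw_apply, C1_chi_neg, hev, map_mul, Complex.conj_conj, Complex.conj_ofReal]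

theorem norm_chi (x0 : V →L[ℝ] ℝ) (x : V) : ‖chi x0 x‖ = 1 := by
  unfold chi
  rw [Complex.norm_exp_ofReal_mul_I]

theorem chi_add (x0 : V →L[ℝ] ℝ) (x y : V) : chi x0 (x + y) = chi x0 x * chi x0 y := by
  unfold chi
  rw [← Complex.exp_add, map_add]
  push_cast
  ring_nf

theorem chi_neg (x0 : V →L[ℝ] ℝ) (x : V) : chi x0 (-x) = starRingEnd ℂ (chi x0 x) :=
  C1_chi_neg x0 x

/-- `φ₀` is a symmetric probability density -/
structure IsDens (φ0 : C_c(V, ℝ)) : Prop where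
  nonneg : ∀ x, 0 ≤ φ0 x
  even : ∀ x, φ0 (-x) = φ0 x
  int : ∫ l in (Q.U : Set G), φ0 (Q.q l) ∂μ = 1

open Classical in
/-- `φ₀ ∘ q` on `U`, `0` off `U` -/
private noncomputable def C1rr (Q : QMap G V) (φ0 : C_c(V, ℝ)) (g : G) : ℝ :=
  if g ∈ Q.U then φ0 (Q.q g) else 0

private theorem C1rr_mem (φ0 : C_c(V, ℝ)) {g : G} (hg : g ∈ Q.U) : C1rr Q φ0 g = φ0 (Q.q g) := by
  unfold C1rr
  rw [if_pos hg]

private theorem C1rr_not (φ0 : C_c(V, ℝ)) {g : G} (hg : g ∉ Q.U) : C1rr Q φ0 g = 0 := by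
  unfold C1rr
  rw [if_neg hg]

private theorem C1rr_cont (φ0 : C_c(V, ℝ)) : Continuous (C1rr Q φ0) := by
  classical
  have h1 : IsClopen (Q.U : Set G) := ⟨Q.U.isClosed_of_isOpen Q.isOpen, Q.isOpen⟩
  unfold C1rr
  refine Continuous.if ?_ (φ0.continuous.comp Q.cont) continuous_const
  intro a ha
  have h2 : frontier {x | x ∈ Q.U} = ∅ := h1.frontier_eq
  rw [h2] at ha
  exact absurd ha (Set.notMem_empty a)

private theorem C1rr_supp (φ0 : C_c(V, ℝ)) : HasCompactSupport (C1rr Q φ0) := by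
  have h1 := Q.proper _ φ0.hasCompactSupport.isCompact
  refine HasCompactSupport.intro h1 fun g hg => ?_
  by_cases h : g ∈ Q.U
  · rw [C1rr_mem Q φ0 h]
    by_contra h2
    exact hg ⟨h, subset_tsupport _ h2⟩
  · exact C1rr_not Q φ0 h

private theorem C1_setInt (φ0 : C_c(V, ℝ)) (F : G → ℝ) :
    ∫ l in (Q.U : Set G), φ0 (Q.q l) * F l ∂μ = ∫ l, C1rr Q φ0 l * F l ∂μ := by
  rw [← integral_indicator Q.isOpen.measurableSet]
  congr 1
  funext l
  by_cases hl : l ∈ Q.U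
  · rw [Set.indicator_of_mem (show l ∈ (Q.U : Set G) from hl), C1rr_mem Q φ0 hl]
  · rw [Set.indicator_of_notMem (show l ∉ (Q.U : Set G) from hl), C1rr_not Q φ0 hl, zero_mul]

private theorem C1_setInt' (φ0 : C_c(V, ℝ)) :
    ∫ l in (Q.U : Set G), φ0 (Q.q l) ∂μ = ∫ l, C1rr Q φ0 l ∂μ := by
  have h := C1_setInt μ Q φ0 (fun _ => 1)
  simpa using h

private theorem C1_lift_tw (x0 : V →L[ℝ] ℝ) (φ0 : C_c(V, ℝ)) (g : G) :
    Q.liftFun (tw x0 φ0) g = (C1rr Q φ0 g : ℂ) * starRingEnd ℂ (chi x0 (Q.q g)) := by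
  by_cases h : g ∈ Q.U
  · unfold QMap.liftFun
    rw [if_pos h, C1rr_mem Q φ0 h, tw_apply, mul_comm]
  · unfold QMap.liftFun
    rw [if_neg h, C1rr_not Q φ0 h, Complex.ofReal_zero, zero_mul]

private theorem C1_avg {E : Type*} [NormedAddCommGroup E] [InnerProductSpace ℂ E]
    [CompleteSpace E] (x : E) (r : G → ℝ) (w : G → E) (F : G → ℝ) (hr : Integrable r μ)
    (hr1 : ∫ v, r v ∂μ = 1) (hi : Integrable (fun v => (r v : ℂ) • w v) μ)
    (hF : ∀ v, r v ≠ 0 → F v = 2 * ‖x‖ ^ 2 - 2 * (inner ℂ x (w v)).re) :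
    ∫ v, r v * F v ∂μ
      = 2 * ‖x‖ ^ 2 - 2 * (inner ℂ x (∫ v, (r v : ℂ) • w v ∂μ)).re := by
  have h1 : ∀ v, r v * F v
      = (2 * ‖x‖ ^ 2) * r v - 2 * (inner ℂ x ((r v : ℂ) • w v)).re := by
    intro v
    by_cases h : r v = 0
    · simp [h]
    · rw [hF v h, inner_smul_right, Complex.re_ofReal_mul]
      ring
  have h2 := Complex.reCLM.integral_comp_comm (hi.const_inner x)
  have h3 : (∫ v, inner ℂ x ((r v : ℂ) • w v) ∂μ).re
      = ∫ v, (inner ℂ x ((r v : ℂ) • w v)).re ∂μ := h2.symm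
  have hi2 : Integrable (fun v => (inner ℂ x ((r v : ℂ) • w v)).re) μ :=
    Complex.reCLM.integrable_comp (hi.const_inner x)
  rw [← integral_inner hi x, h3]
  calc ∫ v, r v * F v ∂μ
      = ∫ v, ((2 * ‖x‖ ^ 2) * r v - 2 * (inner ℂ x ((r v : ℂ) • w v)).re) ∂μ :=
        integral_congr_ae (Filter.Eventually.of_forall h1)
    _ = _ := by
        rw [integral_sub (hr.const_mul _) (hi2.const_mul _), integral_const_mul,
          integral_const_mul, hr1, mul_one]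

/-- densities which are positive on a given ball -/
theorem exists_dens (R : ℝ) : ∃ φ0 : C_c(V, ℝ), IsDens μ Q φ0 ∧
    ∃ δ : ℝ, 0 < δ ∧ ∀ x, ‖x‖ ≤ R → δ ≤ φ0 x := by
  set R' : ℝ := 2 * max R 1 with hR'
  have hR1 : (1 : ℝ) ≤ max R 1 := le_max_right _ _
  have hR0 : 0 < R' := by positivity
  have hpos := Q.rl_int_pos μ hR0
  set c : ℝ := (∫ v, Q.rl R' v ∂μ)⁻¹ with hc
  have hc0 : 0 < c := inv_pos.2 hpos
  let φ0 : C_c(V, ℝ) :=
    { toFun := fun x => c * unTent R' x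
      continuous_toFun := continuous_const.mul (unTent_cont R')
      hasCompactSupport' := by
        refine HasCompactSupport.intro (isCompact_closedBall (0 : V) R') fun x hx => ?_
        have h1 : R' ≤ ‖x‖ := by
          rw [Metric.mem_closedBall, dist_zero_right, not_le] at hx
          exact hx.le
        rw [unTent_zero hR0 h1, mul_zero] }
  have hφ : ∀ x, φ0 x = c * unTent R' x := fun x => rfl
  refine ⟨φ0, ⟨fun x => ?_, fun x => ?_, ?_⟩, c * (1 / 2), by positivity, fun x hx => ?_⟩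
  · rw [hφ]
    exact mul_nonneg hc0.le (unTent_nonneg _ _)
  · rw [hφ, hφ, unTent_neg]
  · rw [C1_setInt']
    have h1 : ∀ l, C1rr Q φ0 l = c * Q.rl R' l := by
      intro l
      by_cases hl : l ∈ Q.U
      · rw [C1rr_mem Q φ0 hl, Q.rl_mem R' hl, hφ]
      · rw [C1rr_not Q φ0 hl, Q.rl_not R' hl, mul_zero]
    simp only [h1]
    rw [integral_const_mul, hc, inv_mul_cancel₀ hpos.ne']
  · rw [hφ]
    refine mul_le_mul_of_nonneg_left ?_ hc0.le
    refine unTent_half hR0 ?_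
    have : R' / 2 = max R 1 := by rw [hR']; ring
    rw [this]
    exact hx.trans (le_max_left _ _)

variable {μ Q} in
private theorem C1_int1 {φ0 : C_c(V, ℝ)} (hφ : IsDens μ Q φ0) : ∫ l, C1rr Q φ0 l ∂μ = 1 := by
  rw [← C1_setInt', hφ.int]

variable {μ Q} in
private theorem C1_nonneg {φ0 : C_c(V, ℝ)} (hφ : IsDens μ Q φ0) (g : G) : 0 ≤ C1rr Q φ0 g := by
  by_cases hl : g ∈ Q.U
  · rw [C1rr_mem Q φ0 hl]
    exact hφ.nonneg _
  · rw [C1rr_not Q φ0 hl]

private theorem C1_integrable (φ0 : C_c(V, ℝ)) : Integrable (C1rr Q φ0) μ :=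
  (C1rr_cont Q φ0).integrable_of_hasCompactSupport (C1rr_supp Q φ0)

variable {μ Q} in
private theorem C1_norm_lift {φ0 : C_c(V, ℝ)} (hφ : IsDens μ Q φ0) (x0 : V →L[ℝ] ℝ) :
    ∫ v, ‖Q.liftFun (tw x0 φ0) v‖ ∂μ = 1 := by
  rw [← C1_int1 hφ]
  congr 1
  funext v
  rw [C1_lift_tw, norm_mul, RCLike.norm_conj, norm_chi, mul_one, Complex.norm_real,
    Real.norm_of_nonneg (C1_nonneg hφ v)]

variable {μ Q} in
/-- near-eigen formula on the left -/
theorem IsDens.left {φ0 : C_c(V, ℝ)} (hφ : IsDens μ Q φ0) (x0 : V →L[ℝ] ℝ) (x : Lp K 2 μ) :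
    ∫ l in (Q.U : Set G), φ0 (Q.q l) *
        ‖starRingEnd ℂ (chi x0 (Q.q l)) • (lam μ K).U l x - x‖ ^ 2 ∂μ
      = 2 * ‖x‖ ^ 2 - 2 * (inner ℂ x (Q.Lam μ K (tw x0 φ0) x)).re := by
  have e : ∀ v, Q.liftFun (tw x0 φ0) v • (lam μ K).U v x
      = (C1rr Q φ0 v : ℂ) • (starRingEnd ℂ (chi x0 (Q.q v)) • (lam μ K).U v x) := by
    intro v
    rw [C1_lift_tw, mul_smul]
  have hint : Integrable (fun v => Q.liftFun (tw x0 φ0) v • (lam μ K).U v x) μ :=
    ((Q.liftFun_cont _).smul ((lam μ K).cont x)).integrable_of_hasCompactSupport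
      ((Q.liftFun_supp _).smul_right)
  rw [C1_setInt μ Q φ0, QMap.Lam_apply]
  simp only [e] at hint ⊢
  refine C1_avg μ x (C1rr Q φ0) _ _ (C1_integrable μ Q φ0) (C1_int1 hφ) hint ?_
  intro v _
  exact Q.DD_eq μ x0 x v

variable {μ Q} in
/-- near-eigen formula on the right -/
theorem IsDens.right {φ0 : C_c(V, ℝ)} (hφ : IsDens μ Q φ0) (x0 : V →L[ℝ] ℝ) (x : Lp K 2 μ) :
    ∫ l in (Q.U : Set G), φ0 (Q.q l) * ‖chi x0 (Q.q l) • S.Gam μ l x - x‖ ^ 2 ∂μ
      = 2 * ‖x‖ ^ 2 - 2 * (inner ℂ x (S.LamR μ Q (tw x0 φ0) x)).re := by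
  have e : ∀ v, Q.liftFun (tw x0 φ0) v • S.Gam μ v⁻¹ x
      = (C1rr Q φ0 v : ℂ) • (starRingEnd ℂ (chi x0 (Q.q v)) • S.Gam μ v⁻¹ x) := by
    intro v
    rw [C1_lift_tw, mul_smul]
  have hint := S.LamR_integrable μ Q (tw x0 φ0) x
  rw [C1_setInt μ Q φ0, TrAct.LamR_apply]
  simp only [e] at hint ⊢
  refine C1_avg μ x (C1rr Q φ0) _ _ (C1_integrable μ Q φ0) (C1_int1 hφ) hint ?_
  intro v hv
  have hvU : v ∈ Q.U := by
    by_contra h
    exact hv (C1rr_not Q φ0 h)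
  have h1 : S.Gam μ v (S.Gam μ v⁻¹ x) = x := by
    change oneT μ (S.U.U v) (rt μ K v (oneT μ (S.U.U v⁻¹) (rt μ K v⁻¹ x))) = x
    rw [← oneT_rt, ← rt_mul, mul_inv_cancel, rt_one, ← oneT_comp]
    have h2 : (S.U.U v).comp (S.U.U v⁻¹) = 1 := by
      ext1 ξ
      exact S.U.apply_inv v ξ
    rw [h2]
    apply Lp.ext
    filter_upwards [oneT_ae μ (1 : K →L[ℂ] K) x] with t ht
    rw [ht]
    rfl
  have h2 : inner ℂ (S.Gam μ v x) x = inner ℂ x (S.Gam μ v⁻¹ x) := by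
    have h3 := S.Gam_inner μ v x (S.Gam μ v⁻¹ x)
    rw [h1, Q.dm_eq_one hvU, Complex.ofReal_one, one_mul] at h3
    exact h3
  have h4 := @norm_sub_sq ℂ (Lp K 2 μ) _ _ _ (chi x0 (Q.q v) • S.Gam μ v x) x
  rw [h4, norm_smul, norm_chi, one_mul, S.norm_Gam μ Q hvU, inner_smul_left, h2,
    inner_smul_right]
  simp only [RCLike.re_to_complex]
  ring

variable {μ Q} in
theorem IsDens.norm_le {φ0 : C_c(V, ℝ)} (hφ : IsDens μ Q φ0) (x0 : V →L[ℝ] ℝ) :
    ‖Q.Lam μ K (tw x0 φ0)‖ ≤ 1 := by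
  refine ContinuousLinearMap.opNorm_le_bound _ zero_le_one fun z => ?_
  rw [QMap.Lam_apply, ← C1_norm_lift hφ x0, ← integral_mul_const]
  refine (norm_integral_le_integral_norm _).trans ?_
  refine le_of_eq (integral_congr_ae (Filter.Eventually.of_forall fun v => ?_))
  change ‖Q.liftFun (tw x0 φ0) v • (lam μ K).U v z‖ = ‖Q.liftFun (tw x0 φ0) v‖ * ‖z‖
  rw [norm_smul, (lam μ K).norm_map]

variable {μ Q} in
theorem IsDens.norm_le' {φ0 : C_c(V, ℝ)} (hφ : IsDens μ Q φ0) (x0 : V →L[ℝ] ℝ) :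
    ‖S.LamR μ Q (tw x0 φ0)‖ ≤ 1 := by
  refine ContinuousLinearMap.opNorm_le_bound _ zero_le_one fun x => ?_
  rw [TrAct.LamR_apply, ← C1_norm_lift hφ x0, ← integral_mul_const]
  refine (norm_integral_le_integral_norm _).trans ?_
  refine le_of_eq (integral_congr_ae (Filter.Eventually.of_forall fun v => ?_))
  change ‖Q.liftFun (tw x0 φ0) v • S.Gam μ v⁻¹ x‖ = ‖Q.liftFun (tw x0 φ0) v‖ * ‖x‖
  by_cases hv : v ∈ Q.U
  · rw [norm_smul, S.norm_Gam μ Q (Q.U.inv_mem hv)]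
  · have h0 : Q.liftFun (tw x0 φ0) v = 0 := by
      unfold QMap.liftFun
      rw [if_neg hv]
    rw [h0, zero_smul, norm_zero, norm_zero, zero_mul]

/-- the tent as a compactly supported function -/
private noncomputable def C1tent (r : ℝ) (hr : 0 < r) : C_c(V, ℝ) where
  toFun x := unTent r x
  continuous_toFun := unTent_cont r
  hasCompactSupport' := by
    refine HasCompactSupport.intro (isCompact_closedBall (0 : V) r) fun x hx => ?_
    have h1 : r ≤ ‖x‖ := by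
      rw [Metric.mem_closedBall, dist_zero_right, not_le] at hx
      exact hx.le
    exact unTent_zero hr h1

private theorem C1_tw_tent (x0 : V →L[ℝ] ℝ) (r : ℝ) (hr : 0 < r) :
    tw x0 (C1tent r hr) = unCt x0 1 r hr := by
  ext x
  rw [tw_apply, unCt_apply, one_mul]
  rfl

variable {μ Q} in
/-- slowly varying vectors: `φ'(x) = max(0, 1 - |x|/R)`, `R` large -/
theorem IsDens.exists_wide (T : TrAlg A K) {φ0 : C_c(V, ℝ)} (hφ : IsDens μ Q φ0)
    (x0 : V →L[ℝ] ℝ) (a : ℝ) (ha : a < 1) : ∃ φ' : C_c(V, ℝ),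
      a * ‖T.xi μ (Q.nv μ (tw x0 φ'))‖ ^ 2
        < (inner ℂ (T.xi μ (Q.nv μ (tw x0 φ')))
          (Q.Lam μ K (tw x0 φ0) (T.xi μ (Q.nv μ (tw x0 φ'))))).re := by
  obtain ⟨R1, hR1⟩ := φ0.hasCompactSupport.isCompact.isBounded.subset_closedBall (0 : V)
  set R : ℝ := max R1 1 with hR
  have hR0 : 0 < R := lt_of_lt_of_le one_pos (le_max_right _ _)
  have hsupp : ∀ x, φ0 x ≠ 0 → ‖x‖ ≤ R := by
    intro x hx
    have h1 := hR1 (subset_tsupport _ hx)
    rw [Metric.mem_closedBall, dist_zero_right] at h1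
    exact h1.trans (le_max_left _ _)
  set ε : ℝ := Real.sqrt (1 - a) with hε
  have hε0 : 0 < ε := Real.sqrt_pos.2 (by linarith)
  have hε2 : ε ^ 2 = 1 - a := Real.sq_sqrt (by linarith)
  have hη0 : 0 < ‖T.ι 1‖ := by rw [T.norm_one]; exact one_pos
  set η : K := T.ι 1 with hη
  set n := Module.finrank ℝ V with hn
  obtain ⟨r, hr1, hr2⟩ : ∃ r : ℝ, R ≤ r ∧ R * (2 * 2 ^ n) / ε ≤ r :=
    ⟨max R (R * (2 * 2 ^ n) / ε), le_max_left _ _, le_max_right _ _⟩
  have hr : 0 < r := hR0.trans_le hr1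
  have hpos := Q.un_pos μ (r / 2) (by positivity)
  have h1 := Q.un_lower μ x0 r hr η
  have hs : Real.sqrt (μ.real {u | u ∈ Q.U ∧ Q.q u ∈ Metric.closedBall (0 : V) (2 * r)})
      = 2 ^ n * Real.sqrt (μ.real {u | u ∈ Q.U ∧ Q.q u ∈ Metric.closedBall (0 : V) (r / 2)}) := by
    rw [Q.un_scale μ r hr, ← hn, Real.sqrt_mul (by positivity)]
    congr 1
    rw [show (4 : ℝ) ^ n = (2 ^ n) ^ 2 by rw [← pow_mul, mul_comm n 2, pow_mul]; norm_num]
    exact Real.sqrt_sq (by positivity)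
  refine ⟨C1tent r hr, ?_⟩
  rw [C1_tw_tent]
  change a * ‖tens μ η (Q.nv μ (unCt x0 1 r hr))‖ ^ 2
    < (inner ℂ (tens μ η (Q.nv μ (unCt x0 1 r hr)))
      (Q.Lam μ K (tw x0 φ0) (tens μ η (Q.nv μ (unCt x0 1 r hr))))).re
  set z : Lp K 2 μ := tens μ η (Q.nv μ (unCt x0 1 r hr)) with hz
  have hz0 : 0 < ‖z‖ := by
    refine lt_of_lt_of_le ?_ h1
    have := Real.sqrt_pos.2 hpos
    positivity
  have hnear : ∀ v ∈ Q.U, ‖Q.q v‖ ≤ R →
      ‖starRingEnd ℂ (chi x0 (Q.q v)) • (lam μ K).U v z - z‖ ≤ ε * ‖z‖ := by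
    intro v hv hvR
    have h2 := Q.un_upper μ x0 R r hR0 hr hr1 η hv hvR
    rw [hs] at h2
    refine h2.trans (le_trans ?_ (mul_le_mul_of_nonneg_left h1 hε0.le))
    have h3 : R / r * 2 ^ n ≤ ε * (1 / 2) := by
      rw [div_mul_eq_mul_div, div_le_iff₀ hr]
      rw [div_le_iff₀ hε0] at hr2
      linarith
    have h4 : 0 ≤ ‖η‖ *
        Real.sqrt (μ.real {u | u ∈ Q.U ∧ Q.q u ∈ Metric.closedBall (0 : V) (r / 2)}) := by
      positivity
    have h5 := mul_le_mul_of_nonneg_right h3 h4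
    linarith
  have hleft := hφ.left x0 z
  have hle : ∫ l in (Q.U : Set G), φ0 (Q.q l) *
      ‖starRingEnd ℂ (chi x0 (Q.q l)) • (lam μ K).U l z - z‖ ^ 2 ∂μ ≤ (ε * ‖z‖) ^ 2 := by
    rw [C1_setInt μ Q φ0]
    calc ∫ l, C1rr Q φ0 l *
          ‖starRingEnd ℂ (chi x0 (Q.q l)) • (lam μ K).U l z - z‖ ^ 2 ∂μ
        ≤ ∫ l, C1rr Q φ0 l * (ε * ‖z‖) ^ 2 ∂μ := by
          refine integral_mono ?_ ((C1_integrable μ Q φ0).mul_const _) fun l => ?_
          · exact ((C1rr_cont Q φ0).mul (Q.DD_cont μ x0 z)).integrable_of_hasCompactSupport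
              ((C1rr_supp Q φ0).mul_right)
          · change C1rr Q φ0 l * _ ≤ C1rr Q φ0 l * _
            by_cases hl : l ∈ Q.U
            · by_cases h0 : φ0 (Q.q l) = 0
              · rw [C1rr_mem Q φ0 hl, h0, zero_mul, zero_mul]
              · refine mul_le_mul_of_nonneg_left ?_ (C1_nonneg hφ l)
                exact pow_le_pow_left₀ (norm_nonneg _) (hnear l hl (hsupp _ h0)) 2
            · rw [C1rr_not Q φ0 hl, zero_mul, zero_mul]
      _ = (ε * ‖z‖) ^ 2 := by rw [integral_mul_const, C1_int1 hφ, one_mul]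
  rw [hleft, mul_pow, hε2] at hle
  have h6 : 0 < ‖z‖ ^ 2 := by positivity
  nlinarith

/-- spectral estimate -/
private theorem C1_cf_key {E : Type*} [NormedAddCommGroup E] [InnerProductSpace ℂ E]
    [CompleteSpace E] (h : E →L[ℂ] E) (hh : IsSelfAdjoint h) (a : ℝ) (ha0 : 0 < a) (z : E)
    (hz : cf (fun t : ℝ => max (t - a) 0 * (max t a)⁻¹) h (h z) = 0) :
    (inner ℂ z (h z)).re ≤ a * ‖z‖ ^ 2 := by
  have hc1 : Continuous fun t : ℝ => max (t - a) 0 * (max t a)⁻¹ := by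
    refine (by fun_prop : Continuous fun t : ℝ => max (t - a) 0).mul ?_
    refine Continuous.inv₀ (by fun_prop) fun t => ?_
    exact (lt_of_lt_of_le ha0 (le_max_right _ _)).ne'
  have hc2 : Continuous fun t : ℝ => max (t - a) 0 := by fun_prop
  have hc3 : Continuous fun t : ℝ => Real.sqrt (max (a - t) 0) := by fun_prop
  have e1 : cfc (fun t : ℝ => max (t - a) 0 * (max t a)⁻¹) h * h
      = cfc (fun t : ℝ => max (t - a) 0) h := by
    conv_lhs => rw [show h = cfc (id : ℝ → ℝ) h from (cfc_id ℝ h hh).symm]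
    rw [cfc_id ℝ h hh]
    have := cfc_mul (fun t : ℝ => max (t - a) 0 * (max t a)⁻¹) (fun t : ℝ => t) h
      hc1.continuousOn continuousOn_id
    rw [cfc_id' ℝ h hh] at this
    rw [← this]
    refine cfc_congr fun t _ => ?_
    rcases le_total t a with ht | ht
    · rw [max_eq_right (by linarith : t - a ≤ 0), zero_mul, zero_mul]
    · rw [max_eq_left ht, mul_assoc, inv_mul_cancel₀ (ne_of_gt (by linarith)), mul_one]
  set k := cfc (fun t : ℝ => Real.sqrt (max (a - t) 0)) h with hk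
  have hks : IsSelfAdjoint k := cfc_predicate _ h
  have e2 : k * k = algebraMap ℝ (E →L[ℂ] E) a - h + cfc (fun t : ℝ => max (t - a) 0) h := by
    rw [hk, ← cfc_mul _ _ h hc3.continuousOn hc3.continuousOn]
    have h1 : algebraMap ℝ (E →L[ℂ] E) a - h + cfc (fun t : ℝ => max (t - a) 0) h
        = cfc (fun t : ℝ => a - t + max (t - a) 0) h := by
      rw [cfc_add h (fun t : ℝ => a - t) (fun t : ℝ => max (t - a) 0)
        (by fun_prop) hc2.continuousOn, cfc_sub (fun _ : ℝ => a) (fun t : ℝ => t) h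
        (by fun_prop) (by fun_prop), cfc_const a h hh, cfc_id' ℝ h hh]
    rw [h1]
    refine cfc_congr fun t _ => ?_
    rw [Real.mul_self_sqrt (le_max_right _ _)]
    rcases le_total t a with ht | ht
    · rw [max_eq_left (by linarith : (0 : ℝ) ≤ a - t), max_eq_right (by linarith : t - a ≤ 0)]
      ring
    · rw [max_eq_right (by linarith : a - t ≤ 0), max_eq_left (by linarith : (0 : ℝ) ≤ t - a)]
      ring
  have e3 : cfc (fun t : ℝ => max (t - a) 0) h z = 0 := by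
    rw [← e1]
    exact hz
  have e4 : k (k z) = (a : ℂ) • z - h z := by
    have h1 := congrArg (fun Z : E →L[ℂ] E => Z z) e2
    have h2 : (k * k) z = k (k z) := rfl
    have h3 : (algebraMap ℝ (E →L[ℂ] E) a - h + cfc (fun t : ℝ => max (t - a) 0) h) z
        = (a : ℂ) • z - h z + cfc (fun t : ℝ => max (t - a) 0) h z := by
      rw [_root_.add_apply, _root_.sub_apply, Algebra.algebraMap_eq_smul_one]
      simp
    rw [← h2]
    refine h1.trans ?_
    rw [h3, e3, add_zero]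
  have e5 : inner ℂ z (k (k z)) = inner ℂ (k z) (k z) := by
    rw [← ContinuousLinearMap.adjoint_inner_left, ← ContinuousLinearMap.star_eq_adjoint,
      hks.star_eq]
  rw [e4, inner_sub_right, inner_smul_right] at e5
  have e6 := congrArg Complex.re e5
  rw [Complex.sub_re, Complex.re_ofReal_mul] at e6
  have e7 : (inner ℂ z z).re = ‖z‖ ^ 2 := by
    have := inner_self_eq_norm_sq (𝕜 := ℂ) z
    simpa using this
  have e8 : 0 ≤ (inner ℂ (k z) (k z)).re := by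
    have := inner_self_nonneg (𝕜 := ℂ) (x := k z)
    simpa using this
  rw [e7] at e6
  linarith

private theorem C1_cf_comm {E : Type*} [NormedAddCommGroup E] [InnerProductSpace ℂ E]
    [CompleteSpace E] (h b : E →L[ℂ] E) (hb : h * b = b * h) (f : ℝ → ℝ) (x : E) :
    cf f h (b x) = b (cf f h x) := by
  have h1 : Commute h b := hb
  have h2 : Commute (cfc f h) b := h1.cfc_real f
  exact congrArg (fun Z : E →L[ℂ] E => Z x) h2.eq

/-- the trivial action -/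
private noncomputable def C1triv (G : Type w) [Group G] [TopologicalSpace G] (T : TrAlg A K) :
    TrAct G T where
  α _ := StarAlgHom.id ℂ A
  one _ := rfl
  mul _ _ _ := rfl
  norm_map _ _ := rfl
  cont _ := continuous_const

variable {μ Q} in
/-- C4: `p̃(h) ξ(φ) ≠ 0`, `p̃(t) = (t - a)⁺ / max(t, a)` -/
theorem IsDens.win_ne {φ0 : C_c(V, ℝ)} (hφ : IsDens μ Q φ0) (x0 : V →L[ℝ] ℝ) (a : ℝ)
    (ha0 : 0 < a) (ha : a < 1) :
    (cf (fun t : ℝ => max (t - a) 0 * (max t a)⁻¹) (Q.Lam μ K (tw x0 φ0)))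
      (T.xi μ (Q.nv μ (tw x0 φ0))) ≠ 0 := by
  intro h0
  obtain ⟨φ', hφ'⟩ := hφ.exists_wide T x0 a ha
  set S : TrAct G T := C1triv G T with hS
  set z := T.xi μ (Q.nv μ (tw x0 φ')) with hz
  have hsa : IsSelfAdjoint (Q.Lam μ K (tw x0 φ0)) :=
    QMap.Lam_isSelfAdjoint (K := K) μ Q (tw x0 φ0) (tw_neg x0 φ0 hφ.even)
  have hb := S.base μ Q (tw x0 φ0) (tw x0 φ') (1 : A)
  rw [S.pi_one μ] at hb
  have hone : oneT μ (T.Rm 1) (T.xi μ (Q.nv μ (tw x0 φ0))) = T.xi μ (Q.nv μ (tw x0 φ0)) := by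
    change oneT μ (T.Rm 1) (tens μ (T.ι 1) _) = tens μ (T.ι 1) _
    rw [oneT_tensW, T.Rm_ι, one_mul]
  rw [hone] at hb
  have hb' : Q.Lam μ K (tw x0 φ0) z
      = S.LamR μ Q (tw x0 φ') (T.xi μ (Q.nv μ (tw x0 φ0))) := hb
  have hcomm : Q.Lam μ K (tw x0 φ0) * S.LamR μ Q (tw x0 φ')
      = S.LamR μ Q (tw x0 φ') * Q.Lam μ K (tw x0 φ0) :=
    S.LamR_mem μ Q (tw x0 φ') _ (S.Lam_mem_NN μ Q (tw x0 φ0))
  have hkill : cf (fun t : ℝ => max (t - a) 0 * (max t a)⁻¹) (Q.Lam μ K (tw x0 φ0))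
      (Q.Lam μ K (tw x0 φ0) z) = 0 := by
    rw [hb', C1_cf_comm _ _ hcomm, h0, map_zero]
  have hle := C1_cf_key (Q.Lam μ K (tw x0 φ0)) hsa a ha0 z hkill
  linarith

end

end Pool.Agent.AbCoc
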