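import Pool.Agent.Lib_MP_418a80_un.UnC2

/-! # C-d, C-e: the isometry `J : L²(V; K) → L²(G; K)`, `(J x)(s) = 1_U(s) U_s⁻¹ x(q s)` -/

set_option autoImplicit false
set_option linter.unusedVariables false
set_option linter.unusedSectionVars false

open MeasureTheory Topology Filter CompactlySupported
open scoped ENNReal NNReal

namespace Pool.Agent.AbCoc

universe u v w z

section
variable {A : Type u} [CStarAlgebra A] {K : Type v} [NormedAddCommGroup K]
  [InnerProductSpace ℂ K] [CompleteSpace K]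
variable {G : Type w} [Group G] [TopologicalSpace G] [IsTopologicalGroup G]
  [SecondCountableTopology G] [LocallyCompactSpace G] [MeasurableSpace G] [BorelSpace G]
  (μ : Measure G) [μ.IsHaarMeasure] {T : TrAlg A K} (S : TrAct G T)
  {V : Type z} [NormedAddCommGroup V] [NormedSpace ℝ V] [FiniteDimensional ℝ V]
  [MeasurableSpace V] [BorelSpace V] (Q : QMap G V)

private theorem UnC2b_ae {p : V → Prop} (h : ∀ᵐ v ∂(Q.kap μ), p v) :
    ∀ᵐ s ∂μ, s ∈ Q.U → p (Q.q s) := by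
  have h1 : ∀ᵐ s ∂(μ.restrict (Q.U : Set G)), p (Q.q s) :=
    ae_of_ae_map Q.cont.measurable.aemeasurable h
  exact (ae_restrict_iff' Q.isOpen.measurableSet).1 h1

/-- `λ_l Γ_l J = J U_l` for `l ∈ U` -/
theorem TrAct.J_lam_Gam {l : G} (hl : l ∈ Q.U) (x : Lp K 2 (Q.kap μ)) :
    (lam μ K).U l (S.Gam μ l (S.J μ Q x)) = S.J μ Q (Q.onV μ (S.U.U l) x) := by
  apply Lp.ext
  change ((lam μ K).U l (oneT μ (S.U.U l) (rt μ K l (S.J μ Q x))) : G → K) =ᵐ[μ] _
  filter_upwards [lam_ae μ l (oneT μ (S.U.U l) (rt μ K l (S.J μ Q x))),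
    ae_translate μ l⁻¹ (oneT_ae μ (S.U.U l) (rt μ K l (S.J μ Q x))),
    ae_translate μ l⁻¹ (rt_ae μ l (S.J μ Q x)),
    ae_translate μ l⁻¹ (ae_mulRight μ l (S.J_ae μ Q x)),
    S.J_ae μ Q (Q.onV μ (S.U.U l) x), UnC2b_ae μ Q (Q.onV_ae μ (S.U.U l) x)]
    with s h1 h2 h3 h4 h5 h6
  rw [h1, h2, h3, h4, h5]
  by_cases hs : s ∈ (Q.U : Set G)
  · have hs' : s ∈ Q.U := hs
    have h7 : l⁻¹ * s ∈ Q.U := Q.U.mul_mem (Q.U.inv_mem hl) hs'
    have h8 : l⁻¹ * s * l ∈ (Q.U : Set G) := Q.U.mul_mem h7 hl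
    rw [Set.indicator_of_mem hs, Set.indicator_of_mem h8, h6 hs]
    have h9 : Q.q (l⁻¹ * s * l) = Q.q s := by
      rw [Q.map_mul _ h7 _ hl, Q.map_mul _ (Q.U.inv_mem hl) _ hs', Q.q_inv hl]
      abel
    rw [h9, ← S.U.mul_apply, ← S.U.mul_apply]
    congr 2
    group
  · have h8 : l⁻¹ * s * l ∉ (Q.U : Set G) := fun h => hs (by
      have h9 : l⁻¹ * s ∈ Q.U := (Q.U.mul_mem_cancel_right hl).1 h
      exact (Q.U.mul_mem_cancel_left (Q.U.inv_mem hl)).1 h9)
    rw [Set.indicator_of_notMem hs, Set.indicator_of_notMem h8, map_zero]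

/-! ## the range of `λ'(ψ)` -/

private theorem C2b_liftFun_of_notMem (φ : C_c(V, ℂ)) {g : G} (hg : g ∉ Q.U) :
    Q.liftFun φ g = 0 := by
  unfold QMap.liftFun
  rw [if_neg hg]

private theorem C2b_liftFun_of_mem (φ : C_c(V, ℂ)) {g : G} (hg : g ∈ Q.U) :
    Q.liftFun φ g = φ (Q.q g) := by
  unfold QMap.liftFun
  rw [if_pos hg]

private theorem C2b_fin : IsFiniteMeasureOnCompacts (Q.kap μ) := by
  refine ⟨fun B hB => ?_⟩
  have hqm : Measurable Q.q := Q.cont.measurable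
  unfold QMap.kap
  rw [Measure.map_apply hqm hB.measurableSet,
    Measure.restrict_apply (hqm hB.measurableSet)]
  refine lt_of_le_of_lt (measure_mono ?_) (Q.proper B hB).measure_lt_top
  intro t ht
  exact ⟨ht.2, ht.1⟩

/-- the function `k = 1_U h` -/
private noncomputable def C2b_k (h : BoundedContinuousFunction G ℂ) :
    BoundedContinuousFunction G ℂ := Q.ind 1 * h

private theorem C2b_k_apply (h : BoundedContinuousFunction G ℂ) (t : G) :
    C2b_k Q h t = Q.ind 1 t * h t := rfl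

private theorem C2b_k_supp (h : BoundedContinuousFunction G ℂ) (hh : HasCompactSupport h) :
    HasCompactSupport (C2b_k Q h) := by
  have h1 : HasCompactSupport (fun t => Q.ind 1 t * h t) := hh.mul_left
  exact h1

private theorem C2b_k_off (h : BoundedContinuousFunction G ℂ) {t : G} (ht : t ∉ Q.U) :
    C2b_k Q h t = 0 := by
  rw [C2b_k_apply, Q.ind_apply, inv_one, mul_one, if_neg ht, zero_mul]

private theorem C2b_P_tens (η : K) (h : BoundedContinuousFunction G ℂ)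
    (hh : HasCompactSupport h) :
    Q.P μ K 1 (tens μ η (cv μ h hh)) = tens μ η (cv μ (C2b_k Q h) (C2b_k_supp Q h hh)) := by
  rw [Q.P_tens μ]
  congr 1
  apply Lp.ext
  filter_upwards [Q.P_ae μ ℂ 1 (cv μ h hh), cv_ae μ h hh,
    cv_ae μ (C2b_k Q h) (C2b_k_supp Q h hh)] with t h1 h2 h3
  rw [h1, h2, h3, C2b_k_apply, smul_eq_mul]

/-- `X(v) = ∫ ψ(v - q t) k(t) U_t η dt` -/
private noncomputable def C2b_X (ψ : C_c(V, ℂ)) (k : G → ℂ) (η : K) (v : V) : K :=
  ∫ t, (ψ (v - Q.q t) * k t) • S.U.U t η ∂μ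

private theorem C2b_X_int_cont (ψ : C_c(V, ℂ)) {k : G → ℂ} (hk : Continuous k) (η : K) :
    Continuous fun p : V × G => (ψ (p.1 - Q.q p.2) * k p.2) • S.U.U p.2 η :=
  ((ψ.continuous.comp (continuous_fst.sub (Q.cont.comp continuous_snd))).mul
    (hk.comp continuous_snd)).smul ((S.U.cont η).comp continuous_snd)

private theorem C2b_X_cont (ψ : C_c(V, ℂ)) {k : G → ℂ} (hk : Continuous k)
    (hks : HasCompactSupport k) (η : K) : Continuous (C2b_X μ S Q ψ k η) := by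
  have hp : ProperSpace V := FiniteDimensional.proper ℝ V
  have h1 : Continuous (fun v : V => ∫ t in tsupport k, (ψ (v - Q.q t) * k t) • S.U.U t η ∂μ) :=
    continuous_parametric_integral_of_continuous
      (f := fun (v : V) (t : G) => (ψ (v - Q.q t) * k t) • S.U.U t η)
      (C2b_X_int_cont S Q ψ hk η) hks.isCompact
  have h2 : C2b_X μ S Q ψ k η =
      fun v : V => ∫ t in tsupport k, (ψ (v - Q.q t) * k t) • S.U.U t η ∂μ := by
    funext v
    unfold C2b_X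
    refine (setIntegral_eq_integral_of_forall_compl_eq_zero fun t ht => ?_).symm
    rw [image_eq_zero_of_notMem_tsupport ht, mul_zero, zero_smul]
  rw [h2]
  exact h1

private theorem C2b_X_supp (ψ : C_c(V, ℂ)) {k : G → ℂ}
    (hks : HasCompactSupport k) (η : K) : HasCompactSupport (C2b_X μ S Q ψ k η) := by
  have h1 : IsCompact ((fun p : V × V => p.1 + p.2) '' (tsupport ψ ×ˢ (Q.q '' tsupport k))) :=
    (ψ.hasCompactSupport.isCompact.prod (hks.isCompact.image Q.cont)).image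
      (continuous_fst.add continuous_snd)
  refine HasCompactSupport.intro h1 fun v hv => ?_
  unfold C2b_X
  have h2 : ∀ t, (ψ (v - Q.q t) * k t) • S.U.U t η = 0 := by
    intro t
    by_cases ht : t ∈ tsupport k
    · by_cases h3 : v - Q.q t ∈ tsupport ψ
      · exact absurd ⟨(v - Q.q t, Q.q t), ⟨h3, ⟨t, ht, rfl⟩⟩, by
          change v - Q.q t + Q.q t = v
          abel⟩ hv
      · rw [image_eq_zero_of_notMem_tsupport h3, zero_mul, zero_smul]
    · rw [image_eq_zero_of_notMem_tsupport ht, mul_zero, zero_smul]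
  simp only [h2, integral_zero]

private theorem C2b_X_memLp (ψ : C_c(V, ℂ)) {k : G → ℂ} (hk : Continuous k)
    (hks : HasCompactSupport k) (η : K) : MemLp (C2b_X μ S Q ψ k η) 2 (Q.kap μ) := by
  have hp : ProperSpace V := FiniteDimensional.proper ℝ V
  have hf := C2b_fin μ Q
  exact (C2b_X_cont μ S Q ψ hk hks η).memLp_of_hasCompactSupport (C2b_X_supp μ S Q ψ hks η)

/-- the kernel, tested against `η'` at the point `s` -/
private noncomputable def C2b_F (ψ : C_c(V, ℂ)) (k : G → ℂ) (η η' : K) (s t : G) : ℂ :=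
  k t * (Q.liftFun ψ (t⁻¹ * s) * inner ℂ η' (S.U.U (s⁻¹ * t) η))

private theorem C2b_F_eq (ψ : C_c(V, ℂ)) {k : G → ℂ} (hk0 : ∀ t, t ∉ Q.U → k t = 0)
    (η η' : K) {s : G} (hs : s ∈ Q.U) :
    ∫ u, C2b_F S Q ψ k η η' s (s * u⁻¹) ∂μ = ∫ t, C2b_F S Q ψ k η η' s t ∂μ := by
  have h1 := Q.integral_inv μ (fun u => C2b_F S Q ψ k η η' s (s * u)) (fun g hg => by
    change k (s * g) * _ = 0
    rw [hk0 _ (fun h => hg ((Q.U.mul_mem_cancel_left hs).1 h)), zero_mul])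
  rw [h1]
  exact integral_mul_left_eq_self (μ := μ) (C2b_F S Q ψ k η η' s) s

private theorem C2b_F_zero (ψ : C_c(V, ℂ)) {k : G → ℂ} (hk0 : ∀ t, t ∉ Q.U → k t = 0)
    (η η' : K) {s : G} (hs : s ∉ Q.U) (t : G) : C2b_F S Q ψ k η η' s t = 0 := by
  unfold C2b_F
  by_cases ht : t ∈ Q.U
  · have h2 : t⁻¹ * s ∉ Q.U := fun h => hs ((Q.U.mul_mem_cancel_left (Q.U.inv_mem ht)).1 h)
    rw [C2b_liftFun_of_notMem Q ψ h2, zero_mul, mul_zero]
  · rw [hk0 t ht, zero_mul]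

private theorem C2b_lhs (ψ : C_c(V, ℂ)) (η η' : K) (k : BoundedContinuousFunction G ℂ)
    (hk : HasCompactSupport k) (h : BoundedContinuousFunction G ℂ) (hh : HasCompactSupport h) :
    inner ℂ (tens μ η' (cv μ h hh)) (S.LamR μ Q ψ (tens μ η (cv μ k hk)))
      = ∫ s, starRingEnd ℂ (h s) * ∫ u, C2b_F S Q ψ k η η' s (s * u⁻¹) ∂μ ∂μ := by
  have hg : Continuous fun w : G => inner ℂ η' (S.U.U w η) :=
    continuous_const.inner (S.U.cont η)
  have e2 : ∀ s u, C2b_F S Q ψ k η η' s (s * u⁻¹) =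
      k (s * u⁻¹) * (Q.liftFun ψ u * inner ℂ η' (S.U.U u⁻¹ η)) := by
    intro s u
    unfold C2b_F
    rw [mul_inv_rev, inv_inv, inv_mul_cancel_right, inv_mul_cancel_left]
  have e0 : ∀ u, S.Gam μ u⁻¹ (tens μ η (cv μ k hk)) =
      tens μ (S.U.U u⁻¹ η) (rt μ ℂ u⁻¹ (cv μ k hk)) := by
    intro u
    change oneT μ (S.U.U u⁻¹) (rt μ K u⁻¹ (tens μ η (cv μ k hk))) = _
    rw [rt_tens, oneT_tensW]
  have e1 : ∀ u, inner ℂ (tens μ η' (cv μ h hh))
      (Q.liftFun ψ u • S.Gam μ u⁻¹ (tens μ η (cv μ k hk))) =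
      ∫ s, starRingEnd ℂ (h s) * C2b_F S Q ψ k η η' s (s * u⁻¹) ∂μ := by
    intro u
    rw [inner_smul_right, e0, L2.inner_def, ← integral_const_mul]
    refine integral_congr_ae ?_
    filter_upwards [tens_ae μ η' (cv μ h hh), cv_ae μ h hh,
      tens_ae μ (S.U.U u⁻¹ η) (rt μ ℂ u⁻¹ (cv μ k hk)), rt_ae μ u⁻¹ (cv μ k hk),
      ae_mulRight μ u⁻¹ (cv_ae μ k hk)] with s h1 h2 h3 h4 h5
    rw [h1, h2, h3, h4, h5, e2, inner_smul_left, inner_smul_right]
    ring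
  rw [S.LamR_apply μ Q, ← integral_inner (S.LamR_integrable μ Q ψ _)]
  simp only [e1]
  rw [integral_integral_swap_of_hasCompactSupport]
  · congr 1
    funext s
    rw [integral_const_mul]
  · change Continuous fun p : G × G =>
      starRingEnd ℂ (h p.2) * C2b_F S Q ψ k η η' p.2 (p.2 * p.1⁻¹)
    simp only [e2]
    refine (Complex.continuous_conj.comp (h.continuous.comp continuous_snd)).mul
      ((k.continuous.comp (continuous_snd.mul continuous_fst.inv)).mul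
      (((Q.liftFun_cont ψ).comp continuous_fst).mul
      (hg.comp continuous_fst.inv)))
  · refine HasCompactSupport.intro
      ((Q.liftFun_supp ψ).isCompact.prod hh.isCompact) fun p hp => ?_
    change starRingEnd ℂ (h p.2) * C2b_F S Q ψ k η η' p.2 (p.2 * p.1⁻¹) = 0
    rw [e2]
    by_cases h1 : p.1 ∈ tsupport (Q.liftFun ψ)
    · have h2 : p.2 ∉ tsupport h := fun h2 => hp ⟨h1, h2⟩
      rw [image_eq_zero_of_notMem_tsupport h2, map_zero, zero_mul]
    · rw [image_eq_zero_of_notMem_tsupport h1, zero_mul, mul_zero, mul_zero]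

private theorem C2b_inner_X (ψ : C_c(V, ℂ)) {k : G → ℂ} (hk : Continuous k)
    (hks : HasCompactSupport k) (hk0 : ∀ t, t ∉ Q.U → k t = 0) (η η' : K) {s : G}
    (hs : s ∈ Q.U) :
    inner ℂ η' (S.U.U s⁻¹ (C2b_X μ S Q ψ k η (Q.q s))) = ∫ t, C2b_F S Q ψ k η η' s t ∂μ := by
  have hc : Continuous fun t : G => (ψ (Q.q s - Q.q t) * k t) • S.U.U t η :=
    (C2b_X_int_cont S Q ψ hk η).comp (continuous_const.prodMk continuous_id)
  have hsupp : HasCompactSupport fun t : G => (ψ (Q.q s - Q.q t) * k t) • S.U.U t η := by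
    refine HasCompactSupport.intro hks.isCompact fun t ht => ?_
    rw [image_eq_zero_of_notMem_tsupport ht, mul_zero, zero_smul]
  have hi : Integrable (fun t : G => (ψ (Q.q s - Q.q t) * k t) • S.U.U t η) μ :=
    hc.integrable_of_hasCompactSupport hsupp
  unfold C2b_X
  rw [← (S.U.U s⁻¹).integral_comp_comm hi, ← integral_inner ((S.U.U s⁻¹).integrable_comp hi)]
  congr 1
  funext t
  unfold C2b_F
  by_cases ht : t ∈ Q.U
  · have h1 : t⁻¹ * s ∈ Q.U := Q.U.mul_mem (Q.U.inv_mem ht) hs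
    rw [C2b_liftFun_of_mem Q ψ h1, Q.map_mul _ (Q.U.inv_mem ht) _ hs, Q.q_inv ht, map_smul,
      inner_smul_right, ← S.U.mul_apply]
    have h2 : -Q.q t + Q.q s = Q.q s - Q.q t := by abel
    rw [h2]
    ring
  · rw [hk0 t ht, mul_zero, zero_smul, map_zero, inner_zero_right, zero_mul]

private theorem C2b_rhs (ψ : C_c(V, ℂ)) (η η' : K) {k : G → ℂ} (hk : Continuous k)
    (hks : HasCompactSupport k) (hk0 : ∀ t, t ∉ Q.U → k t = 0)
    (h : BoundedContinuousFunction G ℂ) (hh : HasCompactSupport h) :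
    inner ℂ (tens μ η' (cv μ h hh))
      (S.J μ Q ((C2b_X_memLp μ S Q ψ hk hks η).toLp (C2b_X μ S Q ψ k η)))
      = ∫ s, starRingEnd ℂ (h s) * ∫ u, C2b_F S Q ψ k η η' s (s * u⁻¹) ∂μ ∂μ := by
  rw [L2.inner_def]
  refine integral_congr_ae ?_
  filter_upwards [tens_ae μ η' (cv μ h hh), cv_ae μ h hh,
    S.J_ae μ Q ((C2b_X_memLp μ S Q ψ hk hks η).toLp (C2b_X μ S Q ψ k η)),
    UnC2b_ae μ Q (C2b_X_memLp μ S Q ψ hk hks η).coeFn_toLp] with s h1 h2 h3 h4
  rw [h1, h2, h3, inner_smul_left]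
  congr 1
  by_cases hs : s ∈ (Q.U : Set G)
  · rw [Set.indicator_of_mem hs, h4 hs, C2b_inner_X μ S Q ψ hk hks hk0 η η' hs,
      C2b_F_eq μ S Q ψ hk0 η η' hs]
  · rw [Set.indicator_of_notMem hs, inner_zero_right]
    have h5 : ∀ u, C2b_F S Q ψ k η η' s (s * u⁻¹) = 0 :=
      fun u => C2b_F_zero S Q ψ hk0 η η' hs _
    simp only [h5, integral_zero]

private theorem C2b_basic (ψ : C_c(V, ℂ)) (η : K) (h : BoundedContinuousFunction G ℂ)
    (hh : HasCompactSupport h) :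
    ∃ x, S.LamR μ Q ψ (Q.P μ K 1 (tens μ η (cv μ h hh))) = S.J μ Q x := by
  have hk0 : ∀ t, t ∉ Q.U → C2b_k Q h t = 0 := fun t ht => C2b_k_off Q h ht
  refine ⟨(C2b_X_memLp μ S Q ψ (C2b_k Q h).continuous (C2b_k_supp Q h hh) η).toLp
    (C2b_X μ S Q ψ (C2b_k Q h) η), ?_⟩
  rw [C2b_P_tens μ Q]
  have h1 : innerSL ℂ (S.LamR μ Q ψ (tens μ η (cv μ (C2b_k Q h) (C2b_k_supp Q h hh)))) =
      innerSL ℂ (S.J μ Q ((C2b_X_memLp μ S Q ψ (C2b_k Q h).continuous
        (C2b_k_supp Q h hh) η).toLp (C2b_X μ S Q ψ (C2b_k Q h) η))) := by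
    refine ext_cv μ fun η' h' hh' => ?_
    rw [innerSL_apply_apply, innerSL_apply_apply, ← inner_conj_symm, C2b_lhs μ S Q,
      ← inner_conj_symm (S.J μ Q _), C2b_rhs μ S Q ψ η η' (C2b_k Q h).continuous
        (C2b_k_supp Q h hh) hk0]
  refine ext_inner_right ℂ fun w => ?_
  exact congrArg (fun Z : Lp K 2 μ →L[ℂ] ℂ => Z w) h1

/-- the range of `λ'(ψ)` on `L²(U)` is contained in the range of `J` -/
theorem TrAct.LamR_range (ψ : C_c(V, ℂ)) (y : Lp K 2 μ) (hy : Q.P μ K 1 y = y) :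
    ∃ x, S.LamR μ Q ψ y = S.J μ Q x := by
  let Jd : Lp K 2 μ →L[ℂ] Lp K 2 (Q.kap μ) := ContinuousLinearMap.adjoint (S.J μ Q)
  have h1 : ∀ x, Jd (S.J μ Q x) = x := by
    intro x
    refine ext_inner_left ℂ fun w => ?_
    rw [ContinuousLinearMap.adjoint_inner_right, S.J_inner μ Q]
  have h2 : ((S.J μ Q).comp Jd).comp ((S.LamR μ Q ψ).comp (Q.P μ K 1)) =
      (S.LamR μ Q ψ).comp (Q.P μ K 1) := by
    refine ext_cv μ fun η h hh => ?_
    change S.J μ Q (Jd (S.LamR μ Q ψ (Q.P μ K 1 (tens μ η (cv μ h hh))))) =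
      S.LamR μ Q ψ (Q.P μ K 1 (tens μ η (cv μ h hh)))
    obtain ⟨x, hx⟩ := C2b_basic μ S Q ψ η h hh
    rw [hx, h1]
  refine ⟨Jd (S.LamR μ Q ψ y), ?_⟩
  have h3 := congrArg (fun Z : Lp K 2 μ →L[ℂ] Lp K 2 μ => Z y) h2
  change S.J μ Q (Jd (S.LamR μ Q ψ (Q.P μ K 1 y))) = S.LamR μ Q ψ (Q.P μ K 1 y) at h3
  rw [hy] at h3
  exact h3.symm

end

end Pool.Agent.AbCoc
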