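import Pool.Agent.Lib_MP_418a80_un.UnC0b

/-! # C-f, C-g: right irreducibility; the vectors `ξ(f)` -/

set_option autoImplicit false
set_option linter.unusedVariables false
set_option linter.unusedSectionVars false

open MeasureTheory Topology Filter CompactlySupported
open scoped ENNReal NNReal

namespace Pool.Agent.AbCoc

universe u v w z

section
variable {A : Type u} [CStarAlgebra A] {K : Type v} [NormedAddCommGroup K]
  [InnerProductSpace ℂ K] [CompleteSpace K]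

variable {G : Type w} [Group G] [TopologicalSpace G] [IsTopologicalGroup G]
  [SecondCountableTopology G] [LocallyCompactSpace G] [MeasurableSpace G] [BorelSpace G]
  (μ : Measure G) [μ.IsHaarMeasure] {T : TrAlg A K} (S : TrAct G T)
  {V : Type z} [NormedAddCommGroup V] [NormedSpace ℝ V] [FiniteDimensional ℝ V] (Q : QMap G V)

/-- an operator commuting with all `1 ⊗ c` maps `ψ ⊗ η` to `ψ' ⊗ η` -/
theorem exists_tens_of_comm (B : Lp K 2 μ →L[ℂ] Lp K 2 μ)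
    (hB : ∀ c : K →L[ℂ] K, B * oneT μ c = oneT μ c * B) (η : K) (f : Lp ℂ 2 μ) :
    ∃ f' : Lp ℂ 2 μ, B (tens μ η f) = tens μ η f' := by
  by_cases hη : η = 0
  · refine ⟨0, ?_⟩
    have h0 : tens μ η f = 0 := by
      rw [← norm_eq_zero, norm_tens, hη, norm_zero, mul_zero]
    rw [h0, map_zero, map_zero]
  · have hη2 : (((‖η‖ : ℝ) : ℂ) ^ 2) ≠ 0 := by
      have h1 : ‖η‖ ≠ 0 := norm_ne_zero_iff.2 hη
      exact pow_ne_zero 2 (Complex.ofReal_ne_zero.2 h1)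
    set d : K →L[ℂ] ℂ := ((((‖η‖ : ℝ) : ℂ) ^ 2)⁻¹) • innerSL ℂ η with hd
    set c : K →L[ℂ] K := (ContinuousLinearMap.toSpanSingleton ℂ η).comp d with hc
    have hcη : c η = η := by
      have h1 : c η = d η • η := rfl
      have h2 : d η = 1 := by
        rw [hd, ContinuousLinearMap.smul_apply, innerSL_apply_apply, inner_self_eq_norm_sq_to_K,
          smul_eq_mul]
        exact inv_mul_cancel₀ hη2
      rw [h1, h2, one_smul]
    refine ⟨oneT μ d (B (tens μ η f)), ?_⟩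
    have h3 : oneT μ c (tens μ η f) = tens μ η f := by
      rw [oneT_tensW, hcη]
    have h4 : B (oneT μ c (tens μ η f)) = oneT μ c (B (tens μ η f)) :=
      congrArg (fun Z : Lp K 2 μ →L[ℂ] Lp K 2 μ => Z (tens μ η f)) (hB c)
    rw [h3] at h4
    rw [h4]
    have h5 : oneT μ c (B (tens μ η f))
        = oneT μ (ContinuousLinearMap.toSpanSingleton ℂ η) (oneT μ d (B (tens μ η f))) := by
      rw [hc, oneT_comp]
    rw [← h4]
    rw [← h4] at h5
    exact h5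

theorem QMap.P_inj (η : K) (hη : η ≠ 0) (f : Lp ℂ 2 μ)
    (h : Q.P μ K 1 (tens μ η f) = tens μ η f) : Q.P μ ℂ 1 f = f := by
  rw [Q.P_tens μ] at h
  have h1 : tens μ η (Q.P μ ℂ 1 f - f) = 0 := by
    rw [map_sub, h, sub_self]
  have h2 : ‖Q.P μ ℂ 1 f - f‖ * ‖η‖ = 0 := by
    rw [← norm_tens, h1, norm_zero]
  have h3 : ‖Q.P μ ℂ 1 f - f‖ = 0 := (mul_eq_zero.1 h2).resolve_right (norm_ne_zero_iff.2 hη)
  exact sub_eq_zero.1 (norm_eq_zero.1 h3)

private theorem UnC3b_norm_xi (T : TrAlg A K) (f : Lp ℂ 2 μ) :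
    inner ℂ f f = ((‖T.xi μ f‖ ^ 2 : ℝ) : ℂ) := by
  have h1 : ‖T.xi μ f‖ = ‖f‖ := by
    unfold TrAlg.xi
    rw [norm_tens, T.norm_one, mul_one]
  rw [h1, inner_self_eq_norm_sq_to_K]
  push_cast
  rfl

private theorem UnC3b_lam_pi (s : G) (x : A) (z : Lp K 2 μ) :
    (lam μ K).U s (S.pi μ x z) = S.pi μ (S.α s x) ((lam μ K).U s z) := by
  apply Lp.ext
  filter_upwards [lam_ae μ s (S.pi μ x z), ae_translate μ s⁻¹ (S.pi_ae μ x z),
    S.pi_ae μ (S.α s x) ((lam μ K).U s z), lam_ae μ s z] with t h1 h2 h3 h4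
  rw [h1, h2, h3, h4, ← S.mul, mul_inv_rev, inv_inv]

/-- C-g -/
theorem TrAct.xi_pi (f : Lp ℂ 2 μ) (y : A) :
    inner ℂ (T.xi μ f) (S.pi μ y (T.xi μ f)) = T.τ y * ((‖T.xi μ f‖ ^ 2 : ℝ) : ℂ) := by
  have h := TrAct.omega_pi_lam (S := S) (μ := μ) y 1 f
  rw [(lam μ K).one, (lam μ ℂ).one] at h
  rw [← UnC3b_norm_xi μ T f]
  exact h

theorem TrAlg.xi_Rm (T : TrAlg A K) (f : Lp ℂ 2 μ) (y : A) :
    inner ℂ (T.xi μ f) (oneT μ (T.Rm y) (T.xi μ f)) = T.τ y * ((‖T.xi μ f‖ ^ 2 : ℝ) : ℂ) := by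
  have h1 : oneT μ (T.Rm y) (T.xi μ f) = tens μ (T.ι y) f := by
    unfold TrAlg.xi
    rw [oneT_tensW, T.Rm_ι, one_mul]
  rw [← UnC3b_norm_xi μ T f, h1]
  unfold TrAlg.xi
  rw [tens_inner, mul_comm]
  rfl

theorem TrAct.xi_off (f : Lp ℂ 2 μ) (hf : Q.P μ ℂ 1 f = f) {g : G} (hg : g ∉ Q.U) (y y' : A) :
    inner ℂ (T.xi μ f) (S.pi μ y ((lam μ K).U g (S.pi μ y' (T.xi μ f)))) = 0 := by
  have h1 : S.pi μ y ((lam μ K).U g (S.pi μ y' (T.xi μ f)))
      = S.pi μ (y * S.α g y') ((lam μ K).U g (T.xi μ f)) := by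
    rw [UnC3b_lam_pi μ S g y', S.pi_mul μ]
    rfl
  rw [h1, TrAct.omega_pi_lam (S := S) (μ := μ)]
  have h2 : inner ℂ f ((lam μ ℂ).U g f) = (0 : ℂ) := by
    have hU : ∀ᵐ t ∂μ, t ∉ Q.U → f t = 0 := by
      filter_upwards [Q.P_ae μ ℂ 1 f] with t ht hn
      rw [hf, Q.ind_apply, inv_one, mul_one, if_neg hn, zero_smul] at ht
      exact ht
    rw [L2.inner_def]
    refine (integral_congr_ae (g := fun _ => (0 : ℂ)) ?_).trans (integral_zero _ _)
    filter_upwards [hU, ae_translate μ g⁻¹ hU, lam_ae μ g f] with t h3 h4 h5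
    by_cases ht : t ∈ Q.U
    · have h6 : g⁻¹ * t ∉ Q.U := by
        intro h7
        apply hg
        have h8 := Q.U.mul_mem ht (Q.U.inv_mem h7)
        rwa [mul_inv_rev, inv_inv, mul_inv_cancel_left] at h8
      rw [h5, h4 h6, inner_zero_right]
    · rw [h3 ht, inner_zero_left]
  rw [h2, mul_zero]

end

end Pool.Agent.AbCoc
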