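import Pool.Agent.Lib_MP_418a80_un.UF0
import Pool.Agent.Lib_MP_418a80_un.UB6
import Pool.Agent.Lib_MP_418a80_un.UnC1
import Pool.Agent.Lib_MP_418a80_un.UnC2b
import Pool.Agent.Lib_MP_418a80_un.UnC3b
import Pool.Agent.Lib_MP_418a80_un.UF1a

/-! # F1: the pair of linked windows -/

set_option autoImplicit false
set_option linter.unusedVariables false
set_option linter.unusedSectionVars false

open MeasureTheory Topology Filter CompactlySupported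
open scoped ENNReal NNReal ComplexConjugate

namespace Pool.Agent.AbCoc

universe u v w z

section
variable {A : Type u} [CStarAlgebra A] {K : Type v} [NormedAddCommGroup K]
  [InnerProductSpace ℂ K] [CompleteSpace K]
variable {G : Type w} [Group G] [TopologicalSpace G] [IsTopologicalGroup G]
  [SecondCountableTopology G] [LocallyCompactSpace G] [MeasurableSpace G] [BorelSpace G]
  (μ : Measure G) [μ.IsHaarMeasure] {T : TrAlg A K} (S : TrAct G T)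
  {V : Type z} [NormedAddCommGroup V] [NormedSpace ℝ V] [FiniteDimensional ℝ V]
  [MeasurableSpace V] [BorelSpace V] (Q : QMap G V)

private theorem UF1_cf_eq (a : ℝ) :
    (fun t : ℝ => max (t - a) 0 * (max t a)⁻¹) = wpt a := by
  funext t
  unfold wpt wp wq
  rw [one_div]

private theorem UF1_wp_cont (a : ℝ) : Continuous (wp a) := by
  unfold wp
  fun_prop

private theorem UF1_wq_cont (a : ℝ) (ha : 0 < a) : Continuous (wq a) := by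
  unfold wq
  refine continuous_const.div (by fun_prop) fun t => ?_
  exact (lt_of_lt_of_le ha (le_max_right t a)).ne'

private theorem UF1_wpt_cont (a : ℝ) (ha : 0 < a) : Continuous (wpt a) := by
  unfold wpt
  exact (UF1_wp_cont a).mul (UF1_wq_cont a ha)

private theorem UF1_mul_wpt (a : ℝ) (ha : 0 < a) (t : ℝ) : t * wpt a t = wp a t := by
  unfold wpt wp wq
  rcases le_total t a with h | h
  · rw [max_eq_right (by linarith : t - a ≤ 0)]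
    ring
  · rw [max_eq_left h]
    have : t ≠ 0 := (lt_of_lt_of_le ha h).ne'
    field_simp

/-- `p = h p̃` -/
private theorem UF1_cfc_wp {E : Type*} [NormedAddCommGroup E] [InnerProductSpace ℂ E]
    [CompleteSpace E] (h : E →L[ℂ] E) (hh : IsSelfAdjoint h) (a : ℝ) (ha : 0 < a) :
    cfc (wp a) h = h * cfc (wpt a) h := by
  have h1 := cfc_mul (fun t : ℝ => t) (wpt a) h continuousOn_id (UF1_wpt_cont a ha).continuousOn
  rw [cfc_id' ℝ h hh] at h1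
  rw [← h1]
  exact cfc_congr fun t _ => (UF1_mul_wpt a ha t).symm

private theorem UF1_comm {E : Type*} [NormedAddCommGroup E] [InnerProductSpace ℂ E]
    [CompleteSpace E] (h Z : E →L[ℂ] E) (hZ : Z * h = h * Z) (g : ℝ → ℝ) :
    Z * cfc g h = cfc g h * Z := by
  have h1 : Commute h Z := hZ.symm
  exact (h1.cfc_real g).eq.symm

private theorem UF1_range {E : Type*} [NormedAddCommGroup E] [InnerProductSpace ℂ E]
    [CompleteSpace E] (h P : E →L[ℂ] E) (hh : IsSelfAdjoint h) (a : ℝ) (ha : 0 < a)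
    (hPh : P * h = h * P) (hP2 : P * P = P) (R : Set E) (hR : IsClosed R)
    (hr : ∀ y, P y = y → h y ∈ R) (ζ : E)
    (hζ : ζ ∈ closure (Set.range (cfc (wp a) h : E →L[ℂ] E))) (hPζ : P ζ = ζ) : ζ ∈ R := by
  rw [← hR.closure_eq, ← hPζ]
  refine map_mem_closure P.continuous hζ ?_
  rintro _ ⟨w, rfl⟩
  have h0 : ∀ (X Y : E →L[ℂ] E) (x : E), X = Y → X x = Y x := fun X Y x e => by rw [e]
  have e1 : P ((cfc (wp a) h : E →L[ℂ] E) w) = (cfc (wp a) h : E →L[ℂ] E) (P w) :=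
    h0 (P * cfc (wp a) h) (cfc (wp a) h * P) w (UF1_comm h P hPh (wp a))
  have e2 : (cfc (wp a) h : E →L[ℂ] E) (P w) = h ((cfc (wpt a) h : E →L[ℂ] E) (P w)) :=
    h0 (cfc (wp a) h) (h * cfc (wpt a) h) (P w) (UF1_cfc_wp h hh a ha)
  have e3 : P ((cfc (wpt a) h : E →L[ℂ] E) (P w)) = (cfc (wpt a) h : E →L[ℂ] E) (P w) := by
    have h1 : P ((cfc (wpt a) h : E →L[ℂ] E) (P w)) = (cfc (wpt a) h : E →L[ℂ] E) (P (P w)) :=
      h0 (P * cfc (wpt a) h) (cfc (wpt a) h * P) (P w) (UF1_comm h P hPh (wpt a))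
    have h2 : P (P w) = P w := h0 (P * P) P w hP2
    rw [h1, h2]
  rw [e1, e2]
  exact hr _ e3

section absW
variable {H : Type v} [NormedAddCommGroup H] [InnerProductSpace ℂ H] [CompleteSpace H]

private theorem UF1_exists {P : ComPair H} {A : Type u} [CStarAlgebra A] {L : LRep P A}
    (W : PreWin L) (a : ℝ) (ha : 0 < a) (hne : (cf (wpt a) W.h) W.f ≠ 0) :
    ∃ V : VWin L, V.p = cf (wp a) W.h ∧ V.p' = cf (wp a) W.h' ∧
      V.v = (rproj (cf (wp a) W.h) * cf (wq a) W.h) W.f ∧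
      V.p V.v = (cf (wpt a) W.h) W.f ∧ V.p' V.v = (cf (wpt a) W.h') W.f :=
  W.exists_window a ha hne

private theorem UF1_linked {P : ComPair H} {A : Type u} [CStarAlgebra A] {L : LRep P A}
    (W1 W2 : PreWin L) (a : ℝ) (ha : 0 < a)
    (hbase : ∀ x, W1.h (L.l x W2.f) = W2.h' (L.r x W1.f)) (V1 V2 : VWin L)
    (h1 : V1.p = cf (wp a) W1.h) (h2 : V1.p' V1.v = (cf (wpt a) W1.h') W1.f)
    (h3 : V2.p' = cf (wp a) W2.h') (h4 : V2.p V2.v = (cf (wpt a) W2.h) W2.f) :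
    V1.Linked V2 := PreWin.linked W1 W2 a ha hbase V1 V2 h1 h2 h3 h4

private theorem UF1_re (h : H →L[ℂ] H) (hh : IsSelfAdjoint h) (a : ℝ) (ζ : H)
    (hζ : ζ ∈ closure (Set.range (cf (wp a) h))) :
    a * ‖ζ‖ ^ 2 ≤ (inner ℂ ζ (h ζ)).re := re_inner_ge_of_mem_closure h hh a ζ hζ

private theorem UF1_comm_B (h : H →L[ℂ] H) (hh : IsSelfAdjoint h) (a : ℝ) (ha : 0 < a)
    (Z : H →L[ℂ] H) (hZ : Z * h = h * Z) (hZ' : star Z * h = h * star Z) :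
    Z * (rproj (cf (wp a) h) * cf (wq a) h) = (rproj (cf (wp a) h) * cf (wq a) h) * Z :=
  comm_rproj_cfc h hh (wp a) (wq a) (UF1_wp_cont a) (UF1_wq_cont a ha) Z hZ hZ'

private theorem UF1_comm' (h Z : H →L[ℂ] H) (hZ : Z * h = h * Z) (g : ℝ → ℝ) :
    Z * cf g h = cf g h * Z := UF1_comm h Z hZ g

private theorem UF1_range' (h P : H →L[ℂ] H) (hh : IsSelfAdjoint h) (a : ℝ) (ha : 0 < a)
    (hPh : P * h = h * P) (hP2 : P * P = P) (R : Set H) (hR : IsClosed R)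
    (hr : ∀ y, P y = y → h y ∈ R) (ζ : H)
    (hζ : ζ ∈ closure (Set.range (cf (wp a) h))) (hPζ : P ζ = ζ) : ζ ∈ R :=
  UF1_range h P hh a ha hPh hP2 R hR hr ζ hζ hPζ

end absW

/-- the pre-window of `(x0, φ0)` -/
private noncomputable def UF1_pre (hSO : S.SO μ Set.univ) (x0 : V →L[ℝ] ℝ) (φ0 : C_c(V, ℝ))
    (hφ : IsDens μ Q φ0) : PreWin (S.lrep μ hSO) where
  h := Q.Lam μ K (tw x0 φ0)
  h' := S.LamR μ Q (tw x0 φ0)
  f := T.xi μ (Q.nv μ (tw x0 φ0))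
  mem := S.Lam_mem_NN μ Q (tw x0 φ0)
  mem' := S.LamR_mem μ Q (tw x0 φ0)
  sa := QMap.Lam_isSelfAdjoint (K := K) μ Q (tw x0 φ0) (tw_neg x0 φ0 hφ.even)
  sa' := S.LamR_isSelfAdjoint μ Q (tw x0 φ0) (tw_neg x0 φ0 hφ.even)
  base := fun x => S.base μ Q (tw x0 φ0) (tw x0 φ0) x

private theorem UF1_win (hSO : S.SO μ Set.univ) (x0 : V →L[ℝ] ℝ) (φ0 : C_c(V, ℝ))
    (hφ : IsDens μ Q φ0) (a : ℝ) (ha : 0 < a) (ha1 : a < 1) :
    ∃ W : VWin (S.lrep μ hSO), W.p = cf (wp a) (Q.Lam μ K (tw x0 φ0)) ∧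
      W.p' = cf (wp a) (S.LamR μ Q (tw x0 φ0)) ∧
      (∃ f1 : Lp ℂ 2 μ, W.v = T.xi μ f1 ∧ Q.P μ ℂ 1 f1 = f1) ∧
      W.p W.v = cf (wpt a) (Q.Lam μ K (tw x0 φ0)) (T.xi μ (Q.nv μ (tw x0 φ0))) ∧
      W.p' W.v = cf (wpt a) (S.LamR μ Q (tw x0 φ0)) (T.xi μ (Q.nv μ (tw x0 φ0))) := by
  have hne : (cf (wpt a) (UF1_pre μ S Q hSO x0 φ0 hφ).h) (UF1_pre μ S Q hSO x0 φ0 hφ).f ≠ 0 := by
    have h1 := hφ.win_ne (T := T) x0 a ha ha1
    rw [UF1_cf_eq] at h1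
    exact h1
  obtain ⟨W, h1, h2, h3, h4, h5⟩ := UF1_exists (UF1_pre μ S Q hSO x0 φ0 hφ) a ha hne
  refine ⟨W, h1, h2, ?_, h4, h5⟩
  have hh : IsSelfAdjoint (Q.Lam μ K (tw x0 φ0)) :=
    QMap.Lam_isSelfAdjoint (K := K) μ Q (tw x0 φ0) (tw_neg x0 φ0 hφ.even)
  set B : Lp K 2 μ →L[ℂ] Lp K 2 μ :=
    rproj (cf (wp a) (Q.Lam μ K (tw x0 φ0))) * cf (wq a) (Q.Lam μ K (tw x0 φ0)) with hB
  have hBc : ∀ c : K →L[ℂ] K, B * oneT μ c = oneT μ c * B := by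
    intro c
    refine (UF1_comm_B _ hh a ha (oneT μ c) (Q.Lam_oneT μ (tw x0 φ0) c).symm ?_).symm
    rw [← oneT_starW]
    exact (Q.Lam_oneT μ (tw x0 φ0) (star c)).symm
  have hBP : Q.P μ K 1 * B = B * Q.P μ K 1 := by
    refine UF1_comm_B _ hh a ha (Q.P μ K 1) (Q.Lam_P μ (tw x0 φ0) 1).symm ?_
    rw [Q.P_star μ]
    exact (Q.Lam_P μ (tw x0 φ0) 1).symm
  obtain ⟨f1, hf1⟩ := exists_tens_of_comm μ B hBc (T.ι 1) (Q.nv μ (tw x0 φ0))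
  have hv : W.v = T.xi μ f1 := h3.trans hf1
  refine ⟨f1, hv, ?_⟩
  have hne1 : T.ι 1 ≠ 0 := by
    rw [← norm_ne_zero_iff, T.norm_one]
    exact one_ne_zero
  refine Q.P_inj μ (T.ι 1) hne1 f1 ?_
  have e1 : Q.P μ K 1 (B (T.xi μ (Q.nv μ (tw x0 φ0)))) =
      B (Q.P μ K 1 (T.xi μ (Q.nv μ (tw x0 φ0)))) :=
    congrArg (fun Z : Lp K 2 μ →L[ℂ] Lp K 2 μ => Z (T.xi μ (Q.nv μ (tw x0 φ0)))) hBP
  rw [Q.P_xi μ] at e1
  have e2 : B (T.xi μ (Q.nv μ (tw x0 φ0))) = tens μ (T.ι 1) f1 := hf1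
  rwa [e2] at e1

private theorem UF1_chi_zero (x : V) : chi (0 : V →L[ℝ] ℝ) x = 1 := by
  unfold chi
  simp

/-- F1 -/
theorem TrAct.exists_windows (hSO : S.SO μ Set.univ) (x0 : V →L[ℝ] ℝ) (φ0 : C_c(V, ℝ))
    (hφ : IsDens μ Q φ0) (ε : ℝ) (hε : 0 < ε) :
    ∃ W1 W2 : VWin (S.lrep μ hSO), W1.Linked W2 ∧
      (∃ f1 : Lp ℂ 2 μ, W1.v = T.xi μ f1 ∧ Q.P μ ℂ 1 f1 = f1) ∧
      (∃ f2 : Lp ℂ 2 μ, W2.v = T.xi μ f2 ∧ Q.P μ ℂ 1 f2 = f2) ∧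
      (∀ ζ ∈ closure (Set.range W1.p), ∫ l in (Q.U : Set G), φ0 (Q.q l) *
        ‖starRingEnd ℂ (chi x0 (Q.q l)) • (lam μ K).U l ζ - ζ‖ ^ 2 ∂μ ≤ ε * ‖ζ‖ ^ 2) ∧
      (∀ ζ ∈ closure (Set.range W2.p'), ∫ l in (Q.U : Set G), φ0 (Q.q l) *
        ‖S.Gam μ l ζ - ζ‖ ^ 2 ∂μ ≤ ε * ‖ζ‖ ^ 2) ∧
      Q.P μ K 1 * W1.p = W1.p * Q.P μ K 1 ∧ Q.P μ K 1 * W2.p = W2.p * Q.P μ K 1 ∧
      Q.P μ K 1 * W2.p' = W2.p' * Q.P μ K 1 ∧
      ∀ ζ ∈ closure (Set.range W2.p'), Q.P μ K 1 ζ = ζ → ζ ∈ Set.range (S.J μ Q) := by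
  set a : ℝ := max (1 / 2) (1 - ε / 2) with hadef
  have ha : 0 < a := lt_of_lt_of_le (by norm_num) (le_max_left _ _)
  have ha1 : a < 1 := max_lt (by norm_num) (by linarith)
  have haε : 2 * (1 - a) ≤ ε := by
    have : 1 - ε / 2 ≤ a := le_max_right _ _
    linarith
  obtain ⟨W1, hp1, hp1', hf1, hv1, hv1'⟩ := UF1_win μ S Q hSO x0 φ0 hφ a ha ha1
  obtain ⟨W2, hp2, hp2', hf2, hv2, hv2'⟩ := UF1_win μ S Q hSO 0 φ0 hφ a ha ha1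
  have hs1 : IsSelfAdjoint (Q.Lam μ K (tw x0 φ0)) :=
    QMap.Lam_isSelfAdjoint (K := K) μ Q (tw x0 φ0) (tw_neg x0 φ0 hφ.even)
  have hs2 : IsSelfAdjoint (S.LamR μ Q (tw 0 φ0)) :=
    S.LamR_isSelfAdjoint μ Q (tw 0 φ0) (tw_neg 0 φ0 hφ.even)
  have hPR : Q.P μ K 1 * S.LamR μ Q (tw 0 φ0) = S.LamR μ Q (tw 0 φ0) * Q.P μ K 1 :=
    (S.LamR_P μ Q (tw 0 φ0)).symm
  have hfin : ∀ (ζ : Lp K 2 μ) (r : ℝ), a * ‖ζ‖ ^ 2 ≤ r →
      2 * ‖ζ‖ ^ 2 - 2 * r ≤ ε * ‖ζ‖ ^ 2 := by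
    intro ζ r hr
    have h1 : 2 * (1 - a) * ‖ζ‖ ^ 2 ≤ ε * ‖ζ‖ ^ 2 :=
      mul_le_mul_of_nonneg_right haε (by positivity)
    nlinarith
  refine ⟨W1, W2, ?_, hf1, hf2, ?_, ?_, ?_, ?_, ?_, ?_⟩
  · exact UF1_linked (UF1_pre μ S Q hSO x0 φ0 hφ) (UF1_pre μ S Q hSO 0 φ0 hφ) a ha
      (fun x => S.base μ Q (tw x0 φ0) (tw 0 φ0) x) W1 W2 hp1 hv1' hp2' hv2
  · intro ζ hζ
    rw [hp1] at hζ
    rw [hφ.left x0 ζ]
    exact hfin ζ _ (UF1_re _ hs1 a ζ hζ)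
  · intro ζ hζ
    rw [hp2'] at hζ
    have h1 := hφ.right S 0 ζ
    simp only [UF1_chi_zero, one_smul] at h1
    rw [h1]
    exact hfin ζ _ (UF1_re _ hs2 a ζ hζ)
  · rw [hp1]
    exact UF1_comm' _ _ (Q.Lam_P (K := K) μ (tw x0 φ0) 1).symm _
  · rw [hp2]
    exact UF1_comm' _ _ (Q.Lam_P (K := K) μ (tw 0 φ0) 1).symm _
  · rw [hp2']
    exact UF1_comm' _ _ hPR _
  · intro ζ hζ hPζ
    rw [hp2'] at hζ
    exact UF1_range' _ _ hs2 a ha hPR (Q.P_idem μ 1) _ (S.J_closed μ Q)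
      (fun y hy => (S.LamR_range μ Q (tw 0 φ0) y hy).imp fun x hx => hx.symm) ζ hζ hPζ

end

end Pool.Agent.AbCoc
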