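import Pool.Agent.Lib_MP_418a80_un.UnC0

/-! # C-d, C-e: the isometry `J : L²(V; K) → L²(G; K)`, `(J x)(s) = 1_U(s) U_s⁻¹ x(q s)` -/

set_option autoImplicit false
set_option linter.unusedVariables false
set_option linter.unusedSectionVars false

open MeasureTheory Topology Filter CompactlySupported
open scoped ENNReal NNReal

namespace Pool.Agent.AbCoc

universe u v w z

section
variable {A : Type u} [CStarAlgebra A] {K : Type v} [NormedAddCommGroup K]
  [InnerProductSpace ℂ K] [CompleteSpace K]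
variable {G : Type w} [Group G] [TopologicalSpace G] [IsTopologicalGroup G]
  [SecondCountableTopology G] [LocallyCompactSpace G] [MeasurableSpace G] [BorelSpace G]
  (μ : Measure G) [μ.IsHaarMeasure] {T : TrAlg A K} (S : TrAct G T)
  {V : Type z} [NormedAddCommGroup V] [NormedSpace ℝ V] [FiniteDimensional ℝ V]
  [MeasurableSpace V] [BorelSpace V] (Q : QMap G V)

/-- the image of `μ|U` under `q` -/
noncomputable def QMap.kap : Measure V := (μ.restrict (Q.U : Set G)).map Q.q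

omit [SecondCountableTopology G] [LocallyCompactSpace G] [IsTopologicalGroup G]
  [FiniteDimensional ℝ V] in
private theorem UnC2_q_meas : Measurable Q.q := Q.cont.measurable

private theorem UnC2_U_meas : MeasurableSet (Q.U : Set G) := Q.isOpen.measurableSet

private theorem UnC2_cont : Continuous fun p : G × K => S.U.U p.1⁻¹ p.2 := by
  rw [continuous_iff_continuousAt]
  rintro ⟨g0, η0⟩
  rw [ContinuousAt, tendsto_iff_norm_sub_tendsto_zero]
  have h0 : Continuous fun p : G × K => S.U.U p.1⁻¹ η0 :=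
    (S.U.cont η0).comp (continuous_inv.comp continuous_fst)
  have h1 : Tendsto (fun p : G × K => ‖p.2 - η0‖
      + ‖S.U.U p.1⁻¹ η0 - S.U.U g0⁻¹ η0‖)
      (𝓝 (g0, η0)) (𝓝 (‖η0 - η0‖ + ‖S.U.U g0⁻¹ η0 - S.U.U g0⁻¹ η0‖)) := by
    refine Tendsto.add (Tendsto.norm ?_) (Tendsto.norm ?_)
    · exact (continuous_snd.sub continuous_const).tendsto (g0, η0)
    · exact (h0.sub continuous_const).tendsto (g0, η0)
  simp only [sub_self, norm_zero, add_zero] at h1
  refine squeeze_zero (fun p => norm_nonneg _) (fun p => ?_) h1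
  have e : S.U.U p.1⁻¹ p.2 - S.U.U g0⁻¹ η0 = S.U.U p.1⁻¹ (p.2 - η0)
      + (S.U.U p.1⁻¹ η0 - S.U.U g0⁻¹ η0) := by
    rw [map_sub]
    abel
  change ‖S.U.U p.1⁻¹ p.2 - S.U.U g0⁻¹ η0‖ ≤ _
  rw [e]
  refine (norm_add_le _ _).trans (add_le_add ?_ le_rfl)
  rw [S.U.norm_map]

private theorem UnC2_ae {p : V → Prop} (h : ∀ᵐ v ∂(Q.kap μ), p v) :
    ∀ᵐ s ∂μ, s ∈ Q.U → p (Q.q s) := by
  have h1 : ∀ᵐ s ∂(μ.restrict (Q.U : Set G)), p (Q.q s) :=
    ae_of_ae_map (UnC2_q_meas Q).aemeasurable h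
  exact (ae_restrict_iff' (UnC2_U_meas Q)).1 h1

private theorem UnC2_memLp_q (x : Lp K 2 (Q.kap μ)) :
    MemLp (fun s => x (Q.q s)) 2 (μ.restrict (Q.U : Set G)) := by
  have h : MemLp x 2 ((μ.restrict (Q.U : Set G)).map Q.q) := Lp.memLp x
  exact h.comp_of_map (UnC2_q_meas Q).aemeasurable

theorem QMap.memLp_J (x : Lp K 2 (Q.kap μ)) :
    MemLp (fun s => (Q.U : Set G).indicator (fun s => S.U.U s⁻¹ (x (Q.q s))) s) 2 μ := by
  have h0 := UnC2_memLp_q μ Q x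
  have h1 : MemLp (fun s => S.U.U s⁻¹ (x (Q.q s))) 2 (μ.restrict (Q.U : Set G)) := by
    have h2 : AEStronglyMeasurable (fun s : G => (s, x (Q.q s))) (μ.restrict (Q.U : Set G)) :=
      aestronglyMeasurable_id.prodMk h0.aestronglyMeasurable
    have h3 : AEStronglyMeasurable (fun s => S.U.U s⁻¹ (x (Q.q s)))
        (μ.restrict (Q.U : Set G)) := by
      have h4 := (UnC2_cont S).comp_aestronglyMeasurable h2
      exact h4
    exact h0.of_le h3 (Filter.Eventually.of_forall fun s => (S.U.norm_map _ _).le)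
  exact (memLp_indicator_iff_restrict (UnC2_U_meas Q)).2 h1

theorem QMap.norm_J (x : Lp K 2 (Q.kap μ)) : ‖(Q.memLp_J μ S x).toLp _‖ = ‖x‖ := by
  have h1 : eLpNorm (fun s => (Q.U : Set G).indicator (fun s => S.U.U s⁻¹ (x (Q.q s))) s) 2 μ
      = eLpNorm x 2 (Q.kap μ) := by
    have h2 : eLpNorm (fun s => (Q.U : Set G).indicator (fun s => S.U.U s⁻¹ (x (Q.q s))) s) 2 μ
        = eLpNorm (fun s => S.U.U s⁻¹ (x (Q.q s))) 2 (μ.restrict (Q.U : Set G)) :=
      eLpNorm_indicator_eq_eLpNorm_restrict (UnC2_U_meas Q)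
    have h3 : eLpNorm (fun s => S.U.U s⁻¹ (x (Q.q s))) 2 (μ.restrict (Q.U : Set G))
        = eLpNorm (x ∘ Q.q) 2 (μ.restrict (Q.U : Set G)) := by
      refine eLpNorm_congr_norm_ae (Filter.Eventually.of_forall fun s => ?_)
      rw [S.U.norm_map]
      rfl
    rw [h2, h3]
    exact (eLpNorm_map_measure (Lp.aestronglyMeasurable x) (UnC2_q_meas Q).aemeasurable).symm
  rw [Lp.norm_toLp, h1, Lp.norm_def]

/-- the isometry `J` -/
noncomputable def TrAct.J : Lp K 2 (Q.kap μ) →L[ℂ] Lp K 2 μ :=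
  LinearMap.mkContinuous
    { toFun := fun x => (Q.memLp_J μ S x).toLp _
      map_add' := by
        intro x y
        apply Lp.ext
        filter_upwards [(Q.memLp_J μ S (x + y)).coeFn_toLp, (Q.memLp_J μ S x).coeFn_toLp,
          (Q.memLp_J μ S y).coeFn_toLp, UnC2_ae μ Q (Lp.coeFn_add x y),
          Lp.coeFn_add ((Q.memLp_J μ S x).toLp _) ((Q.memLp_J μ S y).toLp _)]
          with s h1 h2 h3 h4 h5
        rw [h1, h5, Pi.add_apply, h2, h3]
        by_cases hs : s ∈ (Q.U : Set G)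
        · rw [Set.indicator_of_mem hs, Set.indicator_of_mem hs, Set.indicator_of_mem hs,
            h4 hs, Pi.add_apply, map_add]
        · rw [Set.indicator_of_notMem hs, Set.indicator_of_notMem hs,
            Set.indicator_of_notMem hs, add_zero]
      map_smul' := by
        intro c x
        apply Lp.ext
        filter_upwards [(Q.memLp_J μ S (c • x)).coeFn_toLp, (Q.memLp_J μ S x).coeFn_toLp,
          UnC2_ae μ Q (Lp.coeFn_smul c x),
          Lp.coeFn_smul c ((Q.memLp_J μ S x).toLp _)]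
          with s h1 h2 h4 h5
        rw [h1, RingHom.id_apply, h5, Pi.smul_apply, h2]
        by_cases hs : s ∈ (Q.U : Set G)
        · rw [Set.indicator_of_mem hs, Set.indicator_of_mem hs, h4 hs, Pi.smul_apply, map_smul]
        · rw [Set.indicator_of_notMem hs, Set.indicator_of_notMem hs, smul_zero] } 1 (fun x => by
      rw [one_mul]
      exact (Q.norm_J μ S x).le)

theorem TrAct.J_ae (x : Lp K 2 (Q.kap μ)) : S.J μ Q x =ᵐ[μ]
    fun s => (Q.U : Set G).indicator (fun s => S.U.U s⁻¹ (x (Q.q s))) s :=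
  (Q.memLp_J μ S x).coeFn_toLp

theorem TrAct.J_norm (x : Lp K 2 (Q.kap μ)) : ‖S.J μ Q x‖ = ‖x‖ := Q.norm_J μ S x

theorem TrAct.J_inner (x y : Lp K 2 (Q.kap μ)) :
    inner ℂ (S.J μ Q x) (S.J μ Q y) = inner ℂ x y := by
  let Ji : Lp K 2 (Q.kap μ) →ₗᵢ[ℂ] Lp K 2 μ :=
    { toLinearMap := (S.J μ Q).toLinearMap
      norm_map' := fun x => S.J_norm μ Q x }
  exact Ji.inner_map_map x y

/-- `1 ⊗ c` on `L²(V; K)` -/
noncomputable def QMap.onV (c : K →L[ℂ] K) : Lp K 2 (Q.kap μ) →L[ℂ] Lp K 2 (Q.kap μ) :=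
  c.compLpL 2 (Q.kap μ)

theorem QMap.onV_ae (c : K →L[ℂ] K) (x : Lp K 2 (Q.kap μ)) :
    Q.onV μ c x =ᵐ[Q.kap μ] fun v => c (x v) := c.coeFn_compLpL x

private theorem UnC2_U_Lm (g : G) (a : A) (ξ : K) :
    S.U.U g (T.Lm a ξ) = T.Lm (S.α g a) (S.U.U g ξ) := by
  have h1 : (S.U.U g).comp (T.Lm a) = (T.Lm (S.α g a)).comp (S.U.U g) := by
    refine T.Lm_ext fun b => ?_
    change S.U.U g (T.Lm a (T.ι b)) = T.Lm (S.α g a) (S.U.U g (T.ι b))
    rw [T.Lm_ι, S.U_ι, S.U_ι, T.Lm_ι, map_mul]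
  exact congrArg (fun Z : K →L[ℂ] K => Z ξ) h1

private theorem UnC2_U_Rm (g : G) (a : A) (ξ : K) :
    S.U.U g (T.Rm a ξ) = T.Rm (S.α g a) (S.U.U g ξ) := by
  have h1 : (S.U.U g).comp (T.Rm a) = (T.Rm (S.α g a)).comp (S.U.U g) := by
    refine T.Lm_ext fun b => ?_
    change S.U.U g (T.Rm a (T.ι b)) = T.Rm (S.α g a) (S.U.U g (T.ι b))
    rw [T.Rm_ι, S.U_ι, S.U_ι, T.Rm_ι, map_mul]
  exact congrArg (fun Z : K →L[ℂ] K => Z ξ) h1

/-- `π(m) J = J L_m` -/
theorem TrAct.J_pi (m : A) (x : Lp K 2 (Q.kap μ)) :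
    S.pi μ m (S.J μ Q x) = S.J μ Q (Q.onV μ (T.Lm m) x) := by
  apply Lp.ext
  filter_upwards [S.pi_ae μ m (S.J μ Q x), S.J_ae μ Q x, S.J_ae μ Q (Q.onV μ (T.Lm m) x),
    UnC2_ae μ Q (Q.onV_ae μ (T.Lm m) x)] with s h1 h2 h3 h4
  rw [h1, h2, h3]
  by_cases hs : s ∈ (Q.U : Set G)
  · rw [Set.indicator_of_mem hs, Set.indicator_of_mem hs, h4 hs, UnC2_U_Lm]
  · rw [Set.indicator_of_notMem hs, Set.indicator_of_notMem hs, map_zero]

/-- `R_m J = J R_m` for `m` fixed by `U` -/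
theorem TrAct.J_Rm (m : A) (hm : ∀ u ∈ Q.U, S.α u m = m) (x : Lp K 2 (Q.kap μ)) :
    oneT μ (T.Rm m) (S.J μ Q x) = S.J μ Q (Q.onV μ (T.Rm m) x) := by
  apply Lp.ext
  filter_upwards [oneT_ae μ (T.Rm m) (S.J μ Q x), S.J_ae μ Q x,
    S.J_ae μ Q (Q.onV μ (T.Rm m) x), UnC2_ae μ Q (Q.onV_ae μ (T.Rm m) x)] with s h1 h2 h3 h4
  rw [h1, h2, h3]
  by_cases hs : s ∈ (Q.U : Set G)
  · rw [Set.indicator_of_mem hs, Set.indicator_of_mem hs, h4 hs, UnC2_U_Rm,
      hm _ (Q.U.inv_mem hs)]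
  · rw [Set.indicator_of_notMem hs, Set.indicator_of_notMem hs, map_zero]

/-- the range of `J` is closed -/
theorem TrAct.J_closed : IsClosed (Set.range (S.J μ Q)) := by
  have h1 : Isometry (S.J μ Q) :=
    AddMonoidHomClass.isometry_of_norm (S.J μ Q) (fun x => S.J_norm μ Q x)
  exact h1.isClosedEmbedding.isClosed_range

end

end Pool.Agent.AbCoc
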