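import Pool.Agent.Lib_MP_418a80_un.UA0
import Pool.Agent.Lib_MP_418a80_un.UnC1
import Pool.Agent.Lib_MP_418a80_un.UnC2

/-! # F2 (A6): the supremum is bounded by the integral -/

set_option autoImplicit false
set_option linter.unusedVariables false
set_option linter.unusedSectionVars false

open MeasureTheory Topology Filter CompactlySupported
open scoped ENNReal NNReal ComplexConjugate

namespace Pool.Agent.AbCoc

universe u v w z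

section
variable {A : Type u} [CStarAlgebra A] {K : Type v} [NormedAddCommGroup K]
  [InnerProductSpace ℂ K] [CompleteSpace K]
variable {G : Type w} [Group G] [TopologicalSpace G] [IsTopologicalGroup G]
  [SecondCountableTopology G] [LocallyCompactSpace G] [MeasurableSpace G] [BorelSpace G]
  (μ : Measure G) [μ.IsHaarMeasure] {T : TrAlg A K} (S : TrAct G T)
  {V : Type z} [NormedAddCommGroup V] [NormedSpace ℝ V] [FiniteDimensional ℝ V]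
  [MeasurableSpace V] [BorelSpace V] (Q : QMap G V)

private theorem F2_chi_cont (x0 : V →L[ℝ] ℝ) : Continuous (chi x0) := by
  unfold chi
  exact Complex.continuous_exp.comp ((Complex.continuous_ofReal.comp x0.continuous).mul
    continuous_const)

private theorem F2_cont (x0 : V →L[ℝ] ℝ) (x : K) :
    Continuous fun t => ‖S.U.U t x - chi x0 (Q.q t) • x‖ ^ 2 :=
  (((S.U.cont x).sub (((F2_chi_cont x0).comp Q.cont).smul continuous_const)).norm).pow 2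

private theorem F2_tri (x0 : V →L[ℝ] ℝ) (x : K) {l t : G} (hl : l ∈ Q.U) (ht : t ∈ Q.U) :
    ‖S.U.U l x - chi x0 (Q.q l) • x‖ ^ 2 ≤
      2 * ‖S.U.U (l * t) x - chi x0 (Q.q (l * t)) • x‖ ^ 2 +
      2 * ‖S.U.U t x - chi x0 (Q.q t) • x‖ ^ 2 := by
  have h1 : chi x0 (Q.q t) • (S.U.U l x - chi x0 (Q.q l) • x) =
      (S.U.U (l * t) x - chi x0 (Q.q (l * t)) • x) -
        S.U.U l (S.U.U t x - chi x0 (Q.q t) • x) := by
    rw [Q.map_mul l hl t ht, chi_add, S.U.mul_apply, map_sub, map_smul, smul_sub, smul_smul,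
      mul_comm (chi x0 (Q.q t)) (chi x0 (Q.q l))]
    abel
  have h2 : ‖S.U.U l x - chi x0 (Q.q l) • x‖ ≤
      ‖S.U.U (l * t) x - chi x0 (Q.q (l * t)) • x‖ + ‖S.U.U t x - chi x0 (Q.q t) • x‖ := by
    have h3 : ‖chi x0 (Q.q t) • (S.U.U l x - chi x0 (Q.q l) • x)‖ =
        ‖S.U.U l x - chi x0 (Q.q l) • x‖ := by
      rw [norm_smul, norm_chi, one_mul]
    rw [← h3, h1]
    refine (norm_sub_le _ _).trans ?_
    rw [S.U.norm_map]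
  have h4 := pow_le_pow_left₀ (norm_nonneg _) h2 2
  nlinarith [sq_nonneg (‖S.U.U (l * t) x - chi x0 (Q.q (l * t)) • x‖ -
    ‖S.U.U t x - chi x0 (Q.q t) • x‖)]

private theorem F2_compact (R : ℝ) : IsCompact {t | t ∈ Q.U ∧ ‖Q.q t‖ ≤ R} := by
  have hp : ProperSpace V := FiniteDimensional.proper ℝ V
  have h1 := Q.proper _ (isCompact_closedBall (0 : V) R)
  have h2 : {t | t ∈ Q.U ∧ ‖Q.q t‖ ≤ R} = {u | u ∈ Q.U ∧ Q.q u ∈ Metric.closedBall (0 : V) R} := by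
    ext t
    simp only [Set.mem_ofPred_eq, mem_closedBall_zero_iff]
  rw [h2]
  exact h1

private theorem F2_closed (R : ℝ) : IsClosed {t | t ∈ Q.U ∧ ‖Q.q t‖ ≤ R} := by
  have h1 : IsClosed (Q.U : Set G) := Q.U.isClosed_of_isOpen Q.isOpen
  have h2 : IsClosed {t | ‖Q.q t‖ ≤ R} := isClosed_le Q.cont.norm continuous_const
  exact h1.inter h2

private theorem F2_pos {R : ℝ} (hR : 0 < R) : 0 < μ {t | t ∈ Q.U ∧ ‖Q.q t‖ ≤ R} := by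
  have h1 : IsOpen {t | t ∈ Q.U ∧ ‖Q.q t‖ < R} :=
    Q.isOpen.inter (isOpen_lt Q.cont.norm continuous_const)
  have h2 : ({t | t ∈ Q.U ∧ ‖Q.q t‖ < R}).Nonempty :=
    ⟨1, Q.U.one_mem, by rw [Q.q_one, norm_zero]; exact hR⟩
  exact (h1.measure_pos μ h2).trans_le (measure_mono fun t ht => ⟨ht.1, ht.2.le⟩)

private theorem F2_int (x0 : V →L[ℝ] ℝ) (φ0 : C_c(V, ℝ)) (x : K) :
    IntegrableOn (fun t => φ0 (Q.q t) * ‖S.U.U t x - chi x0 (Q.q t) • x‖ ^ 2)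
      (Q.U : Set G) μ := by
  have h1 := Q.proper _ φ0.hasCompactSupport.isCompact
  have hc : Continuous fun t => φ0 (Q.q t) * ‖S.U.U t x - chi x0 (Q.q t) • x‖ ^ 2 :=
    (φ0.continuous.comp Q.cont).mul (F2_cont S Q x0 x)
  have hm : MeasurableSet {u | u ∈ Q.U ∧ Q.q u ∈ tsupport φ0} :=
    ((Q.U.isClosed_of_isOpen Q.isOpen).inter
      ((isClosed_tsupport φ0).preimage Q.cont)).measurableSet
  refine (hc.continuousOn.integrableOn_compact' h1 hm).of_forall_diff_eq_zero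
    Q.isOpen.measurableSet fun t ht => ?_
  have h2 : Q.q t ∉ tsupport φ0 := fun h => ht.2 ⟨ht.1, h⟩
  rw [image_eq_zero_of_notMem_tsupport h2, zero_mul]

/-- A6: for `φ₀ ≥ δ' > 0` on the ball of radius `2R` (`R > 0`) -/
theorem TrAct.sup_near_le (x0 : V →L[ℝ] ℝ) (φ0 : C_c(V, ℝ)) (hφ : IsDens μ Q φ0) (R : ℝ)
    (hR : 0 < R) (δ' : ℝ) (hδ' : 0 < δ') (hφR : ∀ x, ‖x‖ ≤ 2 * R → δ' ≤ φ0 x) :
    ∃ C : ℝ, 0 ≤ C ∧ ∀ (x : K), ∀ l ∈ Q.U, ‖Q.q l‖ ≤ R →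
      ‖S.U.U l x - chi x0 (Q.q l) • x‖ ^ 2
        ≤ C * ∫ t in (Q.U : Set G), φ0 (Q.q t) *
          ‖S.U.U t x - chi x0 (Q.q t) • x‖ ^ 2 ∂μ := by
  have hB := F2_compact Q R
  have hB2 := F2_compact Q (2 * R)
  have hBm : MeasurableSet {t | t ∈ Q.U ∧ ‖Q.q t‖ ≤ R} := (F2_closed Q R).measurableSet
  have hB2m : MeasurableSet {t | t ∈ Q.U ∧ ‖Q.q t‖ ≤ 2 * R} := (F2_closed Q (2 * R)).measurableSet
  have hBtop : μ {t | t ∈ Q.U ∧ ‖Q.q t‖ ≤ R} ≠ ∞ := hB.measure_lt_top.ne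
  have hM : 0 < (μ {t | t ∈ Q.U ∧ ‖Q.q t‖ ≤ R}).toReal :=
    ENNReal.toReal_pos (F2_pos μ Q hR).ne' hBtop
  obtain ⟨M, hMe⟩ : ∃ M : ℝ, M = (μ {t | t ∈ Q.U ∧ ‖Q.q t‖ ≤ R}).toReal := ⟨_, rfl⟩
  rw [← hMe] at hM
  refine ⟨4 / (δ' * M), by positivity, fun x l hl hlR => ?_⟩
  have hc := F2_cont S Q x0 x
  have hc' : Continuous fun t => ‖S.U.U (l * t) x - chi x0 (Q.q (l * t)) • x‖ ^ 2 :=
    hc.comp (continuous_const_mul l)
  have hi2 : IntegrableOn (fun t => ‖S.U.U t x - chi x0 (Q.q t) • x‖ ^ 2)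
      {t | t ∈ Q.U ∧ ‖Q.q t‖ ≤ 2 * R} μ := hc.continuousOn.integrableOn_compact' hB2 hB2m
  have hi : IntegrableOn (fun t => ‖S.U.U t x - chi x0 (Q.q t) • x‖ ^ 2)
      {t | t ∈ Q.U ∧ ‖Q.q t‖ ≤ R} μ := hc.continuousOn.integrableOn_compact' hB hBm
  have hi' : IntegrableOn (fun t => ‖S.U.U (l * t) x - chi x0 (Q.q (l * t)) • x‖ ^ 2)
      {t | t ∈ Q.U ∧ ‖Q.q t‖ ≤ R} μ := hc'.continuousOn.integrableOn_compact' hB hBm
  have hnn : 0 ≤ᵐ[μ.restrict {t | t ∈ Q.U ∧ ‖Q.q t‖ ≤ 2 * R}]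
      fun t => ‖S.U.U t x - chi x0 (Q.q t) • x‖ ^ 2 :=
    Eventually.of_forall fun t => by positivity
  have h1 : ∫ t in {t | t ∈ Q.U ∧ ‖Q.q t‖ ≤ R}, ‖S.U.U t x - chi x0 (Q.q t) • x‖ ^ 2 ∂μ
      ≤ ∫ t in {t | t ∈ Q.U ∧ ‖Q.q t‖ ≤ 2 * R}, ‖S.U.U t x - chi x0 (Q.q t) • x‖ ^ 2 ∂μ :=
    setIntegral_mono_set hi2 hnn (Eventually.of_forall
      (fun t (ht : t ∈ Q.U ∧ ‖Q.q t‖ ≤ R) => (⟨ht.1, by linarith [ht.2]⟩ :
        t ∈ Q.U ∧ ‖Q.q t‖ ≤ 2 * R)))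
  have h2 : ∫ t in {t | t ∈ Q.U ∧ ‖Q.q t‖ ≤ R},
        ‖S.U.U (l * t) x - chi x0 (Q.q (l * t)) • x‖ ^ 2 ∂μ
      ≤ ∫ t in {t | t ∈ Q.U ∧ ‖Q.q t‖ ≤ 2 * R}, ‖S.U.U t x - chi x0 (Q.q t) • x‖ ^ 2 ∂μ := by
    have h3 := (measurePreserving_mul_left μ l).setIntegral_image_emb
      (measurableEmbedding_mulLeft l) (fun t => ‖S.U.U t x - chi x0 (Q.q t) • x‖ ^ 2)
      {t | t ∈ Q.U ∧ ‖Q.q t‖ ≤ R}
    rw [← h3]
    refine setIntegral_mono_set hi2 hnn (Eventually.of_forall ?_)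
    rintro _ ⟨t, ht, rfl⟩
    refine ⟨Q.U.mul_mem hl ht.1, ?_⟩
    change ‖Q.q (l * t)‖ ≤ 2 * R
    rw [Q.map_mul l hl t ht.1]
    have h4 := norm_add_le (Q.q l) (Q.q t)
    have h5 : ‖Q.q t‖ ≤ R := ht.2
    linarith
  have h4 : M * ‖S.U.U l x - chi x0 (Q.q l) • x‖ ^ 2
      ≤ 2 * ∫ t in {t | t ∈ Q.U ∧ ‖Q.q t‖ ≤ R},
          ‖S.U.U (l * t) x - chi x0 (Q.q (l * t)) • x‖ ^ 2 ∂μ
        + 2 * ∫ t in {t | t ∈ Q.U ∧ ‖Q.q t‖ ≤ R}, ‖S.U.U t x - chi x0 (Q.q t) • x‖ ^ 2 ∂μ := by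
    rw [← integral_const_mul, ← integral_const_mul,
      ← integral_add (hi'.const_mul 2) (hi.const_mul 2)]
    have h5 : M * ‖S.U.U l x - chi x0 (Q.q l) • x‖ ^ 2
        = ∫ _ in {t | t ∈ Q.U ∧ ‖Q.q t‖ ≤ R}, ‖S.U.U l x - chi x0 (Q.q l) • x‖ ^ 2 ∂μ := by
      rw [setIntegral_const, smul_eq_mul, hMe]
      rfl
    rw [h5]
    refine setIntegral_mono_on (integrableOn_const hBtop) ?_ hBm fun t ht =>
      F2_tri S Q x0 x hl ht.1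
    exact (hi'.const_mul 2).add (hi.const_mul 2)
  have h6 : δ' * ∫ t in {t | t ∈ Q.U ∧ ‖Q.q t‖ ≤ 2 * R},
        ‖S.U.U t x - chi x0 (Q.q t) • x‖ ^ 2 ∂μ
      ≤ ∫ t in (Q.U : Set G), φ0 (Q.q t) * ‖S.U.U t x - chi x0 (Q.q t) • x‖ ^ 2 ∂μ := by
    have h7 := F2_int μ S Q x0 φ0 x
    have h8 : δ' * ∫ t in {t | t ∈ Q.U ∧ ‖Q.q t‖ ≤ 2 * R},
          ‖S.U.U t x - chi x0 (Q.q t) • x‖ ^ 2 ∂μ
        ≤ ∫ t in {t | t ∈ Q.U ∧ ‖Q.q t‖ ≤ 2 * R},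
          φ0 (Q.q t) * ‖S.U.U t x - chi x0 (Q.q t) • x‖ ^ 2 ∂μ := by
      rw [← integral_const_mul]
      refine setIntegral_mono_on (hi2.const_mul δ') (h7.mono_set fun t ht => ht.1) hB2m
        fun t ht => ?_
      exact mul_le_mul_of_nonneg_right (hφR _ ht.2) (by positivity)
    refine h8.trans (setIntegral_mono_set h7 (Eventually.of_forall fun t => ?_)
      (Eventually.of_forall fun t ht => ht.1))
    exact mul_nonneg (hφ.nonneg _) (by positivity)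
  have h9 : δ' * (M * ‖S.U.U l x - chi x0 (Q.q l) • x‖ ^ 2) ≤
      4 * ∫ t in (Q.U : Set G), φ0 (Q.q t) * ‖S.U.U t x - chi x0 (Q.q t) • x‖ ^ 2 ∂μ := by
    have h10 : M * ‖S.U.U l x - chi x0 (Q.q l) • x‖ ^ 2 ≤
        4 * ∫ t in {t | t ∈ Q.U ∧ ‖Q.q t‖ ≤ 2 * R},
          ‖S.U.U t x - chi x0 (Q.q t) • x‖ ^ 2 ∂μ := by linarith
    have h11 := mul_le_mul_of_nonneg_left h10 hδ'.le
    linarith
  rw [div_mul_eq_mul_div, le_div_iff₀ (by positivity)]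
  linarith

end

end Pool.Agent.AbCoc
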