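import Pool.Agent.Lib_MP_418a80_un.UF2

/-! # F3: the inequality integrated over `V` -/

set_option autoImplicit false
set_option linter.unusedVariables false
set_option linter.unusedSectionVars false

open MeasureTheory Topology Filter CompactlySupported
open scoped ENNReal NNReal ComplexConjugate

namespace Pool.Agent.AbCoc

universe u v w z

section
variable {A : Type u} [CStarAlgebra A] {K : Type v} [NormedAddCommGroup K]
  [InnerProductSpace ℂ K] [CompleteSpace K]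
variable {G : Type w} [Group G] [TopologicalSpace G] [IsTopologicalGroup G]
  [SecondCountableTopology G] [LocallyCompactSpace G] [MeasurableSpace G] [BorelSpace G]
  (μ : Measure G) [μ.IsHaarMeasure] {T : TrAlg A K} (S : TrAct G T)
  {V : Type z} [NormedAddCommGroup V] [NormedSpace ℝ V] [FiniteDimensional ℝ V]
  [MeasurableSpace V] [BorelSpace V] (Q : QMap G V)

open Classical in
private noncomputable def F3r (Q : QMap G V) (φ0 : C_c(V, ℝ)) (g : G) : ℝ :=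
  if g ∈ Q.U then φ0 (Q.q g) else 0

private theorem F3r_mem (φ0 : C_c(V, ℝ)) {g : G} (hg : g ∈ Q.U) : F3r Q φ0 g = φ0 (Q.q g) := by
  unfold F3r
  rw [if_pos hg]

private theorem F3r_not (φ0 : C_c(V, ℝ)) {g : G} (hg : g ∉ Q.U) : F3r Q φ0 g = 0 := by
  unfold F3r
  rw [if_neg hg]

private theorem F3r_cont (φ0 : C_c(V, ℝ)) : Continuous (F3r Q φ0) := by
  classical
  have h1 : IsClopen (Q.U : Set G) := ⟨Q.U.isClosed_of_isOpen Q.isOpen, Q.isOpen⟩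
  unfold F3r
  refine Continuous.if ?_ (φ0.continuous.comp Q.cont) continuous_const
  intro a ha
  have h2 : frontier {x | x ∈ Q.U} = ∅ := h1.frontier_eq
  rw [h2] at ha
  exact absurd ha (Set.notMem_empty a)

private theorem F3r_supp (φ0 : C_c(V, ℝ)) : HasCompactSupport (F3r Q φ0) := by
  have h1 := Q.proper _ φ0.hasCompactSupport.isCompact
  refine HasCompactSupport.intro h1 fun g hg => ?_
  by_cases h : g ∈ Q.U
  · rw [F3r_mem Q φ0 h]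
    by_contra h2
    exact hg ⟨h, subset_tsupport _ h2⟩
  · exact F3r_not Q φ0 h

private theorem F3_setInt (φ0 : C_c(V, ℝ)) (F : G → ℝ) :
    ∫ l in (Q.U : Set G), φ0 (Q.q l) * F l ∂μ = ∫ l, F3r Q φ0 l * F l ∂μ := by
  rw [← integral_indicator Q.isOpen.measurableSet]
  congr 1
  funext l
  by_cases hl : l ∈ Q.U
  · rw [Set.indicator_of_mem (show l ∈ (Q.U : Set G) from hl), F3r_mem Q φ0 hl]
  · rw [Set.indicator_of_notMem (show l ∉ (Q.U : Set G) from hl), F3r_not Q φ0 hl, zero_mul]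

private theorem F3r_int (φ0 : C_c(V, ℝ)) : Integrable (F3r Q φ0) μ :=
  (F3r_cont Q φ0).integrable_of_hasCompactSupport (F3r_supp Q φ0)

private theorem F3r_nonneg {φ0 : C_c(V, ℝ)} (hφ : ∀ x, 0 ≤ φ0 x) (g : G) : 0 ≤ F3r Q φ0 g := by
  by_cases hl : g ∈ Q.U
  · rw [F3r_mem Q φ0 hl]
    exact hφ _
  · rw [F3r_not Q φ0 hl]

private theorem F3_chi_cont (x0 : V →L[ℝ] ℝ) : Continuous fun t => chi x0 (Q.q t) := by
  have h : Continuous (chi x0) := by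
    unfold chi
    fun_prop
  exact h.comp Q.cont

private theorem F3_U_cont : Continuous fun p : G × K => S.U.U p.1 p.2 := by
  rw [continuous_iff_continuousAt]
  rintro ⟨g0, η0⟩
  rw [ContinuousAt, tendsto_iff_norm_sub_tendsto_zero]
  have h0 : Continuous fun p : G × K => S.U.U p.1 η0 := (S.U.cont η0).comp continuous_fst
  have h1 : Tendsto (fun p : G × K => ‖p.2 - η0‖ + ‖S.U.U p.1 η0 - S.U.U g0 η0‖)
      (𝓝 (g0, η0)) (𝓝 (‖η0 - η0‖ + ‖S.U.U g0 η0 - S.U.U g0 η0‖)) := by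
    refine Tendsto.add (Tendsto.norm ?_) (Tendsto.norm ?_)
    · exact (continuous_snd.sub continuous_const).tendsto (g0, η0)
    · exact (h0.sub continuous_const).tendsto (g0, η0)
  simp only [sub_self, norm_zero, add_zero] at h1
  refine squeeze_zero (fun p => norm_nonneg _) (fun p => ?_) h1
  have e : S.U.U p.1 p.2 - S.U.U g0 η0 = S.U.U p.1 (p.2 - η0)
      + (S.U.U p.1 η0 - S.U.U g0 η0) := by
    rw [map_sub]
    abel
  change ‖S.U.U p.1 p.2 - S.U.U g0 η0‖ ≤ _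
  rw [e]
  refine (norm_add_le _ _).trans (add_le_add ?_ le_rfl)
  rw [S.U.norm_map]

private theorem F3_D_cont (x0 : V →L[ℝ] ℝ) (φ0 : C_c(V, ℝ)) :
    Continuous fun p : G × K =>
      F3r Q φ0 p.1 * ‖S.U.U p.1 p.2 - chi x0 (Q.q p.1) • p.2‖ ^ 2 := by
  have h1 := F3r_cont Q φ0
  have h2 := F3_chi_cont Q x0
  have h3 := F3_U_cont S
  exact (h1.comp continuous_fst).mul
    ((h3.sub ((h2.comp continuous_fst).smul continuous_snd)).norm.pow 2)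

private theorem F3_D_le (x0 : V →L[ℝ] ℝ) (t : G) (x : K) :
    ‖S.U.U t x - chi x0 (Q.q t) • x‖ ≤ 2 * ‖x‖ := by
  refine (norm_sub_le _ _).trans ?_
  rw [S.U.norm_map, norm_smul, norm_chi]
  linarith

/-- the integral term is continuous in the vector -/
private theorem F3_I_cont (x0 : V →L[ℝ] ℝ) (φ0 : C_c(V, ℝ)) :
    Continuous fun x : K => ∫ t, F3r Q φ0 t * ‖S.U.U t x - chi x0 (Q.q t) • x‖ ^ 2 ∂μ := by
  rw [continuous_iff_continuousAt]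
  intro y
  refine MeasureTheory.continuousAt_of_dominated
    (bound := fun t => ‖F3r Q φ0 t‖ * (2 * (‖y‖ + 1)) ^ 2) ?_ ?_ ?_ ?_
  · refine Eventually.of_forall fun x => ?_
    exact ((F3_D_cont S Q x0 φ0).comp
      (continuous_id.prodMk continuous_const)).aestronglyMeasurable
  · filter_upwards [Metric.ball_mem_nhds y one_pos] with x hx
    refine Eventually.of_forall fun t => ?_
    have hx1 : ‖x‖ ≤ ‖y‖ + 1 := by
      have h1 : dist x y < 1 := hx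
      rw [dist_eq_norm] at h1
      have h2 := norm_sub_norm_le x y
      linarith
    rw [norm_mul, norm_pow, norm_norm]
    refine mul_le_mul_of_nonneg_left ?_ (norm_nonneg _)
    refine pow_le_pow_left₀ (norm_nonneg _) ((F3_D_le S Q x0 t x).trans ?_) 2
    linarith
  · exact (F3r_int μ Q φ0).norm.mul_const _
  · refine Eventually.of_forall fun t => ?_
    exact ((F3_D_cont S Q x0 φ0).comp
      (continuous_const.prodMk continuous_id)).continuousAt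

/-- F3a: the inequality on `K` -/
theorem TrAct.ineq_on_K (b1 b2 : A) (C R : ℝ) (hC : 0 ≤ C) (x0 : V →L[ℝ] ℝ) (n : ℕ)
    (g : Fin n → G) (m m' : Fin n → A) (d1 d2 : A)
    (h : ∀ (x a : A) (κ : ℝ), a = b1 * x * b2 → 0 ≤ κ →
      (∀ l ∈ Q.U, ‖Q.q l‖ ≤ R → ‖T.ι (S.α l a - chi x0 (Q.q l) • a)‖ ≤ κ) →
      ‖T.ι a‖ ^ 2 / 8 ≤ C * κ ^ 2 + S.ql 1 d1 a + S.qr 1 d2 a
        + ∑ i, (S.ql (g i) (m i) a + S.qr (g i) (m' i) a))
    (φ0 : C_c(V, ℝ)) (hφ0 : ∀ x, 0 ≤ φ0 x) (C' : ℝ) (hC' : 0 ≤ C')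
    (hsup : ∀ (x : K), ∀ l ∈ Q.U, ‖Q.q l‖ ≤ R →
      ‖S.U.U l x - chi x0 (Q.q l) • x‖ ^ 2
        ≤ C' * ∫ t in (Q.U : Set G), φ0 (Q.q t) *
          ‖S.U.U t x - chi x0 (Q.q t) • x‖ ^ 2 ∂μ) (ζ x : K)
    (hx : x = T.Lm b1 (T.Rm b2 ζ)) :
    ‖x‖ ^ 2 / 8 ≤ C * C' * ∫ t in (Q.U : Set G), φ0 (Q.q t) *
          ‖S.U.U t x - chi x0 (Q.q t) • x‖ ^ 2 ∂μ
      + (inner ℂ x (T.Lm d1 x)).re + (inner ℂ x (T.Rm d2 x)).re
      + ∑ i, ((inner ℂ x (T.Lm (m i) (S.U.U (g i) x))).re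
        + (inner ℂ x (T.Rm (m' i) (S.U.U (g i) x))).re) := by
  subst hx
  rw [F3_setInt μ Q φ0]
  refine T.dense.induction_on (p := fun ζ => ‖T.Lm b1 (T.Rm b2 ζ)‖ ^ 2 / 8
      ≤ C * C' * ∫ t, F3r Q φ0 t * ‖S.U.U t (T.Lm b1 (T.Rm b2 ζ))
          - chi x0 (Q.q t) • T.Lm b1 (T.Rm b2 ζ)‖ ^ 2 ∂μ
        + (inner ℂ (T.Lm b1 (T.Rm b2 ζ)) (T.Lm d1 (T.Lm b1 (T.Rm b2 ζ)))).re
        + (inner ℂ (T.Lm b1 (T.Rm b2 ζ)) (T.Rm d2 (T.Lm b1 (T.Rm b2 ζ)))).re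
        + ∑ i, ((inner ℂ (T.Lm b1 (T.Rm b2 ζ))
              (T.Lm (m i) (S.U.U (g i) (T.Lm b1 (T.Rm b2 ζ))))).re
          + (inner ℂ (T.Lm b1 (T.Rm b2 ζ))
              (T.Rm (m' i) (S.U.U (g i) (T.Lm b1 (T.Rm b2 ζ))))).re)) ζ ?_ ?_
  · have hc : Continuous fun ζ : K => T.Lm b1 (T.Rm b2 ζ) :=
      (T.Lm b1).continuous.comp (T.Rm b2).continuous
    have hop : ∀ c : K →L[ℂ] K, Continuous fun ζ : K =>
        (inner ℂ (T.Lm b1 (T.Rm b2 ζ)) (c (T.Lm b1 (T.Rm b2 ζ)))).re := fun c =>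
      Complex.continuous_re.comp (hc.inner (c.continuous.comp hc))
    refine isClosed_le ((hc.norm.pow 2).div_const 8) ?_
    refine Continuous.add (Continuous.add (Continuous.add ?_ (hop (T.Lm d1)))
      (hop (T.Rm d2))) ?_
    · exact continuous_const.mul ((F3_I_cont μ S Q x0 φ0).comp hc)
    · refine continuous_finsetSum _ fun i _ => ?_
      exact (hop ((T.Lm (m i)).comp (S.U.U (g i)))).add (hop ((T.Rm (m' i)).comp (S.U.U (g i))))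
  · intro z
    have e : T.Lm b1 (T.Rm b2 (T.ι z)) = T.ι (b1 * z * b2) := by
      rw [T.Rm_ι, T.Lm_ι, mul_assoc]
    rw [e]
    set a := b1 * z * b2 with ha
    set I := ∫ t, F3r Q φ0 t * ‖S.U.U t (T.ι a) - chi x0 (Q.q t) • T.ι a‖ ^ 2 ∂μ with hI
    have hI0 : 0 ≤ I := integral_nonneg fun t =>
      mul_nonneg (F3r_nonneg Q hφ0 t) (by positivity)
    have h1 := h z a (Real.sqrt (C' * I)) ha (Real.sqrt_nonneg _) (fun l hl hlR => by
      refine Real.le_sqrt_of_sq_le ?_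
      have h2 := hsup (T.ι a) l hl hlR
      rw [F3_setInt μ Q φ0] at h2
      rw [map_sub, map_smul, ← S.U_ι]
      exact h2)
    rw [Real.sq_sqrt (mul_nonneg hC' hI0)] at h1
    have e1 : S.ql 1 d1 a = (inner ℂ (T.ι a) (T.Lm d1 (T.ι a))).re := by
      unfold TrAct.ql
      rw [S.one, T.Lm_ι]
    have e2 : S.qr 1 d2 a = (inner ℂ (T.ι a) (T.Rm d2 (T.ι a))).re := by
      unfold TrAct.qr
      rw [S.one, T.Rm_ι]
    have e3 : ∀ i, S.ql (g i) (m i) a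
        = (inner ℂ (T.ι a) (T.Lm (m i) (S.U.U (g i) (T.ι a)))).re := by
      intro i
      unfold TrAct.ql
      rw [S.U_ι, T.Lm_ι]
    have e4 : ∀ i, S.qr (g i) (m' i) a
        = (inner ℂ (T.ι a) (T.Rm (m' i) (S.U.U (g i) (T.ι a)))).re := by
      intro i
      unfold TrAct.qr
      rw [S.U_ι, T.Rm_ι]
    rw [e1, e2] at h1
    simp only [e3, e4] at h1
    rw [mul_assoc C C' I]
    exact h1

private theorem F3_inner (c : K →L[ℂ] K) (x y : Lp K 2 (Q.kap μ)) :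
    Integrable (fun v => (inner ℂ (x v) (c (y v))).re) (Q.kap μ) ∧
    (inner ℂ x (Q.onV μ c y)).re = ∫ v, (inner ℂ (x v) (c (y v))).re ∂(Q.kap μ) := by
  have h1 : (fun v => (inner ℂ (x v) ((Q.onV μ c y) v) : ℂ)) =ᵐ[Q.kap μ]
      fun v => (inner ℂ (x v) (c (y v)) : ℂ) := by
    filter_upwards [Q.onV_ae μ c y] with v h1
    rw [h1]
  have h2 : Integrable (fun v => (inner ℂ (x v) (c (y v)) : ℂ)) (Q.kap μ) :=
    (L2.integrable_inner x (Q.onV μ c y)).congr h1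
  refine ⟨Complex.reCLM.integrable_comp h2, ?_⟩
  rw [L2.inner_def, integral_congr_ae h1]
  exact (Complex.reCLM.integral_comp_comm h2).symm

private theorem F3_norm_sq (y : Lp K 2 (Q.kap μ)) :
    Integrable (fun v => ‖y v‖ ^ 2) (Q.kap μ) ∧ ‖y‖ ^ 2 = ∫ v, ‖y v‖ ^ 2 ∂(Q.kap μ) := by
  have e : ∀ v, (inner ℂ (y v) (y v)).re = ‖y v‖ ^ 2 := by
    intro v
    have := inner_self_eq_norm_sq (𝕜 := ℂ) (y v)
    simpa using this
  have h2 : Integrable (fun v => (inner ℂ (y v) (y v) : ℂ)) (Q.kap μ) := L2.integrable_inner y y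
  have h3 : Integrable (fun v => ‖y v‖ ^ 2) (Q.kap μ) :=
    (Complex.reCLM.integrable_comp h2).congr (Eventually.of_forall e)
  refine ⟨h3, ?_⟩
  have h4 : (inner ℂ y y).re = ‖y‖ ^ 2 := by
    have := inner_self_eq_norm_sq (𝕜 := ℂ) y
    simpa using this
  rw [← h4, L2.inner_def]
  refine (Complex.reCLM.integral_comp_comm h2).symm.trans ?_
  exact integral_congr_ae (Eventually.of_forall e)

/-- Tonelli -/
private theorem F3_fub (x0 : V →L[ℝ] ℝ) (φ0 : C_c(V, ℝ)) (x : Lp K 2 (Q.kap μ)) :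
    Integrable (fun v => ∫ t, F3r Q φ0 t * ‖S.U.U t (x v) - chi x0 (Q.q t) • x v‖ ^ 2 ∂μ)
      (Q.kap μ) ∧
    ∫ v, (∫ t, F3r Q φ0 t * ‖S.U.U t (x v) - chi x0 (Q.q t) • x v‖ ^ 2 ∂μ) ∂(Q.kap μ)
      = ∫ t, F3r Q φ0 t * ‖Q.onV μ (S.U.U t) x - chi x0 (Q.q t) • x‖ ^ 2 ∂μ := by
  have hsf : SFinite (Q.kap μ) := by
    unfold QMap.kap
    infer_instance
  have hx := F3_norm_sq μ Q x
  have hm : AEStronglyMeasurable (fun p : V × G =>
      F3r Q φ0 p.2 * ‖S.U.U p.2 (x p.1) - chi x0 (Q.q p.2) • x p.1‖ ^ 2)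
      ((Q.kap μ).prod μ) := by
    have h0 : AEStronglyMeasurable (fun p : V × G => p.2) ((Q.kap μ).prod μ) :=
      (aestronglyMeasurable_id (μ := μ)).comp_snd
    have h1 : AEStronglyMeasurable (fun p : V × G => (p.2, x p.1)) ((Q.kap μ).prod μ) :=
      h0.prodMk (Lp.aestronglyMeasurable x).comp_fst
    exact (F3_D_cont S Q x0 φ0).comp_aestronglyMeasurable h1
  have hint : Integrable (Function.uncurry fun (v : V) (t : G) =>
      F3r Q φ0 t * ‖S.U.U t (x v) - chi x0 (Q.q t) • x v‖ ^ 2) ((Q.kap μ).prod μ) := by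
    have h1 : Integrable (fun p : V × G => (4 * ‖x p.1‖ ^ 2) * ‖F3r Q φ0 p.2‖)
        ((Q.kap μ).prod μ) := (hx.1.const_mul 4).mul_prod (F3r_int μ Q φ0).norm
    refine h1.mono' hm (Eventually.of_forall fun p => ?_)
    change ‖F3r Q φ0 p.2 * ‖S.U.U p.2 (x p.1) - chi x0 (Q.q p.2) • x p.1‖ ^ 2‖ ≤ _
    rw [norm_mul, norm_pow, norm_norm, mul_comm]
    refine mul_le_mul_of_nonneg_right ?_ (norm_nonneg _)
    have h2 := pow_le_pow_left₀ (norm_nonneg _) (F3_D_le S Q x0 p.2 (x p.1)) 2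
    rw [mul_pow] at h2
    norm_num at h2 ⊢
    exact h2
  refine ⟨hint.integral_prod_left, ?_⟩
  rw [integral_integral_swap hint]
  refine integral_congr_ae (Eventually.of_forall fun t => ?_)
  change ∫ v, F3r Q φ0 t * ‖S.U.U t (x v) - chi x0 (Q.q t) • x v‖ ^ 2 ∂(Q.kap μ)
    = F3r Q φ0 t * ‖Q.onV μ (S.U.U t) x - chi x0 (Q.q t) • x‖ ^ 2
  rw [integral_const_mul, (F3_norm_sq μ Q (Q.onV μ (S.U.U t) x - chi x0 (Q.q t) • x)).2]
  congr 1
  refine integral_congr_ae ?_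
  filter_upwards [Q.onV_ae μ (S.U.U t) x,
    Lp.coeFn_sub (Q.onV μ (S.U.U t) x) (chi x0 (Q.q t) • x),
    Lp.coeFn_smul (chi x0 (Q.q t)) x] with v h1 h2 h3
  rw [h2, Pi.sub_apply, h1, h3, Pi.smul_apply]

/-- F3b: the bound of the supremum on `L²(V; K)` -/
theorem TrAct.sup_on_V (R : ℝ) (x0 : V →L[ℝ] ℝ) (φ0 : C_c(V, ℝ)) (hφ0 : IsDens μ Q φ0) (C' : ℝ)
    (hC' : 0 ≤ C')
    (hsup : ∀ (x : K), ∀ l ∈ Q.U, ‖Q.q l‖ ≤ R →
      ‖S.U.U l x - chi x0 (Q.q l) • x‖ ^ 2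
        ≤ C' * ∫ t in (Q.U : Set G), φ0 (Q.q t) *
          ‖S.U.U t x - chi x0 (Q.q t) • x‖ ^ 2 ∂μ)
    (x : Lp K 2 (Q.kap μ)) (l : G) (hl : l ∈ Q.U) (hlR : ‖Q.q l‖ ≤ R) :
    ‖Q.onV μ (S.U.U l) x - chi x0 (Q.q l) • x‖ ^ 2
      ≤ C' * ∫ t in (Q.U : Set G), φ0 (Q.q t) *
          ‖Q.onV μ (S.U.U t) x - chi x0 (Q.q t) • x‖ ^ 2 ∂μ := by
  rw [F3_setInt μ Q φ0]
  obtain ⟨hi, he⟩ := F3_fub μ S Q x0 φ0 x
  obtain ⟨hy1, hy2⟩ := F3_norm_sq μ Q (Q.onV μ (S.U.U l) x - chi x0 (Q.q l) • x)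
  rw [← he, hy2, ← integral_const_mul]
  refine integral_mono_ae hy1 (hi.const_mul C') ?_
  filter_upwards [Q.onV_ae μ (S.U.U l) x,
    Lp.coeFn_sub (Q.onV μ (S.U.U l) x) (chi x0 (Q.q l) • x),
    Lp.coeFn_smul (chi x0 (Q.q l)) x] with v h1 h2 h3
  rw [h2, Pi.sub_apply, h1, h3, Pi.smul_apply]
  have h4 := hsup (x v) l hl hlR
  rw [F3_setInt μ Q φ0] at h4
  exact h4

/-- F3: the inequality on `L²(V; K)` -/
theorem TrAct.ineq_on_V (b1 b2 : A) (C R : ℝ) (hC : 0 ≤ C) (x0 : V →L[ℝ] ℝ) (n : ℕ)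
    (g : Fin n → G) (m m' : Fin n → A) (d1 d2 : A)
    (h : ∀ (x a : A) (κ : ℝ), a = b1 * x * b2 → 0 ≤ κ →
      (∀ l ∈ Q.U, ‖Q.q l‖ ≤ R → ‖T.ι (S.α l a - chi x0 (Q.q l) • a)‖ ≤ κ) →
      ‖T.ι a‖ ^ 2 / 8 ≤ C * κ ^ 2 + S.ql 1 d1 a + S.qr 1 d2 a
        + ∑ i, (S.ql (g i) (m i) a + S.qr (g i) (m' i) a))
    (φ0 : C_c(V, ℝ)) (hφ0 : IsDens μ Q φ0) (C' : ℝ) (hC' : 0 ≤ C')
    (hsup : ∀ (x : K), ∀ l ∈ Q.U, ‖Q.q l‖ ≤ R →
      ‖S.U.U l x - chi x0 (Q.q l) • x‖ ^ 2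
        ≤ C' * ∫ t in (Q.U : Set G), φ0 (Q.q t) *
          ‖S.U.U t x - chi x0 (Q.q t) • x‖ ^ 2 ∂μ)
    (ζ x : Lp K 2 (Q.kap μ)) (hx : x = Q.onV μ (T.Lm b1) (Q.onV μ (T.Rm b2) ζ)) :
    ‖x‖ ^ 2 / 8 ≤ C * C' * ∫ t in (Q.U : Set G), φ0 (Q.q t) *
          ‖Q.onV μ (S.U.U t) x - chi x0 (Q.q t) • x‖ ^ 2 ∂μ
      + (inner ℂ x (Q.onV μ (T.Lm d1) x)).re + (inner ℂ x (Q.onV μ (T.Rm d2) x)).re
      + ∑ i, ((inner ℂ x (Q.onV μ (T.Lm (m i) * S.U.U (g i)) x)).re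
        + (inner ℂ x (Q.onV μ (T.Rm (m' i) * S.U.U (g i)) x)).re) := by
  rw [F3_setInt μ Q φ0]
  obtain ⟨hi, he⟩ := F3_fub μ S Q x0 φ0 x
  obtain ⟨hx1, hx2⟩ := F3_norm_sq μ Q x
  have hd1 := F3_inner μ Q (T.Lm d1) x x
  have hd2 := F3_inner μ Q (T.Rm d2) x x
  have hm1 := fun i => F3_inner μ Q (T.Lm (m i) * S.U.U (g i)) x x
  have hm2 := fun i => F3_inner μ Q (T.Rm (m' i) * S.U.U (g i)) x x
  have hsum : Integrable (fun v => ∑ i, ((inner ℂ (x v) ((T.Lm (m i) * S.U.U (g i)) (x v))).re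
      + (inner ℂ (x v) ((T.Rm (m' i) * S.U.U (g i)) (x v))).re)) (Q.kap μ) :=
    integrable_finsetSum _ fun i _ => (hm1 i).1.add (hm2 i).1
  have hae : ∀ᵐ v ∂(Q.kap μ), x v = T.Lm b1 (T.Rm b2 (ζ v)) := by
    filter_upwards [Q.onV_ae μ (T.Lm b1) (Q.onV μ (T.Rm b2) ζ), Q.onV_ae μ (T.Rm b2) ζ]
      with v h1 h2
    rw [hx, h1, h2]
  have hpt : ∀ᵐ v ∂(Q.kap μ), ‖x v‖ ^ 2 / 8
      ≤ C * C' * (∫ t, F3r Q φ0 t * ‖S.U.U t (x v) - chi x0 (Q.q t) • x v‖ ^ 2 ∂μ)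
        + (inner ℂ (x v) (T.Lm d1 (x v))).re + (inner ℂ (x v) (T.Rm d2 (x v))).re
        + ∑ i, ((inner ℂ (x v) ((T.Lm (m i) * S.U.U (g i)) (x v))).re
          + (inner ℂ (x v) ((T.Rm (m' i) * S.U.U (g i)) (x v))).re) := by
    filter_upwards [hae] with v hv
    have h1 := S.ineq_on_K μ Q b1 b2 C R hC x0 n g m m' d1 d2 h φ0 hφ0.nonneg C' hC' hsup
      (ζ v) (x v) hv
    rw [F3_setInt μ Q φ0] at h1
    exact h1
  have hint := integral_mono_ae (hx1.div_const 8)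
    ((((hi.const_mul (C * C')).add hd1.1).add hd2.1).add hsum) hpt
  rw [integral_div, ← hx2] at hint
  refine hint.trans (le_of_eq ?_)
  have i1 := integral_add (((hi.const_mul (C * C')).add hd1.1).add hd2.1) hsum
  have i2 := integral_add ((hi.const_mul (C * C')).add hd1.1) hd2.1
  have i3 := integral_add (hi.const_mul (C * C')) hd1.1
  have i4 := integral_finsetSum (μ := Q.kap μ) Finset.univ (f := fun i v =>
    (inner ℂ (x v) ((T.Lm (m i) * S.U.U (g i)) (x v))).re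
      + (inner ℂ (x v) ((T.Rm (m' i) * S.U.U (g i)) (x v))).re)
    (fun i _ => (hm1 i).1.add (hm2 i).1)
  refine i1.trans ?_
  rw [i4]
  congr 1
  · refine i2.trans ?_
    rw [hd2.2]
    congr 1
    refine i3.trans ?_
    rw [hd1.2, integral_const_mul, he]
  · refine Finset.sum_congr rfl fun i _ => ?_
    rw [(hm1 i).2, (hm2 i).2]
    exact integral_add (hm1 i).1 (hm2 i).1

end

end Pool.Agent.AbCoc
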