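import Pool.Agent.Lib_MP_418a80_un.UF0
import Pool.Agent.Lib_MP_418a80_un.UnC2

/-! # F4a: the corner -/

set_option autoImplicit false
set_option linter.unusedVariables false
set_option linter.unusedSectionVars false

open MeasureTheory Topology Filter CompactlySupported
open scoped ENNReal NNReal ComplexConjugate

namespace Pool.Agent.AbCoc

universe u v w z

section
variable {A : Type u} [CStarAlgebra A] {K : Type v} [NormedAddCommGroup K]
  [InnerProductSpace ℂ K] [CompleteSpace K]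
variable {G : Type w} [Group G] [TopologicalSpace G] [IsTopologicalGroup G]
  [SecondCountableTopology G] [LocallyCompactSpace G] [MeasurableSpace G] [BorelSpace G]
  (μ : Measure G) [μ.IsHaarMeasure] {T : TrAlg A K} (S : TrAct G T)
  {V : Type z} [NormedAddCommGroup V] [NormedSpace ℝ V] [FiniteDimensional ℝ V]
  [MeasurableSpace V] [BorelSpace V] (Q : QMap G V)

/-- F4a: `J (b1 z b2) = π(b1) R_{b2} J z` -/
theorem TrAct.J_corner (b1 b2 : A) (hf1 : S.Fixed b1) (hf2 : S.Fixed b2)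
    (z : Lp K 2 (Q.kap μ)) :
    S.J μ Q (Q.onV μ (T.Lm b1) (Q.onV μ (T.Rm b2) z))
      = S.pi μ b1 (oneT μ (T.Rm b2) (S.J μ Q z)) := by
  rw [S.J_Rm μ Q b2 (fun u _ => hf2 u) z, S.J_pi μ Q b1]

/-- F4a: the corner form of an operator `X X'`, `X ∈ N`, `X' ∈ N'` -/
theorem TrAct.inner_corner (b1 b2 : A) (hs1 : IsSelfAdjoint b1) (hs2 : IsSelfAdjoint b2)
    (X X' : Lp K 2 μ →L[ℂ] Lp K 2 μ) (hX : X ∈ S.NN μ) (hX' : X' ∈ Set.centralizer (S.NN μ))
    (ζ : Lp K 2 μ) :
    inner ℂ (S.pi μ b1 (oneT μ (T.Rm b2) ζ)) (X (X' (S.pi μ b1 (oneT μ (T.Rm b2) ζ))))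
      = inner ℂ ζ ((S.pi μ b1 * X * S.pi μ b1)
        ((oneT μ (T.Rm b2) * X' * oneT μ (T.Rm b2)) ζ)) := by
  set P : Lp K 2 μ →L[ℂ] Lp K 2 μ := S.pi μ b1 with hP
  set R : Lp K 2 μ →L[ℂ] Lp K 2 μ := oneT μ (T.Rm b2) with hR
  have hPs : star P = P := by
    rw [hP, ← S.pi_star μ, hs1.star_eq]
  have hRs : star R = R := by
    rw [hR, ← oneT_starW, ← T.Rm_star, hs2.star_eq]
  have hPN : P ∈ S.NN μ := Set.subset_centralizer_centralizer (Or.inl ⟨b1, rfl⟩)
  have hRX : X * R = R * X := TrAct.NN_oneT hX (T.Rm b2) (T.commL_Rm b2)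
  have hRP : P * R = R * P := TrAct.NN_oneT hPN (T.Rm b2) (T.commL_Rm b2)
  have hXP : P * X' = X' * P := by
    rw [Set.mem_centralizer_iff] at hX'
    exact hX' P hPN
  have hsw : ∀ (q : Lp K 2 μ →L[ℂ] Lp K 2 μ), star q = q → ∀ x y : Lp K 2 μ,
      inner ℂ (q x) y = inner ℂ x (q y) := by
    intro q hq x y
    rw [← ContinuousLinearMap.adjoint_inner_left, ← ContinuousLinearMap.star_eq_adjoint, hq]
  rw [hsw P hPs, hsw R hRs]
  have key : R * (P * (X * (X' * (P * R)))) = (P * X * P) * (R * X' * R) := by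
    calc R * (P * (X * (X' * (P * R)))) = (R * P) * (X * (X' * P) * R) := by
          simp only [mul_assoc]
      _ = (P * R) * (X * (P * X') * R) := by rw [hRP, hXP]
      _ = P * (R * X) * P * X' * R := by simp only [mul_assoc]
      _ = P * (X * R) * P * X' * R := by rw [hRX]
      _ = P * X * (R * P) * X' * R := by simp only [mul_assoc]
      _ = P * X * (P * R) * X' * R := by rw [hRP]
      _ = (P * X * P) * (R * X' * R) := by simp only [mul_assoc]
  have key2 := congrArg (fun Z : Lp K 2 μ →L[ℂ] Lp K 2 μ => Z ζ) key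
  exact congrArg (fun w => inner ℂ ζ w) key2

end

end Pool.Agent.AbCoc
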