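import Pool.Agent.Lib_MP_418a80_un.UF0
import Pool.Agent.Lib_MP_418a80_un.UnC1
import Pool.Agent.Lib_MP_418a80_un.UnC2b

/-! # F4b: near-eigen estimates on `L²(V; K)` -/

set_option autoImplicit false
set_option linter.unusedVariables false
set_option linter.unusedSectionVars false

open MeasureTheory Topology Filter CompactlySupported
open scoped ENNReal NNReal ComplexConjugate

namespace Pool.Agent.AbCoc

universe u v w z

section
variable {A : Type u} [CStarAlgebra A] {K : Type v} [NormedAddCommGroup K]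
  [InnerProductSpace ℂ K] [CompleteSpace K]
variable {G : Type w} [Group G] [TopologicalSpace G] [IsTopologicalGroup G]
  [SecondCountableTopology G] [LocallyCompactSpace G] [MeasurableSpace G] [BorelSpace G]
  (μ : Measure G) [μ.IsHaarMeasure] {T : TrAlg A K} (S : TrAct G T)
  {V : Type z} [NormedAddCommGroup V] [NormedSpace ℝ V] [FiniteDimensional ℝ V]
  [MeasurableSpace V] [BorelSpace V] (Q : QMap G V)

variable {μ Q} in
/-- the density is integrable on `U` -/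
private theorem F4b_int {φ0 : C_c(V, ℝ)} (hφ : IsDens μ Q φ0) :
    Integrable (fun l => φ0 (Q.q l)) (μ.restrict (Q.U : Set G)) := by
  by_contra h
  have h1 := hφ.int
  rw [integral_undef h] at h1
  exact zero_ne_one h1

variable {μ Q} in
/-- the density times a bounded function which is continuous on `U` -/
private theorem F4b_int_mul {φ0 : C_c(V, ℝ)} (hφ : IsDens μ Q φ0) (D : G → ℝ)
    (hD : ContinuousOn D (Q.U : Set G)) (c : ℝ) (hc : ∀ l ∈ Q.U, ‖D l‖ ≤ c) :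
    Integrable (fun l => φ0 (Q.q l) * D l) (μ.restrict (Q.U : Set G)) := by
  have hm : AEStronglyMeasurable D (μ.restrict (Q.U : Set G)) :=
    hD.aestronglyMeasurable Q.isOpen.measurableSet
  exact (F4b_int hφ).mul_bdd (c := c) hm
    ((ae_restrict_iff' Q.isOpen.measurableSet).2 (Eventually.of_forall hc))

private theorem F4b_chi_cont (x0 : V →L[ℝ] ℝ) : Continuous fun t => chi x0 (Q.q t) := by
  have h : Continuous (chi x0) := by
    unfold chi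
    fun_prop
  exact h.comp Q.cont

private theorem F4b_U_cont {H : Type*} [NormedAddCommGroup H] [InnerProductSpace ℂ H]
    (W : URep G H) : Continuous fun p : G × H => W.U p.1 p.2 := by
  rw [continuous_iff_continuousAt]
  rintro ⟨g0, η0⟩
  rw [ContinuousAt, tendsto_iff_norm_sub_tendsto_zero]
  have h0 : Continuous fun p : G × H => W.U p.1 η0 := (W.cont η0).comp continuous_fst
  have h1 : Tendsto (fun p : G × H => ‖p.2 - η0‖ + ‖W.U p.1 η0 - W.U g0 η0‖)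
      (𝓝 (g0, η0)) (𝓝 (‖η0 - η0‖ + ‖W.U g0 η0 - W.U g0 η0‖)) := by
    refine Tendsto.add (Tendsto.norm ?_) (Tendsto.norm ?_)
    · exact (continuous_snd.sub continuous_const).tendsto (g0, η0)
    · exact (h0.sub continuous_const).tendsto (g0, η0)
  simp only [sub_self, norm_zero, add_zero] at h1
  refine squeeze_zero (fun p => norm_nonneg _) (fun p => ?_) h1
  have e : W.U p.1 p.2 - W.U g0 η0 = W.U p.1 (p.2 - η0) + (W.U p.1 η0 - W.U g0 η0) := by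
    rw [map_sub]
    abel
  change ‖W.U p.1 p.2 - W.U g0 η0‖ ≤ _
  rw [e]
  refine (norm_add_le _ _).trans (add_le_add ?_ le_rfl)
  rw [W.norm_map]

private theorem F4b_J (x0 : V →L[ℝ] ℝ) (z : Lp K 2 (Q.kap μ)) {t : G} (ht : t ∈ Q.U) :
    ‖Q.onV μ (S.U.U t) z - chi x0 (Q.q t) • z‖
      = ‖(lam μ K).U t (S.Gam μ t (S.J μ Q z)) - chi x0 (Q.q t) • S.J μ Q z‖ := by
  rw [← S.J_norm μ Q, map_sub, map_smul, ← S.J_lam_Gam μ Q ht z]

private theorem F4b_onV_comm (c d : K →L[ℂ] K) (h : ∀ ξ, c (d ξ) = d (c ξ))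
    (x : Lp K 2 (Q.kap μ)) : Q.onV μ c (Q.onV μ d x) = Q.onV μ d (Q.onV μ c x) := by
  apply Lp.ext
  filter_upwards [Q.onV_ae μ c (Q.onV μ d x), Q.onV_ae μ d x, Q.onV_ae μ d (Q.onV μ c x),
    Q.onV_ae μ c x] with v h1 h2 h3 h4
  rw [h1, h2, h3, h4, h]

private theorem F4b_onV_norm (c : K →L[ℂ] K) (x : Lp K 2 (Q.kap μ)) :
    ‖Q.onV μ c x‖ ≤ ‖c‖ * ‖x‖ := by
  have h : ‖c.compLp x‖ ≤ ‖c‖ * ‖x‖ := ContinuousLinearMap.norm_compLp_le c x
  exact h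

private theorem F4b_U_Lm (g : G) (a : A) (ha : S.Fixed a) (ξ : K) :
    S.U.U g (T.Lm a ξ) = T.Lm a (S.U.U g ξ) := by
  have h1 : (S.U.U g).comp (T.Lm a) = (T.Lm a).comp (S.U.U g) := by
    refine T.Lm_ext fun b => ?_
    change S.U.U g (T.Lm a (T.ι b)) = T.Lm a (S.U.U g (T.ι b))
    rw [T.Lm_ι, S.U_ι, S.U_ι, T.Lm_ι, map_mul, ha g]
  exact congrArg (fun Z : K →L[ℂ] K => Z ξ) h1

private theorem F4b_U_Rm (g : G) (a : A) (ha : S.Fixed a) (ξ : K) :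
    S.U.U g (T.Rm a ξ) = T.Rm a (S.U.U g ξ) := by
  have h1 : (S.U.U g).comp (T.Rm a) = (T.Rm a).comp (S.U.U g) := by
    refine T.Lm_ext fun b => ?_
    change S.U.U g (T.Rm a (T.ι b)) = T.Rm a (S.U.U g (T.ι b))
    rw [T.Rm_ι, S.U_ι, S.U_ι, T.Rm_ι, map_mul, ha g]
  exact congrArg (fun Z : K →L[ℂ] K => Z ξ) h1

/-- F4b: near-eigen estimate on `L²(V; K)` from the two windows -/
theorem TrAct.near_V (x0 : V →L[ℝ] ℝ) (φ0 : C_c(V, ℝ)) (hφ : IsDens μ Q φ0)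
    (z : Lp K 2 (Q.kap μ)) (ε : ℝ)
    (h1 : ∫ l in (Q.U : Set G), φ0 (Q.q l) *
        ‖starRingEnd ℂ (chi x0 (Q.q l)) • (lam μ K).U l (S.J μ Q z) - S.J μ Q z‖ ^ 2 ∂μ
          ≤ ε * ‖S.J μ Q z‖ ^ 2)
    (h2 : ∫ l in (Q.U : Set G), φ0 (Q.q l) *
        ‖S.Gam μ l (S.J μ Q z) - S.J μ Q z‖ ^ 2 ∂μ ≤ ε * ‖S.J μ Q z‖ ^ 2) :
    ∫ t in (Q.U : Set G), φ0 (Q.q t) *
        ‖Q.onV μ (S.U.U t) z - chi x0 (Q.q t) • z‖ ^ 2 ∂μ ≤ 4 * ε * ‖z‖ ^ 2 := by
  rw [S.J_norm μ Q z] at h1 h2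
  have hpt : ∀ t ∈ Q.U, ‖Q.onV μ (S.U.U t) z - chi x0 (Q.q t) • z‖
      ≤ ‖S.Gam μ t (S.J μ Q z) - S.J μ Q z‖
        + ‖starRingEnd ℂ (chi x0 (Q.q t)) • (lam μ K).U t (S.J μ Q z) - S.J μ Q z‖ := by
    intro t ht
    have hc : chi x0 (Q.q t) * starRingEnd ℂ (chi x0 (Q.q t)) = 1 := by
      rw [Complex.mul_conj, Complex.normSq_eq_norm_sq, norm_chi]
      norm_num
    have e1 : (lam μ K).U t (S.Gam μ t (S.J μ Q z)) - chi x0 (Q.q t) • S.J μ Q z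
        = (lam μ K).U t (S.Gam μ t (S.J μ Q z) - S.J μ Q z)
          + chi x0 (Q.q t) •
            (starRingEnd ℂ (chi x0 (Q.q t)) • (lam μ K).U t (S.J μ Q z) - S.J μ Q z) := by
      rw [map_sub, smul_sub, smul_smul, hc, one_smul]
      abel
    rw [F4b_J μ S Q x0 z ht, e1]
    refine (norm_add_le _ _).trans ?_
    rw [(lam μ K).norm_map, norm_smul, norm_chi, one_mul]
  have hsq : ∀ t ∈ Q.U, φ0 (Q.q t) * ‖Q.onV μ (S.U.U t) z - chi x0 (Q.q t) • z‖ ^ 2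
      ≤ 2 * (φ0 (Q.q t) * ‖S.Gam μ t (S.J μ Q z) - S.J μ Q z‖ ^ 2)
        + 2 * (φ0 (Q.q t) *
          ‖starRingEnd ℂ (chi x0 (Q.q t)) • (lam μ K).U t (S.J μ Q z) - S.J μ Q z‖ ^ 2) := by
    intro t ht
    have h0 := hφ.nonneg (Q.q t)
    have h3 := pow_le_pow_left₀ (norm_nonneg _) (hpt t ht) 2
    set a := ‖S.Gam μ t (S.J μ Q z) - S.J μ Q z‖ with ha
    set b := ‖starRingEnd ℂ (chi x0 (Q.q t)) • (lam μ K).U t (S.J μ Q z) - S.J μ Q z‖ with hb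
    have h4 : (a + b) ^ 2 ≤ 2 * a ^ 2 + 2 * b ^ 2 := by nlinarith [sq_nonneg (a - b)]
    have h5 := mul_le_mul_of_nonneg_left (h3.trans h4) h0
    linarith
  have hI1 : Integrable (fun t => φ0 (Q.q t) * ‖S.Gam μ t (S.J μ Q z) - S.J μ Q z‖ ^ 2)
      (μ.restrict (Q.U : Set G)) := by
    refine F4b_int_mul hφ (fun t => ‖S.Gam μ t (S.J μ Q z) - S.J μ Q z‖ ^ 2) ?_
      ((2 * ‖S.J μ Q z‖) ^ 2) ?_
    · rw [continuousOn_iff_continuous_domRestrict]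
      exact ((S.cont_Gam μ Q (S.J μ Q z)).sub continuous_const).norm.pow 2
    · intro l hl
      rw [norm_pow, norm_norm]
      refine pow_le_pow_left₀ (norm_nonneg _) ?_ 2
      refine (norm_sub_le _ _).trans ?_
      rw [S.norm_Gam μ Q hl]
      linarith
  have hI2 : Integrable (fun t => φ0 (Q.q t) *
      ‖starRingEnd ℂ (chi x0 (Q.q t)) • (lam μ K).U t (S.J μ Q z) - S.J μ Q z‖ ^ 2)
      (μ.restrict (Q.U : Set G)) := by
    refine F4b_int_mul hφ (fun t =>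
      ‖starRingEnd ℂ (chi x0 (Q.q t)) • (lam μ K).U t (S.J μ Q z) - S.J μ Q z‖ ^ 2) ?_
      ((2 * ‖S.J μ Q z‖) ^ 2) ?_
    · refine Continuous.continuousOn ?_
      exact (((Complex.continuous_conj.comp (F4b_chi_cont Q x0)).smul
        ((lam μ K).cont (S.J μ Q z))).sub continuous_const).norm.pow 2
    · intro l hl
      rw [norm_pow, norm_norm]
      refine pow_le_pow_left₀ (norm_nonneg _) ?_ 2
      refine (norm_sub_le _ _).trans ?_
      rw [norm_smul, RCLike.norm_conj, norm_chi, one_mul, (lam μ K).norm_map]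
      linarith
  calc ∫ t in (Q.U : Set G), φ0 (Q.q t) *
        ‖Q.onV μ (S.U.U t) z - chi x0 (Q.q t) • z‖ ^ 2 ∂μ
      ≤ ∫ t in (Q.U : Set G), (2 * (φ0 (Q.q t) * ‖S.Gam μ t (S.J μ Q z) - S.J μ Q z‖ ^ 2)
        + 2 * (φ0 (Q.q t) *
          ‖starRingEnd ℂ (chi x0 (Q.q t)) • (lam μ K).U t (S.J μ Q z) - S.J μ Q z‖ ^ 2)) ∂μ := by
        refine integral_mono_of_nonneg ?_ ((hI1.const_mul 2).add (hI2.const_mul 2)) ?_
        · exact Eventually.of_forall fun t => mul_nonneg (hφ.nonneg _) (by positivity)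
        · exact (ae_restrict_iff' Q.isOpen.measurableSet).2 (Eventually.of_forall hsq)
    _ = 2 * (∫ t in (Q.U : Set G), φ0 (Q.q t) * ‖S.Gam μ t (S.J μ Q z) - S.J μ Q z‖ ^ 2 ∂μ)
        + 2 * ∫ t in (Q.U : Set G), φ0 (Q.q t) *
          ‖starRingEnd ℂ (chi x0 (Q.q t)) • (lam μ K).U t (S.J μ Q z) - S.J μ Q z‖ ^ 2 ∂μ := by
        rw [integral_add (hI1.const_mul 2) (hI2.const_mul 2), integral_const_mul,
          integral_const_mul]
    _ ≤ 4 * ε * ‖z‖ ^ 2 := by linarith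

/-- F4b: the same in the corner -/
theorem TrAct.near_V_corner (x0 : V →L[ℝ] ℝ) (φ0 : C_c(V, ℝ)) (hφ : IsDens μ Q φ0)
    (b1 b2 : A) (hf1 : S.Fixed b1) (hf2 : S.Fixed b2) (z : Lp K 2 (Q.kap μ)) :
    ∫ t in (Q.U : Set G), φ0 (Q.q t) *
        ‖Q.onV μ (S.U.U t) (Q.onV μ (T.Lm b1) (Q.onV μ (T.Rm b2) z))
          - chi x0 (Q.q t) • Q.onV μ (T.Lm b1) (Q.onV μ (T.Rm b2) z)‖ ^ 2 ∂μ
      ≤ (‖b1‖ * ‖b2‖) ^ 2 * ∫ t in (Q.U : Set G), φ0 (Q.q t) *
        ‖Q.onV μ (S.U.U t) z - chi x0 (Q.q t) • z‖ ^ 2 ∂μ := by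
  have hle : ∀ t, ‖Q.onV μ (S.U.U t) (Q.onV μ (T.Lm b1) (Q.onV μ (T.Rm b2) z))
          - chi x0 (Q.q t) • Q.onV μ (T.Lm b1) (Q.onV μ (T.Rm b2) z)‖
      ≤ ‖b1‖ * ‖b2‖ * ‖Q.onV μ (S.U.U t) z - chi x0 (Q.q t) • z‖ := by
    intro t
    have e : Q.onV μ (S.U.U t) (Q.onV μ (T.Lm b1) (Q.onV μ (T.Rm b2) z))
          - chi x0 (Q.q t) • Q.onV μ (T.Lm b1) (Q.onV μ (T.Rm b2) z)
        = Q.onV μ (T.Lm b1) (Q.onV μ (T.Rm b2)
          (Q.onV μ (S.U.U t) z - chi x0 (Q.q t) • z)) := by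
      rw [F4b_onV_comm μ Q (S.U.U t) (T.Lm b1) (F4b_U_Lm S t b1 hf1),
        F4b_onV_comm μ Q (S.U.U t) (T.Rm b2) (F4b_U_Rm S t b2 hf2), map_sub, map_sub,
        map_smul, map_smul]
    rw [e]
    have n1 := F4b_onV_norm μ Q (T.Lm b1) (Q.onV μ (T.Rm b2)
      (Q.onV μ (S.U.U t) z - chi x0 (Q.q t) • z))
    have n2 := F4b_onV_norm μ Q (T.Rm b2) (Q.onV μ (S.U.U t) z - chi x0 (Q.q t) • z)
    have n3 := T.Lm_norm_le b1
    have n4 := T.Rm_norm_le b2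
    calc _ ≤ ‖T.Lm b1‖ * ‖Q.onV μ (T.Rm b2) (Q.onV μ (S.U.U t) z - chi x0 (Q.q t) • z)‖ := n1
      _ ≤ ‖b1‖ * (‖b2‖ * ‖Q.onV μ (S.U.U t) z - chi x0 (Q.q t) • z‖) := by
        refine mul_le_mul n3 (n2.trans (mul_le_mul_of_nonneg_right n4 (norm_nonneg _)))
          (norm_nonneg _) (norm_nonneg _)
      _ = _ := by ring
  have hI : Integrable (fun t => φ0 (Q.q t) *
      ‖Q.onV μ (S.U.U t) z - chi x0 (Q.q t) • z‖ ^ 2) (μ.restrict (Q.U : Set G)) := by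
    refine F4b_int_mul hφ (fun t => ‖Q.onV μ (S.U.U t) z - chi x0 (Q.q t) • z‖ ^ 2) ?_
      ((2 * ‖z‖) ^ 2) ?_
    · have h1 : ContinuousOn (fun t =>
          ‖(lam μ K).U t (S.Gam μ t (S.J μ Q z)) - chi x0 (Q.q t) • S.J μ Q z‖ ^ 2)
          (Q.U : Set G) := by
        rw [continuousOn_iff_continuous_domRestrict]
        have h2 : Continuous fun u : Q.U =>
            (lam μ K).U (u : G) (S.Gam μ (u : G) (S.J μ Q z)) :=
          (F4b_U_cont (lam μ K)).comp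
            (continuous_subtype_val.prodMk (S.cont_Gam μ Q (S.J μ Q z)))
        have h3 : Continuous fun u : Q.U => chi x0 (Q.q (u : G)) :=
          (F4b_chi_cont Q x0).comp continuous_subtype_val
        exact (h2.sub (h3.smul continuous_const)).norm.pow 2
      refine h1.congr fun t ht => ?_
      rw [F4b_J μ S Q x0 z ht]
    · intro l hl
      rw [norm_pow, norm_norm]
      refine pow_le_pow_left₀ (norm_nonneg _) ?_ 2
      rw [F4b_J μ S Q x0 z hl]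
      refine (norm_sub_le _ _).trans ?_
      rw [(lam μ K).norm_map, S.norm_Gam μ Q hl, norm_smul, norm_chi, one_mul, S.J_norm μ Q z]
      linarith
  rw [← integral_const_mul]
  refine integral_mono_of_nonneg ?_ (hI.const_mul _) ?_
  · exact Eventually.of_forall fun t => mul_nonneg (hφ.nonneg _) (by positivity)
  · refine Eventually.of_forall fun t => ?_
    change φ0 (Q.q t) * _ ≤ _ * (φ0 (Q.q t) * _)
    have h1 := pow_le_pow_left₀ (norm_nonneg _) (hle t) 2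
    have h2 := mul_le_mul_of_nonneg_left h1 (hφ.nonneg (Q.q t))
    rw [mul_pow] at h2
    linarith

end

end Pool.Agent.AbCoc
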