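import Pool.Agent.Lib_MP_418a80_un.UnC2

/-! # C-d, C-e: the isometry `J : L²(V; K) → L²(G; K)`, `(J x)(s) = 1_U(s) U_s⁻¹ x(q s)` -/

set_option autoImplicit false
set_option linter.unusedVariables false
set_option linter.unusedSectionVars false

open MeasureTheory Topology Filter CompactlySupported
open scoped ENNReal NNReal

namespace Pool.Agent.AbCoc

universe u v w z

section
variable {A : Type u} [CStarAlgebra A] {K : Type v} [NormedAddCommGroup K]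
  [InnerProductSpace ℂ K] [CompleteSpace K]
variable {G : Type w} [Group G] [TopologicalSpace G] [IsTopologicalGroup G]
  [SecondCountableTopology G] [LocallyCompactSpace G] [MeasurableSpace G] [BorelSpace G]
  (μ : Measure G) [μ.IsHaarMeasure] {T : TrAlg A K} (S : TrAct G T)
  {V : Type z} [NormedAddCommGroup V] [NormedSpace ℝ V] [FiniteDimensional ℝ V]
  [MeasurableSpace V] [BorelSpace V] (Q : QMap G V)

/-! ## the subgroups `L = {u ∈ U | h⁻¹ u h ∈ U for h ∈ D}` -/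

private def lg (Q : QMap G V) (D : Finset G) : Subgroup G where
  carrier := {u | u ∈ Q.U ∧ ∀ h ∈ D, h⁻¹ * u * h ∈ Q.U}
  one_mem' := ⟨Q.U.one_mem, fun h _ => by simp [Q.U.one_mem]⟩
  mul_mem' := by
    rintro u v ⟨hu, hu'⟩ ⟨hv, hv'⟩
    refine ⟨Q.U.mul_mem hu hv, fun h hh => ?_⟩
    have h1 : h⁻¹ * (u * v) * h = (h⁻¹ * u * h) * (h⁻¹ * v * h) := by group
    rw [h1]
    exact Q.U.mul_mem (hu' h hh) (hv' h hh)
  inv_mem' := by
    rintro u ⟨hu, hu'⟩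
    refine ⟨Q.U.inv_mem hu, fun h hh => ?_⟩
    have h1 : h⁻¹ * u⁻¹ * h = (h⁻¹ * u * h)⁻¹ := by group
    rw [h1]
    exact Q.U.inv_mem (hu' h hh)

private theorem lg_mem (D : Finset G) (u : G) :
    u ∈ lg Q D ↔ u ∈ Q.U ∧ ∀ h ∈ D, h⁻¹ * u * h ∈ Q.U := Iff.rfl

private theorem lg_open (D : Finset G) : IsOpen (lg Q D : Set G) := by
  have h1 : (lg Q D : Set G) = (Q.U : Set G) ∩ ⋂ h ∈ D, (fun u => h⁻¹ * u * h) ⁻¹' (Q.U : Set G) := by
    ext u
    rw [SetLike.mem_coe, lg_mem]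
    simp
  rw [h1]
  refine Q.isOpen.inter (isOpen_biInter_finset fun h _ => Q.isOpen.preimage ?_)
  exact (continuous_const.mul continuous_id).mul continuous_const

private theorem lg_surj (D : Finset G) (x : V) : ∃ u ∈ lg Q D, Q.q u = x := by
  obtain ⟨u, hu, hu', hx⟩ := Q.exists_in_L D x
  exact ⟨u, ⟨hu, hu'⟩, hx⟩

private theorem isHaar_c2c (L : Subgroup G)
    (hLo : IsOpen (L : Set G)) (hLU : ∀ u ∈ L, u ∈ Q.U) (hLs : ∀ x : V, ∃ u ∈ L, Q.q u = x) :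
    ((μ.restrict (L : Set G)).map Q.q).IsAddHaarMeasure := by
  have hLm : MeasurableSet (L : Set G) := hLo.measurableSet
  have hqm : Measurable Q.q := Q.cont.measurable
  refine { lt_top_of_isCompact := ?_, map_add_left_eq_self := ?_, open_pos := ?_ }
  · intro B hB
    rw [Measure.map_apply hqm hB.measurableSet,
      Measure.restrict_apply (hqm hB.measurableSet)]
    refine lt_of_le_of_lt (measure_mono ?_) (Q.proper B hB).measure_lt_top
    intro t ht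
    exact ⟨hLU t ht.2, ht.1⟩
  · intro x
    obtain ⟨u, hu, hx⟩ := hLs x
    ext A hA
    rw [Measure.map_apply (measurable_const_add x) hA, Measure.map_apply hqm
      (measurable_const_add x hA), Measure.restrict_apply (hqm (measurable_const_add x hA)),
      Measure.map_apply hqm hA, Measure.restrict_apply (hqm hA),
      ← measure_preimage_mul μ u (Q.q ⁻¹' A ∩ (L : Set G))]
    congr 1
    ext t
    simp only [Set.mem_inter_iff, Set.mem_preimage, SetLike.mem_coe]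
    rw [L.mul_mem_cancel_left hu]
    constructor
    · rintro ⟨h1, h2⟩
      refine ⟨?_, h2⟩
      rw [Q.map_mul u (hLU u hu) t (hLU t h2), hx]
      exact h1
    · rintro ⟨h1, h2⟩
      refine ⟨?_, h2⟩
      rw [Q.map_mul u (hLU u hu) t (hLU t h2), hx] at h1
      exact h1
  · intro O hO hne
    obtain ⟨x, hx⟩ := hne
    obtain ⟨u, hu, hux⟩ := hLs x
    rw [Measure.map_apply hqm hO.measurableSet,
      Measure.restrict_apply (hqm hO.measurableSet)]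
    refine (IsOpen.measure_pos μ ((hO.preimage Q.cont).inter hLo) ⟨u, ?_, hu⟩).ne'
    rw [Set.mem_preimage, hux]
    exact hx

private theorem kap_haar : (Q.kap μ).IsAddHaarMeasure :=
  isHaar_c2c μ Q Q.U Q.isOpen (fun u hu => hu)
    (fun x => by obtain ⟨u, hu, hx⟩ := Q.surj x; exact ⟨u, hu, hx⟩)

private theorem lg_map (D : Finset G) : ∃ c : ℝ≥0, 0 < c ∧
    (μ.restrict (lg Q D : Set G)).map Q.q = c • Q.kap μ := by
  have hL := isHaar_c2c μ Q (lg Q D) (lg_open Q D) (fun u hu => hu.1) (lg_surj Q D)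
  have hU := kap_haar μ Q
  exact ⟨_, Measure.addHaarScalarFactor_pos_of_isAddHaarMeasure
    ((μ.restrict (lg Q D : Set G)).map Q.q) (Q.kap μ),
    Measure.isAddLeftInvariant_eq_smul ((μ.restrict (lg Q D : Set G)).map Q.q) (Q.kap μ)⟩

private theorem kap_ball : 0 < Q.kap μ (Metric.closedBall 0 1) ∧
    Q.kap μ (Metric.closedBall 0 1) < ∞ := by
  have hU := kap_haar μ Q
  have : ProperSpace V := FiniteDimensional.proper ℝ V
  refine ⟨?_, (isCompact_closedBall (0 : V) 1).measure_lt_top⟩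
  exact lt_of_lt_of_le (Metric.measure_ball_pos (Q.kap μ) (0 : V) one_pos)
    (measure_mono Metric.ball_subset_closedBall)

private theorem lg_le_one (D : Finset G) (c : ℝ≥0)
    (hc : (μ.restrict (lg Q D : Set G)).map Q.q = c • Q.kap μ) : c ≤ 1 := by
  obtain ⟨h1, h2⟩ := kap_ball μ Q
  have h3 : (c : ℝ≥0∞) * Q.kap μ (Metric.closedBall 0 1) ≤ 1 * Q.kap μ (Metric.closedBall 0 1) := by
    have h4 : (c • Q.kap μ) (Metric.closedBall 0 1)
        = (c : ℝ≥0∞) * Q.kap μ (Metric.closedBall 0 1) := rfl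
    rw [← h4, ← hc, one_mul]
    unfold QMap.kap
    rw [Measure.map_apply Q.cont.measurable measurableSet_closedBall,
      Measure.map_apply Q.cont.measurable measurableSet_closedBall]
    exact Measure.restrict_mono (fun u hu => hu.1) le_rfl _
  have h5 := (ENNReal.mul_le_mul_iff_left h1.ne' h2.ne).1 h3
  exact_mod_cast h5

/-- the measure on a coset -/
private theorem coset_map (D : Finset G) {k : G} (hk : k ∈ Q.U) (hqk : Q.q k = 0) :
    (μ.restrict ((fun t => k⁻¹ * t) ⁻¹' (lg Q D : Set G))).map Q.q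
      = (μ.restrict (lg Q D : Set G)).map Q.q := by
  have hqm : Measurable Q.q := Q.cont.measurable
  ext A hA
  rw [Measure.map_apply hqm hA, Measure.restrict_apply (hqm hA), Measure.map_apply hqm hA,
    Measure.restrict_apply (hqm hA),
    ← measure_preimage_mul μ k (Q.q ⁻¹' A ∩ (fun t => k⁻¹ * t) ⁻¹' (lg Q D : Set G))]
  congr 1
  ext t
  simp only [Set.mem_inter_iff, Set.mem_preimage, SetLike.mem_coe, inv_mul_cancel_left]
  constructor
  · rintro ⟨h1, h2⟩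
    refine ⟨?_, h2⟩
    rwa [Q.map_mul k hk t h2.1, hqk, zero_add] at h1
  · rintro ⟨h1, h2⟩
    refine ⟨?_, h2⟩
    rwa [Q.map_mul k hk t h2.1, hqk, zero_add]

private theorem int_map (L : Set G) (c : ℝ≥0) (hc : (μ.restrict L).map Q.q = c • Q.kap μ)
    (F : V → ℂ) (hF : Integrable F (Q.kap μ)) :
    IntegrableOn (fun s => F (Q.q s)) L μ ∧
      ∫ s in L, F (Q.q s) ∂μ = ((c : ℝ) : ℂ) * ∫ v, F v ∂(Q.kap μ) := by
  have hqm : Measurable Q.q := Q.cont.measurable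
  have hF' : Integrable F ((μ.restrict L).map Q.q) := by
    rw [hc]
    exact hF.smul_measure_nnreal
  refine ⟨(integrable_map_measure hF'.aestronglyMeasurable hqm.aemeasurable).1 hF', ?_⟩
  rw [← integral_map hqm.aemeasurable hF'.aestronglyMeasurable, hc, integral_smul_nnreal_measure]
  rfl

/-! ## operators on `L²(V; K)` -/

private theorem inner_onV (c : K →L[ℂ] K) (x y : Lp K 2 (Q.kap μ)) :
    Integrable (fun v => (inner ℂ (x v) (c (y v)) : ℂ)) (Q.kap μ) ∧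
    inner ℂ x (Q.onV μ c y) = ∫ v, (inner ℂ (x v) (c (y v)) : ℂ) ∂(Q.kap μ) := by
  have h1 : (fun v => (inner ℂ (x v) ((Q.onV μ c y) v) : ℂ)) =ᵐ[Q.kap μ]
      fun v => (inner ℂ (x v) (c (y v)) : ℂ) := by
    filter_upwards [Q.onV_ae μ c y] with v h1
    rw [h1]
  refine ⟨(L2.integrable_inner x (Q.onV μ c y)).congr h1, ?_⟩
  rw [L2.inner_def]
  exact integral_congr_ae h1

private theorem onV_mul (a b : K →L[ℂ] K) (x : Lp K 2 (Q.kap μ)) :
    Q.onV μ (a * b) x = Q.onV μ a (Q.onV μ b x) := by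
  apply Lp.ext
  filter_upwards [Q.onV_ae μ (a * b) x, Q.onV_ae μ a (Q.onV μ b x), Q.onV_ae μ b x]
    with v h1 h2 h3
  rw [h1, h2, h3]
  rfl

private theorem onV_norm (c : K →L[ℂ] K) (C : ℝ) (hc : ‖c‖ ≤ C) (x : Lp K 2 (Q.kap μ)) :
    ‖Q.onV μ c x‖ ≤ C * ‖x‖ := by
  refine ((Q.onV μ c).le_opNorm x).trans (mul_le_mul_of_nonneg_right ?_ (norm_nonneg x))
  exact (ContinuousLinearMap.norm_compLpL_le c).trans hc

private theorem onV_adj (k : G) (x y : Lp K 2 (Q.kap μ)) :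
    inner ℂ x (Q.onV μ (S.U.U k) y) = inner ℂ (Q.onV μ (S.U.U k⁻¹) x) y := by
  rw [L2.inner_def, L2.inner_def]
  refine integral_congr_ae ?_
  filter_upwards [Q.onV_ae μ (S.U.U k) y, Q.onV_ae μ (S.U.U k⁻¹) x] with v h1 h2
  rw [h1, h2, S.U.adj']

private theorem U_Lm (g : G) (a : A) (ξ : K) :
    S.U.U g (T.Lm a ξ) = T.Lm (S.α g a) (S.U.U g ξ) := by
  have h1 : (S.U.U g).comp (T.Lm a) = (T.Lm (S.α g a)).comp (S.U.U g) := by
    refine T.Lm_ext fun b => ?_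
    change S.U.U g (T.Lm a (T.ι b)) = T.Lm (S.α g a) (S.U.U g (T.ι b))
    rw [T.Lm_ι, S.U_ι, S.U_ι, T.Lm_ι, map_mul]
  exact congrArg (fun Z : K →L[ℂ] K => Z ξ) h1

private theorem U_Rm (g : G) (a : A) (ξ : K) :
    S.U.U g (T.Rm a ξ) = T.Rm (S.α g a) (S.U.U g ξ) := by
  have h1 : (S.U.U g).comp (T.Rm a) = (T.Rm (S.α g a)).comp (S.U.U g) := by
    refine T.Lm_ext fun b => ?_
    change S.U.U g (T.Rm a (T.ι b)) = T.Rm (S.α g a) (S.U.U g (T.ι b))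
    rw [T.Rm_ι, S.U_ι, S.U_ι, T.Rm_ι, map_mul]
  exact congrArg (fun Z : K →L[ℂ] K => Z ξ) h1

private theorem Rm_norm_c2c (a : A) : ‖T.Rm a‖ ≤ ‖a‖ := by
  refine ContinuousLinearMap.opNorm_le_bound _ (norm_nonneg a) fun ξ => ?_
  refine T.dense.induction_on (p := fun ξ => ‖T.Rm a ξ‖ ≤ ‖a‖ * ‖ξ‖) ξ ?_ ?_
  · exact isClosed_le (T.Rm a).continuous.norm (continuous_const.mul continuous_norm)
  · intro b
    rw [T.Rm_ι, mul_comm]
    exact T.mul_le' b a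

/-- the error on one coset -/
private theorem coset_err {g k : G} (hg : Q.InZ g) (hk : k ∈ Q.U) (hk' : g⁻¹ * k * g ∈ Q.U)
    (hqk : Q.q k = 0) (m : A) (κ : ℝ) (x : Lp K 2 (Q.kap μ))
    (hx : ∀ k ∈ Q.U, Q.q k = 0 → ‖Q.onV μ (S.U.U k) x - x‖ ≤ κ) :
    ‖inner ℂ x (Q.onV μ (T.Rm (S.α k m) * S.U.U g) x) - inner ℂ x (Q.onV μ (T.Rm m * S.U.U g) x)‖
      ≤ 2 * ‖m‖ * ‖x‖ * κ := by
  have hki : k⁻¹ ∈ Q.U := Q.U.inv_mem hk
  have hqki : Q.q k⁻¹ = 0 := by rw [Q.q_inv hk, hqk, neg_zero]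
  have hk2 : g⁻¹ * k⁻¹ * g ∈ Q.U := by
    have h1 : g⁻¹ * k⁻¹ * g = (g⁻¹ * k * g)⁻¹ := by group
    rw [h1]
    exact Q.U.inv_mem hk'
  have hqk2 : Q.q (g⁻¹ * k⁻¹ * g) = 0 := by rw [hg k⁻¹ hki hk2, hqki]
  have e1 : T.Rm (S.α k m) * S.U.U g
      = S.U.U k * ((T.Rm m * S.U.U g) * S.U.U (g⁻¹ * k⁻¹ * g)) := by
    ext1 ξ
    change T.Rm (S.α k m) (S.U.U g ξ)
      = S.U.U k (T.Rm m (S.U.U g (S.U.U (g⁻¹ * k⁻¹ * g) ξ)))
    rw [U_Rm, ← S.U.mul_apply, ← S.U.mul_apply]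
    congr 2
    group
  have e2 : inner ℂ x (Q.onV μ (T.Rm (S.α k m) * S.U.U g) x)
      = inner ℂ (Q.onV μ (S.U.U k⁻¹) x) (Q.onV μ (T.Rm m * S.U.U g)
        (Q.onV μ (S.U.U (g⁻¹ * k⁻¹ * g)) x)) := by
    rw [e1, onV_mul, onV_mul, onV_adj]
  have hB : ∀ y : Lp K 2 (Q.kap μ), ‖Q.onV μ (T.Rm m * S.U.U g) y‖ ≤ ‖m‖ * ‖y‖ := by
    intro y
    refine onV_norm μ Q _ _ ?_ y
    refine (norm_mul_le _ _).trans ?_
    calc ‖T.Rm m‖ * ‖S.U.U g‖ ≤ ‖m‖ * 1 :=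
          mul_le_mul (Rm_norm_c2c m) (S.U.norm_le g) (norm_nonneg _) (norm_nonneg _)
      _ = ‖m‖ := mul_one _
  have e3 : inner ℂ (Q.onV μ (S.U.U k⁻¹) x) (Q.onV μ (T.Rm m * S.U.U g)
        (Q.onV μ (S.U.U (g⁻¹ * k⁻¹ * g)) x)) - inner ℂ x (Q.onV μ (T.Rm m * S.U.U g) x)
      = inner ℂ (Q.onV μ (S.U.U k⁻¹) x - x) (Q.onV μ (T.Rm m * S.U.U g)
        (Q.onV μ (S.U.U (g⁻¹ * k⁻¹ * g)) x))
        + inner ℂ x (Q.onV μ (T.Rm m * S.U.U g) (Q.onV μ (S.U.U (g⁻¹ * k⁻¹ * g)) x - x)) := by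
    rw [inner_sub_left, map_sub, inner_sub_right]
    ring
  rw [e2, e3]
  have hn2 : ‖Q.onV μ (S.U.U (g⁻¹ * k⁻¹ * g)) x‖ ≤ ‖x‖ := by
    have := onV_norm μ Q (S.U.U (g⁻¹ * k⁻¹ * g)) 1 (S.U.norm_le _) x
    rwa [one_mul] at this
  have hκ : 0 ≤ κ := (norm_nonneg _).trans (hx k hk hqk)
  calc ‖inner ℂ (Q.onV μ (S.U.U k⁻¹) x - x) (Q.onV μ (T.Rm m * S.U.U g)
        (Q.onV μ (S.U.U (g⁻¹ * k⁻¹ * g)) x))
        + inner ℂ x (Q.onV μ (T.Rm m * S.U.U g) (Q.onV μ (S.U.U (g⁻¹ * k⁻¹ * g)) x - x))‖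
      ≤ ‖Q.onV μ (S.U.U k⁻¹) x - x‖ * ‖Q.onV μ (T.Rm m * S.U.U g)
        (Q.onV μ (S.U.U (g⁻¹ * k⁻¹ * g)) x)‖
        + ‖x‖ * ‖Q.onV μ (T.Rm m * S.U.U g) (Q.onV μ (S.U.U (g⁻¹ * k⁻¹ * g)) x - x)‖ :=
        (norm_add_le _ _).trans (add_le_add (norm_inner_le_norm _ _) (norm_inner_le_norm _ _))
    _ ≤ κ * (‖m‖ * ‖x‖) + ‖x‖ * (‖m‖ * κ) := by
        refine add_le_add (mul_le_mul (hx _ hki hqki) ?_ (norm_nonneg _) hκ)
          (mul_le_mul_of_nonneg_left ?_ (norm_nonneg _))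
        · exact (hB _).trans (mul_le_mul_of_nonneg_left hn2 (norm_nonneg _))
        · exact (hB _).trans (mul_le_mul_of_nonneg_left (hx _ hk2 hqk2) (norm_nonneg _))
    _ = 2 * ‖m‖ * ‖x‖ * κ := by ring

/-! ## the vector `λ_g Γ_g J x` -/

private theorem lamGamJ_ae (g : G) (x : Lp K 2 (Q.kap μ)) :
    (lam μ K).U g (S.Gam μ g (S.J μ Q x)) =ᵐ[μ] fun s => S.U.U g
      ((Q.U : Set G).indicator (fun s => S.U.U s⁻¹ (x (Q.q s))) (g⁻¹ * s * g)) := by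
  filter_upwards [lam_ae μ g (S.Gam μ g (S.J μ Q x)),
    ae_translate μ g⁻¹ (oneT_ae μ (S.U.U g) (rt μ K g (S.J μ Q x))),
    ae_translate μ g⁻¹ (rt_ae μ g (S.J μ Q x)),
    ae_translate μ g⁻¹ (ae_mulRight μ g (S.J_ae μ Q x))] with s h1 h2 h3 h4
  rw [h1]
  change (oneT μ (S.U.U g) (rt μ K g (S.J μ Q x))) (g⁻¹ * s) = _
  rw [h2, h3, h4]

private theorem inner_J_eq {g : G} (hg : Q.InZ g) (B : Lp K 2 μ →L[ℂ] Lp K 2 μ)
    (c : G → K →L[ℂ] K) (hB : ∀ y : Lp K 2 μ, B y =ᵐ[μ] fun s => c s (y s))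
    (x : Lp K 2 (Q.kap μ)) :
    inner ℂ (S.J μ Q x) (B ((lam μ K).U g (S.Gam μ g (S.J μ Q x))))
      = ∫ s in (lg Q {g} : Set G),
        (inner ℂ (x (Q.q s)) (S.U.U s (c s (S.U.U s⁻¹ (S.U.U g (x (Q.q s)))))) : ℂ) ∂μ := by
  rw [L2.inner_def, ← integral_indicator (lg_open Q {g}).measurableSet]
  refine integral_congr_ae ?_
  filter_upwards [S.J_ae μ Q x, hB ((lam μ K).U g (S.Gam μ g (S.J μ Q x))),
    lamGamJ_ae μ S Q g x] with s h1 h2 h3
  rw [h1, h2, h3]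
  by_cases hs : s ∈ Q.U
  · by_cases hs' : g⁻¹ * s * g ∈ Q.U
    · have hm : s ∈ (lg Q {g} : Set G) := by
        refine ⟨hs, fun h hh => ?_⟩
        rw [Finset.mem_singleton.1 hh]
        exact hs'
      rw [Set.indicator_of_mem (show s ∈ (Q.U : Set G) from hs),
        Set.indicator_of_mem (show g⁻¹ * s * g ∈ (Q.U : Set G) from hs'),
        Set.indicator_of_mem hm, hg s hs hs', S.U.adj', ← S.U.mul_apply g,
        ← S.U.mul_apply s⁻¹ g]
      congr 5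
      group
    · have hm : s ∉ (lg Q {g} : Set G) := fun h => hs' (h.2 g (Finset.mem_singleton_self g))
      rw [Set.indicator_of_notMem (show g⁻¹ * s * g ∉ (Q.U : Set G) from hs'),
        Set.indicator_of_notMem hm, map_zero, map_zero, inner_zero_right]
  · have hm : s ∉ (lg Q {g} : Set G) := fun h => hs h.1
    rw [Set.indicator_of_notMem (show s ∉ (Q.U : Set G) from hs),
      Set.indicator_of_notMem hm, inner_zero_left]

/-! ## the coset decomposition -/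

private theorem exists_cosets (D : Finset G) {g : G} (hgD : g ∈ D) :
    ∃ (I : Finset (G ⧸ lg Q D)) (k : G ⧸ lg Q D → G),
      (∀ i ∈ I, k i ∈ lg Q {g} ∧ Q.q (k i) = 0) ∧
      Set.Pairwise (I : Set (G ⧸ lg Q D))
        (Function.onFun Disjoint fun i => (fun t => (k i)⁻¹ * t) ⁻¹' (lg Q D : Set G)) ∧
      (lg Q {g} : Set G) = ⋃ i ∈ I, (fun t => (k i)⁻¹ * t) ⁻¹' (lg Q D : Set G) := by
  classical
  have hle : ∀ l ∈ lg Q D, l ∈ lg Q {g} := by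
    intro l hl
    refine ⟨hl.1, fun h hh => ?_⟩
    rw [Finset.mem_singleton.1 hh]
    exact hl.2 g hgD
  let Kc : Set G := {k | k ∈ lg Q {g} ∧ Q.q k = 0}
  have hKc : IsCompact Kc := by
    have h1 : IsCompact {u | u ∈ Q.U ∧ Q.q u ∈ ({0} : Set V)} := Q.proper _ isCompact_singleton
    have h2 : IsClosed (lg Q {g} : Set G) := (lg Q {g}).isClosed_of_isOpen (lg_open Q {g})
    have h3 : Kc = {u | u ∈ Q.U ∧ Q.q u ∈ ({0} : Set V)} ∩ (lg Q {g} : Set G) := by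
      ext k
      constructor
      · rintro ⟨h4, h5⟩
        exact ⟨⟨h4.1, h5⟩, h4⟩
      · rintro ⟨⟨h4, h5⟩, h6⟩
        exact ⟨h6, h5⟩
    rw [h3]
    exact h1.inter_right h2
  have hdisc : DiscreteTopology (G ⧸ lg Q D) := QuotientGroup.discreteTopology (lg_open Q D)
  have hfin : ((QuotientGroup.mk : G → G ⧸ lg Q D) '' Kc).Finite :=
    isCompact_iff_finite.1 (hKc.image QuotientGroup.continuous_mk)
  have hch : ∀ i : G ⧸ lg Q D, ∃ k : G, (i ∈ (QuotientGroup.mk : G → G ⧸ lg Q D) '' Kc →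
      k ∈ Kc ∧ (QuotientGroup.mk k : G ⧸ lg Q D) = i) := by
    intro i
    by_cases hi : i ∈ (QuotientGroup.mk : G → G ⧸ lg Q D) '' Kc
    · obtain ⟨k, hk, hk'⟩ := hi
      exact ⟨k, fun _ => ⟨hk, hk'⟩⟩
    · exact ⟨1, fun h => absurd h hi⟩
  choose k hk using hch
  refine ⟨hfin.toFinset, k, fun i hi => ?_, ?_, ?_⟩
  · exact (hk i (hfin.mem_toFinset.1 hi)).1
  · intro i hi j hj hij
    refine Set.disjoint_left.2 fun t ht ht' => hij ?_
    have hi' := (hk i (hfin.mem_toFinset.1 hi)).2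
    have hj' := (hk j (hfin.mem_toFinset.1 hj)).2
    have e1 : (QuotientGroup.mk (k i) : G ⧸ lg Q D) = QuotientGroup.mk t :=
      QuotientGroup.eq.2 ht
    have e2 : (QuotientGroup.mk (k j) : G ⧸ lg Q D) = QuotientGroup.mk t :=
      QuotientGroup.eq.2 ht'
    rw [← hi', ← hj', e1, e2]
  · ext s
    simp only [Set.mem_iUnion, Set.mem_preimage, SetLike.mem_coe, exists_prop]
    constructor
    · intro hs
      obtain ⟨l, hl, hql⟩ := lg_surj Q D (Q.q s)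
      have hk0 : s * l⁻¹ ∈ Kc := by
        refine ⟨(lg Q {g}).mul_mem hs ((lg Q {g}).inv_mem (hle l hl)), ?_⟩
        rw [Q.map_mul s hs.1 l⁻¹ (Q.U.inv_mem hl.1), Q.q_inv hl.1, hql, add_neg_cancel]
      have hi : (QuotientGroup.mk (s * l⁻¹) : G ⧸ lg Q D) ∈
          (QuotientGroup.mk : G → G ⧸ lg Q D) '' Kc := ⟨_, hk0, rfl⟩
      refine ⟨QuotientGroup.mk (s * l⁻¹), hfin.mem_toFinset.2 hi, ?_⟩
      have h1 := (hk _ hi).2
      have h2 : (QuotientGroup.mk (s * l⁻¹) : G ⧸ lg Q D) = QuotientGroup.mk s := by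
        rw [QuotientGroup.eq]
        have h3 : (s * l⁻¹)⁻¹ * s = l := by group
        rw [h3]
        exact hl
      exact QuotientGroup.eq.1 (h1.trans h2)
    · rintro ⟨i, hi, hs⟩
      have h1 := (hk i (hfin.mem_toFinset.1 hi)).1.1
      have h2 := (lg Q {g}).mul_mem h1 (hle _ hs)
      rwa [mul_inv_cancel_left] at h2

/-- C-e left: `g` centralising -/
theorem TrAct.J_left {g : G} (hg : Q.InZ g) : ∃ c : ℝ, 0 < c ∧ c ≤ 1 ∧
    (∀ (m : A) (x : Lp K 2 (Q.kap μ)),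
      inner ℂ (S.J μ Q x) (S.pi μ m ((lam μ K).U g (S.Gam μ g (S.J μ Q x))))
        = c * inner ℂ x (Q.onV μ (T.Lm m * S.U.U g) x)) ∧
    (∀ (D : Finset G), g ∈ D → ∀ (m : A),
      (∀ l ∈ Q.U, (∀ h ∈ D, h⁻¹ * l * h ∈ Q.U) → S.α l m = m) →
      ∀ (κ : ℝ) (x : Lp K 2 (Q.kap μ)),
        (∀ k ∈ Q.U, Q.q k = 0 → ‖Q.onV μ (S.U.U k) x - x‖ ≤ κ) →
        ‖inner ℂ (S.J μ Q x) (oneT μ (T.Rm m) ((lam μ K).U g (S.Gam μ g (S.J μ Q x))))
          - c * inner ℂ x (Q.onV μ (T.Rm m * S.U.U g) x)‖ ≤ 2 * ‖m‖ * ‖x‖ * κ) := by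
  obtain ⟨c, hc0, hc⟩ := lg_map μ Q {g}
  have hc1 := lg_le_one μ Q {g} c hc
  refine ⟨c, by exact_mod_cast hc0, by exact_mod_cast hc1, ?_, ?_⟩
  · intro m x
    rw [inner_J_eq μ S Q hg (S.pi μ m) (fun s => T.Lm (S.α s⁻¹ m)) (S.pi_ae μ m) x]
    have h1 : ∀ s : G, ∀ ξ : K, S.U.U s (T.Lm (S.α s⁻¹ m) (S.U.U s⁻¹ (S.U.U g ξ)))
        = T.Lm m (S.U.U g ξ) := by
      intro s ξ
      rw [U_Lm, S.apply_inv, S.U.apply_inv]
    simp only [h1]
    obtain ⟨i1, i2⟩ := inner_onV μ Q (T.Lm m * S.U.U g) x x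
    rw [i2]
    exact (int_map μ Q _ c hc _ i1).2
  · intro D hgD m hm κ x hx
    rw [inner_J_eq μ S Q hg (oneT μ (T.Rm m)) (fun _ => T.Rm m) (oneT_ae μ (T.Rm m)) x]
    have h1 : ∀ s : G, ∀ ξ : K, S.U.U s (T.Rm m (S.U.U s⁻¹ (S.U.U g ξ)))
        = T.Rm (S.α s m) (S.U.U g ξ) := by
      intro s ξ
      rw [U_Rm, S.U.apply_inv]
    simp only [h1]
    obtain ⟨c1, hc10, hc1'⟩ := lg_map μ Q D
    obtain ⟨I, k, hk, hdis, hun⟩ := exists_cosets Q D hgD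
    have hcos : ∀ i ∈ I, (μ.restrict ((fun t => (k i)⁻¹ * t) ⁻¹' (lg Q D : Set G))).map Q.q
        = c1 • Q.kap μ := fun i hi => by
      rw [coset_map μ Q D (hk i hi).1.1 (hk i hi).2, hc1']
    have hmeas : ∀ i ∈ I, MeasurableSet ((fun t => (k i)⁻¹ * t) ⁻¹' (lg Q D : Set G)) :=
      fun i _ => (measurable_const_mul _) (lg_open Q D).measurableSet
    have hsum : ∀ F : V → ℂ, Integrable F (Q.kap μ) →
        ((c : ℝ) : ℂ) * ∫ v, F v ∂(Q.kap μ) = ∑ i ∈ I, ((c1 : ℝ) : ℂ) * ∫ v, F v ∂(Q.kap μ) := by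
      intro F hF
      rw [← (int_map μ Q _ c hc F hF).2, hun, integral_biUnion_finset I hmeas hdis
        (fun i hi => (int_map μ Q _ c1 (hcos i hi) F hF).1)]
      exact Finset.sum_congr rfl fun i hi => (int_map μ Q _ c1 (hcos i hi) F hF).2
    have hN : (c : ℝ) = ∑ i ∈ I, (c1 : ℝ) := by
      obtain ⟨b1, b2⟩ := kap_ball μ Q
      have hF : Integrable ((Metric.closedBall (0 : V) 1).indicator fun _ => (1 : ℂ))
          (Q.kap μ) := by
        rw [integrable_indicator_iff measurableSet_closedBall]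
        exact integrableOn_const b2.ne
      have h2 := hsum _ hF
      rw [integral_indicator measurableSet_closedBall, setIntegral_const, ← Finset.sum_mul] at h2
      have h3 : ((Q.kap μ).real (Metric.closedBall (0 : V) 1) • (1 : ℂ)) ≠ 0 := by
        rw [Complex.real_smul, mul_one, Complex.ofReal_ne_zero, measureReal_def]
        exact (ENNReal.toReal_pos b1.ne' b2.ne).ne'
      have h4 := mul_right_cancel₀ h3 h2
      exact_mod_cast h4
    have hval : ∀ i ∈ I, ∀ s ∈ (fun t => (k i)⁻¹ * t) ⁻¹' (lg Q D : Set G),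
        S.α s m = S.α (k i) m := by
      intro i hi s hs
      have e : s = k i * ((k i)⁻¹ * s) := by group
      rw [e, S.mul, hm _ hs.1 hs.2]
    have hcong : ∀ i ∈ I, Set.EqOn
        (fun s => (inner ℂ (x (Q.q s)) (T.Rm (S.α s m) (S.U.U g (x (Q.q s)))) : ℂ))
        (fun s => (inner ℂ (x (Q.q s)) ((T.Rm (S.α (k i) m) * S.U.U g) (x (Q.q s))) : ℂ))
        ((fun t => (k i)⁻¹ * t) ⁻¹' (lg Q D : Set G)) := by
      intro i hi s hs
      simp only [hval i hi s hs]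
      rfl
    have hL : ∫ s in (lg Q {g} : Set G),
        (inner ℂ (x (Q.q s)) (T.Rm (S.α s m) (S.U.U g (x (Q.q s)))) : ℂ) ∂μ
        = ∑ i ∈ I, ((c1 : ℝ) : ℂ) * inner ℂ x (Q.onV μ (T.Rm (S.α (k i) m) * S.U.U g) x) := by
      rw [hun, integral_biUnion_finset I hmeas hdis (fun i hi => ?_)]
      · refine Finset.sum_congr rfl fun i hi => ?_
        rw [setIntegral_congr_fun (hmeas i hi) (hcong i hi)]
        obtain ⟨i1, i2⟩ := inner_onV μ Q (T.Rm (S.α (k i) m) * S.U.U g) x x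
        rw [i2]
        exact (int_map μ Q _ c1 (hcos i hi) _ i1).2
      · obtain ⟨i1, i2⟩ := inner_onV μ Q (T.Rm (S.α (k i) m) * S.U.U g) x x
        exact (integrableOn_congr_fun (hcong i hi) (hmeas i hi)).2
          (int_map μ Q _ c1 (hcos i hi) _ i1).1
    obtain ⟨j1, j2⟩ := inner_onV μ Q (T.Rm m * S.U.U g) x x
    have hR : ((c : ℝ) : ℂ) * inner ℂ x (Q.onV μ (T.Rm m * S.U.U g) x)
        = ∑ i ∈ I, ((c1 : ℝ) : ℂ) * inner ℂ x (Q.onV μ (T.Rm m * S.U.U g) x) := by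
      rw [j2]
      exact hsum _ j1
    have hκ : 0 ≤ κ := (norm_nonneg _).trans (hx 1 Q.U.one_mem Q.q_one)
    have hE : 0 ≤ 2 * ‖m‖ * ‖x‖ * κ := by positivity
    rw [hL, hR, ← Finset.sum_sub_distrib]
    calc ‖∑ i ∈ I, (((c1 : ℝ) : ℂ) * inner ℂ x (Q.onV μ (T.Rm (S.α (k i) m) * S.U.U g) x)
          - ((c1 : ℝ) : ℂ) * inner ℂ x (Q.onV μ (T.Rm m * S.U.U g) x))‖
        ≤ ∑ i ∈ I, (c1 : ℝ) * (2 * ‖m‖ * ‖x‖ * κ) := by
          refine norm_sum_le_of_le _ fun i hi => ?_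
          rw [← mul_sub, norm_mul, Complex.norm_real, Real.norm_of_nonneg (NNReal.coe_nonneg c1)]
          refine mul_le_mul_of_nonneg_left ?_ (NNReal.coe_nonneg c1)
          have hki := hk i hi
          exact coset_err μ S Q hg hki.1.1 (hki.1.2 g (Finset.mem_singleton_self g)) hki.2 m κ x hx
      _ = (c : ℝ) * (2 * ‖m‖ * ‖x‖ * κ) := by rw [← Finset.sum_mul, ← hN]
      _ ≤ 1 * (2 * ‖m‖ * ‖x‖ * κ) :=
          mul_le_mul_of_nonneg_right (by exact_mod_cast hc1) hE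
      _ = 2 * ‖m‖ * ‖x‖ * κ := one_mul _

end

end Pool.Agent.AbCoc
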