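import Pool.Agent.Lib_MP_418a80_un.UF4a
import Pool.Agent.Lib_MP_418a80_un.UF4b
import Pool.Agent.Lib_MP_418a80_un.UF3
import Pool.Agent.Lib_MP_418a80_un.UnC2c

/-! # F4c: the inequality for one vector -/

set_option autoImplicit false
set_option linter.unusedVariables false
set_option linter.unusedSectionVars false

open MeasureTheory Topology Filter CompactlySupported
open scoped ENNReal NNReal ComplexConjugate

namespace Pool.Agent.AbCoc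

universe u v w z

section
variable {A : Type u} [CStarAlgebra A] {K : Type v} [NormedAddCommGroup K]
  [InnerProductSpace ℂ K] [CompleteSpace K]
variable {G : Type w} [Group G] [TopologicalSpace G] [IsTopologicalGroup G]
  [SecondCountableTopology G] [LocallyCompactSpace G] [MeasurableSpace G] [BorelSpace G]
  (μ : Measure G) [μ.IsHaarMeasure] {T : TrAlg A K} (S : TrAct G T)
  {V : Type z} [NormedAddCommGroup V] [NormedSpace ℝ V] [FiniteDimensional ℝ V]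
  [MeasurableSpace V] [BorelSpace V] (Q : QMap G V)

private theorem F4c_onV_one (x : Lp K 2 (Q.kap μ)) : Q.onV μ (1 : K →L[ℂ] K) x = x := by
  apply Lp.ext
  filter_upwards [Q.onV_ae μ (1 : K →L[ℂ] K) x] with v h1
  rw [h1]
  rfl

private theorem F4c_onV_norm (c : K →L[ℂ] K) (x : Lp K 2 (Q.kap μ)) :
    ‖Q.onV μ c x‖ ≤ ‖c‖ * ‖x‖ := by
  refine ((Q.onV μ c).le_opNorm x).trans (mul_le_mul_of_nonneg_right ?_ (norm_nonneg _))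
  exact ContinuousLinearMap.norm_compLpL_le c

private theorem F4c_one (x : Lp K 2 (Q.kap μ)) :
    (lam μ K).U 1 (S.Gam μ 1 (S.J μ Q x)) = S.J μ Q x := by
  rw [S.J_lam_Gam μ Q Q.U.one_mem, S.U.one, F4c_onV_one]

private theorem F4c_lam_mem (g : G) : (lam μ K).U g ∈ S.NN μ :=
  Set.subset_centralizer_centralizer (Or.inr ⟨g, rfl⟩)

private theorem F4c_pi_mem (a : A) : S.pi μ a ∈ S.NN μ :=
  Set.subset_centralizer_centralizer (Or.inl ⟨a, rfl⟩)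

private theorem F4c_one_mem' :
    (1 : Lp K 2 μ →L[ℂ] Lp K 2 μ) ∈ Set.centralizer (S.NN μ) := Set.one_mem_centralizer

private theorem F4c_mul_mem' {a b : Lp K 2 μ →L[ℂ] Lp K 2 μ}
    (ha : a ∈ Set.centralizer (S.NN μ)) (hb : b ∈ Set.centralizer (S.NN μ)) :
    a * b ∈ Set.centralizer (S.NN μ) := Set.mul_mem_centralizer ha hb

/-- the error estimate -/
private theorem F4c_err {w : ℂ} {w' : ℂ} {c : ℝ} (hc : 0 < c) {e : ℝ}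
    (h : ‖w' - c * w‖ ≤ e) : w.re ≤ c⁻¹ * w'.re + c⁻¹ * e := by
  have h1 : (c * w - w').re ≤ e := by
    refine (Complex.re_le_norm _).trans ?_
    rw [norm_sub_rev]
    exact h
  rw [Complex.sub_re, Complex.re_ofReal_mul] at h1
  have h2 : c * w.re ≤ w'.re + e := by linarith
  have h3 := mul_le_mul_of_nonneg_left h2 (inv_nonneg.2 hc.le)
  rw [← mul_assoc, inv_mul_cancel₀ hc.ne', one_mul, mul_add] at h3
  exact h3

/-- F4c: the inequality for one vector `z`, `ζ = J z`, in terms of the operators `X X'` -/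
theorem TrAct.ineq_one (b1 b2 : A) (hf1 : S.Fixed b1) (hf2 : S.Fixed b2)
    (hs1 : IsSelfAdjoint b1) (hs2 : IsSelfAdjoint b2)
    (c1 : ℝ) (hc1 : 0 < c1)
    (hc1J : ∀ (D : Finset G), (1 : G) ∈ D → ∀ (m : A),
      (∀ l ∈ Q.U, (∀ h ∈ D, h⁻¹ * l * h ∈ Q.U) → S.α l m = m) →
      ∀ (κ : ℝ) (x : Lp K 2 (Q.kap μ)),
        (∀ k ∈ Q.U, Q.q k = 0 → ‖Q.onV μ (S.U.U k) x - x‖ ≤ κ) →
        ‖inner ℂ (S.J μ Q x) (oneT μ (T.Rm m) ((lam μ K).U 1 (S.Gam μ 1 (S.J μ Q x))))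
          - c1 * inner ℂ x (Q.onV μ (T.Rm m * S.U.U 1) x)‖ ≤ 2 * ‖m‖ * ‖x‖ * κ)
    (C R : ℝ) (hC : 0 ≤ C) (hR : 0 ≤ R) (x0 : V →L[ℝ] ℝ) (n : ℕ)
    (g : Fin n → G) (hg : ∀ i, g i ∉ Q.U ∧ Q.InZ (g i)) (m m' : Fin n → A) (d1 d2 : A)
    (hfix : ∀ s ∈ Q.U, (∀ i, (g i)⁻¹ * s * g i ∈ Q.U) → S.α s d2 = d2 ∧ ∀ i, S.α s (m' i) = m' i)
    (h : ∀ (x a : A) (κ : ℝ), a = b1 * x * b2 → 0 ≤ κ →
      (∀ l ∈ Q.U, ‖Q.q l‖ ≤ R → ‖T.ι (S.α l a - chi x0 (Q.q l) • a)‖ ≤ κ) →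
      ‖T.ι a‖ ^ 2 / 8 ≤ C * κ ^ 2 + S.ql 1 d1 a + S.qr 1 d2 a
        + ∑ i, (S.ql (g i) (m i) a + S.qr (g i) (m' i) a)) :
    ∃ (φ0 : C_c(V, ℝ)) (C1 : ℝ) (c : Fin n → ℝ), IsDens μ Q φ0 ∧ 0 ≤ C1 ∧ (∀ i, 0 < c i) ∧
      ∀ (z : Lp K 2 (Q.kap μ)) (ε : ℝ), 0 < ε → ε ≤ 1 →
        (∫ l in (Q.U : Set G), φ0 (Q.q l) *
          ‖starRingEnd ℂ (chi x0 (Q.q l)) • (lam μ K).U l (S.J μ Q z) - S.J μ Q z‖ ^ 2 ∂μ
            ≤ ε ^ 2 * ‖S.J μ Q z‖ ^ 2) →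
        (∫ l in (Q.U : Set G), φ0 (Q.q l) *
          ‖S.Gam μ l (S.J μ Q z) - S.J μ Q z‖ ^ 2 ∂μ ≤ ε ^ 2 * ‖S.J μ Q z‖ ^ 2) →
        (inner ℂ (S.J μ Q z) (S.pi μ (b1 * b1) (oneT μ (T.Rm (b2 * b2)) (S.J μ Q z)))).re / 8
          ≤ C1 * ε * ‖S.J μ Q z‖ ^ 2
            + (inner ℂ (S.J μ Q z) (S.pi μ (b1 * d1 * b1)
                (oneT μ (T.Rm (b2 * b2)) (S.J μ Q z)))).re
            + c1⁻¹ * (inner ℂ (S.J μ Q z) (S.pi μ (b1 * b1)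
                (oneT μ (T.Rm (b2 * d2 * b2)) (S.J μ Q z)))).re
            + ∑ i, ((c i)⁻¹ * (inner ℂ (S.J μ Q z)
                ((S.pi μ (b1 * m i) * (lam μ K).U (g i) * S.pi μ b1)
                  ((oneT μ (T.Rm b2) * S.Gam μ (g i) * oneT μ (T.Rm b2)) (S.J μ Q z)))).re
              + (c i)⁻¹ * (inner ℂ (S.J μ Q z)
                ((S.pi μ b1 * (lam μ K).U (g i) * S.pi μ b1)
                  ((oneT μ (T.Rm b2) * (oneT μ (T.Rm (m' i)) * S.Gam μ (g i)) * oneT μ (T.Rm b2))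
                    (S.J μ Q z)))).re) := by
  obtain ⟨φ0, hφ, δ', hδ', hφR⟩ := exists_dens μ Q (2 * (R + 1))
  obtain ⟨C', hC', hsup'⟩ := S.sup_near_le μ Q x0 φ0 hφ (R + 1) (by linarith) δ' hδ' hφR
  have hsup : ∀ (x : K), ∀ l ∈ Q.U, ‖Q.q l‖ ≤ R →
      ‖S.U.U l x - chi x0 (Q.q l) • x‖ ^ 2
        ≤ C' * ∫ t in (Q.U : Set G), φ0 (Q.q t) *
          ‖S.U.U t x - chi x0 (Q.q t) • x‖ ^ 2 ∂μ :=
    fun x l hl hlR => hsup' x l hl (by linarith)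
  choose c hc0 hc1' hcL hcR using fun i => S.J_left μ Q (hg i).2
  classical
  set D : Finset G := insert 1 (Finset.univ.image g) with hD
  have hDg : ∀ i, g i ∈ D := fun i =>
    Finset.mem_insert_of_mem (Finset.mem_image_of_mem g (Finset.mem_univ i))
  have hDfix : ∀ l ∈ Q.U, (∀ h ∈ D, h⁻¹ * l * h ∈ Q.U) →
      S.α l d2 = d2 ∧ ∀ i, S.α l (m' i) = m' i :=
    fun l hl hh => hfix l hl fun i => hh (g i) (hDg i)
  set B : ℝ := ‖b1‖ * ‖b2‖ with hB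
  have hB0 : 0 ≤ B := mul_nonneg (norm_nonneg _) (norm_nonneg _)
  set E : ℝ := 2 * B ^ 2 * Real.sqrt C' with hE
  have hE0 : 0 ≤ E := by positivity
  have hci : ∀ i, 0 ≤ (c i)⁻¹ := fun i => (inv_pos.2 (hc0 i)).le
  have hc1i : 0 ≤ c1⁻¹ := (inv_pos.2 hc1).le
  refine ⟨φ0, 4 * (C * C' * B ^ 2) + c1⁻¹ * (2 * ‖d2‖) * E
    + ∑ i, (c i)⁻¹ * (2 * ‖m' i‖) * E, c, hφ, ?_, hc0, ?_⟩
  · refine add_nonneg (add_nonneg (by positivity) (by positivity))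
      (Finset.sum_nonneg fun i _ => ?_)
    exact mul_nonneg (mul_nonneg (hci i) (by positivity)) hE0
  intro z ε hε hε1 h1 h2
  obtain ⟨x, hx⟩ : ∃ x, x = Q.onV μ (T.Lm b1) (Q.onV μ (T.Rm b2) z) := ⟨_, rfl⟩
  obtain ⟨ζ, hζ⟩ : ∃ ζ, ζ = S.J μ Q z := ⟨_, rfl⟩
  have hJx : S.J μ Q x = S.pi μ b1 (oneT μ (T.Rm b2) ζ) := by
    rw [hx, hζ]
    exact S.J_corner μ Q b1 b2 hf1 hf2 z
  have hζn : ‖ζ‖ = ‖z‖ := by rw [hζ, S.J_norm μ Q]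
  have hcorner : ∀ X X' : Lp K 2 μ →L[ℂ] Lp K 2 μ, X ∈ S.NN μ →
      X' ∈ Set.centralizer (S.NN μ) →
      inner ℂ (S.J μ Q x) (X (X' (S.J μ Q x))) = inner ℂ ζ ((S.pi μ b1 * X * S.pi μ b1)
        ((oneT μ (T.Rm b2) * X' * oneT μ (T.Rm b2)) ζ)) := by
    intro X X' hX hX'
    rw [hJx]
    exact S.inner_corner μ b1 b2 hs1 hs2 X X' hX hX' ζ
  -- the near-eigen term
  set I : ℝ := ∫ t in (Q.U : Set G), φ0 (Q.q t) *
          ‖Q.onV μ (S.U.U t) x - chi x0 (Q.q t) • x‖ ^ 2 ∂μ with hI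
  have hIle : I ≤ B ^ 2 * (4 * ε ^ 2 * ‖z‖ ^ 2) := by
    have h3 := S.near_V μ Q x0 φ0 hφ z (ε ^ 2) h1 h2
    have h4 := S.near_V_corner μ Q x0 φ0 hφ b1 b2 hf1 hf2 z
    rw [← hx] at h4
    exact h4.trans (mul_le_mul_of_nonneg_left h3 (by positivity))
  have hxz : ‖x‖ ≤ B * ‖z‖ := by
    rw [hx]
    refine (F4c_onV_norm μ Q _ _).trans ?_
    have h3 := F4c_onV_norm μ Q (T.Rm b2) z
    have h4 := T.Lm_norm_le b1
    have h5 := T.Rm_norm_le b2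
    calc ‖T.Lm b1‖ * ‖Q.onV μ (T.Rm b2) z‖ ≤ ‖b1‖ * (‖b2‖ * ‖z‖) :=
          mul_le_mul h4 (h3.trans (mul_le_mul_of_nonneg_right h5 (norm_nonneg _)))
            (norm_nonneg _) (norm_nonneg _)
      _ = B * ‖z‖ := by rw [hB]; ring
  obtain ⟨κ, hκ⟩ : ∃ κ : ℝ, κ = 2 * ε * B * Real.sqrt C' * ‖z‖ := ⟨_, rfl⟩
  have hκ0 : 0 ≤ κ := by
    rw [hκ]
    positivity
  have hκk : ∀ k ∈ Q.U, Q.q k = 0 → ‖Q.onV μ (S.U.U k) x - x‖ ≤ κ := by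
    intro k hk hk0
    have h3 := S.sup_on_V μ Q R x0 φ0 hφ C' hC' hsup x k hk (by rw [hk0, norm_zero]; exact hR)
    have h4 : chi x0 (Q.q k) = 1 := by
      rw [hk0]
      simp [chi]
    rw [h4, one_smul] at h3
    have h5 : ‖Q.onV μ (S.U.U k) x - x‖ ^ 2 ≤ κ ^ 2 := by
      refine h3.trans ((mul_le_mul_of_nonneg_left hIle hC').trans (le_of_eq ?_))
      have h6 : Real.sqrt C' ^ 2 = C' := Real.sq_sqrt hC'
      rw [hκ]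
      linear_combination (-(4 * ε ^ 2 * B ^ 2 * ‖z‖ ^ 2)) * h6
    exact (pow_le_pow_iff_left₀ (norm_nonneg _) hκ0 two_ne_zero).1 h5
  have hxκ : ‖x‖ * κ ≤ E * ε * ‖z‖ ^ 2 := by
    refine (mul_le_mul_of_nonneg_right hxz hκ0).trans (le_of_eq ?_)
    rw [hκ, hE]
    ring
  have hεε : ε ^ 2 ≤ ε := by nlinarith
  have hmain := S.ineq_on_V μ Q b1 b2 C R hC x0 n g m m' d1 d2 h φ0 hφ C' hC' hsup z x hx
  rw [← hI] at hmain
  -- the norm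
  have t0 : ‖x‖ ^ 2 = (inner ℂ ζ (S.pi μ (b1 * b1) (oneT μ (T.Rm (b2 * b2)) ζ))).re := by
    have h3 := hcorner 1 1 TrAct.NN_one (F4c_one_mem' μ S)
    have h4 : (inner ℂ (S.J μ Q x) ((1 : Lp K 2 μ →L[ℂ] Lp K 2 μ)
        ((1 : Lp K 2 μ →L[ℂ] Lp K 2 μ) (S.J μ Q x)))).re = ‖x‖ ^ 2 := by
      rw [← S.J_norm μ Q x]
      have := inner_self_eq_norm_sq (𝕜 := ℂ) (S.J μ Q x)
      simpa using this
    rw [← h4, h3, mul_one, mul_one, ← S.pi_mul μ, ← oneT_mul, ← T.Rm_mul]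
  -- the left diagonal term
  have t1 : (inner ℂ x (Q.onV μ (T.Lm d1) x)).re
      = (inner ℂ ζ (S.pi μ (b1 * d1 * b1) (oneT μ (T.Rm (b2 * b2)) ζ))).re := by
    have h3 := hcorner (S.pi μ d1) 1 (F4c_pi_mem μ S d1) (F4c_one_mem' μ S)
    rw [← S.J_inner μ Q, ← S.J_pi μ Q]
    refine congrArg Complex.re (h3.trans ?_)
    rw [mul_one, ← S.pi_mul μ, ← S.pi_mul μ, ← oneT_mul, ← T.Rm_mul]
  -- the right diagonal term
  have t2 : (inner ℂ x (Q.onV μ (T.Rm d2) x)).re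
      ≤ c1⁻¹ * (inner ℂ ζ (S.pi μ (b1 * b1) (oneT μ (T.Rm (b2 * d2 * b2)) ζ))).re
        + c1⁻¹ * (2 * ‖d2‖ * ‖x‖ * κ) := by
    have h3 := hc1J D (Finset.mem_insert_self _ _) d2 (fun l hl hh => (hDfix l hl hh).1) κ x hκk
    rw [F4c_one, S.U.one, mul_one] at h3
    have h4 := hcorner 1 (oneT μ (T.Rm d2)) TrAct.NN_one (S.Rm_mem μ d2)
    have h5 : inner ℂ (S.J μ Q x) (oneT μ (T.Rm d2) (S.J μ Q x))
        = inner ℂ ζ (S.pi μ (b1 * b1) (oneT μ (T.Rm (b2 * d2 * b2)) ζ)) := by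
      refine h4.trans ?_
      rw [mul_one, ← S.pi_mul μ, ← oneT_mul, ← oneT_mul, ← T.Rm_mul, ← T.Rm_mul, mul_assoc]
    rw [h5] at h3
    exact F4c_err hc1 h3
  -- the left cross terms
  have t3 : ∀ i, (inner ℂ x (Q.onV μ (T.Lm (m i) * S.U.U (g i)) x)).re
      = (c i)⁻¹ * (inner ℂ ζ
          ((S.pi μ (b1 * m i) * (lam μ K).U (g i) * S.pi μ b1)
            ((oneT μ (T.Rm b2) * S.Gam μ (g i) * oneT μ (T.Rm b2)) ζ))).re := by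
    intro i
    have h3 := hcL i (m i) x
    have h4 := hcorner (S.pi μ (m i) * (lam μ K).U (g i)) (S.Gam μ (g i))
      (TrAct.NN_mul (F4c_pi_mem μ S _) (F4c_lam_mem μ S _)) (S.Gam_mem μ (g i))
    have h5 := h4.symm.trans h3
    rw [← mul_assoc (S.pi μ b1), ← S.pi_mul μ] at h5
    rw [h5, Complex.re_ofReal_mul, ← mul_assoc, inv_mul_cancel₀ (hc0 i).ne', one_mul]
  -- the right cross terms
  have t4 : ∀ i, (inner ℂ x (Q.onV μ (T.Rm (m' i) * S.U.U (g i)) x)).re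
      ≤ (c i)⁻¹ * (inner ℂ ζ
          ((S.pi μ b1 * (lam μ K).U (g i) * S.pi μ b1)
            ((oneT μ (T.Rm b2) * (oneT μ (T.Rm (m' i)) * S.Gam μ (g i)) * oneT μ (T.Rm b2))
              ζ))).re + (c i)⁻¹ * (2 * ‖m' i‖ * ‖x‖ * κ) := by
    intro i
    have h3 := hcR i D (hDg i) (m' i) (fun l hl hh => (hDfix l hl hh).2 i) κ x hκk
    have h4 := hcorner ((lam μ K).U (g i)) (oneT μ (T.Rm (m' i)) * S.Gam μ (g i))
      (F4c_lam_mem μ S _) (F4c_mul_mem' μ S (S.Rm_mem μ _) (S.Gam_mem μ (g i)))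
    have h6 : ∀ y : Lp K 2 μ, oneT μ (T.Rm (m' i)) ((lam μ K).U (g i) y)
        = (lam μ K).U (g i) (oneT μ (T.Rm (m' i)) y) := by
      intro y
      have h7 := S.Rm_mem μ (m' i)
      rw [Set.mem_centralizer_iff] at h7
      have h8 := h7 _ (F4c_lam_mem μ S (g i))
      exact (congrArg (fun Z : Lp K 2 μ →L[ℂ] Lp K 2 μ => Z y) h8).symm
    rw [h6] at h3
    have h5 : inner ℂ (S.J μ Q x) ((lam μ K).U (g i) (oneT μ (T.Rm (m' i))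
        (S.Gam μ (g i) (S.J μ Q x)))) = _ := h4
    rw [h5] at h3
    exact F4c_err (hc0 i) h3
  -- the sum
  have hsum : ∑ i, ((inner ℂ x (Q.onV μ (T.Lm (m i) * S.U.U (g i)) x)).re
        + (inner ℂ x (Q.onV μ (T.Rm (m' i) * S.U.U (g i)) x)).re)
      ≤ ∑ i, ((c i)⁻¹ * (inner ℂ ζ
                ((S.pi μ (b1 * m i) * (lam μ K).U (g i) * S.pi μ b1)
                  ((oneT μ (T.Rm b2) * S.Gam μ (g i) * oneT μ (T.Rm b2)) ζ))).re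
              + (c i)⁻¹ * (inner ℂ ζ
                ((S.pi μ b1 * (lam μ K).U (g i) * S.pi μ b1)
                  ((oneT μ (T.Rm b2) * (oneT μ (T.Rm (m' i)) * S.Gam μ (g i)) * oneT μ (T.Rm b2))
                    ζ))).re)
        + (∑ i, (c i)⁻¹ * (2 * ‖m' i‖) * E) * (ε * ‖z‖ ^ 2) := by
    rw [Finset.sum_mul, ← Finset.sum_add_distrib]
    refine Finset.sum_le_sum fun i _ => ?_
    rw [t3 i]
    have h3 := t4 i
    have h4 : (c i)⁻¹ * (2 * ‖m' i‖ * ‖x‖ * κ)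
        ≤ (c i)⁻¹ * (2 * ‖m' i‖) * E * (ε * ‖z‖ ^ 2) := by
      have h5 := mul_le_mul_of_nonneg_left hxκ
        (mul_nonneg (hci i) (by positivity : (0:ℝ) ≤ 2 * ‖m' i‖))
      calc (c i)⁻¹ * (2 * ‖m' i‖ * ‖x‖ * κ) = (c i)⁻¹ * (2 * ‖m' i‖) * (‖x‖ * κ) := by ring
        _ ≤ _ := h5
        _ = _ := by ring
    linarith
  have hd2 : c1⁻¹ * (2 * ‖d2‖ * ‖x‖ * κ) ≤ c1⁻¹ * (2 * ‖d2‖) * E * (ε * ‖z‖ ^ 2) := by
    have h5 := mul_le_mul_of_nonneg_left hxκ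
      (mul_nonneg hc1i (by positivity : (0:ℝ) ≤ 2 * ‖d2‖))
    calc c1⁻¹ * (2 * ‖d2‖ * ‖x‖ * κ) = c1⁻¹ * (2 * ‖d2‖) * (‖x‖ * κ) := by ring
      _ ≤ _ := h5
      _ = _ := by ring
  have hCI : C * C' * I ≤ 4 * (C * C' * B ^ 2) * (ε * ‖z‖ ^ 2) := by
    have h3 := mul_le_mul_of_nonneg_left hIle (mul_nonneg hC hC')
    have h4 : 4 * (C * C' * B ^ 2) * (ε ^ 2 * ‖z‖ ^ 2) ≤ 4 * (C * C' * B ^ 2) * (ε * ‖z‖ ^ 2) :=
      mul_le_mul_of_nonneg_left (mul_le_mul_of_nonneg_right hεε (by positivity)) (by positivity)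
    linarith
  rw [← hζ, hζn, ← t0]
  rw [t1] at hmain
  have hfin : (4 * (C * C' * B ^ 2) + c1⁻¹ * (2 * ‖d2‖) * E
      + ∑ i, (c i)⁻¹ * (2 * ‖m' i‖) * E) * ε * ‖z‖ ^ 2
      = 4 * (C * C' * B ^ 2) * (ε * ‖z‖ ^ 2) + c1⁻¹ * (2 * ‖d2‖) * E * (ε * ‖z‖ ^ 2)
        + (∑ i, (c i)⁻¹ * (2 * ‖m' i‖) * E) * (ε * ‖z‖ ^ 2) := by ring
  rw [hfin]
  linarith

end

end Pool.Agent.AbCoc
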