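import Pool.Agent.Lib_MP_418a80_un.UF1
import Pool.Agent.Lib_MP_418a80_un.UF3
import Pool.Agent.Lib_MP_418a80_un.UB7
import Pool.Agent.Lib_MP_418a80_un.UnC2c
import Pool.Agent.Lib_MP_418a80_un.UF4a
import Pool.Agent.Lib_MP_418a80_un.UF4b
import Pool.Agent.Lib_MP_418a80_un.UF4c

/-! # F4: the contradiction -/

set_option autoImplicit false
set_option linter.unusedVariables false
set_option linter.unusedSectionVars false

open MeasureTheory Topology Filter CompactlySupported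
open scoped ENNReal NNReal ComplexConjugate

namespace Pool.Agent.AbCoc

universe u v w z

section
variable {A : Type u} [CStarAlgebra A] {K : Type v} [NormedAddCommGroup K]
  [InnerProductSpace ℂ K] [CompleteSpace K]
variable {G : Type w} [Group G] [TopologicalSpace G] [IsTopologicalGroup G]
  [SecondCountableTopology G] [LocallyCompactSpace G] [MeasurableSpace G] [BorelSpace G]
  (μ : Measure G) [μ.IsHaarMeasure] {T : TrAlg A K} (S : TrAct G T)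
  {V : Type z} [NormedAddCommGroup V] [NormedSpace ℝ V] [FiniteDimensional ℝ V]
  [MeasurableSpace V] [BorelSpace V] (Q : QMap G V)

private theorem F4_tau_sq (T : TrAlg A K) (b : A) (hs : IsSelfAdjoint b) :
    T.τ (b * b) = ((‖T.ι b‖ ^ 2 : ℝ) : ℂ) := by
  have h := T.inner_eq_τ b b
  rw [hs.star_eq, inner_self_eq_norm_sq_to_K] at h
  rw [← h]
  push_cast
  rfl

private theorem F4_tau_le (T : TrAlg A K) (b d : A) : ‖T.τ (b * d * b)‖ ≤ ‖b‖ ^ 2 * ‖T.ι d‖ := by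
  unfold TrAlg.τ
  have e : inner ℂ (T.ι 1) (T.ι (b * d * b)) = inner ℂ (T.ι (star b)) (T.ι (d * b)) := by
    rw [mul_assoc]
    have := T.left' 1 (d * b) b
    rw [mul_one] at this
    exact this.symm
  rw [e]
  refine (norm_inner_le_norm _ _).trans ?_
  have h1 : ‖T.ι (star b)‖ ≤ ‖b‖ := by
    rw [T.norm_star]
    exact T.norm_le b
  have h2 := T.mul_le' d b
  calc ‖T.ι (star b)‖ * ‖T.ι (d * b)‖ ≤ ‖b‖ * (‖T.ι d‖ * ‖b‖) :=
        mul_le_mul h1 h2 (norm_nonneg _) (norm_nonneg _)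
    _ = ‖b‖ ^ 2 * ‖T.ι d‖ := by ring

theorem TrAct.false_of_ineqC (hSO : S.SO μ Set.univ) (b1 b2 : A) (hf1 : S.Fixed b1)
    (hf2 : S.Fixed b2) (hs1 : IsSelfAdjoint b1) (hs2 : IsSelfAdjoint b2) (h1 : b1 ≠ 0)
    (h2 : b2 ≠ 0) (h : ∀ δ : ℝ, 0 < δ → S.IneqC Q b1 b2 δ) : False := by
  classical
  have hZ1 : Q.InZ (1 : G) := by
    intro u hu h
    rw [inv_one, one_mul, mul_one]
  obtain ⟨c1, hc1, -, -, hc1J⟩ := S.J_left μ Q hZ1
  obtain ⟨τ1, hτ1⟩ : ∃ τ1 : ℝ, τ1 = ‖T.ι b1‖ ^ 2 := ⟨_, rfl⟩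
  obtain ⟨τ2, hτ2⟩ : ∃ τ2 : ℝ, τ2 = ‖T.ι b2‖ ^ 2 := ⟨_, rfl⟩
  have hpos : ∀ b : A, b ≠ 0 → 0 < ‖T.ι b‖ ^ 2 := by
    intro b hb
    have h3 : T.ι b ≠ 0 := fun h0 => hb (T.inj (by rw [h0, map_zero]))
    positivity
  have hτ1p : 0 < τ1 := by rw [hτ1]; exact hpos b1 h1
  have hτ2p : 0 < τ2 := by rw [hτ2]; exact hpos b2 h2
  have hc1i : 0 < c1⁻¹ := inv_pos.2 hc1
  obtain ⟨Y, hY⟩ : ∃ Y : ℝ, Y = ‖b1‖ ^ 2 * τ2 + c1⁻¹ * (τ1 * ‖b2‖ ^ 2) := ⟨_, rfl⟩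
  have hY0 : 0 ≤ Y := by rw [hY]; positivity
  obtain ⟨δ, hδ⟩ : ∃ δ : ℝ, δ = τ1 * τ2 / (64 * (Y + 1)) := ⟨_, rfl⟩
  have hδp : 0 < δ := by rw [hδ]; positivity
  have hδY : δ * Y ≤ τ1 * τ2 / 64 := by
    rw [hδ, div_mul_eq_mul_div, div_le_div_iff₀ (by positivity) (by norm_num)]
    nlinarith [mul_pos hτ1p hτ2p]
  obtain ⟨C, R, x0, n, g, m, m', d1, d2, hC, hR, hg, hd1, hd2, hfix, hineq⟩ := h δ hδp
  obtain ⟨φ0, C1, c, hφ, hC1, hc, hone⟩ := S.ineq_one μ Q b1 b2 hf1 hf2 hs1 hs2 c1 hc1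
    hc1J C R hC hR x0 n g hg m m' d1 d2 hfix hineq
  obtain ⟨KK, hKK⟩ : ∃ KK : ℝ, KK = 2 * C1 + 1 / 8 + 1 + c1⁻¹ + ∑ i, ((c i)⁻¹ + (c i)⁻¹) :=
    ⟨_, rfl⟩
  have hKK0 : 0 < KK := by
    have h3 : 0 ≤ ∑ i, ((c i)⁻¹ + (c i)⁻¹) := Finset.sum_nonneg fun i _ => by
      have := (inv_pos.2 (hc i)).le
      linarith
    rw [hKK]
    linarith
  have key : ∀ ε : ℝ, 0 < ε → ε ≤ 1 → τ1 * τ2 / 8 ≤ KK * ε + τ1 * τ2 / 64 := by
    intro ε hε hε1
    obtain ⟨W1, W2, hl, ⟨f1, hf1v, hf1P⟩, ⟨f2, hf2v, hf2P⟩, hn1, hn2, hP1, hP2, hP2', hJ⟩ :=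
      S.exists_windows μ Q hSO x0 φ0 hφ (ε ^ 2) (by positivity)
    obtain ⟨X, hX⟩ : ∃ X : Fin 3 ⊕ (Fin n ⊕ Fin n) → (Lp K 2 μ →L[ℂ] Lp K 2 μ),
        X = Sum.elim ![1, S.pi μ (b1 * b1), S.pi μ (b1 * d1 * b1)]
          (Sum.elim (fun i => S.pi μ (b1 * m i) * (lam μ K).U (g i) * S.pi μ b1)
            (fun i => S.pi μ b1 * (lam μ K).U (g i) * S.pi μ b1)) := ⟨_, rfl⟩
    obtain ⟨X', hX'⟩ : ∃ X' : Fin 3 ⊕ (Fin n ⊕ Fin n) → (Lp K 2 μ →L[ℂ] Lp K 2 μ),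
        X' = Sum.elim ![1, oneT μ (T.Rm (b2 * b2)), oneT μ (T.Rm (b2 * d2 * b2))]
          (Sum.elim (fun i => oneT μ (T.Rm b2) * S.Gam μ (g i) * oneT μ (T.Rm b2))
            (fun i => oneT μ (T.Rm b2) * (oneT μ (T.Rm (m' i)) * S.Gam μ (g i))
              * oneT μ (T.Rm b2))) := ⟨_, rfl⟩
    have hpiN : ∀ a : A, S.pi μ a ∈ S.NN μ := fun a => (S.lrep μ hSO).l_mem a
    have hRN : ∀ a : A, oneT μ (T.Rm a) ∈ Set.centralizer (S.NN μ) :=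
      fun a => (S.lrep μ hSO).r_mem a
    have hXm : ∀ j, X j ∈ (S.pair μ).N := by
      intro j
      rw [hX]
      rcases j with j | j | j
      · fin_cases j
        · exact TrAct.NN_one
        · exact hpiN _
        · exact hpiN _
      · exact TrAct.NN_mul (TrAct.NN_mul (hpiN _) (S.lam_mem_NN μ _)) (hpiN _)
      · exact TrAct.NN_mul (TrAct.NN_mul (hpiN _) (S.lam_mem_NN μ _)) (hpiN _)
    have hXm' : ∀ j, X' j ∈ (S.pair μ).N' := by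
      intro j
      rw [hX']
      rcases j with j | j | j
      · fin_cases j
        · exact Set.one_mem_centralizer
        · exact hRN _
        · exact hRN _
      · exact Set.mul_mem_centralizer (Set.mul_mem_centralizer (hRN _) (S.Gam_mem μ _)) (hRN _)
      · exact Set.mul_mem_centralizer (Set.mul_mem_centralizer (hRN _)
          (Set.mul_mem_centralizer (hRN _) (S.Gam_mem μ _))) (hRN _)
    obtain ⟨M, _, ζ, hζ1, hζ2, hζZ, hfam⟩ := VWin.families W1 W2 hl X X' hXm hXm' ε hε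
    -- the vectors are in the range of `J`
    have hPζ : ∀ l, Q.P μ K 1 (ζ l) = ζ l := by
      refine hζZ (Q.P μ K 1) hP1 hP2 hP2' (fun x => S.P_pi μ Q 1 x) (fun x => ?_) ?_
      · change Q.P μ K 1 * oneT μ (T.Rm x) = oneT μ (T.Rm x) * Q.P μ K 1
        ext1 z
        apply Lp.ext
        change (Q.P μ K 1 (oneT μ (T.Rm x) z) : G → K)
          =ᵐ[μ] (oneT μ (T.Rm x) (Q.P μ K 1 z) : G → K)
        filter_upwards [Q.P_ae μ K 1 (oneT μ (T.Rm x) z), oneT_ae μ (T.Rm x) z,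
          oneT_ae μ (T.Rm x) (Q.P μ K 1 z), Q.P_ae μ K 1 z] with t k1 k2 k3 k4
        rw [k1, k2, k3, k4, map_smul]
      · rw [hf2v]
        unfold TrAlg.xi
        rw [Q.P_tens μ, hf2P]
    choose z hz using fun l => hJ (ζ l) (hζ2 l) (hPζ l)
    -- the coefficients
    have hv1 : ((‖W1.v‖ ^ 2 : ℝ) : ℂ) ≠ 0 := by
      have := W1.ne
      have h3 : ‖W1.v‖ ^ 2 ≠ 0 := by positivity
      exact_mod_cast h3
    have hv2 : ((‖W2.v‖ ^ 2 : ℝ) : ℂ) ≠ 0 := by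
      have := W2.ne
      have h3 : ‖W2.v‖ ^ 2 ≠ 0 := by positivity
      exact_mod_cast h3
    have hself : ∀ v : Lp K 2 μ, inner ℂ v v = ((‖v‖ ^ 2 : ℝ) : ℂ) := by
      intro v
      rw [inner_self_eq_norm_sq_to_K]
      push_cast
      rfl
    have hcpi : ∀ a : A, inner ℂ W1.v (S.pi μ a W1.v) / ((‖W1.v‖ ^ 2 : ℝ) : ℂ) = T.τ a := by
      intro a
      rw [hf1v, S.xi_pi μ, ← hf1v, mul_div_assoc, div_self hv1, mul_one]
    have hcR : ∀ a : A, inner ℂ W2.v (oneT μ (T.Rm a) W2.v) / ((‖W2.v‖ ^ 2 : ℝ) : ℂ)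
        = T.τ a := by
      intro a
      rw [hf2v, T.xi_Rm μ, ← hf2v, mul_div_assoc, div_self hv2, mul_one]
    have hoff : ∀ (i : Fin n) (a a' : A),
        inner ℂ W1.v ((S.pi μ a * (lam μ K).U (g i) * S.pi μ a') W1.v)
          / ((‖W1.v‖ ^ 2 : ℝ) : ℂ) = 0 := by
      intro i a a'
      have h3 : inner ℂ W1.v ((S.pi μ a * (lam μ K).U (g i) * S.pi μ a') W1.v) = 0 := by
        rw [hf1v]
        exact S.xi_off μ Q f1 hf1P (hg i).1 a a'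
      rw [h3, zero_div]
    -- real parts
    obtain ⟨F, hF⟩ : ∃ F : (Fin 3 ⊕ (Fin n ⊕ Fin n)) → (Fin 3 ⊕ (Fin n ⊕ Fin n)) → M → ℝ,
      ∀ j j' l, F j j' l = (inner ℂ (ζ l) (X j (X' j' (ζ l)))).re := ⟨_, fun _ _ _ => rfl⟩
    have hre : ∀ (j j' : Fin 3 ⊕ (Fin n ⊕ Fin n)) (cc cc' : ℂ),
        inner ℂ W1.v (X j W1.v) / ((‖W1.v‖ ^ 2 : ℝ) : ℂ) = cc →
        inner ℂ W2.v (X' j' W2.v) / ((‖W2.v‖ ^ 2 : ℝ) : ℂ) = cc' →
        |∑ l, F j j' l - (cc * cc').re| ≤ ε := by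
      intro j j' cc cc' e1 e2
      have h3 := hfam j j'
      rw [e1, e2] at h3
      have h4 := (Complex.abs_re_le_norm _).trans h3
      rw [Complex.sub_re, Complex.re_sum] at h4
      simpa only [hF] using h4
    have hre0 : ∀ (j j' : Fin 3 ⊕ (Fin n ⊕ Fin n)),
        inner ℂ W1.v (X j W1.v) / ((‖W1.v‖ ^ 2 : ℝ) : ℂ) = 0 → ∑ l, F j j' l ≤ ε := by
      intro j j' e1
      have h3 := hre j j' 0 _ e1 rfl
      rw [zero_mul, Complex.zero_re, sub_zero] at h3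
      exact (le_abs_self _).trans h3
    have hX0 : X (Sum.inl 0) = 1 := by rw [hX]; rfl
    have hX1 : X (Sum.inl 1) = S.pi μ (b1 * b1) := by rw [hX]; rfl
    have hX2 : X (Sum.inl 2) = S.pi μ (b1 * d1 * b1) := by rw [hX]; rfl
    have hX3 : ∀ i, X (Sum.inr (Sum.inl i))
        = S.pi μ (b1 * m i) * (lam μ K).U (g i) * S.pi μ b1 := fun i => by rw [hX]; rfl
    have hX4 : ∀ i, X (Sum.inr (Sum.inr i))
        = S.pi μ b1 * (lam μ K).U (g i) * S.pi μ b1 := fun i => by rw [hX]; rfl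
    have hX0' : X' (Sum.inl 0) = 1 := by rw [hX']; rfl
    have hX1' : X' (Sum.inl 1) = oneT μ (T.Rm (b2 * b2)) := by rw [hX']; rfl
    have hX2' : X' (Sum.inl 2) = oneT μ (T.Rm (b2 * d2 * b2)) := by rw [hX']; rfl
    have hX3' : ∀ i, X' (Sum.inr (Sum.inl i))
        = oneT μ (T.Rm b2) * S.Gam μ (g i) * oneT μ (T.Rm b2) := fun i => by rw [hX']; rfl
    have hX4' : ∀ i, X' (Sum.inr (Sum.inr i))
        = oneT μ (T.Rm b2) * (oneT μ (T.Rm (m' i)) * S.Gam μ (g i)) * oneT μ (T.Rm b2) :=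
      fun i => by rw [hX']; rfl
    have e00 := hre (Sum.inl 0) (Sum.inl 0) 1 1 (by
      rw [hX0]
      change inner ℂ W1.v W1.v / _ = 1
      rw [hself, div_self hv1]) (by
      rw [hX0']
      change inner ℂ W2.v W2.v / _ = 1
      rw [hself, div_self hv2])
    have e11 := hre (Sum.inl 1) (Sum.inl 1) (τ1 : ℂ) (τ2 : ℂ) (by
      rw [hX1, hcpi, F4_tau_sq T b1 hs1, hτ1]) (by
      rw [hX1', hcR, F4_tau_sq T b2 hs2, hτ2])
    have e21 := hre (Sum.inl 2) (Sum.inl 1) (T.τ (b1 * d1 * b1)) (τ2 : ℂ) (by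
      rw [hX2, hcpi]) (by
      rw [hX1', hcR, F4_tau_sq T b2 hs2, hτ2])
    have e12 := hre (Sum.inl 1) (Sum.inl 2) (τ1 : ℂ) (T.τ (b2 * d2 * b2)) (by
      rw [hX1, hcpi, F4_tau_sq T b1 hs1, hτ1]) (by
      rw [hX2', hcR])
    have e3 : ∀ i, ∑ l, F (Sum.inr (Sum.inl i)) (Sum.inr (Sum.inl i)) l ≤ ε := fun i =>
      hre0 _ _ (by rw [hX3]; exact hoff i _ _)
    have e4 : ∀ i, ∑ l, F (Sum.inr (Sum.inr i)) (Sum.inr (Sum.inr i)) l ≤ ε := fun i =>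
      hre0 _ _ (by rw [hX4]; exact hoff i _ _)
    -- the inequality for every vector
    have hl1 : ∀ l, F (Sum.inl 1) (Sum.inl 1) l / 8
        ≤ C1 * ε * F (Sum.inl 0) (Sum.inl 0) l + F (Sum.inl 2) (Sum.inl 1) l
          + c1⁻¹ * F (Sum.inl 1) (Sum.inl 2) l
          + ∑ i, ((c i)⁻¹ * F (Sum.inr (Sum.inl i)) (Sum.inr (Sum.inl i)) l
            + (c i)⁻¹ * F (Sum.inr (Sum.inr i)) (Sum.inr (Sum.inr i)) l) := by
      intro l
      have h3 := hone (z l) ε hε hε1 (by rw [hz]; exact hn1 _ (hζ1 l))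
        (by rw [hz]; exact hn2 _ (hζ2 l))
      rw [hz] at h3
      have h00 : F (Sum.inl 0) (Sum.inl 0) l = ‖ζ l‖ ^ 2 := by
        rw [hF, hX0, hX0']
        change (inner ℂ (ζ l) (ζ l)).re = _
        rw [hself, Complex.ofReal_re]
      rw [h00]
      simp only [hF, hX1, hX2, hX3, hX4, hX1', hX2', hX3', hX4']
      exact h3
    have hsum : (∑ l, F (Sum.inl 1) (Sum.inl 1) l) / 8
        ≤ C1 * ε * (∑ l, F (Sum.inl 0) (Sum.inl 0) l) + (∑ l, F (Sum.inl 2) (Sum.inl 1) l)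
          + c1⁻¹ * (∑ l, F (Sum.inl 1) (Sum.inl 2) l)
          + ∑ i, ((c i)⁻¹ * (∑ l, F (Sum.inr (Sum.inl i)) (Sum.inr (Sum.inl i)) l)
            + (c i)⁻¹ * (∑ l, F (Sum.inr (Sum.inr i)) (Sum.inr (Sum.inr i)) l)) := by
      calc (∑ l, F (Sum.inl 1) (Sum.inl 1) l) / 8 = ∑ l, F (Sum.inl 1) (Sum.inl 1) l / 8 := by
            rw [Finset.sum_div]
        _ ≤ ∑ l, (C1 * ε * F (Sum.inl 0) (Sum.inl 0) l + F (Sum.inl 2) (Sum.inl 1) l
          + c1⁻¹ * F (Sum.inl 1) (Sum.inl 2) l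
          + ∑ i, ((c i)⁻¹ * F (Sum.inr (Sum.inl i)) (Sum.inr (Sum.inl i)) l
            + (c i)⁻¹ * F (Sum.inr (Sum.inr i)) (Sum.inr (Sum.inr i)) l)) :=
            Finset.sum_le_sum fun l _ => hl1 l
        _ = _ := by
            rw [Finset.sum_add_distrib, Finset.sum_add_distrib, Finset.sum_add_distrib,
              ← Finset.mul_sum, ← Finset.mul_sum, Finset.sum_comm]
            congr 1
            refine Finset.sum_congr rfl fun i _ => ?_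
            rw [Finset.sum_add_distrib, ← Finset.mul_sum, ← Finset.mul_sum]
    have r00 : ∑ l, F (Sum.inl 0) (Sum.inl 0) l ≤ 2 := by
      rw [one_mul, Complex.one_re] at e00
      have := (abs_le.1 e00).2
      linarith
    have r11 : τ1 * τ2 - ε ≤ ∑ l, F (Sum.inl 1) (Sum.inl 1) l := by
      rw [← Complex.ofReal_mul, Complex.ofReal_re] at e11
      have := (abs_le.1 e11).1
      linarith
    have r21 : ∑ l, F (Sum.inl 2) (Sum.inl 1) l ≤ ‖b1‖ ^ 2 * τ2 * δ + ε := by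
      rw [Complex.re_mul_ofReal] at e21
      have k1 := (abs_le.1 e21).2
      have k2 : (T.τ (b1 * d1 * b1)).re ≤ ‖b1‖ ^ 2 * δ :=
        (Complex.re_le_norm _).trans ((F4_tau_le T b1 d1).trans
          (mul_le_mul_of_nonneg_left hd1 (by positivity)))
      have k3 := mul_le_mul_of_nonneg_right k2 hτ2p.le
      linarith
    have r12 : ∑ l, F (Sum.inl 1) (Sum.inl 2) l ≤ τ1 * ‖b2‖ ^ 2 * δ + ε := by
      rw [Complex.re_ofReal_mul] at e12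
      have k1 := (abs_le.1 e12).2
      have k2 : (T.τ (b2 * d2 * b2)).re ≤ ‖b2‖ ^ 2 * δ :=
        (Complex.re_le_norm _).trans ((F4_tau_le T b2 d2).trans
          (mul_le_mul_of_nonneg_left hd2 (by positivity)))
      have k3 := mul_le_mul_of_nonneg_left k2 hτ1p.le
      linarith
    have r3 : ∑ i, ((c i)⁻¹ * (∑ l, F (Sum.inr (Sum.inl i)) (Sum.inr (Sum.inl i)) l)
            + (c i)⁻¹ * (∑ l, F (Sum.inr (Sum.inr i)) (Sum.inr (Sum.inr i)) l))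
        ≤ (∑ i, ((c i)⁻¹ + (c i)⁻¹)) * ε := by
      rw [Finset.sum_mul]
      refine Finset.sum_le_sum fun i _ => ?_
      have k0 := (inv_pos.2 (hc i)).le
      have k1 := mul_le_mul_of_nonneg_left (e3 i) k0
      have k2 := mul_le_mul_of_nonneg_left (e4 i) k0
      linarith
    have r4 : C1 * ε * (∑ l, F (Sum.inl 0) (Sum.inl 0) l) ≤ C1 * ε * 2 :=
      mul_le_mul_of_nonneg_left r00 (by positivity)
    have r5 : c1⁻¹ * (∑ l, F (Sum.inl 1) (Sum.inl 2) l) ≤ c1⁻¹ * (τ1 * ‖b2‖ ^ 2 * δ + ε) :=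
      mul_le_mul_of_nonneg_left r12 hc1i.le
    have r6 : ‖b1‖ ^ 2 * τ2 * δ + c1⁻¹ * (τ1 * ‖b2‖ ^ 2 * δ) = δ * Y := by
      rw [hY]
      ring
    have r7 : KK * ε = 2 * C1 * ε + ε / 8 + ε + c1⁻¹ * ε + (∑ i, ((c i)⁻¹ + (c i)⁻¹)) * ε := by
      rw [hKK]
      ring
    rw [r7]
    have r8 : c1⁻¹ * (τ1 * ‖b2‖ ^ 2 * δ + ε) = c1⁻¹ * (τ1 * ‖b2‖ ^ 2 * δ) + c1⁻¹ * ε := by ring
    linarith
  have hfin : ∀ ε : ℝ, 0 < ε → ε ≤ 1 → 7 * (τ1 * τ2) / 64 ≤ KK * ε := by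
    intro ε hε hε1
    have := key ε hε hε1
    linarith
  obtain ⟨ε, hε⟩ : ∃ ε : ℝ, ε = min 1 (τ1 * τ2 / (64 * KK)) := ⟨_, rfl⟩
  have hεp : 0 < ε := by rw [hε]; positivity
  have h5 := hfin ε hεp (by rw [hε]; exact min_le_left _ _)
  have h6 : KK * ε ≤ τ1 * τ2 / 64 := by
    have h7 : ε ≤ τ1 * τ2 / (64 * KK) := by rw [hε]; exact min_le_right _ _
    have h8 := mul_le_mul_of_nonneg_left h7 hKK0.le
    have h9 : KK * (τ1 * τ2 / (64 * KK)) = τ1 * τ2 / 64 := by field_simp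
    linarith
  have h7 : 0 < τ1 * τ2 := mul_pos hτ1p hτ2p
  linarith

end

end Pool.Agent.AbCoc
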