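import Pool.Agent.Lib_MP_418a80_un.UF4
import Pool.Agent.Lib_MP_418a80_un.UA1
import Pool.Agent.Lib_MP_418a80_un.UA2
import Pool.Agent.Lib_MP_418a80_un.UA3
import Pool.Agent.Lib_MP_418a80_un.UA4
import Pool.Agent.Lib_MP_418a80_un.UA5
import Pool.Agent.Lib_MP_418a80_ab.FamKey

/-! # F5: the families exist -/

set_option autoImplicit false
set_option linter.unusedVariables false
set_option linter.unusedSectionVars false

open MeasureTheory Topology Filter
open scoped ENNReal NNReal ComplexConjugate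

namespace Pool.Agent.AbCoc

universe u v w z

section
variable {A : Type u} [CStarAlgebra A] {K : Type v} [NormedAddCommGroup K]
  [InnerProductSpace ℂ K] [CompleteSpace K]
variable {G : Type w} [Group G] [TopologicalSpace G] [IsTopologicalGroup G] [T2Space G]
  [SecondCountableTopology G] [LocallyCompactSpace G] [MeasurableSpace G] [BorelSpace G]
  (μ : Measure G) [μ.IsHaarMeasure] {T : TrAlg A K} (S : TrAct G T)
  {V : Type z} [NormedAddCommGroup V] [NormedSpace ℝ V] [FiniteDimensional ℝ V]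
  [MeasurableSpace V] [BorelSpace V]

/-- F5 -/
theorem TrAct.stepATyp_of_qmap (Q : QMap G V) [Nontrivial V] (hSO : S.SO μ Set.univ) (hR : Reiter μ) :
    S.StepATyp := by
  by_contra hne
  obtain ⟨b1, b2, hf1, hf2, hs1, hs2, h1, h2, m0, C, y, hm0, hC0, hC, hy, hgap⟩ :=
    S.exists_gap hne
  refine S.false_of_ineqC μ Q hSO b1 b2 hf1 hf2 hs1 hs2 h1 h2 fun δ hδ => ?_
  obtain ⟨m1, C1, d, hm1, hC1c, hC1, hd, hg⟩ :=
    S.gap_avg b1 b2 y m0 hm0 hC0 C hC hy hgap (δ / 4) (by positivity)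
  have hA := S.ineqA_of_gap Q μ hR b1 b2 hf1 hf2 (δ / 4) m1 hm1 hC1c C1 hC1 d hd hg
  have hB := S.ineqB_of_ineqA Q b1 b2 hf1 hf2 (δ / 4) (by positivity) hA
  have e : 2 * (δ / 4) = δ / 2 := by ring
  rw [e] at hB
  have hC := S.ineqC_of_ineqB Q b1 b2 hf1 hf2 (δ / 2) (by positivity) hB
  have e2 : 2 * (δ / 2) = δ := by ring
  rwa [e2] at hC

end

end Pool.Agent.AbCoc
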