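import Pool.Agent.Lib_MP_418a80_un.Un0

/-!
# MP_418a80_an, union theorem: the algebras, the windows, the statements of the parts
-/

set_option autoImplicit false
set_option linter.unusedVariables false
set_option linter.unusedSectionVars false

open MeasureTheory Topology Filter CompactlySupported
open scoped ENNReal NNReal

namespace Pool.Agent.AbCoc

universe u v w z

section geo
variable {G : Type w} [Group G] [TopologicalSpace G]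
  {V : Type z} [NormedAddCommGroup V] [NormedSpace ℝ V] (Q : QMap G V)

/-- `Z`: conjugation by `h` is the identity on `V` -/
def QMap.InZ (h : G) : Prop := ∀ u ∈ Q.U, h⁻¹ * u * h ∈ Q.U → Q.q (h⁻¹ * u * h) = Q.q u

/-- the character `x ↦ exp(i x₀(x))` of `V` -/
noncomputable def chi (x0 : V →L[ℝ] ℝ) (x : V) : ℂ := Complex.exp ((x0 x : ℂ) * Complex.I)

end geo

section
variable {A : Type u} [CStarAlgebra A] {K : Type v} [NormedAddCommGroup K]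
  [InnerProductSpace ℂ K] [CompleteSpace K]
variable {G : Type w} [Group G] [TopologicalSpace G] [IsTopologicalGroup G]
  [SecondCountableTopology G] [LocallyCompactSpace G] [MeasurableSpace G] [BorelSpace G]
  (μ : Measure G) [μ.IsHaarMeasure] {T : TrAlg A K} (S : TrAct G T)
  {V : Type z} [NormedAddCommGroup V] [NormedSpace ℝ V] (Q : QMap G V)

/-- the generators of the crossed product -/
def TrAct.gens : Set (Lp K 2 μ →L[ℂ] Lp K 2 μ) := Set.range (S.pi μ) ∪ Set.range (lam μ K).U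

/-- the crossed product `N` -/
def TrAct.NN : Set (Lp K 2 μ →L[ℂ] Lp K 2 μ) := Set.centralizer (Set.centralizer (S.gens μ))

/-- the generators of the crossed product by `U` -/
def TrAct.gensU : Set (Lp K 2 μ →L[ℂ] Lp K 2 μ) :=
  Set.range (S.pi μ) ∪ (lam μ K).U '' (Q.U : Set G)

/-- the crossed product `N_U` by `U` -/
def TrAct.NU : Set (Lp K 2 μ →L[ℂ] Lp K 2 μ) := Set.centralizer (Set.centralizer (S.gensU μ Q))

/-- `(Γ_g z)(t) = U_g z(t g)` -/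
noncomputable def TrAct.Gam (g : G) : Lp K 2 μ →L[ℂ] Lp K 2 μ :=
  (oneT μ (S.U.U g)).comp (rt μ K g)

open Classical in
/-- the indicator of `U h` -/
noncomputable def QMap.ind (h : G) : BoundedContinuousFunction G ℂ :=
  BoundedContinuousFunction.ofNormedAddCommGroup
    (fun g => if g * h⁻¹ ∈ Q.U then (1 : ℂ) else 0) (by
      have h1 : IsClopen {g : G | g * h⁻¹ ∈ Q.U} := by
        have h2 : IsClopen (Q.U : Set G) := ⟨Q.U.isClosed_of_isOpen Q.isOpen, Q.isOpen⟩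
        exact h2.preimage (continuous_mul_const h⁻¹)
      refine Continuous.if ?_ continuous_const continuous_const
      intro a ha
      rw [h1.frontier_eq] at ha
      exact absurd ha (Set.notMem_empty a)) 1 (by
      intro g
      by_cases h : g * h⁻¹ ∈ Q.U <;> simp [h])

open Classical in
theorem QMap.ind_apply (h g : G) : Q.ind h g = if g * h⁻¹ ∈ Q.U then (1 : ℂ) else 0 := rfl

/-- multiplication by the indicator of `U h` -/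
noncomputable def QMap.P (E : Type v) [NormedAddCommGroup E] [InnerProductSpace ℂ E] (h : G) :
    Lp E 2 μ →L[ℂ] Lp E 2 μ := (scal E (Q.ind h)).op μ

/-- `ξ(f) = f ⊗ ι(1)` -/
noncomputable def TrAlg.xi (T : TrAlg A K) (f : Lp ℂ 2 μ) : Lp K 2 μ := tens μ (T.ι 1) f

/-- a window `(k, f)` -/
structure Win (T : TrAlg A K) where
  k : Lp K 2 μ →L[ℂ] Lp K 2 μ
  f : Lp ℂ 2 μ
  sa : star k = k
  idem : k * k = k
  fne : f ≠ 0
  kf : k (T.xi μ f) = T.xi μ f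
  approx : ∀ (J : Type) [Fintype J] (z : J → Lp K 2 μ) (ε : ℝ), 0 < ε →
    ∃ φ : C_c(V, ℂ), (∀ x, φ (-x) = starRingEnd ℂ (φ x)) ∧ ‖Q.nv μ φ - f‖ < ε ∧
      ∀ j, ‖Q.Lam μ K φ (z j) - k (z j)‖ < ε

/-- the window is near the character `x0` -/
def Win.Near {μ : Measure G} [μ.IsHaarMeasure] {Q : QMap G V} (W : Win μ Q T) (x0 : V →L[ℝ] ℝ) (Sc : Set G) (κ : ℝ) : Prop :=
  ∀ s ∈ Sc, ∀ z, ‖(lam μ K).U s (W.k z) - chi x0 (Q.q s) • W.k z‖ ≤ κ * ‖z‖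

/-- the centraliser identity between two windows -/
def TrAct.Linked (W0 W1 : Win μ Q T) : Prop :=
  ∀ a ∈ S.NU μ Q, W1.k * a = a → a * W0.k = a →
    ∀ X ∈ S.NN μ, W0.k * X = X → X * W1.k = X →
      inner ℂ (T.xi μ W0.f) (X (a (T.xi μ W0.f))) = inner ℂ (T.xi μ W1.f) (a (X (T.xi μ W1.f)))

/-- right type families (section 4 of the blueprint) -/
def TrAct.RT : Prop :=
  ∀ (D : Finset G), (∀ h ∈ D, Q.InZ h ∧ h ∉ Q.U) → ∀ (x0 : V →L[ℝ] ℝ) (Sc : Set G),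
    IsCompact Sc → Sc ⊆ (Q.U : Set G) → ∀ (BB : Finset A), (∀ b ∈ BB, S.Fixed b) →
    ∀ (Y : Finset A) (κ : ℝ), 0 < κ → ∃ (J : Type) (_ : Fintype J) (e : J → A),
      (∀ s ∈ Sc, ∑ i, ‖T.ι (S.α s (e i) - chi x0 (Q.q s) • e i)‖ ^ 2 ≤ κ) ∧
      (∀ b ∈ BB, ∀ m : A, ‖∑ i, T.τ (star (e i) * b * e i * m) - T.τ b * T.τ m‖ ≤ κ * ‖m‖) ∧
      (∀ b ∈ BB, ∀ h ∈ D, ∀ m : A, ‖∑ i, T.τ (star (e i) * b * S.α h (e i) * m)‖ ≤ κ * ‖m‖) ∧
      ∀ y ∈ Y, ‖∑ i, T.τ (y * (e i * star (e i))) - T.τ y‖ ≤ κ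

/-- two-sided families (section 5 of the blueprint) -/
def TrAct.TS : Prop :=
  ∀ (D : Finset G), (∀ h ∈ D, Q.InZ h ∧ h ∉ Q.U) → ∀ (x0 : V →L[ℝ] ℝ) (Sc : Set G),
    IsCompact Sc → Sc ⊆ (Q.U : Set G) → ∀ (BB : Finset A), (∀ b ∈ BB, S.Fixed b) →
    ∀ (M : Finset A) (κ : ℝ), 0 < κ → ∃ (J : Type) (_ : Fintype J) (e : J → A),
      (∀ s ∈ Sc, ∑ i, ‖T.ι (S.α s (e i) - chi x0 (Q.q s) • e i)‖ ^ 2 ≤ κ) ∧
      (∀ b ∈ BB, ∀ m ∈ M, ‖∑ i, T.τ (star (e i) * b * e i * m) - T.τ b * T.τ m‖ ≤ κ) ∧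
      (∀ b ∈ BB, ∀ m ∈ M, ‖∑ i, T.τ (e i * b * star (e i) * m) - T.τ b * T.τ m‖ ≤ κ) ∧
      (∀ b ∈ BB, ∀ h ∈ D, ∀ m ∈ M, ‖∑ i, T.τ (star (e i) * b * S.α h (e i) * m)‖ ≤ κ) ∧
      (∀ b ∈ BB, ∀ h ∈ D, ∀ m ∈ M, ‖∑ i, T.τ (e i * b * S.α h (star (e i)) * m)‖ ≤ κ)

/-- two-sided families for all `h ∉ U` with finitely many tests (section 6 of the blueprint) -/
def TrAct.TSall : Prop :=
  ∀ (D : Finset G), (∀ h ∈ D, h ∉ Q.U) → ∀ (Sc : Set G),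
    IsCompact Sc → Sc ⊆ (Q.U : Set G) → ∀ (BB : Finset A), (∀ b ∈ BB, S.Fixed b) →
    ∀ (M : Finset A) (κ : ℝ), 0 < κ → ∃ (J : Type) (_ : Fintype J) (e : J → A),
      (∀ s ∈ Sc, ∑ i, ‖T.ι (S.α s (e i) - e i)‖ ^ 2 ≤ κ) ∧
      (∃ s1 ∈ Q.U, ∃ c : ℂ, 1 ≤ ‖1 - c‖ ∧ ∑ i, ‖T.ι (S.α s1 (e i) - c • e i)‖ ^ 2 ≤ κ) ∧
      (∀ b ∈ BB, ∀ m ∈ M, ‖∑ i, T.τ (star (e i) * b * e i * m) - T.τ b * T.τ m‖ ≤ κ) ∧
      (∀ b ∈ BB, ∀ m ∈ M, ‖∑ i, T.τ (e i * b * star (e i) * m) - T.τ b * T.τ m‖ ≤ κ) ∧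
      (∀ b ∈ BB, ∀ h ∈ D, ∀ m ∈ M, ‖∑ i, T.τ (star (e i) * b * S.α h (e i) * m)‖ ≤ κ) ∧
      (∀ b ∈ BB, ∀ h ∈ D, ∀ m ∈ M, ‖∑ i, T.τ (e i * b * S.α h (star (e i)) * m)‖ ≤ κ)

end

end Pool.Agent.AbCoc
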