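import Pool.Agent.Lib_MP_418a80_un.UnG

/-! # A0: the algebras `N`, `N_U` and the operators commuting with them -/

set_option autoImplicit false
set_option linter.unusedVariables false
set_option linter.unusedSectionVars false

open MeasureTheory Topology Filter CompactlySupported
open scoped ENNReal NNReal

namespace Pool.Agent.AbCoc

universe u v w z

section
variable {A : Type u} [CStarAlgebra A] {K : Type v} [NormedAddCommGroup K]
  [InnerProductSpace ℂ K] [CompleteSpace K]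
variable {G : Type w} [Group G] [TopologicalSpace G] [IsTopologicalGroup G]
  [SecondCountableTopology G] [LocallyCompactSpace G] [MeasurableSpace G] [BorelSpace G]
  (μ : Measure G) [μ.IsHaarMeasure] {T : TrAlg A K} (S : TrAct G T)
  {V : Type z} [NormedAddCommGroup V] [NormedSpace ℝ V] (Q : QMap G V)

/-! ## the right translations -/

theorem rt_inner (E : Type v) [NormedAddCommGroup E] [InnerProductSpace ℂ E] (g : G)
    (x y : Lp E 2 μ) : inner ℂ (rt μ E g x) (rt μ E g y) = (dm g : ℂ) * inner ℂ x y := by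
  rw [inner_eq_sum_norm_sq_div_four, inner_eq_sum_norm_sq_div_four, ← map_smul, ← map_add,
    ← map_sub, ← map_sub, ← map_add]
  have h : ∀ z : Lp E 2 μ, ((‖rt μ E g z‖ : ℝ) : ℂ) ^ 2 = (dm g : ℂ) * ((‖z‖ : ℝ) : ℂ) ^ 2 := by
    intro z
    have h1 := rt_norm_sq μ g z
    have h2 : ((‖rt μ E g z‖ ^ 2 : ℝ) : ℂ) = ((dm g * ‖z‖ ^ 2 : ℝ) : ℂ) := by rw [h1]
    push_cast at h2
    exact h2
  simp only [Complex.coe_algebraMap]
  rw [h, h, h, h]
  ring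

theorem rt_mul (E : Type v) [NormedAddCommGroup E] [InnerProductSpace ℂ E] (g h : G)
    (z : Lp E 2 μ) : rt μ E (g * h) z = rt μ E g (rt μ E h z) := by
  apply Lp.ext
  filter_upwards [rt_ae μ (g * h) z, rt_ae μ g (rt μ E h z), ae_mulRight μ g (rt_ae μ h z)]
    with t h1 h2 h3
  rw [h1, h2, h3, mul_assoc]

theorem rt_one (E : Type v) [NormedAddCommGroup E] [InnerProductSpace ℂ E]
    (z : Lp E 2 μ) : rt μ E 1 z = z := by
  apply Lp.ext
  filter_upwards [rt_ae μ 1 z] with t h1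
  rw [h1, mul_one]

theorem rt_lam (E : Type v) [NormedAddCommGroup E] [InnerProductSpace ℂ E] (g s : G)
    (z : Lp E 2 μ) : rt μ E g ((lam μ E).U s z) = (lam μ E).U s (rt μ E g z) := by
  apply Lp.ext
  filter_upwards [rt_ae μ g ((lam μ E).U s z), ae_mulRight μ g (lam_ae μ s z),
    lam_ae μ s (rt μ E g z), ae_translate μ s⁻¹ (rt_ae μ g z)] with t h1 h2 h3 h4
  rw [h1, h2, h3, h4, mul_assoc]

theorem rt_tens (g : G) (η : K) (f : Lp ℂ 2 μ) :
    rt μ K g (tens μ η f) = tens μ η (rt μ ℂ g f) := by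
  apply Lp.ext
  filter_upwards [rt_ae μ g (tens μ η f), ae_mulRight μ g (tens_ae μ η f),
    tens_ae μ η (rt μ ℂ g f), rt_ae μ g f] with t h1 h2 h3 h4
  rw [h1, h2, h3, h4]

theorem oneT_rt (c : K →L[ℂ] K) (g : G) (z : Lp K 2 μ) :
    oneT μ c (rt μ K g z) = rt μ K g (oneT μ c z) := by
  apply Lp.ext
  filter_upwards [oneT_ae μ c (rt μ K g z), rt_ae μ g z, rt_ae μ g (oneT μ c z),
    ae_mulRight μ g (oneT_ae μ c z)] with t h1 h2 h3 h4
  rw [h1, h2, h3, h4]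

theorem lam_tens (s : G) (η : K) (f : Lp ℂ 2 μ) :
    (lam μ K).U s (tens μ η f) = tens μ η ((lam μ ℂ).U s f) := by
  exact (oneT_lam μ (ContinuousLinearMap.toSpanSingleton ℂ η) s f).symm

private theorem UnA_U_Lm (g : G) (a : A) (ξ : K) :
    S.U.U g (T.Lm a ξ) = T.Lm (S.α g a) (S.U.U g ξ) := by
  have h1 : (S.U.U g).comp (T.Lm a) = (T.Lm (S.α g a)).comp (S.U.U g) := by
    refine T.Lm_ext fun b => ?_
    change S.U.U g (T.Lm a (T.ι b)) = T.Lm (S.α g a) (S.U.U g (T.ι b))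
    rw [T.Lm_ι, S.U_ι, S.U_ι, T.Lm_ι, map_mul]
  exact congrArg (fun Z : K →L[ℂ] K => Z ξ) h1

private theorem UnA_lam_pi (s : G) (x : A) :
    (lam μ K).U s * S.pi μ x = S.pi μ (S.α s x) * (lam μ K).U s := by
  ext1 z
  apply Lp.ext
  filter_upwards [lam_ae μ s (S.pi μ x z), ae_translate μ s⁻¹ (S.pi_ae μ x z),
    S.pi_ae μ (S.α s x) ((lam μ K).U s z), lam_ae μ s z] with t h1 h2 h3 h4
  change ((lam μ K).U s (S.pi μ x z)) t = (S.pi μ (S.α s x) ((lam μ K).U s z)) t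
  rw [h1, h2, h3, h4, ← S.mul, mul_inv_rev, inv_inv]

/-! ## `Γ_g` -/

theorem TrAct.Gam_tens (g : G) (a : A) (f : Lp ℂ 2 μ) :
    S.Gam μ g (tens μ (T.ι a) f) = tens μ (T.ι (S.α g a)) (rt μ ℂ g f) := by
  change oneT μ (S.U.U g) (rt μ K g (tens μ (T.ι a) f)) = _
  rw [rt_tens, oneT_tensW, S.U_ι]

theorem TrAct.Gam_inner (g : G) (x y : Lp K 2 μ) :
    inner ℂ (S.Gam μ g x) (S.Gam μ g y) = (dm g : ℂ) * inner ℂ x y := by
  change inner ℂ (oneT μ (S.U.U g) (rt μ K g x)) (oneT μ (S.U.U g) (rt μ K g y)) = _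
  rw [← rt_inner μ K g x y, L2.inner_def, L2.inner_def]
  refine integral_congr_ae ?_
  filter_upwards [oneT_ae μ (S.U.U g) (rt μ K g x), oneT_ae μ (S.U.U g) (rt μ K g y)]
    with t h1 h2
  rw [h1, h2, S.U.inner_map]

theorem TrAct.Gam_pi (g : G) (x : A) : S.Gam μ g * S.pi μ x = S.pi μ x * S.Gam μ g := by
  ext1 z
  apply Lp.ext
  change (oneT μ (S.U.U g) (rt μ K g (S.pi μ x z)) : G → K) =ᵐ[μ]
    (S.pi μ x (oneT μ (S.U.U g) (rt μ K g z)) : G → K)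
  filter_upwards [oneT_ae μ (S.U.U g) (rt μ K g (S.pi μ x z)), rt_ae μ g (S.pi μ x z),
    ae_mulRight μ g (S.pi_ae μ x z), S.pi_ae μ x (oneT μ (S.U.U g) (rt μ K g z)),
    oneT_ae μ (S.U.U g) (rt μ K g z), rt_ae μ g z] with t h1 h2 h3 h4 h5 h6
  rw [h1, h2, h3, h4, h5, h6, UnA_U_Lm, ← S.mul]
  congr 3
  rw [mul_inv_rev, mul_inv_cancel_left]

theorem TrAct.Gam_lam (g s : G) : S.Gam μ g * (lam μ K).U s = (lam μ K).U s * S.Gam μ g := by
  ext1 z
  change oneT μ (S.U.U g) (rt μ K g ((lam μ K).U s z)) =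
    (lam μ K).U s (oneT μ (S.U.U g) (rt μ K g z))
  rw [rt_lam, oneT_lam]

/-- `1 ⊗ U_g = Γ_g rt(g⁻¹)` -/
theorem TrAct.oneT_U (g : G) (z : Lp K 2 μ) :
    oneT μ (S.U.U g) z = S.Gam μ g (rt μ K g⁻¹ z) := by
  change _ = oneT μ (S.U.U g) (rt μ K g (rt μ K g⁻¹ z))
  rw [← rt_mul, mul_inv_cancel, rt_one]

/-! ## `P_h` -/

theorem QMap.P_ae (E : Type v) [NormedAddCommGroup E] [InnerProductSpace ℂ E] (h : G)
    (z : Lp E 2 μ) : Q.P μ E h z =ᵐ[μ] fun t => Q.ind h t • z t := (scal E (Q.ind h)).op_ae μ z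

theorem QMap.P_star (h : G) : star (Q.P μ K h) = Q.P μ K h := by
  symm
  rw [ContinuousLinearMap.star_eq_adjoint, ContinuousLinearMap.eq_adjoint_iff]
  intro ξ η
  refine (scal K (Q.ind h)).op_inner μ (scal K (Q.ind h)) ?_ ξ η
  intro g x y
  rw [scal_apply, scal_apply, inner_smul_left, inner_smul_right, Q.ind_apply]
  by_cases hg : g * h⁻¹ ∈ Q.U
  · rw [if_pos hg, map_one]
  · rw [if_neg hg, map_zero]

theorem QMap.P_idem (h : G) : Q.P μ K h * Q.P μ K h = Q.P μ K h := by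
  ext1 z
  apply Lp.ext
  filter_upwards [Q.P_ae μ K h (Q.P μ K h z), Q.P_ae μ K h z] with t h1 h2
  change (Q.P μ K h (Q.P μ K h z)) t = (Q.P μ K h z) t
  rw [h1, h2, smul_smul, Q.ind_apply]
  by_cases hg : t * h⁻¹ ∈ Q.U
  · rw [if_pos hg, mul_one]
  · rw [if_neg hg, mul_zero]

theorem QMap.P_lam (h : G) {u : G} (hu : u ∈ Q.U) :
    Q.P μ K h * (lam μ K).U u = (lam μ K).U u * Q.P μ K h := by
  ext1 z
  apply Lp.ext
  change (Q.P μ K h ((lam μ K).U u z) : G → K) =ᵐ[μ] ((lam μ K).U u (Q.P μ K h z) : G → K)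
  filter_upwards [Q.P_ae μ K h ((lam μ K).U u z), lam_ae μ u z, lam_ae μ u (Q.P μ K h z),
    ae_translate μ u⁻¹ (Q.P_ae μ K h z)] with t h1 h2 h3 h4
  rw [h1, h2, h3, h4, Q.ind_apply, Q.ind_apply, mul_assoc,
    Q.U.mul_mem_cancel_left (Q.U.inv_mem hu)]

theorem TrAct.P_pi (h : G) (x : A) : Q.P μ K h * S.pi μ x = S.pi μ x * Q.P μ K h := by
  ext1 z
  apply Lp.ext
  change (Q.P μ K h (S.pi μ x z) : G → K) =ᵐ[μ] (S.pi μ x (Q.P μ K h z) : G → K)
  filter_upwards [Q.P_ae μ K h (S.pi μ x z), S.pi_ae μ x z, S.pi_ae μ x (Q.P μ K h z),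
    Q.P_ae μ K h z] with t h1 h2 h3 h4
  rw [h1, h2, h3, h4, map_smul]

/-- `z` is supported on `U` iff `P_1 z = z` -/
theorem QMap.P_tens (h : G) (η : K) (f : Lp ℂ 2 μ) :
    Q.P μ K h (tens μ η f) = tens μ η (Q.P μ ℂ h f) := by
  apply Lp.ext
  filter_upwards [Q.P_ae μ K h (tens μ η f), tens_ae μ η f, tens_ae μ η (Q.P μ ℂ h f),
    Q.P_ae μ ℂ h f] with t h1 h2 h3 h4
  rw [h1, h2, h3, h4, smul_smul, smul_eq_mul]

/-! ## the algebras -/

theorem TrAct.gens_star {n : Lp K 2 μ →L[ℂ] Lp K 2 μ} (hn : n ∈ S.gens μ) :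
    star n ∈ S.gens μ := by
  rcases hn with ⟨x, rfl⟩ | ⟨s, rfl⟩
  · exact Or.inl ⟨star x, S.pi_star μ x⟩
  · exact Or.inr ⟨s⁻¹, (lam_star μ s).symm⟩

theorem TrAct.gensU_star {n : Lp K 2 μ →L[ℂ] Lp K 2 μ} (hn : n ∈ S.gensU μ Q) :
    star n ∈ S.gensU μ Q := by
  rcases hn with ⟨x, rfl⟩ | ⟨s, hs, rfl⟩
  · exact Or.inl ⟨star x, S.pi_star μ x⟩
  · exact Or.inr ⟨s⁻¹, Q.U.inv_mem hs, (lam_star μ s).symm⟩

theorem TrAct.NU_le : S.NU μ Q ⊆ S.NN μ := by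
  refine Set.centralizer_subset (Set.centralizer_subset ?_)
  rintro _ (⟨x, rfl⟩ | ⟨s, hs, rfl⟩)
  · exact Or.inl ⟨x, rfl⟩
  · exact Or.inr ⟨s, rfl⟩

theorem TrAct.pi_mem (x : A) : S.pi μ x ∈ S.NU μ Q := by
  exact Set.subset_centralizer_centralizer (Or.inl ⟨x, rfl⟩)

theorem TrAct.lam_mem_NU {u : G} (hu : u ∈ Q.U) : (lam μ K).U u ∈ S.NU μ Q := by
  exact Set.subset_centralizer_centralizer (Or.inr ⟨u, hu, rfl⟩)

theorem TrAct.lam_mem_NN (g : G) : (lam μ K).U g ∈ S.NN μ := by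
  exact Set.subset_centralizer_centralizer (Or.inr ⟨g, rfl⟩)

variable {μ S Q}

private theorem UnA_centralizer_smul {F : Type*} [Ring F] [Algebra ℂ F] {X : Set F} {a : F}
    (c : ℂ) (ha : a ∈ Set.centralizer X) : c • a ∈ Set.centralizer X := by
  intro m hm
  rw [mul_smul_comm, smul_mul_assoc, ha m hm]

private theorem UnA_centralizer_star {F : Type*} [Ring F] [StarRing F] {X : Set F}
    (hX : ∀ m ∈ X, star m ∈ X) {a : F} (ha : a ∈ Set.centralizer X) :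
    star a ∈ Set.centralizer X := by
  intro m hm
  have h1 := ha (star m) (hX m hm)
  have h2 := congrArg star h1
  rw [star_mul, star_mul, star_star] at h2
  exact h2.symm

private theorem UnA_centralizer_sub {F : Type*} [Ring F] {X : Set F} {a b : F}
    (ha : a ∈ Set.centralizer X) (hb : b ∈ Set.centralizer X) : a - b ∈ Set.centralizer X := by
  intro m hm
  rw [mul_sub, sub_mul, ha m hm, hb m hm]

private theorem UnA_centralizer_add {F : Type*} [Ring F] {X : Set F} {a b : F}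
    (ha : a ∈ Set.centralizer X) (hb : b ∈ Set.centralizer X) : a + b ∈ Set.centralizer X := by
  intro m hm
  rw [mul_add, add_mul, ha m hm, hb m hm]

private theorem UnA_centralizer_zero {F : Type*} [Ring F] {X : Set F} :
    (0 : F) ∈ Set.centralizer X := by
  intro m hm
  rw [mul_zero, zero_mul]

theorem TrAct.NN_one : (1 : Lp K 2 μ →L[ℂ] Lp K 2 μ) ∈ S.NN μ := by
  exact Set.one_mem_centralizer
theorem TrAct.NN_mul {a b : Lp K 2 μ →L[ℂ] Lp K 2 μ} (ha : a ∈ S.NN μ) (hb : b ∈ S.NN μ) :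
    a * b ∈ S.NN μ := by
  exact Set.mul_mem_centralizer ha hb
theorem TrAct.NN_add {a b : Lp K 2 μ →L[ℂ] Lp K 2 μ} (ha : a ∈ S.NN μ) (hb : b ∈ S.NN μ) :
    a + b ∈ S.NN μ := by
  exact UnA_centralizer_add ha hb
theorem TrAct.NN_sub {a b : Lp K 2 μ →L[ℂ] Lp K 2 μ} (ha : a ∈ S.NN μ) (hb : b ∈ S.NN μ) :
    a - b ∈ S.NN μ := by
  exact UnA_centralizer_sub ha hb
theorem TrAct.NN_smul (c : ℂ) {a : Lp K 2 μ →L[ℂ] Lp K 2 μ} (ha : a ∈ S.NN μ) :
    c • a ∈ S.NN μ := by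
  exact UnA_centralizer_smul c ha
theorem TrAct.NN_star {a : Lp K 2 μ →L[ℂ] Lp K 2 μ} (ha : a ∈ S.NN μ) : star a ∈ S.NN μ := by
  refine UnA_centralizer_star (fun m hm => ?_) ha
  exact UnA_centralizer_star (fun n hn => TrAct.gens_star μ S hn) hm
theorem TrAct.NN_sum {J : Type*} (s : Finset J) (a : J → Lp K 2 μ →L[ℂ] Lp K 2 μ)
    (ha : ∀ j ∈ s, a j ∈ S.NN μ) : ∑ j ∈ s, a j ∈ S.NN μ := by
  classical
  revert ha
  refine Finset.induction_on s ?_ ?_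
  · intro _
    rw [Finset.sum_empty]
    exact UnA_centralizer_zero
  · intro j s hj h ha
    rw [Finset.sum_insert hj]
    exact UnA_centralizer_add (ha j (Finset.mem_insert_self j s))
      (h fun i hi => ha i (Finset.mem_insert_of_mem hi))
theorem TrAct.NU_one : (1 : Lp K 2 μ →L[ℂ] Lp K 2 μ) ∈ S.NU μ Q := by
  exact Set.one_mem_centralizer
theorem TrAct.NU_mul {a b : Lp K 2 μ →L[ℂ] Lp K 2 μ} (ha : a ∈ S.NU μ Q) (hb : b ∈ S.NU μ Q) :
    a * b ∈ S.NU μ Q := by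
  exact Set.mul_mem_centralizer ha hb
theorem TrAct.NU_add {a b : Lp K 2 μ →L[ℂ] Lp K 2 μ} (ha : a ∈ S.NU μ Q) (hb : b ∈ S.NU μ Q) :
    a + b ∈ S.NU μ Q := by
  exact UnA_centralizer_add ha hb
theorem TrAct.NU_sub {a b : Lp K 2 μ →L[ℂ] Lp K 2 μ} (ha : a ∈ S.NU μ Q) (hb : b ∈ S.NU μ Q) :
    a - b ∈ S.NU μ Q := by
  exact UnA_centralizer_sub ha hb
theorem TrAct.NU_smul (c : ℂ) {a : Lp K 2 μ →L[ℂ] Lp K 2 μ} (ha : a ∈ S.NU μ Q) :
    c • a ∈ S.NU μ Q := by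
  exact UnA_centralizer_smul c ha
theorem TrAct.NU_star {a : Lp K 2 μ →L[ℂ] Lp K 2 μ} (ha : a ∈ S.NU μ Q) : star a ∈ S.NU μ Q := by
  refine UnA_centralizer_star (fun m hm => ?_) ha
  exact UnA_centralizer_star (fun n hn => TrAct.gensU_star μ S Q hn) hm

/-- elements of `N` commute with `Γ_g` -/
theorem TrAct.NN_Gam {n : Lp K 2 μ →L[ℂ] Lp K 2 μ} (hn : n ∈ S.NN μ) (g : G) :
    n * S.Gam μ g = S.Gam μ g * n := by
  refine (hn (S.Gam μ g) ?_).symm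
  rintro _ (⟨x, rfl⟩ | ⟨s, rfl⟩)
  · exact (S.Gam_pi μ g x).symm
  · exact (S.Gam_lam μ g s).symm

/-- elements of `N` commute with `1 ⊗ c`, `c` in the commutant of the left multiplications -/
theorem TrAct.NN_oneT {n : Lp K 2 μ →L[ℂ] Lp K 2 μ} (hn : n ∈ S.NN μ) (c : K →L[ℂ] K)
    (hc : T.CommL c) : n * oneT μ c = oneT μ c * n := by
  refine (hn (oneT μ c) ?_).symm
  rintro _ (⟨x, rfl⟩ | ⟨s, rfl⟩)
  · exact S.pi_comm μ x c hc
  · ext1 z
    exact (oneT_lam μ c s z).symm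

/-- elements of `N_U` commute with `P_h` -/
theorem TrAct.NU_P {n : Lp K 2 μ →L[ℂ] Lp K 2 μ} (hn : n ∈ S.NU μ Q) (h : G) :
    n * Q.P μ K h = Q.P μ K h * n := by
  refine (hn (Q.P μ K h) ?_).symm
  rintro _ (⟨x, rfl⟩ | ⟨s, hs, rfl⟩)
  · exact (S.P_pi μ Q h x).symm
  · exact (Q.P_lam μ h hs).symm

private theorem UnA_approx (S : TrAct G T) (P : Subgroup G)
    (n : Lp K 2 μ →L[ℂ] Lp K 2 μ)
    (hn : n ∈ Set.centralizer (Set.centralizer
      (Set.range (S.pi μ) ∪ (lam μ K).U '' (P : Set G)))) (J : Type) [Fintype J]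
    (z : J → Lp K 2 μ) (ε : ℝ) (hε : 0 < ε) :
    ∃ a ∈ Submodule.span ℂ {b | ∃ (x : A) (u : G), u ∈ P ∧ b = S.pi μ x * (lam μ K).U u},
      ∀ j, ‖a (z j) - n (z j)‖ < ε := by
  set 𝒜 : Submodule ℂ (Lp K 2 μ →L[ℂ] Lp K 2 μ) :=
    Submodule.span ℂ {b | ∃ (x : A) (u : G), u ∈ P ∧ b = S.pi μ x * (lam μ K).U u} with h𝒜
  have hgen : ∀ (x : A) (u : G), u ∈ P → S.pi μ x * (lam μ K).U u ∈ 𝒜 := fun x u hu =>
    Submodule.subset_span ⟨x, u, hu, rfl⟩
  have h1 : (1 : Lp K 2 μ →L[ℂ] Lp K 2 μ) ∈ 𝒜 := by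
    have h := hgen 1 1 P.one_mem
    rw [S.pi_one μ, (lam μ K).one, one_mul] at h
    exact h
  refine bicomm_approx J 𝒜 h1 ?_ ?_ n ?_ z ε hε
  · intro a ha b hb
    refine Submodule.span_induction (p := fun a _ => a * b ∈ 𝒜) ?_ ?_ ?_ ?_ ha
    · rintro _ ⟨x, u, hu, rfl⟩
      refine Submodule.span_induction
        (p := fun b _ => S.pi μ x * (lam μ K).U u * b ∈ 𝒜) ?_ ?_ ?_ ?_ hb
      · rintro _ ⟨y, v, hv, rfl⟩
        have e : S.pi μ x * (lam μ K).U u * (S.pi μ y * (lam μ K).U v)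
            = S.pi μ (x * S.α u y) * (lam μ K).U (u * v) := by
          rw [S.pi_mul μ, (lam μ K).mul, mul_assoc, ← mul_assoc ((lam μ K).U u) (S.pi μ y),
            UnA_lam_pi μ S, mul_assoc (S.pi μ (S.α u y)), ← mul_assoc (S.pi μ x)]
        rw [e]
        exact hgen _ _ (P.mul_mem hu hv)
      · rw [mul_zero]
        exact 𝒜.zero_mem
      · intro b c _ _ hb hc
        rw [mul_add]
        exact 𝒜.add_mem hb hc
      · intro c b _ hb
        rw [mul_smul_comm]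
        exact 𝒜.smul_mem c hb
    · rw [zero_mul]
      exact 𝒜.zero_mem
    · intro a c _ _ ha hc
      rw [add_mul]
      exact 𝒜.add_mem ha hc
    · intro c a _ ha
      rw [smul_mul_assoc]
      exact 𝒜.smul_mem c ha
  · intro a ha
    refine Submodule.span_induction (p := fun a _ => star a ∈ 𝒜) ?_ ?_ ?_ ?_ ha
    · rintro _ ⟨x, u, hu, rfl⟩
      rw [star_mul, lam_star μ u, ← S.pi_star μ x, UnA_lam_pi μ S]
      exact hgen _ _ (P.inv_mem hu)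
    · rw [star_zero]
      exact 𝒜.zero_mem
    · intro a b _ _ ha hb
      rw [star_add]
      exact 𝒜.add_mem ha hb
    · intro c a _ ha
      rw [star_smul]
      exact 𝒜.smul_mem _ ha
  · intro R hR
    refine hn R ?_
    rintro _ (⟨x, rfl⟩ | ⟨u, hu, rfl⟩)
    · have h := hR _ (hgen x 1 P.one_mem)
      rw [(lam μ K).one, mul_one] at h
      exact h.symm
    · have h := hR _ (hgen 1 u hu)
      rw [S.pi_one μ, one_mul] at h
      exact h.symm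

/-- elements of `N_U` are approximated on finitely many vectors by elements of the span of
`π(x) λ_u` -/
theorem TrAct.NU_approx {n : Lp K 2 μ →L[ℂ] Lp K 2 μ} (hn : n ∈ S.NU μ Q) (J : Type) [Fintype J]
    (z : J → Lp K 2 μ) (ε : ℝ) (hε : 0 < ε) :
    ∃ a ∈ Submodule.span ℂ {b | ∃ (x : A) (u : G), u ∈ Q.U ∧ b = S.pi μ x * (lam μ K).U u},
      ∀ j, ‖a (z j) - n (z j)‖ < ε := by
  exact UnA_approx S Q.U n hn J z ε hε

/-- elements of `N` are approximated on finitely many vectors by elements of the span of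
`π(x) λ_g` -/
theorem TrAct.NN_approx {n : Lp K 2 μ →L[ℂ] Lp K 2 μ} (hn : n ∈ S.NN μ) (J : Type) [Fintype J]
    (z : J → Lp K 2 μ) (ε : ℝ) (hε : 0 < ε) :
    ∃ a ∈ Submodule.span ℂ {b | ∃ (x : A) (g : G), b = S.pi μ x * (lam μ K).U g},
      ∀ j, ‖a (z j) - n (z j)‖ < ε := by
  have h1 : n ∈ Set.centralizer (Set.centralizer
      (Set.range (S.pi μ) ∪ (lam μ K).U '' ((⊤ : Subgroup G) : Set G))) := by
    rw [Subgroup.coe_top, Set.image_univ]
    exact hn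
  obtain ⟨a, ha, h2⟩ := UnA_approx S ⊤ n h1 J z ε hε
  refine ⟨a, ?_, h2⟩
  refine Submodule.span_mono ?_ ha
  rintro _ ⟨x, u, _, rfl⟩
  exact ⟨x, u, rfl⟩

/-- `⟨ξ(f), π(x) λ_g ξ(f)⟩ = τ(x) ⟨f, λ_g f⟩` -/
theorem TrAct.omega_pi_lam (x : A) (g : G) (f : Lp ℂ 2 μ) :
    inner ℂ (T.xi μ f) (S.pi μ x ((lam μ K).U g (T.xi μ f)))
      = T.τ x * inner ℂ f ((lam μ ℂ).U g f) := by
  have hτ : ∀ t : G, inner ℂ (T.ι 1) (T.ι (S.α t x)) = T.τ x := by
    intro t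
    have h := S.inner_map t 1 x
    rw [map_one] at h
    exact h
  rw [L2.inner_def, L2.inner_def, ← integral_const_mul]
  refine integral_congr_ae ?_
  filter_upwards [tens_ae μ (T.ι 1) f, S.pi_ae μ x ((lam μ K).U g (T.xi μ f)),
    lam_ae μ g (T.xi μ f), ae_translate μ g⁻¹ (tens_ae μ (T.ι 1) f), lam_ae μ g f]
    with t h1 h2 h3 h4 h5
  have h4' : (T.xi μ f) (g⁻¹ * t) = (f (g⁻¹ * t) : ℂ) • T.ι 1 := h4
  have h1' : (T.xi μ f) t = (f t : ℂ) • T.ι 1 := h1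
  rw [h2, h3, h4', h1', h5, map_smul, inner_smul_left, inner_smul_right, T.Lm_apply_one, hτ,
    RCLike.inner_apply]
  ring

end

end Pool.Agent.AbCoc
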