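import Pool.Agent.Lib_MP_418a80_un.UnW1

/-! # C0: the operators `λ'(ψ) = ∫ ψ(u) Γ_{u⁻¹} du` of the commutant -/

set_option autoImplicit false
set_option linter.unusedVariables false
set_option linter.unusedSectionVars false

open MeasureTheory Topology Filter CompactlySupported
open scoped ENNReal NNReal

namespace Pool.Agent.AbCoc

universe u v w z

section
variable {A : Type u} [CStarAlgebra A] {K : Type v} [NormedAddCommGroup K]
  [InnerProductSpace ℂ K] [CompleteSpace K]
variable {G : Type w} [Group G] [TopologicalSpace G] [IsTopologicalGroup G]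
  [SecondCountableTopology G] [LocallyCompactSpace G] [MeasurableSpace G] [BorelSpace G]
  (μ : Measure G) [μ.IsHaarMeasure] {T : TrAlg A K} (S : TrAct G T)
  {V : Type z} [NormedAddCommGroup V] [NormedSpace ℝ V] [FiniteDimensional ℝ V] (Q : QMap G V)

/-- strong continuity of the right translations on `U` (density of `C_c`, or the continuity of the
action `DomMulAct` of `U` acting by right multiplication, which preserves `μ`) -/
theorem QMap.cont_rt (E : Type v) [NormedAddCommGroup E] [InnerProductSpace ℂ E]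
    (x : Lp E 2 μ) : Continuous fun u : Q.U => rt μ E (u : G) x := by
  have hmp : ∀ u : Q.U, MeasurePreserving (fun t : G => t * (u : G)) μ μ := by
    intro u
    refine ⟨measurable_mul_const _, ?_⟩
    rw [map_mulRight]
    have h1 : (Measure.modularCharacterFun (u : G) : ℝ≥0) = 1 := by
      have h2 := Q.dm_eq_one u.2
      unfold dm at h2
      exact_mod_cast h2
    rw [h1, one_smul]
  let f : Q.U → C(G, G) := fun u => ⟨fun t => t * (u : G), continuous_mul_const (u : G)⟩
  have hf : Continuous f := by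
    refine ContinuousMap.continuous_of_continuous_uncurry f ?_
    change Continuous fun p : Q.U × G => p.2 * (p.1 : G)
    exact continuous_snd.mul (continuous_subtype_val.comp continuous_fst)
  have h : Continuous fun u : Q.U => Lp.compMeasurePreserving (f u) (hmp u) x :=
    Continuous.compMeasurePreservingLp (continuous_const (y := x)) hf hmp (by simp)
  have h2 : (fun u : Q.U => rt μ E (u : G) x) =
      fun u : Q.U => Lp.compMeasurePreserving (f u) (hmp u) x := by
    funext u
    apply Lp.ext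
    filter_upwards [rt_ae μ (u : G) x, Lp.coeFn_compMeasurePreserving x (hmp u)] with t h1 h2
    rw [h1]
    exact h2.symm
  rw [h2]
  exact h

private theorem UnC0_norm_oneT (U : URep G K) (s : G) (ξ : Lp K 2 μ) :
    ‖oneT μ (U.U s) ξ‖ = ‖ξ‖ := by
  have h : inner ℂ (oneT μ (U.U s) ξ) (oneT μ (U.U s) ξ) = inner ℂ ξ ξ := by
    rw [L2.inner_def, L2.inner_def]
    apply integral_congr_ae
    filter_upwards [oneT_ae μ (U.U s) ξ] with g h1
    rw [h1, U.inner_map]
  rw [inner_self_eq_norm_sq_to_K, inner_self_eq_norm_sq_to_K] at h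
  have h2 : ‖oneT μ (U.U s) ξ‖ ^ 2 = ‖ξ‖ ^ 2 := by exact_mod_cast h
  exact (pow_left_inj₀ (norm_nonneg _) (norm_nonneg _) two_ne_zero).1 h2

private theorem UnC0_tens_induction (P : Lp K 2 μ → Prop) (hc : IsClosed {ζ | P ζ})
    (hadd : ∀ ζ ζ', P ζ → P ζ' → P (ζ + ζ')) (h : ∀ ψ : Lp ℂ 2 μ, ∀ η : K, P (tens μ η ψ))
    (ζ : Lp K 2 μ) : P ζ := by
  refine Lp.induction (p := 2) (by simp) P ?_ ?_ hc ζ
  · intro c s hs hμs
    rw [Lp.simpleFunc.coe_indicatorConst]
    have : indicatorConstLp 2 hs hμs.ne c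
        = tens μ c (indicatorConstLp 2 hs hμs.ne (1 : ℂ)) := by
      apply Lp.ext
      filter_upwards [tens_ae μ c (indicatorConstLp 2 hs hμs.ne (1 : ℂ)),
        indicatorConstLp_coeFn (p := 2) (hs := hs) (hμs := hμs.ne) (c := c),
        indicatorConstLp_coeFn (p := 2) (hs := hs) (hμs := hμs.ne) (c := (1 : ℂ))]
        with g h1 h2 h3
      rw [h1, h2, h3]
      by_cases hg : g ∈ s
      · rw [Set.indicator_of_mem hg, Set.indicator_of_mem hg, one_smul]
      · rw [Set.indicator_of_notMem hg, Set.indicator_of_notMem hg, zero_smul]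
    rw [this]
    exact h _ _
  · intro f g hf hg _ h1 h2
    exact hadd _ _ h1 h2

private theorem UnC0_cont_oneT (U : URep G K) (ξ : Lp K 2 μ) :
    Continuous fun s => oneT μ (U.U s) ξ := by
  refine UnC0_tens_induction μ (fun ξ => Continuous fun s => oneT μ (U.U s) ξ) ?_ ?_ ?_ ξ
  · apply IsSeqClosed.isClosed
    intro x p hx hxp
    have hu : TendstoUniformly (fun n s => oneT μ (U.U s) (x n)) (fun s => oneT μ (U.U s) p)
        atTop := by
      rw [Metric.tendstoUniformly_iff]
      intro ε hε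
      filter_upwards [(Metric.tendsto_atTop'.1 hxp ε hε).choose_spec |> fun h =>
        (eventually_gt_atTop _).mono fun n hn => h n hn] with n hn s
      rw [dist_eq_norm, ← map_sub, UnC0_norm_oneT, ← dist_eq_norm, dist_comm]
      exact hn
    exact hu.continuous (Frequently.of_forall fun n => hx n)
  · intro ζ ζ' h1 h2
    have : (fun s => oneT μ (U.U s) (ζ + ζ'))
        = fun s => oneT μ (U.U s) ζ + oneT μ (U.U s) ζ' := by
      funext s
      rw [map_add]
    rw [this]
    exact h1.add h2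
  · intro ψ η
    have : (fun s => oneT μ (U.U s) (tens μ η ψ)) = fun s => tensL μ K ψ (U.U s η) := by
      funext s
      rw [oneT_tensW, tensL_apply]
    rw [this]
    exact (tensL μ K ψ).continuous.comp (U.cont η)

theorem TrAct.cont_Gam (x : Lp K 2 μ) : Continuous fun u : Q.U => S.Gam μ (u : G) x := by
  change Continuous fun u : Q.U => oneT μ (S.U.U (u : G)) (rt μ K (u : G) x)
  rw [continuous_iff_continuousAt]
  intro u0
  have hr := Q.cont_rt μ K x
  have ho : Continuous fun u : Q.U => oneT μ (S.U.U (u : G)) (rt μ K (u0 : G) x) :=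
    (UnC0_cont_oneT μ S.U (rt μ K (u0 : G) x)).comp continuous_subtype_val
  have h1 : Continuous fun u : Q.U => ‖rt μ K (u : G) x - rt μ K (u0 : G) x‖ +
      ‖oneT μ (S.U.U (u : G)) (rt μ K (u0 : G) x) -
        oneT μ (S.U.U (u0 : G)) (rt μ K (u0 : G) x)‖ :=
    (hr.sub continuous_const).norm.add (ho.sub continuous_const).norm
  have h2 : Tendsto (fun u : Q.U => ‖rt μ K (u : G) x - rt μ K (u0 : G) x‖ +
      ‖oneT μ (S.U.U (u : G)) (rt μ K (u0 : G) x) -
        oneT μ (S.U.U (u0 : G)) (rt μ K (u0 : G) x)‖) (𝓝 u0) (𝓝 0) := by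
    have := h1.tendsto u0
    simpa using this
  refine tendsto_iff_norm_sub_tendsto_zero.2 (squeeze_zero (fun u => norm_nonneg _) (fun u => ?_)
    h2)
  have h3 : oneT μ (S.U.U (u : G)) (rt μ K (u : G) x) -
      oneT μ (S.U.U (u0 : G)) (rt μ K (u0 : G) x) =
      oneT μ (S.U.U (u : G)) (rt μ K (u : G) x - rt μ K (u0 : G) x) +
      (oneT μ (S.U.U (u : G)) (rt μ K (u0 : G) x) -
        oneT μ (S.U.U (u0 : G)) (rt μ K (u0 : G) x)) := by
    rw [map_sub]
    abel
  rw [h3]
  refine (norm_add_le _ _).trans ?_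
  rw [UnC0_norm_oneT]

theorem TrAct.LamR_cont (ψ : C_c(V, ℂ)) (x : Lp K 2 μ) :
    Continuous fun u => Q.liftFun ψ u • S.Gam μ u⁻¹ x := by
  have hcl : IsClosed (Q.U : Set G) := Q.U.isClosed_of_isOpen Q.isOpen
  rw [continuous_iff_continuousAt]
  intro u
  by_cases hu : u ∈ Q.U
  · have hon : ContinuousOn (fun u => Q.liftFun ψ u • S.Gam μ u⁻¹ x) (Q.U : Set G) := by
      rw [continuousOn_iff_continuous_domRestrict]
      have h1 : Continuous fun v : Q.U => S.Gam μ ((v⁻¹ : Q.U) : G) x :=
        (S.cont_Gam μ Q x).comp continuous_inv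
      have h2 : Continuous fun v : Q.U => Q.liftFun ψ (v : G) :=
        (Q.liftFun_cont ψ).comp continuous_subtype_val
      exact h2.smul h1
    exact hon.continuousAt (Q.isOpen.mem_nhds hu)
  · have hev : (fun u => Q.liftFun ψ u • S.Gam μ u⁻¹ x) =ᶠ[𝓝 u] fun _ => (0 : Lp K 2 μ) := by
      filter_upwards [hcl.isOpen_compl.mem_nhds hu] with v hv
      have h0 : Q.liftFun ψ v = 0 := by
        unfold QMap.liftFun
        exact if_neg hv
      rw [h0, zero_smul]
    exact (continuousAt_const (y := (0 : Lp K 2 μ))).congr hev.symm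

theorem TrAct.LamR_integrable (ψ : C_c(V, ℂ)) (x : Lp K 2 μ) :
    Integrable (fun u => Q.liftFun ψ u • S.Gam μ u⁻¹ x) μ :=
  (S.LamR_cont μ Q ψ x).integrable_of_hasCompactSupport ((Q.liftFun_supp ψ).smul_right)

theorem TrAct.norm_Gam {u : G} (hu : u ∈ Q.U) (x : Lp K 2 μ) : ‖S.Gam μ u x‖ = ‖x‖ := by
  have h := S.Gam_inner μ u x x
  rw [Q.dm_eq_one hu, Complex.ofReal_one, one_mul, inner_self_eq_norm_sq_to_K,
    inner_self_eq_norm_sq_to_K] at h
  have h2 : ‖S.Gam μ u x‖ ^ 2 = ‖x‖ ^ 2 := by exact_mod_cast h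
  exact (pow_left_inj₀ (norm_nonneg _) (norm_nonneg _) two_ne_zero).1 h2

/-- `λ'(ψ) = ∫ ψ(u) Γ_{u⁻¹} du` -/
noncomputable def TrAct.LamR (ψ : C_c(V, ℂ)) : Lp K 2 μ →L[ℂ] Lp K 2 μ :=
  LinearMap.mkContinuous
    { toFun := fun x => ∫ u, Q.liftFun ψ u • S.Gam μ u⁻¹ x ∂μ
      map_add' := by
        intro x y
        simp only [map_add, smul_add]
        exact integral_add (S.LamR_integrable μ Q ψ x) (S.LamR_integrable μ Q ψ y)
      map_smul' := by
        intro c x
        simp only [map_smul, RingHom.id_apply]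
        rw [← integral_smul]
        congr 1
        funext v
        rw [smul_comm] }
    (∫ v, ‖Q.liftFun ψ v‖ ∂μ) (fun x => by
      change ‖∫ u, Q.liftFun ψ u • S.Gam μ u⁻¹ x ∂μ‖ ≤ _
      refine (norm_integral_le_integral_norm _).trans ?_
      rw [← integral_mul_const]
      refine le_of_eq (integral_congr_ae (Filter.Eventually.of_forall fun v => ?_))
      change ‖Q.liftFun ψ v • S.Gam μ v⁻¹ x‖ = ‖Q.liftFun ψ v‖ * ‖x‖
      by_cases hv : v ∈ Q.U
      · rw [norm_smul, S.norm_Gam μ Q (Q.U.inv_mem hv)]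
      · have h0 : Q.liftFun ψ v = 0 := by
          unfold QMap.liftFun
          rw [if_neg hv]
        rw [h0, zero_smul, norm_zero, norm_zero, zero_mul])

theorem TrAct.LamR_apply (ψ : C_c(V, ℂ)) (x : Lp K 2 μ) :
    S.LamR μ Q ψ x = ∫ u, Q.liftFun ψ u • S.Gam μ u⁻¹ x ∂μ := rfl

end

end Pool.Agent.AbCoc
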