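import Pool.Agent.Lib_MP_418a80_un.UnC0

/-! # C1, C3: memberships, the base identity -/

set_option autoImplicit false
set_option linter.unusedVariables false
set_option linter.unusedSectionVars false

open MeasureTheory Topology Filter CompactlySupported
open scoped ENNReal NNReal

namespace Pool.Agent.AbCoc

universe u v w z

section
variable {A : Type u} [CStarAlgebra A] {K : Type v} [NormedAddCommGroup K]
  [InnerProductSpace ℂ K] [CompleteSpace K]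
variable {G : Type w} [Group G] [TopologicalSpace G] [IsTopologicalGroup G]
  [SecondCountableTopology G] [LocallyCompactSpace G] [MeasurableSpace G] [BorelSpace G]
  (μ : Measure G) [μ.IsHaarMeasure] {T : TrAlg A K} (S : TrAct G T)
  {V : Type z} [NormedAddCommGroup V] [NormedSpace ℝ V] [FiniteDimensional ℝ V] (Q : QMap G V)

/-! ## C1: memberships -/

theorem TrAct.Gam_mem (g : G) : S.Gam μ g ∈ Set.centralizer (S.NN μ) := by
  intro n hn
  exact TrAct.NN_Gam hn g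

theorem TrAct.Rm_mem (a : A) : oneT μ (T.Rm a) ∈ Set.centralizer (S.NN μ) := by
  intro n hn
  exact TrAct.NN_oneT hn _ (T.commL_Rm a)

theorem TrAct.LamR_mem (ψ : C_c(V, ℂ)) : S.LamR μ Q ψ ∈ Set.centralizer (S.NN μ) := by
  intro n hn
  ext1 x
  change n (S.LamR μ Q ψ x) = S.LamR μ Q ψ (n x)
  rw [S.LamR_apply μ Q, S.LamR_apply μ Q, ← n.integral_comp_comm (S.LamR_integrable μ Q ψ x)]
  congr 1
  funext u
  rw [map_smul]
  congr 1
  exact congrArg (fun Z : Lp K 2 μ →L[ℂ] Lp K 2 μ => Z x) (TrAct.NN_Gam hn u⁻¹)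

private theorem C0b_Lam_integrable (φ : C_c(V, ℂ)) (z : Lp K 2 μ) :
    Integrable (fun v => Q.liftFun φ v • (lam μ K).U v z) μ :=
  ((Q.liftFun_cont φ).smul ((lam μ K).cont z)).integrable_of_hasCompactSupport
    ((Q.liftFun_supp φ).smul_right)

theorem TrAct.Lam_mem_NN (φ : C_c(V, ℂ)) : Q.Lam μ K φ ∈ S.NN μ := by
  intro c hc
  ext1 z
  change c (Q.Lam μ K φ z) = Q.Lam μ K φ (c z)
  rw [Q.Lam_apply μ, Q.Lam_apply μ, ← c.integral_comp_comm (C0b_Lam_integrable μ Q φ z)]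
  congr 1
  funext v
  rw [map_smul]
  congr 1
  exact congrArg (fun Z : Lp K 2 μ →L[ℂ] Lp K 2 μ => Z z)
    (hc ((lam μ K).U v) (Or.inr ⟨v, rfl⟩)).symm

theorem QMap.Lam_isSelfAdjoint (φ : C_c(V, ℂ)) (hφ : ∀ x, φ (-x) = starRingEnd ℂ (φ x)) :
    IsSelfAdjoint (Q.Lam μ K φ) := by
  have h : cinv φ = φ := by
    ext x
    rw [cinv_apply, hφ, Complex.conj_conj]
  unfold IsSelfAdjoint
  rw [Q.Lam_star μ, h]

private theorem C0b_Gam_mul (g h : G) (z : Lp K 2 μ) :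
    S.Gam μ (g * h) z = S.Gam μ g (S.Gam μ h z) := by
  change oneT μ (S.U.U (g * h)) (rt μ K (g * h) z) =
    oneT μ (S.U.U g) (rt μ K g (oneT μ (S.U.U h) (rt μ K h z)))
  rw [S.U.mul, rt_mul μ, ← oneT_rt μ, ← oneT_comp μ]
  rfl

private theorem C0b_Gam_one (z : Lp K 2 μ) : S.Gam μ 1 z = z := by
  change oneT μ (S.U.U 1) (rt μ K 1 z) = z
  rw [rt_one μ]
  apply Lp.ext
  filter_upwards [oneT_ae μ (S.U.U 1) z] with t h1
  rw [h1, S.U.one]
  rfl

private theorem C0b_Gam_adj {u : G} (hu : u ∈ Q.U) (x y : Lp K 2 μ) :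
    inner ℂ (S.Gam μ u⁻¹ x) y = inner ℂ x (S.Gam μ u y) := by
  have h1 : S.Gam μ u⁻¹ (S.Gam μ u y) = y := by
    rw [← C0b_Gam_mul μ S, inv_mul_cancel, C0b_Gam_one μ S]
  have h2 := S.Gam_inner μ u⁻¹ x (S.Gam μ u y)
  rw [h1, Q.dm_eq_one (Q.U.inv_mem hu), Complex.ofReal_one, one_mul] at h2
  exact h2

private theorem C0b_liftFun_of_notMem (φ : C_c(V, ℂ)) {g : G} (hg : g ∉ Q.U) :
    Q.liftFun φ g = 0 := by
  unfold QMap.liftFun
  rw [if_neg hg]

private theorem C0b_liftFun_of_mem (φ : C_c(V, ℂ)) {g : G} (hg : g ∈ Q.U) :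
    Q.liftFun φ g = φ (Q.q g) := by
  unfold QMap.liftFun
  rw [if_pos hg]

theorem TrAct.LamR_isSelfAdjoint (ψ : C_c(V, ℂ)) (hψ : ∀ x, ψ (-x) = starRingEnd ℂ (ψ x)) :
    IsSelfAdjoint (S.LamR μ Q ψ) := by
  unfold IsSelfAdjoint
  symm
  rw [ContinuousLinearMap.star_eq_adjoint, ContinuousLinearMap.eq_adjoint_iff]
  intro x y
  rw [S.LamR_apply μ Q, S.LamR_apply μ Q, ← integral_inner (S.LamR_integrable μ Q ψ y),
    ← inner_conj_symm, ← integral_inner (S.LamR_integrable μ Q ψ x), ← integral_conj]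
  have h1 := Q.integral_inv μ (fun u => Q.liftFun ψ u⁻¹ * inner ℂ x (S.Gam μ u y))
    (fun g hg => by
      rw [C0b_liftFun_of_notMem Q ψ (fun h => hg (by
        have := Q.U.inv_mem h
        rwa [inv_inv] at this)), zero_mul])
  have h2 : ∫ u, inner ℂ x (Q.liftFun ψ u • S.Gam μ u⁻¹ y) ∂μ =
      ∫ u, Q.liftFun ψ u⁻¹⁻¹ * inner ℂ x (S.Gam μ u⁻¹ y) ∂μ := by
    congr 1
    funext u
    rw [inner_smul_right, inv_inv]
  rw [h2, h1]
  congr 1
  funext u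
  rw [inner_conj_symm, inner_smul_left]
  by_cases hu : u ∈ Q.U
  · rw [C0b_liftFun_of_mem Q ψ hu, C0b_liftFun_of_mem Q ψ (Q.U.inv_mem hu), Q.q_inv hu, hψ,
      C0b_Gam_adj μ S Q hu]
  · rw [C0b_liftFun_of_notMem Q ψ hu, C0b_liftFun_of_notMem Q ψ (fun h => hu (by
        have := Q.U.inv_mem h
        rwa [inv_inv] at this)), map_zero, zero_mul, zero_mul]

private theorem C0b_Gam_P {u : G} (hu : u ∈ Q.U) :
    S.Gam μ u * Q.P μ K 1 = Q.P μ K 1 * S.Gam μ u := by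
  ext1 z
  apply Lp.ext
  change (oneT μ (S.U.U u) (rt μ K u (Q.P μ K 1 z)) : G → K) =ᵐ[μ]
    (Q.P μ K 1 (oneT μ (S.U.U u) (rt μ K u z)) : G → K)
  filter_upwards [oneT_ae μ (S.U.U u) (rt μ K u (Q.P μ K 1 z)), rt_ae μ u (Q.P μ K 1 z),
    ae_mulRight μ u (Q.P_ae μ K 1 z), Q.P_ae μ K 1 (oneT μ (S.U.U u) (rt μ K u z)),
    oneT_ae μ (S.U.U u) (rt μ K u z), rt_ae μ u z] with t h1 h2 h3 h4 h5 h6
  rw [h1, h2, h3, h4, h5, h6, Q.ind_apply, Q.ind_apply, map_smul, inv_one, mul_one, mul_one,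
    Q.U.mul_mem_cancel_right hu]

/-- `P_1` commutes with `λ'(ψ)` -/
theorem TrAct.LamR_P (ψ : C_c(V, ℂ)) :
    S.LamR μ Q ψ * Q.P μ K 1 = Q.P μ K 1 * S.LamR μ Q ψ := by
  ext1 x
  change S.LamR μ Q ψ (Q.P μ K 1 x) = Q.P μ K 1 (S.LamR μ Q ψ x)
  rw [S.LamR_apply μ Q, S.LamR_apply μ Q,
    ← (Q.P μ K 1).integral_comp_comm (S.LamR_integrable μ Q ψ x)]
  congr 1
  funext u
  rw [map_smul]
  by_cases hu : u ∈ Q.U
  · congr 1
    exact congrArg (fun Z : Lp K 2 μ →L[ℂ] Lp K 2 μ => Z x)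
      (C0b_Gam_P μ S Q (Q.U.inv_mem hu))
  · rw [C0b_liftFun_of_notMem Q ψ hu, zero_smul, zero_smul]

/-- `P_1` commutes with `Γ_u`, `u ∈ U` -/
theorem TrAct.Gam_P {u : G} (hu : u ∈ Q.U) :
    S.Gam μ u * Q.P μ K 1 = Q.P μ K 1 * S.Gam μ u := by
  exact C0b_Gam_P μ S Q hu

theorem QMap.P_xi (φ : C_c(V, ℂ)) :
    Q.P μ K 1 (T.xi μ (Q.nv μ φ)) = T.xi μ (Q.nv μ φ) := by
  unfold TrAlg.xi
  rw [Q.P_tens μ, Q.P_nv μ]

/-! ## C3: the base identity -/

/-- the kernel of both sides of the base identity, tested against `η` at the point `s` -/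
private noncomputable def C0b_F (φ ψ : C_c(V, ℂ)) (x : A) (η : K) (s v : G) : ℂ :=
  Q.liftFun φ v * (Q.liftFun ψ (v⁻¹ * s) * inner ℂ η (T.ι (S.α (s⁻¹ * v) x)))

private theorem C0b_F_eq (φ ψ : C_c(V, ℂ)) (x : A) (η : K) (s : G) :
    ∫ v, C0b_F S Q φ ψ x η s v ∂μ = ∫ u, C0b_F S Q φ ψ x η s (s * u⁻¹) ∂μ := by
  by_cases hs : s ∈ Q.U
  · have h1 := Q.integral_inv μ (fun u => C0b_F S Q φ ψ x η s (s * u)) (fun g hg => by
      change Q.liftFun φ (s * g) * _ = 0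
      rw [C0b_liftFun_of_notMem Q φ (fun h => hg ((Q.U.mul_mem_cancel_left hs).1 h)), zero_mul])
    rw [h1]
    exact (integral_mul_left_eq_self (μ := μ) (C0b_F S Q φ ψ x η s) s).symm
  · have h0 : ∀ v, C0b_F S Q φ ψ x η s v = 0 := by
      intro v
      unfold C0b_F
      by_cases hv : v ∈ Q.U
      · have h2 : v⁻¹ * s ∉ Q.U := fun h => hs ((Q.U.mul_mem_cancel_left (Q.U.inv_mem hv)).1 h)
        rw [C0b_liftFun_of_notMem Q ψ h2, zero_mul, mul_zero]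
      · rw [C0b_liftFun_of_notMem Q φ hv, zero_mul]
    simp only [h0]

private theorem C0b_lhs (φ ψ : C_c(V, ℂ)) (x : A) (η : K) (h : BoundedContinuousFunction G ℂ)
    (hh : HasCompactSupport h) :
    inner ℂ (tens μ η (cv μ h hh)) (Q.Lam μ K φ (S.pi μ x (T.xi μ (Q.nv μ ψ))))
      = ∫ s, starRingEnd ℂ (h s) * ∫ v, C0b_F S Q φ ψ x η s v ∂μ ∂μ := by
  have hg : Continuous fun w : G => inner ℂ η (T.ι (S.α w x)) :=
    continuous_const.inner (S.cont x)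
  have e1 : ∀ v, inner ℂ (tens μ η (cv μ h hh))
      (Q.liftFun φ v • (lam μ K).U v (S.pi μ x (T.xi μ (Q.nv μ ψ)))) =
      ∫ s, starRingEnd ℂ (h s) * C0b_F S Q φ ψ x η s v ∂μ := by
    intro v
    rw [inner_smul_right, L2.inner_def, ← integral_const_mul]
    refine integral_congr_ae ?_
    filter_upwards [tens_ae μ η (cv μ h hh), cv_ae μ h hh,
      lam_ae μ v (S.pi μ x (T.xi μ (Q.nv μ ψ))),
      ae_translate μ v⁻¹ (S.pi_ae μ x (T.xi μ (Q.nv μ ψ))),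
      ae_translate μ v⁻¹ (tens_ae μ (T.ι 1) (Q.nv μ ψ)),
      ae_translate μ v⁻¹ (Q.nv_ae μ ψ)] with s h1 h2 h3 h4 h5 h6
    have h5' : (T.xi μ (Q.nv μ ψ)) (v⁻¹ * s) = (Q.nv μ ψ (v⁻¹ * s) : ℂ) • T.ι 1 := h5
    rw [h1, h2, h3, h4, h5', h6, map_smul, T.Lm_apply_one, inner_smul_left, inner_smul_right,
      mul_inv_rev, inv_inv]
    unfold C0b_F
    ring
  rw [Q.Lam_apply μ, ← integral_inner (C0b_Lam_integrable μ Q φ _)]
  simp only [e1]
  rw [integral_integral_swap_of_hasCompactSupport]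
  · congr 1
    funext s
    rw [integral_const_mul]
  · change Continuous fun p : G × G => starRingEnd ℂ (h p.2) * C0b_F S Q φ ψ x η p.2 p.1
    unfold C0b_F
    refine (Complex.continuous_conj.comp (h.continuous.comp continuous_snd)).mul
      (((Q.liftFun_cont φ).comp continuous_fst).mul
      (((Q.liftFun_cont ψ).comp (continuous_fst.inv.mul continuous_snd)).mul
      (hg.comp (continuous_snd.inv.mul continuous_fst))))
  · refine HasCompactSupport.intro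
      ((Q.liftFun_supp φ).isCompact.prod hh.isCompact) fun p hp => ?_
    change starRingEnd ℂ (h p.2) * (Q.liftFun φ p.1 * _) = 0
    by_cases h1 : p.1 ∈ tsupport (Q.liftFun φ)
    · have h2 : p.2 ∉ tsupport h := fun h2 => hp ⟨h1, h2⟩
      rw [image_eq_zero_of_notMem_tsupport h2, map_zero, zero_mul]
    · rw [image_eq_zero_of_notMem_tsupport h1, zero_mul, mul_zero]

private theorem C0b_rhs (φ ψ : C_c(V, ℂ)) (x : A) (η : K) (h : BoundedContinuousFunction G ℂ)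
    (hh : HasCompactSupport h) :
    inner ℂ (tens μ η (cv μ h hh))
      (S.LamR μ Q ψ (oneT μ (T.Rm x) (T.xi μ (Q.nv μ φ))))
      = ∫ s, starRingEnd ℂ (h s) * ∫ u, C0b_F S Q φ ψ x η s (s * u⁻¹) ∂μ ∂μ := by
  have hg : Continuous fun w : G => inner ℂ η (T.ι (S.α w x)) :=
    continuous_const.inner (S.cont x)
  have e0 : oneT μ (T.Rm x) (T.xi μ (Q.nv μ φ)) = tens μ (T.ι x) (Q.nv μ φ) := by
    unfold TrAlg.xi
    rw [oneT_tensW μ, T.Rm_ι, one_mul]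
  have e2 : ∀ s u, C0b_F S Q φ ψ x η s (s * u⁻¹) =
      Q.liftFun φ (s * u⁻¹) * (Q.liftFun ψ u * inner ℂ η (T.ι (S.α u⁻¹ x))) := by
    intro s u
    unfold C0b_F
    rw [mul_inv_rev, inv_inv, inv_mul_cancel_right, inv_mul_cancel_left]
  have e1 : ∀ u, inner ℂ (tens μ η (cv μ h hh))
      (Q.liftFun ψ u • S.Gam μ u⁻¹ (tens μ (T.ι x) (Q.nv μ φ))) =
      ∫ s, starRingEnd ℂ (h s) * C0b_F S Q φ ψ x η s (s * u⁻¹) ∂μ := by
    intro u
    rw [inner_smul_right, S.Gam_tens μ, L2.inner_def, ← integral_const_mul]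
    refine integral_congr_ae ?_
    filter_upwards [tens_ae μ η (cv μ h hh), cv_ae μ h hh,
      tens_ae μ (T.ι (S.α u⁻¹ x)) (rt μ ℂ u⁻¹ (Q.nv μ φ)), rt_ae μ u⁻¹ (Q.nv μ φ),
      ae_mulRight μ u⁻¹ (Q.nv_ae μ φ)] with s h1 h2 h3 h4 h5
    rw [h1, h2, h3, h4, h5, e2, inner_smul_left, inner_smul_right]
    ring
  rw [e0, S.LamR_apply μ Q, ← integral_inner (S.LamR_integrable μ Q ψ _)]
  simp only [e1]
  rw [integral_integral_swap_of_hasCompactSupport]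
  · congr 1
    funext s
    rw [integral_const_mul]
  · change Continuous fun p : G × G =>
      starRingEnd ℂ (h p.2) * C0b_F S Q φ ψ x η p.2 (p.2 * p.1⁻¹)
    simp only [e2]
    refine (Complex.continuous_conj.comp (h.continuous.comp continuous_snd)).mul
      (((Q.liftFun_cont φ).comp (continuous_snd.mul continuous_fst.inv)).mul
      (((Q.liftFun_cont ψ).comp continuous_fst).mul
      (hg.comp continuous_fst.inv)))
  · refine HasCompactSupport.intro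
      ((Q.liftFun_supp ψ).isCompact.prod hh.isCompact) fun p hp => ?_
    change starRingEnd ℂ (h p.2) * C0b_F S Q φ ψ x η p.2 (p.2 * p.1⁻¹) = 0
    rw [e2]
    by_cases h1 : p.1 ∈ tsupport (Q.liftFun ψ)
    · have h2 : p.2 ∉ tsupport h := fun h2 => hp ⟨h1, h2⟩
      rw [image_eq_zero_of_notMem_tsupport h2, map_zero, zero_mul]
    · rw [image_eq_zero_of_notMem_tsupport h1, zero_mul, mul_zero, mul_zero]

theorem TrAct.base (φ ψ : C_c(V, ℂ)) (x : A) :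
    Q.Lam μ K φ (S.pi μ x (T.xi μ (Q.nv μ ψ)))
      = S.LamR μ Q ψ (oneT μ (T.Rm x) (T.xi μ (Q.nv μ φ))) := by
  have h1 : innerSL ℂ (Q.Lam μ K φ (S.pi μ x (T.xi μ (Q.nv μ ψ)))) =
      innerSL ℂ (S.LamR μ Q ψ (oneT μ (T.Rm x) (T.xi μ (Q.nv μ φ)))) := by
    refine ext_cv μ fun η h hh => ?_
    rw [innerSL_apply_apply, innerSL_apply_apply, ← inner_conj_symm, C0b_lhs μ S Q,
      ← inner_conj_symm (S.LamR μ Q ψ (oneT μ (T.Rm x) (T.xi μ (Q.nv μ φ)))), C0b_rhs μ S Q]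
    congr 1
    congr 1
    funext s
    rw [C0b_F_eq μ S Q φ ψ x η s]
  refine ext_inner_right ℂ fun w => ?_
  exact congrArg (fun Z : Lp K 2 μ →L[ℂ] ℂ => Z w) h1

end

end Pool.Agent.AbCoc
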