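import Pool.Agent.Lib_MP_418a80_un.UnC0b

/-! # C-f, C-g: right irreducibility; the vectors `ξ(f)` -/

set_option autoImplicit false
set_option linter.unusedVariables false
set_option linter.unusedSectionVars false

open MeasureTheory Topology Filter CompactlySupported
open scoped ENNReal NNReal

namespace Pool.Agent.AbCoc

universe u v w z

section
variable {A : Type u} [CStarAlgebra A] {K : Type v} [NormedAddCommGroup K]
  [InnerProductSpace ℂ K] [CompleteSpace K]

private theorem rm_adj_aux (T : TrAlg A K) (a : A) (ξ η : K) :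
    inner ℂ (T.Rm a ξ) η = inner ℂ ξ (T.Rm (star a) η) := by
  refine T.dense.induction_on (p := fun ξ => inner ℂ (T.Rm a ξ) η
    = inner ℂ ξ (T.Rm (star a) η)) ξ ?_ ?_
  · exact isClosed_eq ((T.Rm a).continuous.inner continuous_const)
      (continuous_id.inner continuous_const)
  intro b
  refine T.dense.induction_on (p := fun η => inner ℂ (T.Rm a (T.ι b)) η
    = inner ℂ (T.ι b) (T.Rm (star a) η)) η ?_ ?_
  · exact isClosed_eq (continuous_const.inner continuous_id)
      (continuous_const.inner (T.Rm (star a)).continuous)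
  intro c
  rw [T.Rm_ι, T.Rm_ι, T.right]

private theorem rm_star_aux (T : TrAlg A K) (a : A) : T.Rm (star a) = star (T.Rm a) := by
  rw [ContinuousLinearMap.star_eq_adjoint, ContinuousLinearMap.eq_adjoint_iff]
  intro ξ η
  rw [rm_adj_aux, star_star]

private theorem exists_seq_aux (T : TrAlg A K) (ξ : K) :
    ∃ x : ℕ → A, Tendsto (fun n => T.ι (x n)) atTop (𝓝 ξ) := by
  obtain ⟨u, hu, hu2⟩ := mem_closure_iff_seq_limit.1 (T.dense ξ)
  choose x hx using hu
  refine ⟨x, ?_⟩
  have h : (fun n => T.ι (x n)) = u := funext hx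
  rw [h]
  exact hu2

/-- if `c ι1` is the limit of `ι x_n`, then `c* ι1` is the limit of `ι x_n*` -/
private theorem star_lim_aux (T : TrAlg A K) (c : K →L[ℂ] K)
    (hc : ∀ a : A, inner ℂ (c (T.ι a)) (T.ι 1) = inner ℂ (c (T.ι 1)) (T.ι (star a)))
    {x : ℕ → A} (hx : Tendsto (fun n => T.ι (x n)) atTop (𝓝 (c (T.ι 1)))) :
    Tendsto (fun n => T.ι (star (x n))) atTop (𝓝 (star c (T.ι 1))) := by
  have h1 : CauchySeq fun n => T.ι (star (x n)) := by
    rw [Metric.cauchySeq_iff]
    intro ε hε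
    obtain ⟨N, hN⟩ := Metric.cauchySeq_iff.1 hx.cauchySeq ε hε
    refine ⟨N, fun m hm n hn => ?_⟩
    have h2 := hN m hm n hn
    rw [dist_eq_norm, ← map_sub, ← star_sub, T.norm_star, map_sub, ← dist_eq_norm]
    exact h2
  obtain ⟨z, hz⟩ := cauchySeq_tendsto_of_complete h1
  have h3 : z = star c (T.ι 1) := by
    refine ext_inner_left ℂ fun ξ => ?_
    refine T.dense.induction_on
      (p := fun ξ => inner ℂ ξ z = inner ℂ ξ (star c (T.ι 1))) ξ ?_ ?_
    · exact isClosed_eq (continuous_id.inner continuous_const)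
        (continuous_id.inner continuous_const)
    intro a
    have e1 : Tendsto (fun n => inner ℂ (T.ι a) (T.ι (star (x n)))) atTop
        (𝓝 (inner ℂ (T.ι a) z)) := tendsto_const_nhds.inner hz
    have e2 : Tendsto (fun n => inner ℂ (T.ι a) (T.ι (star (x n)))) atTop
        (𝓝 (inner ℂ (c (T.ι 1)) (T.ι (star a)))) := by
      have e3 : Tendsto (fun n => inner ℂ (T.ι (x n)) (T.ι (star a))) atTop
          (𝓝 (inner ℂ (c (T.ι 1)) (T.ι (star a)))) := hx.inner tendsto_const_nhds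
      refine e3.congr fun n => ?_
      rw [T.tr a (star (x n)), star_star]
    rw [tendsto_nhds_unique e1 e2, ← hc, ContinuousLinearMap.star_eq_adjoint,
      ContinuousLinearMap.adjoint_inner_right]
  rw [← h3]
  exact hz

private theorem commL_apply_aux (T : TrAlg A K) (c : K →L[ℂ] K) (hc : T.CommL c) (a : A) :
    c (T.ι a) = T.Lm a (c (T.ι 1)) := by
  have h := congrArg (fun Z : K →L[ℂ] K => Z (T.ι 1)) (hc a)
  change c (T.Lm a (T.ι 1)) = T.Lm a (c (T.ι 1)) at h
  rwa [T.Lm_apply_one] at h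

private theorem commR_apply_aux (T : TrAlg A K) (d : K →L[ℂ] K)
    (hd : ∀ a : A, d * T.Rm a = T.Rm a * d) (a : A) :
    d (T.ι a) = T.Rm a (d (T.ι 1)) := by
  have h := congrArg (fun Z : K →L[ℂ] K => Z (T.ι 1)) (hd a)
  change d (T.Rm a (T.ι 1)) = T.Rm a (d (T.ι 1)) at h
  rwa [T.Rm_ι, one_mul] at h

private theorem commR_star_aux (T : TrAlg A K) (d : K →L[ℂ] K)
    (hd : ∀ a : A, d * T.Rm a = T.Rm a * d) (a : A) :
    star d * T.Rm a = T.Rm a * star d := by
  have h1 := congrArg Star.star (hd (star a))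
  rw [star_mul, star_mul, ← rm_star_aux, star_star] at h1
  exact h1.symm

/-- the commutation theorem: an operator commuting with the right multiplications commutes with
every operator commuting with the left multiplications. [For `c` in the commutant of `L_A`:
`c* ι1 = J c ι1`; for `d` in the commutant of `R_A`: `d* ι1 = J d ι1`, where `J ιa = ι(a*)`.] -/
theorem TrAlg.comm_theorem (T : TrAlg A K) (c d : K →L[ℂ] K) (hc : T.CommL c)
    (hd : ∀ a : A, d * T.Rm a = T.Rm a * d) : c * d = d * c := by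
  obtain ⟨x, hx⟩ := exists_seq_aux T (c (T.ι 1))
  obtain ⟨y, hy⟩ := exists_seq_aux T (d (T.ι 1))
  have hx' : Tendsto (fun n => T.ι (star (x n))) atTop (𝓝 (star c (T.ι 1))) := by
    refine star_lim_aux T c (fun a => ?_) hx
    rw [commL_apply_aux T c hc a, T.Lm_adj, T.Lm_apply_one]
  have hy' : Tendsto (fun n => T.ι (star (y n))) atTop (𝓝 (star d (T.ι 1))) := by
    refine star_lim_aux T d (fun a => ?_) hy
    rw [commR_apply_aux T d hd a, rm_adj_aux, T.Rm_ι, one_mul]
  refine T.Lm_ext fun a => ?_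
  refine ext_inner_right ℂ fun ξ => ?_
  refine T.dense.induction_on (p := fun ξ => inner ℂ ((c * d) (T.ι a)) ξ
    = inner ℂ ((d * c) (T.ι a)) ξ) ξ ?_ ?_
  · exact isClosed_eq (continuous_const.inner continuous_id)
      (continuous_const.inner continuous_id)
  intro b
  change inner ℂ (c (d (T.ι a))) (T.ι b) = inner ℂ (d (c (T.ι a))) (T.ι b)
  have f1 : inner ℂ (c (d (T.ι a))) (T.ι b)
      = inner ℂ (T.Rm a (d (T.ι 1))) (T.Lm b (star c (T.ι 1))) := by
    rw [← commL_apply_aux T (star c) hc.star b, ← commR_apply_aux T d hd a,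
      ContinuousLinearMap.star_eq_adjoint, ContinuousLinearMap.adjoint_inner_right]
  have f2 : inner ℂ (d (c (T.ι a))) (T.ι b)
      = inner ℂ (T.Lm a (c (T.ι 1))) (T.Rm b (star d (T.ι 1))) := by
    rw [← commR_apply_aux T (star d) (commR_star_aux T d hd) b, ← commL_apply_aux T c hc a,
      ContinuousLinearMap.star_eq_adjoint, ContinuousLinearMap.adjoint_inner_right]
  rw [f1, f2]
  have e1 : Tendsto (fun n => inner ℂ (T.Rm a (T.ι (y n))) (T.Lm b (T.ι (star (x n))))) atTop
      (𝓝 (inner ℂ (T.Rm a (d (T.ι 1))) (T.Lm b (star c (T.ι 1))))) :=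
    (((T.Rm a).continuous.tendsto _).comp hy).inner (((T.Lm b).continuous.tendsto _).comp hx')
  have e2 : Tendsto (fun n => inner ℂ (T.Lm a (T.ι (x n))) (T.Rm b (T.ι (star (y n))))) atTop
      (𝓝 (inner ℂ (T.Lm a (c (T.ι 1))) (T.Rm b (star d (T.ι 1))))) :=
    (((T.Lm a).continuous.tendsto _).comp hx).inner (((T.Rm b).continuous.tendsto _).comp hy')
  refine tendsto_nhds_unique e1 (e2.congr fun n => ?_)
  rw [T.Rm_ι, T.Lm_ι, T.Lm_ι, T.Rm_ι, T.inner_eq_τ, T.inner_eq_τ, star_mul, star_mul,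
    mul_assoc (star (x n)), T.τ_mul_comm (star (x n))]
  congr 1
  simp only [mul_assoc]

variable {G : Type w} [Group G] [TopologicalSpace G] [IsTopologicalGroup G]
  [SecondCountableTopology G] [LocallyCompactSpace G] [MeasurableSpace G] [BorelSpace G]
  (μ : Measure G) [μ.IsHaarMeasure] {T : TrAlg A K} (S : TrAct G T)
  {V : Type z} [NormedAddCommGroup V] [NormedSpace ℝ V] [FiniteDimensional ℝ V] (Q : QMap G V)

/-- a bounded operator commuting with all bounded operators is scalar -/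
private theorem scalar_aux (T : TrAlg A K) (X : K →L[ℂ] K)
    (hX : ∀ c : K →L[ℂ] K, c * X = X * c) :
    ∃ r : ℂ, X = r • (1 : K →L[ℂ] K) := by
  refine ⟨inner ℂ (T.ι 1) (X (T.ι 1)), ?_⟩
  ext1 ξ
  have h := congrArg (fun Z : K →L[ℂ] K => Z (T.ι 1))
    (hX ((innerSL ℂ (T.ι 1)).smulRight ξ))
  change (inner ℂ (T.ι 1) (X (T.ι 1)) : ℂ) • ξ = X ((inner ℂ (T.ι 1) (T.ι 1) : ℂ) • ξ) at h
  rw [inner_self_eq_norm_sq_to_K, T.norm_one] at h
  have h2 : (((1 : ℝ) : ℂ) ^ 2 : ℂ) • ξ = ξ := by simp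
  have h3 : X (((1 : ℝ) : ℂ) ^ 2 • ξ) = X ξ := by rw [h2]
  exact (h.trans h3).symm

/-- right irreducibility: the operators of the commutant of the crossed product which commute with
all `1 ⊗ R_a` are scalar. [`commute_oneT_iff` and `comm_theorem`: `X` commutes with `1 ⊗ c`,
`c` in the commutant of `L_A`; `commutes_of_SO`: `X` commutes with every field, so
`X = 1 ⊗ c'` (`exists_oneT_of_comm`) with `c'` scalar.] -/
theorem TrAct.right_irred (hSO : S.SO μ Set.univ) (X : Lp K 2 μ →L[ℂ] Lp K 2 μ)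
    (hX : X ∈ Set.centralizer (S.NN μ))
    (hR : ∀ a : A, X * oneT μ (T.Rm a) = oneT μ (T.Rm a) * X) :
    ∃ c : ℂ, X = c • (1 : Lp K 2 μ →L[ℂ] Lp K 2 μ) := by
  have hgen : ∀ g ∈ S.gens μ, X * g = g * X := by
    intro g hg
    have h1 : g ∈ S.NN μ := Set.subset_centralizer_centralizer hg
    exact ((Set.mem_centralizer_iff.1 hX) g h1).symm
  -- `X` commutes with `1 ⊗ c`
  have h1 : ∀ c : K →L[ℂ] K, T.CommL c → X * oneT μ c = oneT μ c * X := by
    intro c hc
    refine ((commute_oneT_iff μ c X).2 fun χ χ' => ?_).symm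
    refine T.comm_theorem c _ hc fun a => ?_
    exact ((commute_oneT_iff μ (T.Rm a) X).1 (hR a).symm χ χ').symm
  have h2 : ∀ Φ : Field G K K, X * Φ.op μ = Φ.op μ * X :=
    S.commutes_of_SO μ Set.univ hSO X h1 fun x _ => hgen _ (Or.inl ⟨x, rfl⟩)
  obtain ⟨c, hc⟩ := exists_oneT_of_comm μ X
    (fun f ζ => congrArg (fun Z : Lp K 2 μ →L[ℂ] Lp K 2 μ => Z ζ) (h2 (scal K f)))
    (fun s ζ => congrArg (fun Z : Lp K 2 μ →L[ℂ] Lp K 2 μ => Z ζ) (hgen _ (Or.inr ⟨s, rfl⟩)))
  obtain ⟨b, hb, hκ, hbne⟩ := exists_bump μ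
  have h3 : ∀ c' : K →L[ℂ] K, c' * c = c * c' := by
    intro c'
    have h4 : oneT μ c' * X = X * oneT μ c' := by
      rw [oneT_eq_op]
      exact (h2 (constField G c')).symm
    have h5 := (commute_oneT_iff μ c' X).1 h4 (cv μ b hb) (cv μ b hb)
    have h6 : (tensL μ K (cv μ b hb)).adjoint.comp (X.comp (tensL μ K (cv μ b hb)))
        = ((‖cv μ b hb‖ : ℂ) ^ 2) • c := by
      ext1 ξ
      change (tensL μ K (cv μ b hb)).adjoint (X (tens μ ξ (cv μ b hb))) = _
      rw [hc, oneT_tensW, tensL_adjoint_tens]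
      rfl
    rw [h6, mul_smul_comm, smul_mul_assoc] at h5
    have h7 : ((‖cv μ b hb‖ : ℂ) ^ 2) ≠ 0 := by
      have := norm_ne_zero_iff.2 hbne
      exact_mod_cast pow_ne_zero 2 this
    exact smul_right_injective _ h7 h5
  obtain ⟨r, hr⟩ := scalar_aux T c h3
  refine ⟨r, ?_⟩
  rw [hc, hr]
  refine ext_tens μ fun ξ χ => ?_
  rw [oneT_tensW]
  change tens μ (r • ξ) χ = r • tens μ ξ χ
  exact map_smul (tensL μ K χ) r ξ

end

end Pool.Agent.AbCoc
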