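import Pool.Agent.Lib_MP_418a80_un.Un1

/-! # G1: geometry of `U`, `q` -/

set_option autoImplicit false
set_option linter.unusedVariables false
set_option linter.unusedSectionVars false

open MeasureTheory Topology Filter CompactlySupported
open scoped ENNReal NNReal

namespace Pool.Agent.AbCoc

universe u v w z

variable {G : Type w} [Group G] [TopologicalSpace G] [IsTopologicalGroup G]
  [SecondCountableTopology G] [LocallyCompactSpace G] [MeasurableSpace G] [BorelSpace G]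
  (μ : Measure G) [μ.IsHaarMeasure]
  {V : Type z} [NormedAddCommGroup V] [NormedSpace ℝ V] (Q : QMap G V)

theorem QMap.q_one : Q.q 1 = 0 := by
  have h := Q.map_mul 1 Q.U.one_mem 1 Q.U.one_mem
  rw [mul_one] at h
  exact left_eq_add.1 h

theorem QMap.q_inv {u : G} (hu : u ∈ Q.U) : Q.q u⁻¹ = -Q.q u := by
  have h := Q.map_mul u hu u⁻¹ (Q.U.inv_mem hu)
  rw [mul_inv_cancel, Q.q_one] at h
  exact (neg_eq_of_add_eq_zero_right h.symm).symm

variable [FiniteDimensional ℝ V]

omit [SecondCountableTopology G] [LocallyCompactSpace G] [MeasurableSpace G] [BorelSpace G]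
  [FiniteDimensional ℝ V] in
private theorem QMap.closedU : IsClosed (Q.U : Set G) := Q.U.isClosed_of_isOpen Q.isOpen

private theorem QMap.compactK : IsCompact {t | t ∈ Q.U ∧ Q.q t ∈ Metric.closedBall (0 : V) 1} := by
  have : ProperSpace V := FiniteDimensional.proper ℝ V
  exact Q.proper _ (isCompact_closedBall 0 1)

private theorem QMap.closedK : IsClosed {t | t ∈ Q.U ∧ Q.q t ∈ Metric.closedBall (0 : V) 1} :=
  Q.closedU.inter (Metric.isClosed_closedBall.preimage Q.cont)

private theorem QMap.measK_lt :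
    μ {t | t ∈ Q.U ∧ Q.q t ∈ Metric.closedBall (0 : V) 1} < ∞ :=
  Q.compactK.measure_lt_top

private theorem QMap.measK_pos :
    0 < μ {t | t ∈ Q.U ∧ Q.q t ∈ Metric.closedBall (0 : V) 1} := by
  have h1 : IsOpen {t | t ∈ Q.U ∧ Q.q t ∈ Metric.ball (0 : V) 1} :=
    Q.isOpen.inter (Metric.isOpen_ball.preimage Q.cont)
  have h2 : ({t | t ∈ Q.U ∧ Q.q t ∈ Metric.ball (0 : V) 1}).Nonempty :=
    ⟨1, Q.U.one_mem, by rw [Q.q_one]; exact Metric.mem_ball_self one_pos⟩
  exact (h1.measure_pos μ h2).trans_le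
    (measure_mono fun t ht => ⟨ht.1, Metric.ball_subset_closedBall ht.2⟩)

private theorem QMap.modU {u : G} (hu : u ∈ Q.U) : Measure.modularCharacterFun u = 1 := by
  borelize G
  let μ : Measure G := Measure.haar
  set K : Set G := {t | t ∈ Q.U ∧ Q.q t ∈ Metric.closedBall (0 : V) 1} with hK
  have h0 : (fun t => t * u) ⁻¹' K = (fun t => u * t) ⁻¹' K := by
    ext t
    simp only [hK, Set.mem_preimage, Set.mem_ofPred_eq]
    rw [Q.U.mul_mem_cancel_right hu, Q.U.mul_mem_cancel_left hu]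
    constructor
    · rintro ⟨h1, h2⟩
      refine ⟨h1, ?_⟩
      rw [Q.map_mul u hu t h1, add_comm, ← Q.map_mul t h1 u hu]
      exact h2
    · rintro ⟨h1, h2⟩
      refine ⟨h1, ?_⟩
      rw [Q.map_mul t h1 u hu, add_comm, ← Q.map_mul u hu t h1]
      exact h2
  have h1 : μ ((fun t => u * t) ⁻¹' K) = μ K := measure_preimage_mul μ u K
  have h2 : (μ.map (· * u)) K = μ ((fun t => t * u) ⁻¹' K) :=
    Measure.map_apply (measurable_mul_const u) Q.closedK.measurableSet
  rw [map_mulRight μ u, h0, h1] at h2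
  have h3 : ((Measure.modularCharacterFun u : ℝ≥0) : ℝ≥0∞) * μ K = 1 * μ K := by
    rw [one_mul]
    exact h2
  have h4 := (ENNReal.mul_left_inj (Q.measK_pos μ).ne' (Q.measK_lt μ).ne).1 h3
  exact_mod_cast h4

/-- `U` is unimodular and `Δ = 1` on `U` (right translation invariance of `∫ φ(q t) dt`) -/
theorem QMap.dm_eq_one {u : G} (hu : u ∈ Q.U) : dm u = 1 := by
  unfold dm
  rw [Q.modU hu]
  rfl

/-- `q(L) = V` for `L = U ∩ ⋂ hUh⁻¹` -/
theorem QMap.exists_in_L (D : Finset G) (x : V) :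
    ∃ u ∈ Q.U, (∀ h ∈ D, h⁻¹ * u * h ∈ Q.U) ∧ Q.q u = x := by
  let L : Set G := {u | u ∈ Q.U ∧ ∀ h ∈ D, h⁻¹ * u * h ∈ Q.U}
  have hLo : IsOpen L := by
    have h1 : L = (Q.U : Set G) ∩ ⋂ h ∈ D, (fun u => h⁻¹ * u * h) ⁻¹' (Q.U : Set G) := by
      ext u
      simp [L]
    rw [h1]
    refine Q.isOpen.inter (isOpen_biInter_finset fun h _ => Q.isOpen.preimage ?_)
    exact (continuous_const.mul continuous_id).mul continuous_const
  let W : AddSubgroup V :=
    { carrier := Q.q '' L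
      zero_mem' := ⟨1, ⟨Q.U.one_mem, fun h _ => by simp [Q.U.one_mem]⟩, Q.q_one⟩
      add_mem' := by
        rintro _ _ ⟨u, hu, rfl⟩ ⟨v, hv, rfl⟩
        refine ⟨u * v, ⟨Q.U.mul_mem hu.1 hv.1, fun h hh => ?_⟩, Q.map_mul u hu.1 v hv.1⟩
        have h1 : h⁻¹ * (u * v) * h = (h⁻¹ * u * h) * (h⁻¹ * v * h) := by group
        rw [h1]
        exact Q.U.mul_mem (hu.2 h hh) (hv.2 h hh)
      neg_mem' := by
        rintro _ ⟨u, hu, rfl⟩
        refine ⟨u⁻¹, ⟨Q.U.inv_mem hu.1, fun h hh => ?_⟩, Q.q_inv hu.1⟩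
        have h1 : h⁻¹ * u⁻¹ * h = (h⁻¹ * u * h)⁻¹ := by group
        rw [h1]
        exact Q.U.inv_mem (hu.2 h hh) }
  have hWo : IsOpen (W : Set V) := Q.isOpenMap L hLo fun u hu => hu.1
  have hWc : IsClopen (W : Set V) := ⟨W.isClosed_of_isOpen hWo, hWo⟩
  have h2 : (W : Set V) = Set.univ := hWc.eq_univ ⟨0, W.zero_mem⟩
  have h3 : x ∈ (W : Set V) := by rw [h2]; trivial
  obtain ⟨u, hu, hx⟩ := h3
  exact ⟨u, hu.1, hu.2, hx⟩

/-- the push forward under `q` of `μ` restricted to an open subset `L ⊆ U` that is a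
translation invariant set -/
private theorem QMap.isHaar_map [MeasurableSpace V] [BorelSpace V] (L : Subgroup G)
    (hLo : IsOpen (L : Set G)) (hLU : ∀ u ∈ L, u ∈ Q.U) (hLs : ∀ x : V, ∃ u ∈ L, Q.q u = x) :
    ((μ.restrict (L : Set G)).map Q.q).IsAddHaarMeasure := by
  have hLm : MeasurableSet (L : Set G) := hLo.measurableSet
  have hqm : Measurable Q.q := Q.cont.measurable
  refine { lt_top_of_isCompact := ?_, map_add_left_eq_self := ?_, open_pos := ?_ }
  · intro B hB
    rw [Measure.map_apply hqm hB.measurableSet,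
      Measure.restrict_apply (hqm hB.measurableSet)]
    refine lt_of_le_of_lt (measure_mono ?_) (Q.proper B hB).measure_lt_top
    intro t ht
    exact ⟨hLU t ht.2, ht.1⟩
  · intro x
    obtain ⟨u, hu, hx⟩ := hLs x
    ext A hA
    rw [Measure.map_apply (measurable_const_add x) hA, Measure.map_apply hqm
      (measurable_const_add x hA), Measure.restrict_apply (hqm (measurable_const_add x hA)),
      Measure.map_apply hqm hA, Measure.restrict_apply (hqm hA),
      ← measure_preimage_mul μ u (Q.q ⁻¹' A ∩ (L : Set G))]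
    congr 1
    ext t
    simp only [Set.mem_inter_iff, Set.mem_preimage, SetLike.mem_coe]
    rw [L.mul_mem_cancel_left hu]
    constructor
    · rintro ⟨h1, h2⟩
      refine ⟨?_, h2⟩
      rw [Q.map_mul u (hLU u hu) t (hLU t h2), hx]
      exact h1
    · rintro ⟨h1, h2⟩
      refine ⟨?_, h2⟩
      rw [Q.map_mul u (hLU u hu) t (hLU t h2), hx] at h1
      exact h1
  · intro O hO hne
    obtain ⟨x, hx⟩ := hne
    obtain ⟨u, hu, hux⟩ := hLs x
    rw [Measure.map_apply hqm hO.measurableSet,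
      Measure.restrict_apply (hqm hO.measurableSet)]
    refine (IsOpen.measure_pos μ ((hO.preimage Q.cont).inter hLo) ⟨u, ?_, hu⟩).ne'
    rw [Set.mem_preimage, hux]
    exact hx

/-- the constant `m_h` (uniqueness of the Haar measure of `V`) -/
theorem QMap.exists_mh (h : G) : ∃ m : ℝ, 0 < m ∧ ∀ F : C_c(V, ℂ),
    ∫ u in {u | u ∈ Q.U ∧ h⁻¹ * u * h ∈ Q.U}, F (Q.q u) ∂μ = m * ∫ u in (Q.U : Set G), F (Q.q u) ∂μ := by
  borelize V
  let L : Subgroup G :=
    { carrier := {u | u ∈ Q.U ∧ h⁻¹ * u * h ∈ Q.U}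
      one_mem' := ⟨Q.U.one_mem, by simp [Q.U.one_mem]⟩
      mul_mem' := by
        rintro u v ⟨hu, hu'⟩ ⟨hv, hv'⟩
        refine ⟨Q.U.mul_mem hu hv, ?_⟩
        have h1 : h⁻¹ * (u * v) * h = (h⁻¹ * u * h) * (h⁻¹ * v * h) := by group
        rw [h1]
        exact Q.U.mul_mem hu' hv'
      inv_mem' := by
        rintro u ⟨hu, hu'⟩
        refine ⟨Q.U.inv_mem hu, ?_⟩
        have h1 : h⁻¹ * u⁻¹ * h = (h⁻¹ * u * h)⁻¹ := by group
        rw [h1]
        exact Q.U.inv_mem hu' }
  have hLo : IsOpen (L : Set G) := by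
    have h1 : (L : Set G) = (Q.U : Set G) ∩ (fun u => h⁻¹ * u * h) ⁻¹' (Q.U : Set G) := rfl
    rw [h1]
    exact Q.isOpen.inter (Q.isOpen.preimage
      ((continuous_const.mul continuous_id).mul continuous_const))
  have hLs : ∀ x : V, ∃ u ∈ L, Q.q u = x := by
    intro x
    obtain ⟨u, hu, hu', hx⟩ := Q.exists_in_L {h} x
    exact ⟨u, ⟨hu, hu' h (Finset.mem_singleton_self h)⟩, hx⟩
  have hL := Q.isHaar_map μ L hLo (fun u hu => hu.1) hLs
  have hU := Q.isHaar_map μ Q.U Q.isOpen (fun u hu => hu)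
    (fun x => by obtain ⟨u, hu, hx⟩ := Q.surj x; exact ⟨u, hu, hx⟩)
  have h1 := Measure.isAddLeftInvariant_eq_smul ((μ.restrict (L : Set G)).map Q.q)
    ((μ.restrict (Q.U : Set G)).map Q.q)
  set c := ((μ.restrict (L : Set G)).map Q.q).addHaarScalarFactor
    ((μ.restrict (Q.U : Set G)).map Q.q) with hc
  have hc0 : 0 < c := Measure.addHaarScalarFactor_pos_of_isAddHaarMeasure _ _
  refine ⟨(c : ℝ), by exact_mod_cast hc0, fun F => ?_⟩
  have hqm : Measurable Q.q := Q.cont.measurable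
  have hF : ∀ (m : Measure V), AEStronglyMeasurable F m :=
    fun m => F.continuous.aestronglyMeasurable
  have h2 : ∫ u in (L : Set G), F (Q.q u) ∂μ = ∫ x, F x ∂((μ.restrict (L : Set G)).map Q.q) :=
    (integral_map hqm.aemeasurable (hF _)).symm
  have h3 : ∫ u in (Q.U : Set G), F (Q.q u) ∂μ
      = ∫ x, F x ∂((μ.restrict (Q.U : Set G)).map Q.q) :=
    (integral_map hqm.aemeasurable (hF _)).symm
  change ∫ u in (L : Set G), F (Q.q u) ∂μ = _
  rw [h2, h3, h1, integral_smul_nnreal_measure]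
  rfl

private theorem QMap.map_inv_restrict :
    (μ.restrict (Q.U : Set G)).map (fun t => t⁻¹) = μ.restrict (Q.U : Set G) := by
  set K : Set G := {t | t ∈ Q.U ∧ Q.q t ∈ Metric.closedBall (0 : V) 1} with hK
  have hKm : MeasurableSet K := Q.closedK.measurableSet
  have hUm : MeasurableSet (Q.U : Set G) := Q.isOpen.measurableSet
  ext A hA
  rw [Measure.map_apply measurable_inv hA, Measure.restrict_apply (measurable_inv hA),
    Measure.restrict_apply hA]
  set B : Set G := A ∩ (Q.U : Set G) with hB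
  have hBm : MeasurableSet B := hA.inter hUm
  have e1 : (fun t : G => t⁻¹) ⁻¹' A ∩ (Q.U : Set G) = (fun t : G => t⁻¹) ⁻¹' B := by
    ext t
    simp [hB]
  rw [e1]
  -- the two integrals
  let g : G → ℝ≥0∞ := K.indicator 1
  let f : G → ℝ≥0∞ := B.indicator 1
  have hg : Measurable g := measurable_one.indicator hKm
  have hf : Measurable f := measurable_one.indicator hBm
  have i1 : ∫⁻ t, g t ∂μ = μ K := by
    rw [lintegral_indicator_one hKm]
  have i2 : ∫⁻ t, f t ∂μ = μ B := by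
    rw [lintegral_indicator_one hBm]
  have i3 : ∫⁻ t, f t⁻¹ ∂μ = μ ((fun t : G => t⁻¹) ⁻¹' B) := by
    rw [← lintegral_indicator_one (measurable_inv hBm)]
    rfl
  have i4 : ∀ t ∈ Q.U, ∫⁻ s, g (s * t) ∂μ = ∫⁻ s, g s ∂μ := by
    intro t ht
    have h1 : ∫⁻ s, g s ∂(μ.map (· * t)) = ∫⁻ s, g (s * t) ∂μ :=
      lintegral_map hg (measurable_mul_const t)
    rw [← h1, map_mulRight, Q.modU ht, one_smul]
  have key : (∫⁻ t, g t ∂μ) * (∫⁻ s, f s⁻¹ ∂μ) = (∫⁻ t, f t ∂μ) * (∫⁻ s, g s ∂μ) := by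
    calc (∫⁻ t, g t ∂μ) * (∫⁻ s, f s⁻¹ ∂μ)
        = ∫⁻ t, g t * (∫⁻ s, f s⁻¹ ∂μ) ∂μ := (lintegral_mul_const _ hg).symm
      _ = ∫⁻ t, ∫⁻ s, g t * f (s⁻¹ * t) ∂μ ∂μ := by
          refine lintegral_congr fun t => ?_
          have h1 : ∫⁻ s, f s⁻¹ ∂μ = ∫⁻ s, f (s⁻¹ * t) ∂μ := by
            rw [← lintegral_mul_left_eq_self (fun s => f s⁻¹) t⁻¹]
            refine lintegral_congr fun s => ?_
            congr 1
            group
          rw [h1, ← lintegral_const_mul]
          exact hf.comp (measurable_inv.mul_const t)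
      _ = ∫⁻ s, ∫⁻ t, g t * f (s⁻¹ * t) ∂μ ∂μ := by
          refine lintegral_lintegral_swap ?_
          refine Measurable.aemeasurable ?_
          exact (hg.comp measurable_fst).mul
            (hf.comp ((measurable_snd.inv).mul measurable_fst))
      _ = ∫⁻ s, ∫⁻ t, g (s * t) * f t ∂μ ∂μ := by
          refine lintegral_congr fun s => ?_
          rw [← lintegral_mul_left_eq_self (fun t => g t * f (s⁻¹ * t)) s]
          refine lintegral_congr fun t => ?_
          congr 2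
          group
      _ = ∫⁻ t, ∫⁻ s, g (s * t) * f t ∂μ ∂μ := by
          refine lintegral_lintegral_swap ?_
          refine Measurable.aemeasurable ?_
          exact (hg.comp (measurable_fst.mul measurable_snd)).mul (hf.comp measurable_snd)
      _ = ∫⁻ t, f t * (∫⁻ s, g s ∂μ) ∂μ := by
          refine lintegral_congr fun t => ?_
          have h7 : ∫⁻ s, g (s * t) * f t ∂μ = (∫⁻ s, g (s * t) ∂μ) * f t :=
            lintegral_mul_const (f t) (hg.comp (measurable_mul_const t))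
          rw [h7]
          by_cases ht : t ∈ Q.U
          · rw [i4 t ht, mul_comm]
          · have h1 : f t = 0 := Set.indicator_of_notMem (fun h => ht h.2) _
            rw [h1, mul_zero, zero_mul]
      _ = (∫⁻ t, f t ∂μ) * (∫⁻ s, g s ∂μ) := lintegral_mul_const _ hf
  rw [i1, i2, i3, mul_comm] at key
  exact (ENNReal.mul_left_inj (Q.measK_pos μ).ne' (Q.measK_lt μ).ne).1 key

/-- inversion invariance on `U` -/
theorem QMap.integral_inv (F : G → ℂ) (hF : ∀ g, g ∉ Q.U → F g = 0) :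
    ∫ u, F u⁻¹ ∂μ = ∫ u, F u ∂μ := by
  have h1 : ∫ u in (Q.U : Set G), F u⁻¹ ∂μ = ∫ u, F u⁻¹ ∂μ :=
    setIntegral_eq_integral_of_forall_compl_eq_zero fun g hg => hF _ fun h => hg (by
      have := Q.U.inv_mem h
      rwa [inv_inv] at this)
  have h2 : ∫ u in (Q.U : Set G), F u ∂μ = ∫ u, F u ∂μ :=
    setIntegral_eq_integral_of_forall_compl_eq_zero fun g hg => hF _ hg
  rw [← h1, ← h2]
  have h3 := integral_map_equiv (μ := μ.restrict (Q.U : Set G)) (MeasurableEquiv.inv G) F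
  have h4 : Measure.map (MeasurableEquiv.inv G) (μ.restrict (Q.U : Set G))
      = μ.restrict (Q.U : Set G) := Q.map_inv_restrict μ
  rw [h4] at h3
  exact h3.symm

/-- right invariance on `U` -/
theorem QMap.integral_mul_right (F : G → ℂ) {u : G} (hu : u ∈ Q.U) :
    ∫ t, F (t * u) ∂μ = ∫ t, F t ∂μ := by
  have h3 := integral_map_equiv (μ := μ) (MeasurableEquiv.mulRight u) F
  have h4 : Measure.map (MeasurableEquiv.mulRight u) μ = μ := by
    have h5 := map_mulRight μ u
    rw [Q.modU hu, one_smul] at h5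
    exact h5
  rw [h4] at h3
  exact h3.symm

end Pool.Agent.AbCoc
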