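import Pool.Agent.Lib_MP_418a80_un.UnA

/-! # W1: the operators `λ(φ)`, `φ` nice -/

set_option autoImplicit false
set_option linter.unusedVariables false
set_option linter.unusedSectionVars false

open MeasureTheory Topology Filter CompactlySupported
open scoped ENNReal NNReal

namespace Pool.Agent.AbCoc

universe u v w z

section
variable {A : Type u} [CStarAlgebra A] {K : Type v} [NormedAddCommGroup K]
  [InnerProductSpace ℂ K] [CompleteSpace K]
variable {G : Type w} [Group G] [TopologicalSpace G] [IsTopologicalGroup G]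
  [SecondCountableTopology G] [LocallyCompactSpace G] [MeasurableSpace G] [BorelSpace G]
  (μ : Measure G) [μ.IsHaarMeasure] {T : TrAlg A K} (S : TrAct G T)
  {V : Type z} [NormedAddCommGroup V] [NormedSpace ℝ V] [FiniteDimensional ℝ V] (Q : QMap G V)

/-- the involution `φ*(x) = conj φ(-x)` -/
noncomputable def cinv (φ : C_c(V, ℂ)) : C_c(V, ℂ) where
  toFun x := starRingEnd ℂ (φ (-x))
  continuous_toFun := by
    exact Complex.continuous_conj.comp (φ.continuous.comp continuous_neg)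
  hasCompactSupport' := by
    have h1 : HasCompactSupport fun x => φ (-x) :=
      φ.hasCompactSupport.comp_homeomorph (Homeomorph.neg V)
    exact h1.comp_left (g := starRingEnd ℂ) (map_zero _)

theorem cinv_apply (φ : C_c(V, ℂ)) (x : V) : cinv φ x = starRingEnd ℂ (φ (-x)) := rfl

theorem QMap.nv_ae (φ : C_c(V, ℂ)) : Q.nv μ φ =ᵐ[μ] Q.liftFun φ := cv_ae μ _ _

/-- the integrand of `λ(φ)` is integrable -/
private theorem QMap.UnW1_int {E : Type v} [NormedAddCommGroup E] [InnerProductSpace ℂ E]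
    (φ : C_c(V, ℂ)) (z : Lp E 2 μ) :
    Integrable (fun v => Q.liftFun φ v • (lam μ E).U v z) μ :=
  ((Q.liftFun_cont φ).smul ((lam μ E).cont z)).integrable_of_hasCompactSupport
    ((Q.liftFun_supp φ).smul_right)

/-- operators commuting with `λ_u`, `u ∈ U`, commute with `λ(φ)` -/
private theorem QMap.UnW1_comm {E : Type v} [NormedAddCommGroup E] [InnerProductSpace ℂ E]
    [CompleteSpace E] {F : Type v} [NormedAddCommGroup F] [InnerProductSpace ℂ F]
    [CompleteSpace F] (φ : C_c(V, ℂ)) (c : Lp E 2 μ →L[ℂ] Lp F 2 μ) (z : Lp E 2 μ)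
    (hc : ∀ u ∈ Q.U, c ((lam μ E).U u z) = (lam μ F).U u (c z)) :
    c (Q.Lam μ E φ z) = Q.Lam μ F φ (c z) := by
  rw [Q.Lam_apply μ, Q.Lam_apply μ, ← c.integral_comp_comm (Q.UnW1_int μ φ z)]
  refine integral_congr_ae (Filter.Eventually.of_forall fun v => ?_)
  change c (Q.liftFun φ v • (lam μ E).U v z) = Q.liftFun φ v • (lam μ F).U v (c z)
  rw [map_smul]
  by_cases hv : v ∈ Q.U
  · rw [hc v hv]
  · have h1 : Q.liftFun φ v = 0 := by
      unfold QMap.liftFun
      rw [if_neg hv]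
    rw [h1, zero_smul, zero_smul]

private theorem QMap.UnW1_inner (φ : C_c(V, ℂ)) (x y : Lp K 2 μ) :
    inner ℂ x (Q.Lam μ K φ y) = ∫ v, Q.liftFun φ v * inner ℂ x ((lam μ K).U v y) ∂μ := by
  rw [Q.Lam_apply μ, ← integral_inner (Q.UnW1_int μ φ y) x]
  refine integral_congr_ae (Filter.Eventually.of_forall fun v => ?_)
  change inner ℂ x (Q.liftFun φ v • (lam μ K).U v y) = _
  rw [inner_smul_right]

private theorem QMap.UnW1_lift_cinv (φ : C_c(V, ℂ)) (v : G) :
    starRingEnd ℂ (Q.liftFun (cinv φ) v) = Q.liftFun φ v⁻¹ := by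
  unfold QMap.liftFun
  by_cases hv : v ∈ Q.U
  · rw [if_pos hv, if_pos (Q.U.inv_mem hv), cinv_apply, Q.q_inv hv, Complex.conj_conj]
  · have hv' : v⁻¹ ∉ Q.U := fun h => hv (by
      have := Q.U.inv_mem h
      rwa [inv_inv] at this)
    rw [if_neg hv, if_neg hv', map_zero]

/-- adjoint -/
theorem QMap.Lam_star (φ : C_c(V, ℂ)) : star (Q.Lam μ K φ) = Q.Lam μ K (cinv φ) := by
  symm
  rw [ContinuousLinearMap.star_eq_adjoint, ContinuousLinearMap.eq_adjoint_iff]
  intro x y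
  rw [Q.UnW1_inner μ φ x y, ← inner_conj_symm, Q.UnW1_inner μ (cinv φ) y x, ← integral_conj]
  have h1 := Q.integral_inv μ (fun v => Q.liftFun φ v * inner ℂ x ((lam μ K).U v y)) (by
    intro g hg
    have h2 : Q.liftFun φ g = 0 := by
      unfold QMap.liftFun
      rw [if_neg hg]
    change Q.liftFun φ g * _ = 0
    rw [h2, zero_mul])
  rw [← h1]
  refine integral_congr_ae (Filter.Eventually.of_forall fun v => ?_)
  change starRingEnd ℂ (Q.liftFun (cinv φ) v * inner ℂ y ((lam μ K).U v x))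
    = Q.liftFun φ v⁻¹ * inner ℂ x ((lam μ K).U v⁻¹ y)
  rw [_root_.map_mul, Q.UnW1_lift_cinv, inner_conj_symm, ← lam_star μ v,
    ContinuousLinearMap.star_eq_adjoint, ContinuousLinearMap.adjoint_inner_right]

/-- `λ(φ)` on elementary tensors -/
theorem QMap.Lam_tens (φ : C_c(V, ℂ)) (η : K) (f : Lp ℂ 2 μ) :
    Q.Lam μ K φ (tens μ η f) = tens μ η (Q.Lam μ ℂ φ f) := by
  rw [Q.Lam_apply μ, Q.Lam_apply μ]
  have h1 : ∫ v, Q.liftFun φ v • (lam μ K).U v (tens μ η f) ∂μ
      = ∫ v, tens μ η (Q.liftFun φ v • (lam μ ℂ).U v f) ∂μ := by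
    refine integral_congr_ae (Filter.Eventually.of_forall fun v => ?_)
    change Q.liftFun φ v • (lam μ K).U v (tens μ η f)
      = tens μ η (Q.liftFun φ v • (lam μ ℂ).U v f)
    rw [lam_tens, map_smul]
  rw [h1]
  have hint : Integrable (fun v => Q.liftFun φ v • (lam μ ℂ).U v f) μ :=
    ((Q.liftFun_cont φ).smul ((lam μ ℂ).cont f)).integrable_of_hasCompactSupport
      ((Q.liftFun_supp φ).smul_right)
  exact (tens μ η).integral_comp_comm hint

theorem QMap.Lam_oneT (φ : C_c(V, ℂ)) (c : K →L[ℂ] K) :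
    Q.Lam μ K φ * oneT μ c = oneT μ c * Q.Lam μ K φ := by
  ext1 z
  exact (Q.UnW1_comm μ φ (oneT μ c) z fun u _ => oneT_lam μ c u z).symm

theorem QMap.Lam_P (φ : C_c(V, ℂ)) (h : G) :
    Q.Lam μ K φ * Q.P μ K h = Q.P μ K h * Q.Lam μ K φ := by
  ext1 z
  exact (Q.UnW1_comm μ φ (Q.P μ K h) z fun u hu =>
    congrArg (fun Z : Lp K 2 μ →L[ℂ] Lp K 2 μ => Z z) (Q.P_lam μ h hu)).symm

theorem QMap.P_nv (φ : C_c(V, ℂ)) : Q.P μ ℂ 1 (Q.nv μ φ) = Q.nv μ φ := by
  apply Lp.ext
  filter_upwards [Q.P_ae μ ℂ 1 (Q.nv μ φ), Q.nv_ae μ φ] with t h1 h2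
  rw [h1, h2, Q.ind_apply, inv_one, mul_one]
  by_cases ht : t ∈ Q.U
  · rw [if_pos ht, one_smul]
  · have h3 : Q.liftFun φ t = 0 := by
      unfold QMap.liftFun
      rw [if_neg ht]
    rw [h3, smul_zero]

end

end Pool.Agent.AbCoc
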